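import Pool.Agent.H41.FT.Der
import Mathlib.Analysis.Calculus.Deriv.MeanValue

/-!
# Monotonicity along coordinate lines
-/

namespace H41FT

open Function

theorem mono_line {φ : P → ℝ} {p : P} {i : Fin 3} {lo hi : ℝ} (h : lo ≤ hi)
    (hS : ∀ t, lo ≤ t → t ≤ hi → Sm φ (update p i t))
    (hD : ∀ t, lo ≤ t → t ≤ hi → 0 ≤ D i φ (update p i t)) :
    φ (update p i lo) ≤ φ (update p i hi) := by
  have hd : ∀ t, lo ≤ t → t ≤ hi →
      HasDerivAt (fun s => φ (update p i s)) (D i φ (update p i t)) t :=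
    fun t h1 h2 => hasDerivAt_line (hS t h1 h2)
  have hm : MonotoneOn (fun s => φ (update p i s)) (Set.Icc lo hi) := by
    refine monotoneOn_of_deriv_nonneg (convex_Icc lo hi) ?_ ?_ ?_
    · exact fun t ht => (hd t ht.1 ht.2).continuousAt.continuousWithinAt
    · intro t ht
      rw [interior_Icc] at ht
      exact (hd t ht.1.le ht.2.le).differentiableAt.differentiableWithinAt
    · intro t ht
      rw [interior_Icc] at ht
      rw [(hd t ht.1.le ht.2.le).deriv]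
      exact hD t ht.1.le ht.2.le
  exact hm ⟨le_rfl, h⟩ ⟨h, le_rfl⟩ h

theorem anti_line {φ : P → ℝ} {p : P} {i : Fin 3} {lo hi : ℝ} (h : lo ≤ hi)
    (hS : ∀ t, lo ≤ t → t ≤ hi → Sm φ (update p i t))
    (hD : ∀ t, lo ≤ t → t ≤ hi → D i φ (update p i t) ≤ 0) :
    φ (update p i hi) ≤ φ (update p i lo) := by
  have hd : ∀ t, lo ≤ t → t ≤ hi →
      HasDerivAt (fun s => φ (update p i s)) (D i φ (update p i t)) t :=
    fun t h1 h2 => hasDerivAt_line (hS t h1 h2)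
  have hm : AntitoneOn (fun s => φ (update p i s)) (Set.Icc lo hi) := by
    refine antitoneOn_of_deriv_nonpos (convex_Icc lo hi) ?_ ?_ ?_
    · exact fun t ht => (hd t ht.1 ht.2).continuousAt.continuousWithinAt
    · intro t ht
      rw [interior_Icc] at ht
      exact (hd t ht.1.le ht.2.le).differentiableAt.differentiableWithinAt
    · intro t ht
      rw [interior_Icc] at ht
      rw [(hd t ht.1.le ht.2.le).deriv]
      exact hD t ht.1.le ht.2.le
  exact hm ⟨le_rfl, h⟩ ⟨h, le_rfl⟩ h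

/-- `φ` vanishes on a nontrivial segment in direction `i` containing `p` -/
def Zl (φ : P → ℝ) (i : Fin 3) (p : P) : Prop :=
  ∃ a b : ℝ, a < b ∧ a ≤ p i ∧ p i ≤ b ∧ ∀ t, a ≤ t → t ≤ b → φ (update p i t) = 0

theorem Zl.D {φ : P → ℝ} {i : Fin 3} {p : P} (h : Zl φ i p) (hs : Sm φ p) : D i φ p = 0 := by
  obtain ⟨a, b, hab, h1, h2, h0⟩ := h
  have hs' : Sm φ (update p i (p i)) := by rwa [update_eq_self]
  have hd := hasDerivAt_line hs'
  rw [update_eq_self] at hd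
  have hw : HasDerivWithinAt (fun s => φ (update p i s)) (H41FT.D i φ p) (Set.Icc a b) (p i) :=
    hd.hasDerivWithinAt
  have hz : HasDerivWithinAt (fun s => φ (update p i s)) 0 (Set.Icc a b) (p i) := by
    refine (hasDerivWithinAt_const (p i) (Set.Icc a b) (0 : ℝ)).congr ?_ ?_
    · intro t ht; exact h0 t ht.1 ht.2
    · exact h0 _ h1 h2
  exact (uniqueDiffOn_Icc hab (p i) ⟨h1, h2⟩).eq_deriv _ hw hz

/-- increasing from a face -/
theorem pat1 {φ : P → ℝ} {S : P → Prop} {i : Fin 3} {lo : ℝ}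
    (hS : ∀ p, S p → lo ≤ p i ∧ ∀ t, lo ≤ t → t ≤ p i → S (update p i t))
    (hD : ∀ p, S p → 0 ≤ D i φ p ∧ Sm φ p) (h0 : ∀ p, S p → p i = lo → 0 ≤ φ p) :
    ∀ p, S p → 0 ≤ φ p := by
  intro p hp
  obtain ⟨h1, h2⟩ := hS p hp
  have h3 := mono_line (φ := φ) (p := p) (i := i) h1 (fun t ht ht' => (hD _ (h2 t ht ht')).2)
    (fun t ht ht' => (hD _ (h2 t ht ht')).1)
  rw [update_eq_self] at h3
  exact (h0 _ (h2 lo le_rfl h1) (update_self i lo p)).trans h3

/-- decreasing to a face -/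
theorem pat1' {φ : P → ℝ} {S : P → Prop} {i : Fin 3} {hi : ℝ}
    (hS : ∀ p, S p → p i ≤ hi ∧ ∀ t, p i ≤ t → t ≤ hi → S (update p i t))
    (hD : ∀ p, S p → D i φ p ≤ 0 ∧ Sm φ p) (h0 : ∀ p, S p → p i = hi → 0 ≤ φ p) :
    ∀ p, S p → 0 ≤ φ p := by
  intro p hp
  obtain ⟨h1, h2⟩ := hS p hp
  have h3 := anti_line (φ := φ) (p := p) (i := i) h1 (fun t ht ht' => (hD _ (h2 t ht ht')).2)
    (fun t ht ht' => (hD _ (h2 t ht ht')).1)
  rw [update_eq_self] at h3
  exact (h0 _ (h2 hi h1 le_rfl) (update_self i hi p)).trans h3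

/-- decreasing from a face: nonpositive -/
theorem pat1n {φ : P → ℝ} {S : P → Prop} {i : Fin 3} {lo : ℝ}
    (hS : ∀ p, S p → lo ≤ p i ∧ ∀ t, lo ≤ t → t ≤ p i → S (update p i t))
    (hD : ∀ p, S p → D i φ p ≤ 0 ∧ Sm φ p) (h0 : ∀ p, S p → p i = lo → φ p ≤ 0) :
    ∀ p, S p → φ p ≤ 0 := by
  intro p hp
  obtain ⟨h1, h2⟩ := hS p hp
  have h3 := anti_line (φ := φ) (p := p) (i := i) h1 (fun t ht ht' => (hD _ (h2 t ht ht')).2)
    (fun t ht ht' => (hD _ (h2 t ht ht')).1)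
  rw [update_eq_self] at h3
  exact h3.trans (h0 _ (h2 lo le_rfl h1) (update_self i lo p))

theorem neg_spec {φ : P → ℝ} {p : P} (h : 0 < fO.sub (fO.nat 0) φ p) : φ p < 0 := by
  have : 0 < ((0 : ℕ) : ℝ) - φ p := h
  push_cast at this; linarith

end H41FT
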