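import Pool.Agent.H41.FT.Chc

/-!
# Chart identities for `T_+`
-/

namespace H41FT

open H45FT Real

variable {a b c : ℝ}

/-- angle data, `σ = 1`, obtuse at the first vertex -/
theorem abs_dih_obt (ht : dih 1 a b c ≤ 0) :
    |dih 1 a b c| = (cos (π / 2 * a) * cos (π / 2 * b) - cos (π / 2 * c)) *
      (sin (π / 2 * a) * sin (π / 2 * b))⁻¹ := by
  rw [abs_of_nonpos ht]; unfold dih; rw [← neg_div, div_eq_mul_inv]; ring

theorem FsG_eq {k : ℕ} {a b g u sa v sb ka si sav sbu w p q p2 q2 sc X Y c Dr : ℝ}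
    (hu : cos (π / 2 * a) = u) (hsa : sin (π / 2 * a) = sa) (hv : cos (π / 2 * b) = v)
    (hsb : sin (π / 2 * b) = sb) (hka : cos (π / 2 * g) = ka) (hsi : sin (π / 2 * g) = si)
    (hsav : sa * v = sav) (hsbu : sb * u = sbu) (hw : u * v - sa * sb * ka = w)
    (hp : sa * si = p) (hq : sbu + sav * ka = q) (hp2 : sb * si = p2) (hq2 : sav + sbu * ka = q2)
    (hsc : √(p * p + q * q) = sc)
    (hX : 2 * (2 / π * arctan (p * (sc + q)⁻¹)) = X)
    (hY : 2 * (2 / π * arctan (p2 * (sc + q2)⁻¹)) = Y)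
    (hc : 2 * (2 / π * arctan (sc * (((1 : ℕ) : ℝ) + w)⁻¹)) = c)
    (hDr : sa * p2 = Dr) : FsG rO k a b g =
      FG rO k a b c u v w sa sb sc (Dr * Dr) X (q * sc⁻¹) Y (q2 * sc⁻¹) g ka := by
  subst hu; subst hsa; subst hv; subst hsb; subst hka; subst hsi; subst hsav; subst hsbu
  subst hw; subst hp; subst hq; subst hp2; subst hq2; subst hsc; subst hX; subst hY
  subst hc; subst hDr
  rfl

section alg

variable {u v w sa sb sc κ si G : ℝ}

theorem ga_w (hsa : 0 < sa) (hsb : 0 < sb) (hκ : κ = (u * v - w) * (sa * sb)⁻¹) :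
    u * v - sa * sb * κ = w := by
  rw [hκ]; field_simp; ring

theorem ga_q (hsa : 0 < sa) (hsb : 0 < sb) (pb : sb ^ 2 + v ^ 2 = 1)
    (hκ : κ = (u * v - w) * (sa * sb)⁻¹) : sb * u + sa * v * κ = (u - v * w) / sb := by
  rw [hκ]; field_simp
  linear_combination u * pb

theorem ga_q2 (hsa : 0 < sa) (hsb : 0 < sb) (pa : sa ^ 2 + u ^ 2 = 1)
    (hκ : κ = (u * v - w) * (sa * sb)⁻¹) : sa * v + sb * u * κ = (v - w * u) / sa := by
  rw [hκ]; field_simp
  linear_combination v * pa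

theorem ga_x (hsb : 0 < sb) (hsi : (si * (sa * sb)) ^ 2 = G)
    (gx : G + (u - v * w) ^ 2 = (sb * sc) ^ 2) : (sa * si) ^ 2 + ((u - v * w) / sb) ^ 2 = sc ^ 2 := by
  field_simp
  linear_combination hsi + gx

end alg

theorem CH_FsG (k : ℕ) (h0 : 0 < a) (hab : a ≤ b) (hbc : b ≤ c)
    (hc : c ≤ 1) (hs : c ≤ a + b) (ht : dih 1 a b c ≤ 0) :
    Tt k 1 a b c = FsG rO k a b (ang (dih 1 a b c)) := by
  have hpi := Real.pi_pos
  have ha1 : a ≤ 1 := by linarith
  have hb0 : 0 < b := by linarith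
  have hb1 : b ≤ 1 := by linarith
  have hc0 : 0 < c := by linarith
  have hg : 0 ≤ gram3 1 a b c := (gram3_one_nonneg_iff h0 hab hbc hc).2 hs
  have hgx : gram3 1 b c a = gram3 1 a b c := by unfold gram3; ring
  have hgy : gram3 1 c a b = gram3 1 a b c := by unfold gram3; ring
  have hx0 := dih_x_nonneg h0 hab hbc hc
  have hy0 := dih_y_nonneg h0 hab hbc hc
  have z2 := abs_dih_obt ht
  obtain ⟨-, x2⟩ := ang_pos hb0 hb1 hc0 hc hx0 (hgx ▸ hg)
  obtain ⟨-, y2⟩ := ang_pos hc0 hc h0 ha1 hy0 (hgy ▸ hg)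
  have hd1 := dih_abs_le (σ := 1) (Or.inl rfl) h0 ha1 hb0 hb1 hg
  have hv := csn hb0.le hb1
  have hu := csn h0.le ha1
  have hw := csn hc0.le hc
  have hsa := snp h0 ha1
  have hsb := snp hb0 hb1
  have hsc := snp hc0 hc
  have pa := sin_sq_add_cos_sq (π / 2 * a)
  have pb := sin_sq_add_cos_sq (π / 2 * b)
  have pc := sin_sq_add_cos_sq (π / 2 * c)
  have gz := gram_id (σ := 1) (by norm_num) a b c
  have gx := gram_id (σ := 1) (by norm_num) b c a
  have gy := gram_id (σ := 1) (by norm_num) c a b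
  rw [hgx] at gx
  rw [hgy] at gy
  have hch := at_half (x := c) (by linarith) (by linarith)
  have mx := dih_mul (c := a) 1 hb0 hb1 hc0 hc
  have my := dih_mul (c := b) 1 hc0 hc h0 ha1
  have hQx : 0 ≤ cos (π / 2 * a) - cos (π / 2 * b) * cos (π / 2 * c) := by
    have h6 : 0 ≤ dih 1 b c a * (sin (π / 2 * b) * sin (π / 2 * c)) := by positivity
    rw [mx] at h6; linarith
  have hQy : 0 ≤ cos (π / 2 * b) - cos (π / 2 * c) * cos (π / 2 * a) := by
    have h6 : 0 ≤ dih 1 c a b * (sin (π / 2 * c) * sin (π / 2 * a)) := by positivity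
    rw [my] at h6; linarith
  have hsi : (sin (π / 2 * ang (dih 1 a b c)) * (sin (π / 2 * a) * sin (π / 2 * b))) ^ 2 =
      gram3 1 a b c := by
    have m := dih_mul (c := c) 1 h0 ha1 hb0 hb1
    have hd2 : 0 ≤ 1 - dih 1 a b c ^ 2 := by
      have := abs_le_one_iff_mul_self_le_one.1 hd1
      nlinarith
    rw [sin_ang, mul_pow, Real.sq_sqrt hd2]
    rw [← m] at gz
    linarith [gz]
  have hsi0 : 0 ≤ sin (π / 2 * ang (dih 1 a b c)) := by
    rw [sin_ang]; exact Real.sqrt_nonneg _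
  have hka := cos_ang hd1
  unfold Tt
  generalize dih 1 a b c = tz at *
  generalize dih 1 b c a = tx at *
  generalize dih 1 c a b = ty at *
  generalize hzz : ang tz = g at *
  generalize hsie : sin (π / 2 * g) = si at *
  generalize hua : cos (π / 2 * a) = u at *
  generalize hub : cos (π / 2 * b) = v at *
  generalize huc : cos (π / 2 * c) = w at *
  generalize hsa' : sin (π / 2 * a) = sa at *
  generalize hsb' : sin (π / 2 * b) = sb at *
  generalize hsc' : sin (π / 2 * c) = sc at *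
  generalize gram3 1 a b c = G at *
  have ex := ga_x (u := u) (v := v) (w := w) (sc := sc) hsb hsi (by linarith [gx])
  have ey := ga_x (u := v) (v := w) (w := u) (sc := sc) (si := si) (sa := sb) (G := G) hsa
    (by rw [← hsi]; ring) (by linarith [gy])
  have eX := ang_half (t := tx) (P := sa * si) (Q := (u - v * w) / sb) (S := sc) hsc (by positivity)
    (div_nonneg hQx hsb.le) ex (by rw [x2]; field_simp)
  have eY := ang_half (t := ty) (P := sb * si) (Q := (v - w * u) / sa) (S := sc) hsc (by positivity)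
    (div_nonneg hQy hsa.le) ey (by rw [y2]; field_simp)
  rw [FsG_eq (k := k) (a := a) (b := b) (g := g) hua hsa' hub hsb' hka hsie rfl rfl
    (ga_w hsa hsb z2) rfl (ga_q hsa hsb pb z2) rfl (ga_q2 hsa hsb pa z2) (sc := sc) (by
      rw [← sq, ← sq, ex]; exact Real.sqrt_sq hsc.le) eX eY (c := c) (by rw [Nat.cast_one, hch]) rfl]
  have e1 : |tx| = (u - v * w) / sb * sc⁻¹ := by rw [x2]; field_simp
  have e2 : |ty| = (v - w * u) / sa * sc⁻¹ := by rw [y2]; field_simp
  have e3 : sa * (sb * si) * (sa * (sb * si)) = G := by rw [← hsi]; ring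
  rw [← e1, ← e2, e3]

end H41FT
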