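import Pool.Agent.H41.FT.Tru

/-!
# The closed forms of the certificate
-/

namespace H41FT

open H45FT Real

variable {a b c : ℝ}

theorem cos_pi_mul (a : ℝ) : cos (π * a) = 2 * cos (π / 2 * a) ^ 2 - 1 := by
  rw [← cos_two_mul]; congr 1; ring

theorem sin_pi_mul (a : ℝ) : sin (π * a) = 2 * sin (π / 2 * a) * cos (π / 2 * a) := by
  rw [← sin_two_mul]; congr 1; ring

theorem KP {t : ℝ} (hab : a ≤ b) (ht : 0 ≤ t) :
    20 * Kf3 a b t = 10/3 - 24 * (2 * a * (1 - b) * ang t - a + b - 1/2) +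
      2 * (a + b - 1 + (cos (π * a) + cos (π * b)) / 2 - cos (π * a) * cos (π * b)) -
      3 * (Om a * Om b) * ang t + 2 * (Om a * Om b) * (t ^ 2 - 1) +
      2 * (sin (π * a) * sin (π * b)) * t - 4 * (sin (π * a) * sin (π * b)) * (1 - ang t) := by
  have e1 : 2 / π * arccos |t| = ang t := rfl
  have e2 : 2 / π * arccos t = ang t := by rw [← e1, abs_of_nonneg ht]
  unfold Kf3 U3
  rw [e1, e2]
  unfold Ustar Wg3 W23 V13 VP3 bridge
  rcases le_total (a + b) 1 with h | h
  · rw [min_eq_left hab, max_eq_right hab, max_eq_left (by linarith : a - 1/2 ≤ 1/2 - b),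
      max_eq_right (by linarith : a + b - 1 ≤ 0), min_eq_right (by linarith : 1 - b ≤ 1 - a),
      min_eq_left (by linarith : a ≤ 1 - b)]
    ring
  · rw [min_eq_left hab, max_eq_right hab, max_eq_right (by linarith : 1/2 - b ≤ a - 1/2),
      max_eq_left (by linarith : 0 ≤ a + b - 1), min_eq_right (by linarith : 1 - b ≤ 1 - a),
      min_eq_right (by linarith : 1 - b ≤ a)]
    ring

theorem arccos_neg_ang {t : ℝ} (ht : t ≤ 0) : 2 / π * arccos t = 2 - ang t := by
  unfold ang
  rw [abs_of_nonpos ht, arccos_neg]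
  have := Real.pi_pos
  field_simp
  ring

theorem KM1 {t : ℝ} (hab : a ≤ b) (ht : t ≤ 0) (h : a + b ≤ 1) :
    20 * Kf3 a b t = 10/3 - 24 * (-2 * a * b * ang t + a + b - 1/2) +
      2 * (a + b - 1 + (cos (π * a) + cos (π * b)) / 2 - cos (π * a) * cos (π * b)) -
      3 * (Om a * Om b) * ang t + 2 * (Om a * Om b) * (t ^ 2 - 1) +
      2 * (sin (π * a) * sin (π * b)) * t + 4 * (sin (π * a) * sin (π * b)) * (1 - ang t) := by
  have e1 : 2 / π * arccos |t| = ang t := rfl
  have e2 := arccos_neg_ang ht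
  unfold Kf3 U3
  rw [e1, e2]
  unfold Ustar Wg3 W23 V13 VP3 bridge
  rw [min_eq_left hab, max_eq_right hab, max_eq_left (by linarith : a - 1/2 ≤ 1/2 - b),
      max_eq_right (by linarith : a + b - 1 ≤ 0), min_eq_right (by linarith : 1 - b ≤ 1 - a),
      min_eq_left (by linarith : a ≤ 1 - b)]
  ring

theorem KM2 {t : ℝ} (hab : a ≤ b) (ht : t ≤ 0) (h : 1 ≤ a + b) :
    20 * Kf3 a b t = 10/3 - 24 * (-2 * (1 - a) * (1 - b) * ang t + 3/2 - a - b) +
      2 * (a + b - 1 + (cos (π * a) + cos (π * b)) / 2 - cos (π * a) * cos (π * b)) -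
      3 * (Om a * Om b) * ang t + 2 * (Om a * Om b) * (t ^ 2 - 1) +
      2 * (sin (π * a) * sin (π * b)) * t + 4 * (sin (π * a) * sin (π * b)) * (1 - ang t) := by
  have e1 : 2 / π * arccos |t| = ang t := rfl
  have e2 := arccos_neg_ang ht
  unfold Kf3 U3
  rw [e1, e2]
  unfold Ustar Wg3 W23 V13 VP3 bridge
  rw [min_eq_left hab, max_eq_right hab, max_eq_right (by linarith : 1/2 - b ≤ a - 1/2),
      max_eq_left (by linarith : 0 ≤ a + b - 1), min_eq_right (by linarith : 1 - b ≤ 1 - a),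
      min_eq_right (by linarith : 1 - b ≤ a)]
  ring

theorem snp {x : ℝ} (h0 : 0 < x) (h1 : x ≤ 1) : 0 < sin (π / 2 * x) :=
  sin_pos_of_pos_of_lt_pi (by have := Real.pi_pos; positivity) (by nlinarith [Real.pi_pos])
theorem csn {x : ℝ} (h0 : 0 ≤ x) (h1 : x ≤ 1) : 0 ≤ cos (π / 2 * x) :=
  cos_nonneg_of_mem_Icc ⟨by nlinarith [Real.pi_pos], by nlinarith [Real.pi_pos]⟩
theorem csa {x y : ℝ} (h0 : 0 ≤ x) (h1 : x ≤ y) (h2 : y ≤ 1) :
    cos (π / 2 * y) ≤ cos (π / 2 * x) :=
  cos_le_cos_of_nonneg_of_le_pi (by nlinarith [Real.pi_pos]) (by nlinarith [Real.pi_pos])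
    (by nlinarith [Real.pi_pos])

theorem dih_mul (σ : ℝ) (h0 : 0 < a) (ha : a ≤ 1) (hb0 : 0 < b) (hb : b ≤ 1) :
    dih σ a b c * (sin (π / 2 * a) * sin (π / 2 * b)) =
      σ * cos (π / 2 * c) - cos (π / 2 * a) * cos (π / 2 * b) := by
  unfold dih
  have h3 := snp h0 ha
  have h4 := snp hb0 hb
  exact div_mul_cancel₀ _ (mul_pos h3 h4).ne'

/-- the two acute vertices, `T_+` -/
theorem dih_x_nonneg (h0 : 0 < a) (hab : a ≤ b) (hbc : b ≤ c) (hc : c ≤ 1) : 0 ≤ dih 1 b c a := by
  unfold dih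
  have h1 := csa h0.le hab (hbc.trans hc)
  have h2 := csn (by linarith : 0 ≤ c) hc
  have h3 := csn (by linarith : 0 ≤ b) (hbc.trans hc)
  have h4 := snp (by linarith : 0 < b) (hbc.trans hc)
  have h5 := snp (by linarith : 0 < c) hc
  have h6 := cos_le_one (π / 2 * c)
  apply div_nonneg
  · nlinarith
  · positivity

theorem dih_y_nonneg (h0 : 0 < a) (hab : a ≤ b) (hbc : b ≤ c) (hc : c ≤ 1) : 0 ≤ dih 1 c a b := by
  unfold dih
  have h1 := csa (by linarith : 0 ≤ b) hbc hc
  have h2 := csn (by linarith : 0 ≤ c) hc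
  have h3 := csn h0.le (by linarith : a ≤ 1)
  have h4 := snp h0 (by linarith : a ≤ 1)
  have h5 := snp (by linarith : 0 < c) hc
  have h6 := cos_le_one (π / 2 * a)
  apply div_nonneg
  · nlinarith
  · positivity

theorem dih_neg (h0 : 0 < a) (ha : a ≤ 1) (hb0 : 0 < b) (hb : b ≤ 1) (hc0 : 0 ≤ c) (hc : c ≤ 1) :
    dih (-1) a b c ≤ 0 := by
  unfold dih
  have h1 := csn h0.le ha
  have h2 := csn hb0.le hb
  have h3 := csn hc0 hc
  have h4 := snp h0 ha
  have h5 := snp hb0 hb
  apply div_nonpos_of_nonpos_of_nonneg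
  · nlinarith
  · positivity

theorem KT0 (h0 : 0 < a) (hab : a ≤ b) (hbc : b ≤ c) (hc : c ≤ 1) (ht : 0 ≤ dih 1 a b c) :
    20 * (2 - (a + b + c) - S3 1 a b c) = Tt 0 1 a b c := by
  have hx := dih_x_nonneg h0 hab hbc hc
  have hy := dih_y_nonneg h0 hab hbc hc
  have e1 := KP hab ht
  have e2 := KP hbc hx
  have e3 := KP (hab.trans hbc) hy
  have m1 := dih_mul (c := c) 1 h0 (by linarith) (by linarith : 0 < b) (by linarith)
  have m2 := dih_mul (c := a) 1 (by linarith : 0 < b) (by linarith) (by linarith : 0 < c) hc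
  have m3 := dih_mul (c := b) 1 (by linarith : 0 < c) hc h0 (by linarith)
  rw [cos_pi_mul, cos_pi_mul, sin_pi_mul, sin_pi_mul] at e1 e2 e3
  unfold S3 Tt
  rw [Kf3_comm c a]
  simp only [lt, rO, FG, fin_, brS, br0, xyS, hsS, H41FT.hz, rkS, rks, rk, om, kh]
  rw [abs_of_nonneg ht, abs_of_nonneg hx, abs_of_nonneg hy]
  unfold gram3 Om at *
  push_cast
  generalize dih 1 a b c = tz at *
  generalize dih 1 b c a = tx at *
  generalize dih 1 c a b = ty at *
  generalize ang tz = gz at *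
  generalize ang tx = gx at *
  generalize ang ty = gy at *
  generalize cos (π / 2 * a) = u at *
  generalize cos (π / 2 * b) = v at *
  generalize cos (π / 2 * c) = w at *
  generalize sin (π / 2 * a) = sa at *
  generalize sin (π / 2 * b) = sb at *
  generalize sin (π / 2 * c) = sc at *
  linear_combination -e1 - e2 - e3 + 8 * u * v * m1 + 8 * v * w * m2 + 8 * w * u * m3

theorem KT1 (h0 : 0 < a) (hab : a ≤ b) (hbc : b ≤ c) (hc : c ≤ 1) (ht : dih 1 a b c ≤ 0) (hs : 1 ≤ a + b) :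
    20 * (2 - (a + b + c) - S3 1 a b c) = Tt 1 1 a b c := by
  have hx := dih_x_nonneg h0 hab hbc hc
  have hy := dih_y_nonneg h0 hab hbc hc
  have e1 := KM2 hab ht hs
  have e2 := KP hbc hx
  have e3 := KP (hab.trans hbc) hy
  have m1 := dih_mul (c := c) 1 h0 (by linarith) (by linarith : 0 < b) (by linarith)
  have m2 := dih_mul (c := a) 1 (by linarith : 0 < b) (by linarith) (by linarith : 0 < c) hc
  have m3 := dih_mul (c := b) 1 (by linarith : 0 < c) hc h0 (by linarith)
  rw [cos_pi_mul, cos_pi_mul, sin_pi_mul, sin_pi_mul] at e1 e2 e3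
  unfold S3 Tt
  rw [Kf3_comm c a]
  simp only [lt, rO, FG, fin_, brS, br1, xyS, hsS, H41FT.hz, rkS, rks, rk, om, kh]
  rw [abs_of_nonpos ht, abs_of_nonneg hx, abs_of_nonneg hy]
  unfold gram3 Om at *
  push_cast
  generalize dih 1 a b c = tz at *
  generalize dih 1 b c a = tx at *
  generalize dih 1 c a b = ty at *
  generalize ang tz = gz at *
  generalize ang tx = gx at *
  generalize ang ty = gy at *
  generalize cos (π / 2 * a) = u at *
  generalize cos (π / 2 * b) = v at *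
  generalize cos (π / 2 * c) = w at *
  generalize sin (π / 2 * a) = sa at *
  generalize sin (π / 2 * b) = sb at *
  generalize sin (π / 2 * c) = sc at *
  linear_combination -e1 - e2 - e3 + 8 * u * v * m1 + 8 * v * w * m2 + 8 * w * u * m3

theorem KT2 (h0 : 0 < a) (hab : a ≤ b) (hbc : b ≤ c) (hc : c ≤ 1) (ht : dih 1 a b c ≤ 0) (hs : a + b ≤ 1) :
    20 * (2 - (a + b + c) - S3 1 a b c) = Tt 2 1 a b c := by
  have hx := dih_x_nonneg h0 hab hbc hc
  have hy := dih_y_nonneg h0 hab hbc hc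
  have e1 := KM1 hab ht hs
  have e2 := KP hbc hx
  have e3 := KP (hab.trans hbc) hy
  have m1 := dih_mul (c := c) 1 h0 (by linarith) (by linarith : 0 < b) (by linarith)
  have m2 := dih_mul (c := a) 1 (by linarith : 0 < b) (by linarith) (by linarith : 0 < c) hc
  have m3 := dih_mul (c := b) 1 (by linarith : 0 < c) hc h0 (by linarith)
  rw [cos_pi_mul, cos_pi_mul, sin_pi_mul, sin_pi_mul] at e1 e2 e3
  unfold S3 Tt
  rw [Kf3_comm c a]
  simp only [lt, rO, FG, fin_, brS, br2, xyS, hsS, H41FT.hz, rkS, rks, rk, om, kh]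
  rw [abs_of_nonpos ht, abs_of_nonneg hx, abs_of_nonneg hy]
  unfold gram3 Om at *
  push_cast
  generalize dih 1 a b c = tz at *
  generalize dih 1 b c a = tx at *
  generalize dih 1 c a b = ty at *
  generalize ang tz = gz at *
  generalize ang tx = gx at *
  generalize ang ty = gy at *
  generalize cos (π / 2 * a) = u at *
  generalize cos (π / 2 * b) = v at *
  generalize cos (π / 2 * c) = w at *
  generalize sin (π / 2 * a) = sa at *
  generalize sin (π / 2 * b) = sb at *
  generalize sin (π / 2 * c) = sc at *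
  linear_combination -e1 - e2 - e3 + 8 * u * v * m1 + 8 * v * w * m2 + 8 * w * u * m3

theorem KT3 (h0 : 0 < a) (hab : a ≤ b) (hbc : b ≤ c) (hc : c ≤ 1) (hs : 2 ≤ a + b + c) :
    20 * (2 - (a + b + c) - S3 (-1) a b c) = Tt 3 (-1) a b c := by
  have ht := dih_neg (c := c) h0 (by linarith) (by linarith : 0 < b) (by linarith) (by linarith) hc
  have hx := dih_neg (c := a) (by linarith : 0 < b) (by linarith) (by linarith : 0 < c) hc h0.le (by linarith)
  have hy := dih_neg (c := b) (by linarith : 0 < c) hc h0 (by linarith) (by linarith) (by linarith)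
  have e1 := KM2 hab ht (by linarith)
  have e2 := KM2 hbc hx (by linarith)
  have e3 := KM2 (hab.trans hbc) hy (by linarith)
  have m1 := dih_mul (c := c) (-1) h0 (by linarith) (by linarith : 0 < b) (by linarith)
  have m2 := dih_mul (c := a) (-1) (by linarith : 0 < b) (by linarith) (by linarith : 0 < c) hc
  have m3 := dih_mul (c := b) (-1) (by linarith : 0 < c) hc h0 (by linarith)
  rw [cos_pi_mul, cos_pi_mul, sin_pi_mul, sin_pi_mul] at e1 e2 e3
  unfold S3 Tt
  rw [Kf3_comm c a]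
  simp only [lt, rO, FG, fin_, brS, brM, xyS, hsS, H41FT.hz, rkS, rks, rk, om, kh]
  rw [abs_of_nonpos ht, abs_of_nonpos hx, abs_of_nonpos hy]
  unfold gram3 Om at *
  push_cast
  generalize dih (-1) a b c = tz at *
  generalize dih (-1) b c a = tx at *
  generalize dih (-1) c a b = ty at *
  generalize ang tz = gz at *
  generalize ang tx = gx at *
  generalize ang ty = gy at *
  generalize cos (π / 2 * a) = u at *
  generalize cos (π / 2 * b) = v at *
  generalize cos (π / 2 * c) = w at *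
  generalize sin (π / 2 * a) = sa at *
  generalize sin (π / 2 * b) = sb at *
  generalize sin (π / 2 * c) = sc at *
  linear_combination -e1 - e2 - e3 + 8 * u * v * m1 + 8 * v * w * m2 + 8 * w * u * m3

end H41FT
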