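import Pool.Agent.H41.FT.Funs

/-!
# The functions of the certificate vanish on the faces
-/

namespace H41FT

open Real

theorem F1t_t0 (ρ γ : ℝ) : F1t rO 2 ρ 0 γ = 0 := by
  simp [F1t, core, lt, rO, FG, fin_, brS, br2, xyS, hsS, hz, rkS, rks, rk, om, kh]

theorem F0t_t0 (ρ γ : ℝ) : F0t rO ρ 0 γ = 0 := by
  simp [F0t, core, lt, rO, FG, fin_, brS, br0, xyS, hsS, hz, rkS, rks, rk, om, kh]

theorem F1t_r0 (t γ : ℝ) : F1t rO 2 0 t γ = 0 := by
  have h1 : 0 < 1 + t * t := by nlinarith [mul_self_nonneg t]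
  have h2 : √(2 * (1 + t * t)⁻¹ * (2 * (1 + t * t)⁻¹)) = 2 * (1 + t * t)⁻¹ :=
    Real.sqrt_mul_self (by positivity)
  have h3 : t * (2 * (1 + t * t)⁻¹) * (1 + (1 - t * t) * (1 + t * t)⁻¹)⁻¹ = t := by
    field_simp; ring
  simp [F1t, core, lt, rO, FG, fin_, brS, br2, xyS, hsS, hz, rkS, rks, rk, om, kh]
  rw [h2, h3]
  field_simp
  ring

theorem F0t_r0 (τ t : ℝ) : F0t rO 0 t τ = 0 := by
  have h1 : 0 < 1 + t * t := by nlinarith [mul_self_nonneg t]
  have h2 : √(2 * (1 + t * t)⁻¹ * (2 * (1 + t * t)⁻¹)) = 2 * (1 + t * t)⁻¹ :=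
    Real.sqrt_mul_self (by positivity)
  have h3 : t * (2 * (1 + t * t)⁻¹) * (1 + (1 - t * t) * (1 + t * t)⁻¹)⁻¹ = t := by
    field_simp; ring
  simp [F0t, core, lt, rO, FG, fin_, brS, br0, xyS, hsS, hz, rkS, rks, rk, om, kh]
  rw [h2, h3]
  field_simp
  ring

theorem Fc3_a0 (γ : ℝ) {n : ℝ} (hn : 0 ≤ n) : Fc3 rO 0 γ n = 0 := by
  have h1 : 0 < 1 + n := by linarith
  have h2 : √((1 + n) * (1 + n)) = 1 + n := Real.sqrt_mul_self h1.le
  have h3 : (1 + n) * (1 + n)⁻¹ = 1 := by field_simp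
  simp [Fc3, lt, rO, FG, fin_, brS, brM, xyS, hsS, hz, rkS, rks, rk, om, kh, h2, h3]

theorem pi_mul_half (x : ℝ) : 2 * (2 / π * (π / 4 * x)) = x := by
  have := Real.pi_pos
  field_simp; ring

/-- half-angle formula -/
theorem arctan_half {θ : ℝ} (h1 : -π < θ) (h2 : θ < π) : arctan (sin θ * (1 + cos θ)⁻¹) = θ / 2 := by
  have hc : 0 < cos (θ / 2) := cos_pos_of_mem_Ioo ⟨by linarith, by linarith⟩
  have e : sin θ * (1 + cos θ)⁻¹ = tan (θ / 2) := by
    have e1 : sin θ = 2 * sin (θ / 2) * cos (θ / 2) := by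
      rw [← sin_two_mul]; congr 1; ring
    have e2 : cos θ = 2 * cos (θ / 2) ^ 2 - 1 := by
      rw [← cos_two_mul]; congr 1; ring
    rw [tan_eq_sin_div_cos, e1, e2]
    field_simp
    ring
  rw [e, arctan_tan (by linarith) (by linarith)]

theorem at_half {x : ℝ} (h1 : -2 < x) (h2 : x < 2) :
    2 * (2 / π * arctan (sin (π / 2 * x) * (1 + cos (π / 2 * x))⁻¹)) = x := by
  have hp := Real.pi_pos
  rw [arctan_half (by nlinarith) (by nlinarith)]
  field_simp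

theorem at_one' : 2 * (2 / π * (π / 4)) = 1 := by
  have := Real.pi_pos
  field_simp; norm_num

theorem Fc3_g1 {a n : ℝ} (ha0 : 0 ≤ a) (ha : a < 1) (hn : 0 ≤ n) : Fc3 rO a 1 n = 0 := by
  have hp := Real.pi_pos
  have hu : 0 < cos (π / 2 * a) := cos_pos_of_mem_Ioo ⟨by nlinarith, by nlinarith⟩
  have h1 : 0 < cos (π / 2 * a) + n := by linarith
  have h2 : √((cos (π / 2 * a) + n) * (cos (π / 2 * a) + n)) = cos (π / 2 * a) + n :=
    Real.sqrt_mul_self h1.le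
  have h3 : (cos (π / 2 * a) + n) * (cos (π / 2 * a) + n)⁻¹ = 1 := mul_inv_cancel₀ h1.ne'
  have h4 := at_half (x := a) (by linarith) (by linarith)
  have h5 := sin_sq_add_cos_sq (π / 2 * a)
  simp [Fc3, lt, rO, FG, fin_, brS, brM, hsS, hz, rkS, rks, rk, om, kh, h2, h3, h4, at_one']
  linear_combination (-8 : ℝ) * h5

theorem at_two {θ : ℝ} (h1 : -π < θ) (h2 : θ < π) {s c : ℝ} (hs : s = sin θ) (hc : c = cos θ) :
    2 * (2 / π * arctan (s * (1 + c)⁻¹)) = 2 / π * θ := by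
  rw [hs, hc, arctan_half h1 h2]; ring

theorem Fc3_g0 {a n : ℝ} (ha0 : 0 ≤ a) (ha : a < 1) (hn : 0 ≤ n) : Fc3 rO a 0 n = 0 := by
  have hp := Real.pi_pos
  have hu : 0 < cos (π / 2 * a) := cos_pos_of_mem_Ioo ⟨by nlinarith, by nlinarith⟩
  have hs : 0 ≤ sin (π / 2 * a) := sin_nonneg_of_nonneg_of_le_pi (by positivity) (by nlinarith)
  have h5 := sin_sq_add_cos_sq (π / 2 * a)
  have hA0 : 0 ≤ π / 2 * a := by positivity
  have hA1 : π / 2 * a < π / 2 := by nlinarith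
  simp only [Fc3, lt, rO, FG, fin_, brS, brM, hsS, hz, rkS, rks, rk, om, kh, mul_zero, sin_zero,
    cos_zero, one_mul, zero_mul, arctan_zero, add_zero, Nat.cast_one, mul_one, Nat.cast_zero,
    Nat.cast_ofNat]
  generalize hAA : π / 2 * a = A at *
  have hR0 : 0 < (cos A + n) * (cos A + n) + sin A * sin A := by nlinarith [mul_self_nonneg (sin A)]
  have hR : 0 < √((cos A + n) * (cos A + n) + sin A * sin A) := Real.sqrt_pos.2 hR0
  have hR2 := Real.mul_self_sqrt hR0.le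
  generalize √((cos A + n) * (cos A + n) + sin A * sin A) = R at *
  -- abbreviations
  obtain ⟨v, hv⟩ : ∃ v, v = sin A * R⁻¹ := ⟨_, rfl⟩
  obtain ⟨sb, hsb⟩ : ∃ sb, sb = (cos A + n) * R⁻¹ := ⟨_, rfl⟩
  have hRi : R * R⁻¹ = 1 := mul_inv_cancel₀ hR.ne'
  have hv0 : 0 ≤ v := by rw [hv]; positivity
  have hsb0 : 0 < sb := by rw [hsb]; positivity
  have hvs : v ^ 2 + sb ^ 2 = 1 := by
    rw [hv, hsb]
    field_simp
    linarith
  have hw : n * v = sin A * sb - cos A * v := by rw [hv, hsb]; ring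
  have hq0 : 0 < cos A * sb + sin A * v := by positivity
  have hq : 1 - n * v * (n * v) = (cos A * sb + sin A * v) * (cos A * sb + sin A * v) := by
    rw [hw]
    linear_combination (-(v ^ 2 + sb ^ 2)) * h5 - hvs
  have hsc : √(1 - n * v * (n * v)) = cos A * sb + sin A * v := by
    rw [hq]; exact Real.sqrt_mul_self hq0.le
  rw [← hv, ← hsb, hsc]
  -- β
  have hb1 : cos (arccos sb) = sb := cos_arccos (by linarith) (by nlinarith)
  have hb2 : sin (arccos sb) = v := by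
    rw [sin_arccos, show 1 - sb ^ 2 = v ^ 2 by linarith, Real.sqrt_sq hv0]
  have hb3 : arccos sb ≤ π / 2 := arccos_le_pi_div_two.2 hsb0.le
  have hb4 := arccos_nonneg sb
  generalize arccos sb = B at *
  have e1 : sin A * (cos A + n + R)⁻¹ = v * (1 + sb)⁻¹ := by
    rw [hv, hsb]
    have : 0 < cos A + n + R := by linarith
    have h2 : 0 < R + (cos A + n) := by linarith
    field_simp
    ring
  have e2 := at_two (θ := B) (by linarith) (by linarith) hb2.symm hb1.symm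
  have e3 := at_two (θ := A - B) (s := n * v) (c := cos A * sb + sin A * v) (by linarith)
    (by linarith) (by rw [hw, sin_sub, hb1, hb2]) (by rw [cos_sub, hb1, hb2])
  have e4 : (cos A * sb + sin A * v) * (cos A * sb + sin A * v)⁻¹ = 1 := mul_inv_cancel₀ hq0.ne'
  have e5 : v * sin A + cos A * sb = cos A * sb + sin A * v := by ring
  rw [e1, e2, e3, e5, e4]
  have e6 : 2 / π * A = a := by rw [← hAA]; field_simp
  have e7 : 2 / π * (A - B) = a - 2 / π * B := by rw [mul_sub, e6]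
  rw [e7]
  ring

theorem F0t_t1 (ρ τ : ℝ) : F0t rO ρ 1 τ = 0 := by
  have h1 : 0 < 1 + ρ * ρ := by nlinarith [mul_self_nonneg ρ]
  have h4 : √(4 : ℝ) = 2 := by
    rw [show (4 : ℝ) = 2 * 2 by norm_num]; exact Real.sqrt_mul_self (by norm_num)
  obtain ⟨u, hu⟩ : ∃ u, u = (1 - ρ * ρ) * (1 + ρ * ρ)⁻¹ := ⟨_, rfl⟩
  obtain ⟨s, hs⟩ : ∃ s, s = 2 * (ρ * (1 + ρ * ρ)⁻¹) := ⟨_, rfl⟩
  have h5 : s * s + u * u = 1 := by rw [hs, hu]; field_simp; ring
  have h6 : s * (1 + u)⁻¹ = ρ := by rw [hs, hu]; field_simp; ring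
  have h8 : (2 : ℝ) * (1 + 1)⁻¹ = 1 := by norm_num
  simp [F0t, core, lt, rO, FG, fin_, brS, br0, xyS, hsS, hz, rkS, rks, rk, om, kh, ← hu, ← hs, h4, h5, h6, h8,
    at_one']
  linear_combination (-8 : ℝ) * h5

theorem FsG2_a0 {b : ℝ} (γ : ℝ) (hb0 : 0 < b) (hb : b < 2) : FsG rO 2 0 b γ = 0 := by
  have hp := Real.pi_pos
  have hs : 0 < sin (π / 2 * b) := sin_pos_of_pos_of_lt_pi (by positivity) (by nlinarith)
  have h1 : √(sin (π / 2 * b) * sin (π / 2 * b)) = sin (π / 2 * b) := Real.sqrt_mul_self hs.le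
  have h2 : sin (π / 2 * b) * (sin (π / 2 * b))⁻¹ = 1 := mul_inv_cancel₀ hs.ne'
  have h3 := at_half (x := b) (by linarith) (by linarith)
  simp [FsG, sasK, lt, rO, FG, fin_, brS, br2, xyS, hsS, hz, rkS, rks, rk, om, kh, h1, h2, h3]

theorem FsG2_g0 {a b : ℝ} (h0 : 0 < a + b) (h1 : a + b < 2) :
    FsG rO 2 a b 0 = 0 := by
  have hp := Real.pi_pos
  have hs : 0 < sin (π / 2 * (a + b)) := sin_pos_of_pos_of_lt_pi (by positivity) (by nlinarith)
  have e1 : sin (π / 2 * b) * cos (π / 2 * a) + sin (π / 2 * a) * cos (π / 2 * b) =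
      sin (π / 2 * (a + b)) := by rw [mul_add, sin_add]; ring
  have e1' : sin (π / 2 * a) * cos (π / 2 * b) + sin (π / 2 * b) * cos (π / 2 * a) =
      sin (π / 2 * (a + b)) := by rw [mul_add, sin_add]; ring
  have e2 : cos (π / 2 * a) * cos (π / 2 * b) - sin (π / 2 * a) * sin (π / 2 * b) =
      cos (π / 2 * (a + b)) := by rw [mul_add, cos_add]
  have h2 : √(sin (π / 2 * (a + b)) * sin (π / 2 * (a + b))) = sin (π / 2 * (a + b)) :=
    Real.sqrt_mul_self hs.le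
  have h3 : sin (π / 2 * (a + b)) * (sin (π / 2 * (a + b)))⁻¹ = 1 := mul_inv_cancel₀ hs.ne'
  have h4 := at_half (x := a + b) (by linarith) (by linarith)
  simp only [FsG, sasK, lt, rO, FG, fin_, brS, br2, xyS, hsS, hz, rkS, rks, rk, om, kh, mul_zero,
    sin_zero, cos_zero, one_mul, zero_mul, arctan_zero, add_zero, Nat.cast_one, mul_one,
    Nat.cast_zero, Nat.cast_ofNat, zero_add]
  rw [e1, e1', e2, h2, h3, h4]
  ring

theorem F1t_g0 {ρ t : ℝ} (h1 : 0 ≤ ρ) (h2 : ρ ≤ 1) (h3 : 0 ≤ t) (h4 : t < 1) :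
    F1t rO 2 ρ t 0 = 0 := by
  have hr : 0 ≤ ρ * ρ * (t * t) := by positivity
  have ht1 : t * t < 1 := by nlinarith
  have hρ1 : ρ * ρ ≤ 1 := by nlinarith
  have hr1 : ρ * ρ * (t * t) < 1 := by nlinarith [mul_nonneg h3 h3]
  have k1 : 0 < 1 + ρ * ρ * (t * t) := by positivity
  have k2 : 0 < 1 + t * t := by positivity
  have k3 : ρ * t * t < 1 := by nlinarith
  have k4 : 0 < 1 - ρ * t * t := by linarith
  obtain ⟨q, hq⟩ : ∃ q, q = 2 * (1 + t * t)⁻¹ * ((1 - ρ * ρ * (t * t)) * (1 + ρ * ρ * (t * t))⁻¹) +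
      2 * (ρ * (1 + ρ * ρ * (t * t))⁻¹) * ((1 - t * t) * (1 + t * t)⁻¹) := ⟨_, rfl⟩
  have hq0 : 0 < q := by
    rw [hq]
    have : 0 < 1 - ρ * ρ * (t * t) := by linarith
    have : 0 < 1 - t * t := by linarith
    positivity
  have hq' : 2 * (ρ * (1 + ρ * ρ * (t * t))⁻¹) * ((1 - t * t) * (1 + t * t)⁻¹) +
      2 * (1 + t * t)⁻¹ * ((1 - ρ * ρ * (t * t)) * (1 + ρ * ρ * (t * t))⁻¹) = q := by rw [hq]; ring
  have e1 : √(q * q) = q := Real.sqrt_mul_self hq0.le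
  have e2 : q * q⁻¹ = 1 := mul_inv_cancel₀ hq0.ne'
  have e3 : t * q * (1 + ((1 - ρ * ρ * (t * t)) * (1 + ρ * ρ * (t * t))⁻¹ *
      ((1 - t * t) * (1 + t * t)⁻¹) - t * t * (2 * (ρ * (1 + ρ * ρ * (t * t))⁻¹) *
      (2 * (1 + t * t)⁻¹))))⁻¹ = (ρ * t + t) / (1 - ρ * t * t) := by
    have e4 : 1 + ((1 - ρ * ρ * (t * t)) * (1 + ρ * ρ * (t * t))⁻¹ *
      ((1 - t * t) * (1 + t * t)⁻¹) - t * t * (2 * (ρ * (1 + ρ * ρ * (t * t))⁻¹) *
      (2 * (1 + t * t)⁻¹))) = 2 * (1 - ρ * t * t) ^ 2 *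
      ((1 + ρ * ρ * (t * t))⁻¹ * (1 + t * t)⁻¹) := by
      field_simp; ring
    have e6 : q = 2 * (1 + ρ) * (1 - ρ * t * t) *
        ((1 + ρ * ρ * (t * t))⁻¹ * (1 + t * t)⁻¹) := by
      rw [hq]; field_simp; ring
    have hK : 0 < (1 + ρ * ρ * (t * t))⁻¹ * (1 + t * t)⁻¹ := by positivity
    rw [e4, e6]
    clear e4 e6 hq' hq hq0 e1 e2
    generalize (1 + ρ * ρ * (t * t))⁻¹ * (1 + t * t)⁻¹ = K at *
    generalize 1 - ρ * t * t = Q at *
    field_simp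
    ring
  have e5 : arctan ((ρ * t + t) / (1 - ρ * t * t)) = arctan (ρ * t) + arctan t :=
    (arctan_add k3).symm
  simp only [F1t, core, lt, rO, FG, fin_, brS, br2, xyS, hsS, hz, rkS, rks, rk, om, kh, mul_zero,
    sin_zero, cos_zero, one_mul, zero_mul, arctan_zero, add_zero, Nat.cast_one, mul_one,
    Nat.cast_zero, Nat.cast_ofNat, zero_add]
  rw [← hq, hq', e1, e2, e3, e5]
  ring

section
variable {x : ℝ} (h1 : -1 < x) (h2 : x < 1)
include h1 h2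

theorem cos_pos' : 0 < cos (π / 2 * x) := by
  have hp := Real.pi_pos
  exact cos_pos_of_mem_Ioo ⟨by nlinarith, by nlinarith⟩

theorem sqrt_ax : √(1 - sin (π / 2 * x) * sin (π / 2 * x)) = cos (π / 2 * x) := by
  have h := sin_sq_add_cos_sq (π / 2 * x)
  rw [show 1 - sin (π / 2 * x) * sin (π / 2 * x) = cos (π / 2 * x) * cos (π / 2 * x) by
    linear_combination -h]
  exact Real.sqrt_mul_self (cos_pos' h1 h2).le

theorem at_ax : 2 * (2 / π * arctan (cos (π / 2 * x) * (1 + sin (π / 2 * x))⁻¹)) = 1 - x := by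
  have hp := Real.pi_pos
  rw [at_two (θ := π / 2 - π / 2 * x) (by nlinarith) (by nlinarith) (by rw [sin_pi_div_two_sub])
    (by rw [cos_pi_div_two_sub])]
  field_simp

theorem Fsd3_x : Fsd rO 3 x 0 0 = 0 := by
  have e1 := sqrt_ax h1 h2
  have e2 := at_ax h1 h2
  have e3 : cos (π / 2 * x) * (cos (π / 2 * x))⁻¹ = 1 := mul_inv_cancel₀ (cos_pos' h1 h2).ne'
  have h5 := sin_sq_add_cos_sq (π / 2 * x)
  simp only [Fsd, FsdK, lt, rO, FG, fin_, brS, brM, br0, xyS, hsS, hz, rkS, rks, rk, om, kh, mul_zero,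
    sin_zero, cos_zero, one_mul, zero_mul, arctan_one, arctan_zero, add_zero, zero_add, sub_zero,
    Nat.cast_one, mul_one, Nat.cast_ofNat, Nat.cast_zero, inv_one, e1, e2, e3, at_one']
  linear_combination (-20 : ℝ) * h5

theorem Fsd3_y : Fsd rO 3 0 x 0 = 0 := by
  have e1 := sqrt_ax h1 h2
  have e2 := at_ax h1 h2
  have e3 : cos (π / 2 * x) * (cos (π / 2 * x))⁻¹ = 1 := mul_inv_cancel₀ (cos_pos' h1 h2).ne'
  have h5 := sin_sq_add_cos_sq (π / 2 * x)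
  simp only [Fsd, FsdK, lt, rO, FG, fin_, brS, brM, br0, xyS, hsS, hz, rkS, rks, rk, om, kh, mul_zero,
    sin_zero, cos_zero, one_mul, zero_mul, arctan_one, arctan_zero, add_zero, zero_add, sub_zero,
    Nat.cast_one, mul_one, Nat.cast_ofNat, Nat.cast_zero, inv_one, e1, e2, e3, at_one']
  linear_combination (-20 : ℝ) * h5

theorem Fsd3_z : Fsd rO 3 0 0 x = 0 := by
  have e1 := sqrt_ax h1 h2
  have e2 := at_ax h1 h2
  have e3 : cos (π / 2 * x) * (cos (π / 2 * x))⁻¹ = 1 := mul_inv_cancel₀ (cos_pos' h1 h2).ne'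
  have h5 := sin_sq_add_cos_sq (π / 2 * x)
  simp only [Fsd, FsdK, lt, rO, FG, fin_, brS, brM, br0, xyS, hsS, hz, rkS, rks, rk, om, kh, mul_zero,
    sin_zero, cos_zero, one_mul, zero_mul, arctan_one, arctan_zero, add_zero, zero_add, sub_zero,
    Nat.cast_one, mul_one, Nat.cast_ofNat, Nat.cast_zero, inv_one, e1, e2, e3, at_one']
  linear_combination (-20 : ℝ) * h5

theorem Fsd0_x : Fsd rO 0 x 0 0 = 0 := by
  have e1 := sqrt_ax h1 h2
  have e2 := at_ax h1 h2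
  have e3 : cos (π / 2 * x) * (cos (π / 2 * x))⁻¹ = 1 := mul_inv_cancel₀ (cos_pos' h1 h2).ne'
  have h5 := sin_sq_add_cos_sq (π / 2 * x)
  simp only [Fsd, FsdK, lt, rO, FG, fin_, brS, brM, br0, xyS, hsS, hz, rkS, rks, rk, om, kh, mul_zero,
    sin_zero, cos_zero, one_mul, zero_mul, arctan_one, arctan_zero, add_zero, zero_add, sub_zero,
    Nat.cast_one, mul_one, Nat.cast_ofNat, Nat.cast_zero, inv_one, e1, e2, e3, at_one']
  linear_combination (-20 : ℝ) * h5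

theorem Fsd0_y : Fsd rO 0 0 x 0 = 0 := by
  have e1 := sqrt_ax h1 h2
  have e2 := at_ax h1 h2
  have e3 : cos (π / 2 * x) * (cos (π / 2 * x))⁻¹ = 1 := mul_inv_cancel₀ (cos_pos' h1 h2).ne'
  have h5 := sin_sq_add_cos_sq (π / 2 * x)
  simp only [Fsd, FsdK, lt, rO, FG, fin_, brS, brM, br0, xyS, hsS, hz, rkS, rks, rk, om, kh, mul_zero,
    sin_zero, cos_zero, one_mul, zero_mul, arctan_one, arctan_zero, add_zero, zero_add, sub_zero,
    Nat.cast_one, mul_one, Nat.cast_ofNat, Nat.cast_zero, inv_one, e1, e2, e3, at_one']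
  linear_combination (-20 : ℝ) * h5

theorem Fsd0_z : Fsd rO 0 0 0 x = 0 := by
  have e1 := sqrt_ax h1 h2
  have e2 := at_ax h1 h2
  have e3 : cos (π / 2 * x) * (cos (π / 2 * x))⁻¹ = 1 := mul_inv_cancel₀ (cos_pos' h1 h2).ne'
  have h5 := sin_sq_add_cos_sq (π / 2 * x)
  simp only [Fsd, FsdK, lt, rO, FG, fin_, brS, brM, br0, xyS, hsS, hz, rkS, rks, rk, om, kh, mul_zero,
    sin_zero, cos_zero, one_mul, zero_mul, arctan_one, arctan_zero, add_zero, zero_add, sub_zero,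
    Nat.cast_one, mul_one, Nat.cast_ofNat, Nat.cast_zero, inv_one, e1, e2, e3, at_one']
  linear_combination (-20 : ℝ) * h5

end

end H41FT
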