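import Pool.Agent.H41.FT.Par

/-!
# Enclosures of derivatives
-/

namespace H41FT

open Filter Topology

/-- coordinate function -/
def co (i : Fin 3) : P → ℝ := fun p => p i

/-- `F` evaluated in the coordinates encloses `φ`, and certifies `Ψ` -/
def Enc3 (F : {T : Type} → Ops T → T → T → T → T) (φ : P → ℝ) (Ψ : P → Prop) : Prop :=
  ∀ {T : Type} {K : Set P} {o : Ops T} {ok : T → Prop} {SE : T → (P → ℝ) → Prop}
    (_ : Sound K o ok SE) {x y z : T}, SE x (co 0) → SE y (co 1) → SE z (co 2) →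
    ok (F o x y z) → SE (F o x y z) φ ∧ ∀ p ∈ K, Ψ p

theorem Enc3.of_R {F : {T : Type} → Ops T → T → T → T → T}
    (h : ∀ {T : Type} {K : Set P} {o : Ops T} {ok : T → Prop} {SE : T → (P → ℝ) → Prop}
      (_ : Sound K o ok SE) {x y z : T} {x' y' z' : P → ℝ}, R ok SE x x' → R ok SE y y' →
      R ok SE z z' → R ok SE (F o x y z) (F fO x' y' z')) :
    Enc3 F (F fO (co 0) (co 1) (co 2)) (Sm (F fO (co 0) (co 1) (co 2))) := by
  intro T K o ok SE S x y z hx hy hz hok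
  have h1 := h S (fun _ => hx) (fun _ => hy) (fun _ => hz) hok
  exact ⟨h1, S.smooth h1⟩

theorem gb_ok {T : Type} {K : Set P} {o : Ops T} {ok : T → Prop} {SE : T → (P → ℝ) → Prop}
    (S : Sound K o ok SE) {x y : T} (h : ok (gb o x y)) : ok x ∧ ok y :=
  ⟨(S.ok_mul (S.ok_add h).2).2, (S.ok_add h).1⟩

theorem gb_SE {T : Type} {K : Set P} {o : Ops T} {ok : T → Prop} {SE : T → (P → ℝ) → Prop}
    (S : Sound K o ok SE) {x y : T} {f g : P → ℝ} (h : ok (gb o x y)) (hx : SE x f) (hy : SE y g) :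
    SE (gb o x y) g := by
  refine S.congr (S.add h hy (S.mul (S.ok_add h).2 (S.nat 0) hx)) fun p _ => ?_
  filter_upwards with q
  show g q + ((0 : ℕ) : ℝ) * f q = g q
  simp

theorem D_co (i : Fin 3) (j : Fin 3) : D i (co j) = fO.nat (if i = j then 1 else 0) := D_coord i j

theorem Enc3.d1 {F : {T : Type} → Ops T → T → T → T → T} {φ : P → ℝ} {Ψ : P → Prop}
    (h : Enc3 F φ Ψ) (i : Fin 3) : Enc3 (fun o => H41FT.d1 o F i.val) (D i φ) Ψ := by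
  intro T K o ok SE S x y z hx hy hz hok
  have hok' := gb_ok S hok
  have e0 : SED SE i ⟨x, o.nat (bif Nat.beq i.val 0 then 1 else 0)⟩ (co 0) := by
    refine ⟨hx, ?_⟩
    rw [D_co]
    have : (bif Nat.beq i.val 0 then 1 else 0 : ℕ) = if i = 0 then 1 else 0 := by
      fin_cases i <;> rfl
    rw [this]; exact S.nat _
  have e1 : SED SE i ⟨y, o.nat (bif Nat.beq i.val 1 then 1 else 0)⟩ (co 1) := by
    refine ⟨hy, ?_⟩
    rw [D_co]
    have : (bif Nat.beq i.val 1 then 1 else 0 : ℕ) = if i = 1 then 1 else 0 := by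
      fin_cases i <;> rfl
    rw [this]; exact S.nat _
  have e2 : SED SE i ⟨z, o.nat (bif Nat.beq i.val 2 then 1 else 0)⟩ (co 2) := by
    refine ⟨hz, ?_⟩
    rw [D_co]
    have : (bif Nat.beq i.val 2 then 1 else 0 : ℕ) = if i = 2 then 1 else 0 := by
      fin_cases i <;> rfl
    rw [this]; exact S.nat _
  have h1 := h (S.du i) e0 e1 e2 hok'
  exact ⟨gb_SE S hok h1.1.1 h1.1.2, h1.2⟩

/-- the function `W` -/
noncomputable def Wφ (φ : P → ℝ) : P → ℝ :=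
  fO.sub (fO.hm (fO.mul (fO.cs (co 2)) (D 2 φ))) (fO.mul (fO.sn (co 2)) (D 2 (D 2 φ)))

theorem Enc3.W {F : {T : Type} → Ops T → T → T → T → T} {φ : P → ℝ} {Ψ : P → Prop}
    (h : Enc3 F φ Ψ) : Enc3 (fun o => Wf o F) (Wφ φ) Ψ := by
  intro T K o ok SE S x y z hx hy hz hok
  have k1 := gb_ok S hok
  have k2 := gb_ok S k1.2
  have S2 := (S.du 2).du 2
  have n0 : SE (o.nat 0) (fO.nat 0) := S.nat 0
  have n1 : SE (o.nat 1) (fO.nat 1) := S.nat 1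
  have d0 : D 2 (co 0) = fO.nat 0 := by rw [D_co]; rfl
  have d1 : D 2 (co 1) = fO.nat 0 := by rw [D_co]; rfl
  have d2 : D 2 (co 2) = fO.nat 1 := by rw [D_co]; rfl
  have dn : ∀ n, D 2 (fO.nat n) = fO.nat 0 := D_nat 2
  have e0 : SED (SED SE 2) 2 ⟨⟨x, o.nat 0⟩, ⟨o.nat 0, o.nat 0⟩⟩ (co 0) := by
    refine ⟨⟨hx, ?_⟩, ?_, ?_⟩
    · rw [d0]; exact n0
    · rw [d0]; exact n0
    · rw [d0, dn]; exact n0
  have e1 : SED (SED SE 2) 2 ⟨⟨y, o.nat 0⟩, ⟨o.nat 0, o.nat 0⟩⟩ (co 1) := by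
    refine ⟨⟨hy, ?_⟩, ?_, ?_⟩
    · rw [d1]; exact n0
    · rw [d1]; exact n0
    · rw [d1, dn]; exact n0
  have e2 : SED (SED SE 2) 2 ⟨⟨z, o.nat 1⟩, ⟨o.nat 1, o.nat 0⟩⟩ (co 2) := by
    refine ⟨⟨hz, ?_⟩, ?_, ?_⟩
    · rw [d2]; exact n1
    · rw [d2]; exact n1
    · rw [d2, dn]; exact n0
  have k3 := (S.ok_sub k2.2)
  have k4 := S.ok_hm k3.1
  have k5 := S.ok_mul k4
  have k6 := S.ok_mul k3.2
  have h1 := h S2 e0 e1 e2 ⟨⟨k1.1, k5.2⟩, k2.1, k6.2⟩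
  obtain ⟨⟨⟨r1, r2⟩, r3, r4⟩, hΨ⟩ := h1
  refine ⟨gb_SE S hok r1 (gb_SE S k1.2 r3 ?_), hΨ⟩
  exact S.sub k2.2 (S.hm k3.1 (S.mul k4 (S.cs k5.1 hz) r2)) (S.mul k3.2 (S.sn k6.1 hz) r4)

theorem Enc3.neg {F : {T : Type} → Ops T → T → T → T → T} {φ : P → ℝ} {Ψ : P → Prop}
    (h : Enc3 F φ Ψ) : Enc3 (fun o => neg_ o F) (fO.sub (fO.nat 0) φ) Ψ := by
  intro T K o ok SE S x y z hx hy hz hok
  have h1 := h S hx hy hz (S.ok_sub hok).2
  exact ⟨S.sub hok (S.nat 0) h1.1, h1.2⟩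

/-- along a coordinate line, `D i φ` is the derivative -/
theorem hasDerivAt_line {φ : P → ℝ} {p : P} {i : Fin 3} {t : ℝ}
    (h : Sm φ (Function.update p i t)) :
    HasDerivAt (fun s => φ (Function.update p i s)) (D i φ (Function.update p i t)) t := by
  have h1 := h.diff.hasFDerivAt
  have h2 := hasDerivAt_update p i t
  exact h1.comp_hasDerivAt t h2

end H41FT
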