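import Pool.Agent.H41.FT.TMh
import Pool.Agent.H41.FT.Der

/-!
# Branch and bound certificates
-/

namespace H41FT

variable {b : Bx} {f : P → ℝ}

theorem pt_co (b : Bx) (x y z : ℝ) : co 0 (b.pt x y z) = (vl b.c0 + b.w0 * x) / SS ∧
    co 1 (b.pt x y z) = (vl b.c1 + b.w1 * y) / SS ∧
    co 2 (b.pt x y z) = (vl b.c2 + b.w2 * z) / SS := ⟨rfl, rfl, rfl⟩

theorem SE_var0 (b : Bx) : SE b (var0 b.c0 b.w0) (co 0) := by
  have hS := SS_pos
  refine ⟨fun p _ => Sm_coord 0, ?_⟩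
  have e : pl b.c0 (Nat.add BB b.w0) BB BB BB BB BB BB BB BB = ⟨vl b.c0, b.w0, 0, 0, 0, 0, 0, 0, 0, 0⟩ := by
    unfold pl; rw [vl_BB_add, vl_BB]
  have hw : (0 : ℝ) ≤ b.w0 := Nat.cast_nonneg _
  refine enc_mk' e le_rfl ?_ ?_ ?_ fun x y z _ _ _ => ?_
  · unfold Pl.n Pl.nG Pl.nH
    rw [Nat.add_eq]; push_cast; rw [ab_spec]
    simp [abs_of_nonneg hw]
  · unfold Pl.nG; simp
  · unfold Pl.nH; simp
  · unfold Pl.ev Pl.L Pl.Q
    rw [(pt_co b x y z).1]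
    simp only
    rw [div_mul_cancel₀ _ hS.ne']
    simp

theorem SE_var1 (b : Bx) : SE b (var1 b.c1 b.w1) (co 1) := by
  have hS := SS_pos
  refine ⟨fun p _ => Sm_coord 1, ?_⟩
  have e : pl b.c1 BB (Nat.add BB b.w1) BB BB BB BB BB BB BB = ⟨vl b.c1, 0, b.w1, 0, 0, 0, 0, 0, 0, 0⟩ := by
    unfold pl; rw [vl_BB_add, vl_BB]
  have hw : (0 : ℝ) ≤ b.w1 := Nat.cast_nonneg _
  refine enc_mk' e le_rfl ?_ ?_ ?_ fun x y z _ _ _ => ?_
  · unfold Pl.n Pl.nG Pl.nH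
    rw [Nat.add_eq]; push_cast; rw [ab_spec]
    simp [abs_of_nonneg hw]
  · unfold Pl.nG; simp
  · unfold Pl.nH; simp
  · unfold Pl.ev Pl.L Pl.Q
    rw [(pt_co b x y z).2.1]
    simp only
    rw [div_mul_cancel₀ _ hS.ne']
    simp

theorem SE_var2 (b : Bx) : SE b (var2 b.c2 b.w2) (co 2) := by
  have hS := SS_pos
  refine ⟨fun p _ => Sm_coord 2, ?_⟩
  have e : pl b.c2 BB BB (Nat.add BB b.w2) BB BB BB BB BB BB = ⟨vl b.c2, 0, 0, b.w2, 0, 0, 0, 0, 0, 0⟩ := by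
    unfold pl; rw [vl_BB_add, vl_BB]
  have hw : (0 : ℝ) ≤ b.w2 := Nat.cast_nonneg _
  refine enc_mk' e le_rfl ?_ ?_ ?_ fun x y z _ _ _ => ?_
  · unfold Pl.n Pl.nG Pl.nH
    rw [Nat.add_eq]; push_cast; rw [ab_spec]
    simp [abs_of_nonneg hw]
  · unfold Pl.nG; simp
  · unfold Pl.nH; simp
  · unfold Pl.ev Pl.L Pl.Q
    rw [(pt_co b x y z).2.2]
    simp only
    rw [div_mul_cancel₀ _ hS.ne']
    simp

theorem lw_spec (g h : ℕ) {x : ℝ} (hx : |x| ≤ 1) :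
    -((lw g h : ℕ) : ℝ) ≤ vl g * x + vl h * (x * x) := by
  have hx2 : |x| * |x| = x * x := abs_mul_abs_self x
  have hx0 := abs_nonneg x
  have e1 : ((Nat.sub h BB : ℕ) : ℝ) - ((Nat.sub BB h : ℕ) : ℝ) = vl h := by
    rw [Nat.sub_eq, Nat.sub_eq]; unfold vl
    rcases le_total h BB with k | k
    · rw [Nat.sub_eq_zero_of_le k, Nat.cast_sub k]; push_cast; ring
    · rw [Nat.sub_eq_zero_of_le k, Nat.cast_sub k]; push_cast; ring
  have hgx : -(|vl g| * |x|) ≤ vl g * x := by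
    have := neg_abs_le (vl g * x)
    rwa [abs_mul] at this
  unfold lw lwK
  rw [← e1]
  have hp0 : (0 : ℝ) ≤ ((Nat.sub h BB : ℕ) : ℝ) := Nat.cast_nonneg _
  have hn0 : (0 : ℝ) ≤ ((Nat.sub BB h : ℕ) : ℝ) := Nat.cast_nonneg _
  have hG : ((ab g : ℕ) : ℝ) = |vl g| := ab_spec g
  generalize Nat.sub h BB = hp at *
  generalize Nat.sub BB h = hn at *
  generalize ab g = G at *
  simp only [Nat.add_eq, Nat.sub_eq, Nat.succ_eq_add_one]
  change -((((G - hp - (G + 1) / 2 + (G + 1) / 2 + hn : ℕ)) : ℝ)) ≤ _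
  rw [← hG] at hgx
  have k1 : G - hp ≤ G - hp - (G + 1) / 2 + (G + 1) / 2 := by omega
  have k2 : (G + 1) / 2 ≤ G - hp - (G + 1) / 2 + (G + 1) / 2 := by omega
  have k3 : G ≤ 2 * ((G + 1) / 2) := by omega
  have k4 : G ≤ G - hp + hp := by omega
  generalize G - hp - (G + 1) / 2 + (G + 1) / 2 = M at *
  generalize (G + 1) / 2 = N at *
  generalize G - hp = Q at *
  have k1' : (Q : ℝ) ≤ M := by exact_mod_cast k1
  have k2' : (N : ℝ) ≤ M := by exact_mod_cast k2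
  have k3' : (G : ℝ) ≤ 2 * N := by exact_mod_cast k3
  have k4' : (G : ℝ) ≤ Q + hp := by exact_mod_cast k4
  have hG0 : (0 : ℝ) ≤ G := Nat.cast_nonneg _
  push_cast
  rw [← hx2]
  generalize |x| = s at *
  -- `-(M + hn) ≤ -G s + (hp - hn) s²`
  have hss : s * s ≤ 1 := by nlinarith
  have t1 : -(hn : ℝ) ≤ -(hn : ℝ) * (s * s) := by nlinarith
  have t2 : (G : ℝ) * s - hp * (s * s) ≤ M := by
    rcases le_total (G : ℝ) (2 * hp) with k | k
    · -- `hp ≥ G/2`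
      have : (G : ℝ) * s - hp * (s * s) ≤ G * s - G / 2 * (s * s) := by nlinarith [mul_nonneg hx0 hx0]
      have h2 : (G : ℝ) * s - G / 2 * (s * s) ≤ G / 2 := by nlinarith [mul_nonneg hG0 (sq_nonneg (1 - s))]
      linarith
    · have h3 : (G : ℝ) * s - hp * (s * s) ≤ G - hp := by
        have : 0 ≤ (1 - s) * (G - hp * (1 + s)) := by
          apply mul_nonneg (by linarith)
          nlinarith
        nlinarith
      linarith
  nlinarith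

theorem pos_real {B v g0 g1 g2 h00 h01 h02 h11 h12 h22 r F : ℝ} {l0 l1 l2 x y z : ℝ}
    (h : B + r + (l0 + (l1 + l2)) + (|h01| + (|h02| + |h12|)) + 1 ≤ v + B)
    (hx : |x| ≤ 1) (hy : |y| ≤ 1) (hz : |z| ≤ 1)
    (k0 : -l0 ≤ g0 * x + h00 * (x * x)) (k1 : -l1 ≤ g1 * y + h11 * (y * y))
    (k2 : -l2 ≤ g2 * z + h22 * (z * z))
    (hF : |F - (v + (g0 * x + g1 * y + g2 * z) + (h00 * (x * x) + h01 * (x * y) + h02 * (x * z) +
      h11 * (y * y) + h12 * (y * z) + h22 * (z * z)))| ≤ r) : 0 < F := by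
  have m0 := (abs_le.1 (Pl.mul_le_abs h01 (Pl.mul_le hx hy))).1
  have m1 := (abs_le.1 (Pl.mul_le_abs h02 (Pl.mul_le hx hz))).1
  have m2 := (abs_le.1 (Pl.mul_le_abs h12 (Pl.mul_le hy hz))).1
  have c1 := (abs_le.1 hF).1
  linarith

theorem bif_true {a b : Bool} (h : (bif a then b else false) = true) : a = true ∧ b = true := by
  cases a <;> simp_all

theorem ps1 {v g0 g1 g2 h00 h01 h02 h11 h12 h22 r n m G H : ℕ}
    (h : TM.pos (.mk v g0 g1 g2 h00 h01 h02 h11 h12 h22 r n m G H) = true) :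
    n < BB ∧ Nat.ble (Nat.succ (Nat.add (Nat.add (Nat.add BB r)
        (Nat.add (lw g0 h00) (Nat.add (lw g1 h11) (lw g2 h22))))
        (Nat.add (ab h01) (Nat.add (ab h02) (ab h12))))) v = true := by
  have h := bif_true h
  exact ⟨Nat.le_of_ble_eq_true h.1, h.2⟩

theorem ps2 {v g0 g1 g2 h00 h01 h02 h11 h12 h22 r : ℕ}
    (h : Nat.ble (Nat.succ (Nat.add (Nat.add (Nat.add BB r)
        (Nat.add (lw g0 h00) (Nat.add (lw g1 h11) (lw g2 h22))))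
        (Nat.add (ab h01) (Nat.add (ab h02) (ab h12))))) v = true) :
    (BB : ℝ) + r + ((lw g0 h00 : ℕ) + ((lw g1 h11 : ℕ) + (lw g2 h22 : ℕ))) +
      (|vl h01| + (|vl h02| + |vl h12|)) + 1 ≤ v := by
  have h' := Nat.le_of_ble_eq_true h
  have h2 := (Nat.cast_le (α := ℝ)).2 h'
  simp only [Nat.add_eq, Nat.succ_eq_add_one, Nat.cast_add, Nat.cast_one, ab_spec] at h2
  exact h2

theorem ps3 (v : ℕ) : (v : ℝ) = vl v + BB := by unfold vl; ring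

theorem pos_sound {x : TM} (h : TM.pos x = true) : ok x ∧ (enc b x f → ∀ p ∈ b.K, 0 < f p) := by
  cases x with
  | z n => exact absurd h Bool.false_ne_true
  | mk v g0 g1 g2 h00 h01 h02 h11 h12 h22 r n m G H =>
    obtain ⟨h1, h2⟩ := ps1 h
    refine ⟨h1, ?_⟩
    rintro ⟨-, -, -, -, a5⟩ p ⟨x, y, z, hx, hy, hz, rfl⟩
    have h3 := ps2 h2
    rw [ps3 v] at h3
    have key := pos_real (v := vl v) (F := f (b.pt x y z) * SS) h3 hx hy hz (lw_spec g0 h00 hx)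
      (lw_spec g1 h11 hy) (lw_spec g2 h22 hz) (a5 x y z hx hy hz)
    exact (mul_pos_iff_of_pos_right SS_pos).1 key

/-- evaluation on a box -/
def evB (F : {T : Type} → Ops T → T → T → T → T) (c0 w0 c1 w1 c2 w2 : Nat) : TM :=
  F tO (var0 c0 w0) (var1 c1 w1) (var2 c2 w2)

theorem evB_sound {F : {T : Type} → Ops T → T → T → T → T} {φ : P → ℝ} {Ψ : P → Prop}
    (h : Enc3 F φ Ψ) (b : Bx) (hp : TM.pos (evB F b.c0 b.w0 b.c1 b.w1 b.c2 b.w2) = true) :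
    ∀ p ∈ b.K, 0 < φ p ∧ Ψ p := by
  have h1 := pos_sound (b := b) (f := φ) hp
  have h2 := h (sound_tO b) (SE_var0 b) (SE_var1 b) (SE_var2 b) h1.1
  exact fun p hp => ⟨h1.2 h2.1.2 p hp, h2.2 p hp⟩

/-- branch and bound trees -/
inductive Tr where
  | lf : Tr
  | sk : Nat → Tr
  | s0 : Tr → Tr → Tr
  | s1 : Tr → Tr → Tr
  | s2 : Tr → Tr → Tr

/-- half, rounded up -/
def hf (w : Nat) : Nat := Nat.div (Nat.succ w) 2

/-- the check, with leaf test `L` and skip test `S` -/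
def chk (L : Nat → Nat → Nat → Nat → Nat → Nat → Bool)
    (S : Nat → Nat → Nat → Nat → Nat → Nat → Nat → Bool) :
    Tr → Nat → Nat → Nat → Nat → Nat → Nat → Bool
  | .lf, c0, w0, c1, w1, c2, w2 => L c0 w0 c1 w1 c2 w2
  | .sk j, c0, w0, c1, w1, c2, w2 => S j c0 w0 c1 w1 c2 w2
  | .s0 l r, c0, w0, c1, w1, c2, w2 =>
    bif Nat.ble (hf w0) c0 then
      bif chk L S l (Nat.sub c0 (hf w0)) (hf w0) c1 w1 c2 w2 then
        chk L S r (Nat.add c0 (hf w0)) (hf w0) c1 w1 c2 w2 else false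
    else false
  | .s1 l r, c0, w0, c1, w1, c2, w2 =>
    bif Nat.ble (hf w1) c1 then
      bif chk L S l c0 w0 (Nat.sub c1 (hf w1)) (hf w1) c2 w2 then
        chk L S r c0 w0 (Nat.add c1 (hf w1)) (hf w1) c2 w2 else false
    else false
  | .s2 l r, c0, w0, c1, w1, c2, w2 =>
    bif Nat.ble (hf w2) c2 then
      bif chk L S l c0 w0 c1 w1 (Nat.sub c2 (hf w2)) (hf w2) then
        chk L S r c0 w0 c1 w1 (Nat.add c2 (hf w2)) (hf w2) else false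
    else false

/-- real box in units of `1/SS`: `|S p_i - vl c_i| ≤ w_i` -/
def Bx.In (b : Bx) (p : P) : Prop :=
  |p 0 * SS - vl b.c0| ≤ b.w0 ∧ |p 1 * SS - vl b.c1| ≤ b.w1 ∧ |p 2 * SS - vl b.c2| ≤ b.w2

theorem coord_norm {q c : ℝ} {w : ℕ} (h : |q - c| ≤ w) : ∃ x : ℝ, |x| ≤ 1 ∧ q = c + w * x := by
  rcases Nat.eq_zero_or_pos w with hw | hw
  · subst hw
    refine ⟨0, by simp, ?_⟩
    have : |q - c| ≤ 0 := by simpa using h
    have := abs_eq_zero.1 (le_antisymm this (abs_nonneg _))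
    push_cast; linarith
  · have hw' : (0 : ℝ) < w := by exact_mod_cast hw
    refine ⟨(q - c) / w, ?_, ?_⟩
    · rw [abs_div, abs_of_pos hw', div_le_one hw']; exact h
    · field_simp; ring

theorem Bx.In.memK {b : Bx} {p : P} (h : b.In p) : p ∈ b.K := by
  obtain ⟨h0, h1, h2⟩ := h
  obtain ⟨x, hx, ex⟩ := coord_norm h0
  obtain ⟨y, hy, ey⟩ := coord_norm h1
  obtain ⟨z, hz, ez⟩ := coord_norm h2
  refine ⟨x, y, z, hx, hy, hz, ?_⟩
  have hS := SS_pos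
  have k0 : p 0 = (vl b.c0 + b.w0 * x) / SS := by rw [← ex]; field_simp
  have k1 : p 1 = (vl b.c1 + b.w1 * y) / SS := by rw [← ey]; field_simp
  have k2 : p 2 = (vl b.c2 + b.w2 * z) / SS := by rw [← ez]; field_simp
  unfold Bx.pt
  ext i
  fin_cases i
  · exact k0
  · exact k1
  · exact k2

theorem hf_ge (w : ℕ) : (w : ℝ) ≤ 2 * ((hf w : ℕ) : ℝ) := by
  unfold hf
  have : w ≤ 2 * ((w + 1) / 2) := by omega
  exact_mod_cast this

/-- splitting an interval -/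
theorem split_co {q : ℝ} {c w : ℕ} (hu : hf w ≤ c) (h : |q - vl c| ≤ w) :
    |q - vl (Nat.sub c (hf w))| ≤ ((hf w : ℕ) : ℝ) ∨ |q - vl (Nat.add c (hf w))| ≤ ((hf w : ℕ) : ℝ) := by
  have h1 := hf_ge w
  generalize hf w = u at *
  rw [abs_le] at h
  unfold vl at *
  rcases le_total (q - ((c : ℝ) - BB)) 0 with k | k
  · left
    rw [Nat.sub_eq, Nat.cast_sub hu, abs_le]
    constructor <;> linarith [h.1, h.2]
  · right
    rw [Nat.add_eq, abs_le]; push_cast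
    constructor <;> linarith [h.1, h.2]

/-- soundness of the tree check -/
theorem chk_sound {L : Nat → Nat → Nat → Nat → Nat → Nat → Bool}
    {S : Nat → Nat → Nat → Nat → Nat → Nat → Nat → Bool} {Q : P → Prop}
    (hL : ∀ b : Bx, L b.c0 b.w0 b.c1 b.w1 b.c2 b.w2 = true → ∀ p, b.In p → Q p)
    (hS : ∀ j, ∀ b : Bx, S j b.c0 b.w0 b.c1 b.w1 b.c2 b.w2 = true → ∀ p, b.In p → Q p) :
    ∀ (t : Tr) (b : Bx), chk L S t b.c0 b.w0 b.c1 b.w1 b.c2 b.w2 = true → ∀ p, b.In p → Q p := by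
  intro t
  induction t with
  | lf => intro b h p hp; exact hL b h p hp
  | sk j => intro b h p hp; exact hS j b h p hp
  | s0 l r ihl ihr =>
    intro b h p hp
    obtain ⟨h0, h⟩ := bif_true h
    obtain ⟨h1, h2⟩ := bif_true h
    obtain ⟨p0, p1, p2⟩ := hp
    rcases split_co (Nat.le_of_ble_eq_true h0) p0 with k | k
    · exact ihl ⟨Nat.sub b.c0 (hf b.w0), hf b.w0, b.c1, b.w1, b.c2, b.w2⟩ h1 p ⟨k, p1, p2⟩
    · exact ihr ⟨Nat.add b.c0 (hf b.w0), hf b.w0, b.c1, b.w1, b.c2, b.w2⟩ h2 p ⟨k, p1, p2⟩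
  | s1 l r ihl ihr =>
    intro b h p hp
    obtain ⟨h0, h⟩ := bif_true h
    obtain ⟨h1, h2⟩ := bif_true h
    obtain ⟨p0, p1, p2⟩ := hp
    rcases split_co (Nat.le_of_ble_eq_true h0) p1 with k | k
    · exact ihl ⟨b.c0, b.w0, Nat.sub b.c1 (hf b.w1), hf b.w1, b.c2, b.w2⟩ h1 p ⟨p0, k, p2⟩
    · exact ihr ⟨b.c0, b.w0, Nat.add b.c1 (hf b.w1), hf b.w1, b.c2, b.w2⟩ h2 p ⟨p0, k, p2⟩
  | s2 l r ihl ihr =>
    intro b h p hp
    obtain ⟨h0, h⟩ := bif_true h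
    obtain ⟨h1, h2⟩ := bif_true h
    obtain ⟨p0, p1, p2⟩ := hp
    rcases split_co (Nat.le_of_ble_eq_true h0) p2 with k | k
    · exact ihl ⟨b.c0, b.w0, b.c1, b.w1, Nat.sub b.c2 (hf b.w2), hf b.w2⟩ h1 p ⟨p0, p1, k⟩
    · exact ihr ⟨b.c0, b.w0, b.c1, b.w1, Nat.add b.c2 (hf b.w2), hf b.w2⟩ h2 p ⟨p0, p1, k⟩

/-- leaf test of a function -/
def LT (F : {T : Type} → Ops T → T → T → T → T) (c0 w0 c1 w1 c2 w2 : Nat) : Bool :=
  TM.pos (evB F c0 w0 c1 w1 c2 w2)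

end H41FT
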