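import Pool.Agent.H41.FT.Kid
import Pool.Agent.H41.FT.L3

/-!
# Chart identities for the sides and for `T_-`
-/

namespace H41FT

open H45FT Real

variable {a b c : ℝ}

/-- the angle from the half-angle formula: `P² + Q² = S²` -/
theorem ang_half {t P Q S : ℝ} (hS : 0 < S) (hP : 0 ≤ P) (hQ : 0 ≤ Q) (h : P ^ 2 + Q ^ 2 = S ^ 2)
    (ht : |t| = Q / S) : 2 * (2 / π * arctan (P * (S + Q)⁻¹)) = ang t := by
  have hq1 : Q / S ≤ 1 := by
    rw [div_le_one hS]; nlinarith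
  have hq0 : 0 ≤ Q / S := by positivity
  have h1 : cos (arccos (Q / S)) = Q / S := cos_arccos (by linarith) hq1
  have h2 : sin (arccos (Q / S)) = P / S := by
    rw [sin_arccos]
    rw [show 1 - (Q / S) ^ 2 = (P / S) ^ 2 by field_simp; linarith]
    exact Real.sqrt_sq (by positivity)
  have hp := Real.pi_pos
  have h3 := arccos_nonneg (Q / S)
  have h4 : arccos (Q / S) ≤ π / 2 := arccos_le_pi_div_two.2 hq0
  have e : P * (S + Q)⁻¹ = P / S * (1 + Q / S)⁻¹ := by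
    have : 0 < S + Q := by linarith
    field_simp
  rw [e, at_two (θ := arccos (Q / S)) (by linarith) (by linarith) h2.symm h1.symm]
  unfold ang
  rw [ht]

theorem Fsd3_eq {x y z u v w sa sb sc : ℝ} (hu : sin (π / 2 * x) = u) (hv : sin (π / 2 * y) = v)
    (hw : sin (π / 2 * z) = w) (hsa : cos (π / 2 * x) = sa) (hsb : cos (π / 2 * y) = sb)
    (hsc : cos (π / 2 * z) = sc) {G : ℝ}
    (hG : ((1 : ℕ) : ℝ) - u * u - v * v - w * w - ((2 : ℕ) : ℝ) * (u * v * w) = G) :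
    Fsd rO 3 x y z = FG rO 3 (((1 : ℕ) : ℝ) - x) (((1 : ℕ) : ℝ) - y) (((1 : ℕ) : ℝ) - z)
      u v w sa sb sc G
      (((2 : ℕ) : ℝ) * (2 / π * arctan (√G * (sb * sc + (u + v * w))⁻¹))) ((u + v * w) * (sb * sc)⁻¹)
      (((2 : ℕ) : ℝ) * (2 / π * arctan (√G * (sc * sa + (v + w * u))⁻¹))) ((v + w * u) * (sc * sa)⁻¹)
      (((2 : ℕ) : ℝ) * (2 / π * arctan (√G * (sa * sb + (w + u * v))⁻¹))) ((w + u * v) * (sa * sb)⁻¹) := by
  subst hu; subst hv; subst hw; subst hsa; subst hsb; subst hsc; subst hG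
  rfl

theorem Fsd0_eq {x y z u v w sa sb sc : ℝ} (hu : sin (π / 2 * x) = u) (hv : sin (π / 2 * y) = v)
    (hw : sin (π / 2 * z) = w) (hsa : cos (π / 2 * x) = sa) (hsb : cos (π / 2 * y) = sb)
    (hsc : cos (π / 2 * z) = sc) {G : ℝ}
    (hG : ((1 : ℕ) : ℝ) - u * u - v * v - w * w + ((2 : ℕ) : ℝ) * (u * v * w) = G) :
    Fsd rO 0 x y z = FG rO 0 (((1 : ℕ) : ℝ) - x) (((1 : ℕ) : ℝ) - y) (((1 : ℕ) : ℝ) - z)
      u v w sa sb sc G
      (((2 : ℕ) : ℝ) * (2 / π * arctan (√G * (sb * sc + (u - v * w))⁻¹))) ((u - v * w) * (sb * sc)⁻¹)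
      (((2 : ℕ) : ℝ) * (2 / π * arctan (√G * (sc * sa + (v - w * u))⁻¹))) ((v - w * u) * (sc * sa)⁻¹)
      (((2 : ℕ) : ℝ) * (2 / π * arctan (√G * (sa * sb + (w - u * v))⁻¹))) ((w - u * v) * (sa * sb)⁻¹) := by
  subst hu; subst hv; subst hw; subst hsa; subst hsb; subst hsc; subst hG
  rfl

theorem gram_id {σ : ℝ} (hσ : σ ^ 2 = 1) (a b c : ℝ) :
    gram3 σ a b c + (σ * cos (π / 2 * c) - cos (π / 2 * a) * cos (π / 2 * b)) ^ 2 =
      (sin (π / 2 * a) * sin (π / 2 * b)) ^ 2 := by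
  unfold gram3
  have h1 := sin_sq_add_cos_sq (π / 2 * a)
  have h2 := sin_sq_add_cos_sq (π / 2 * b)
  have e1 : sin (π / 2 * a) ^ 2 = 1 - cos (π / 2 * a) ^ 2 := by linarith
  have e2 : sin (π / 2 * b) ^ 2 = 1 - cos (π / 2 * b) ^ 2 := by linarith
  rw [mul_pow, e1, e2]
  linear_combination (cos (π / 2 * c) ^ 2) * hσ

/-- the angle at a vertex from the Gram determinant, `σ = -1` -/
theorem ang_neg {a b c : ℝ} (h0 : 0 < a) (ha : a ≤ 1) (hb0 : 0 < b) (hb : b ≤ 1) (hc0 : 0 ≤ c)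
    (hc : c ≤ 1) (hg : 0 ≤ gram3 (-1) a b c) :
    ang (dih (-1) a b c) = 2 * (2 / π * arctan (√(gram3 (-1) a b c) *
      (sin (π / 2 * a) * sin (π / 2 * b) + (cos (π / 2 * c) + cos (π / 2 * a) * cos (π / 2 * b)))⁻¹)) ∧
    |dih (-1) a b c| = (cos (π / 2 * c) + cos (π / 2 * a) * cos (π / 2 * b)) *
      (sin (π / 2 * a) * sin (π / 2 * b))⁻¹ := by
  have h1 := csn h0.le ha
  have h2 := csn hb0.le hb
  have h3 := csn hc0 hc
  have h4 := snp h0 ha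
  have h5 := snp hb0 hb
  have hd := dih_neg h0 ha hb0 hb hc0 hc
  have e : |dih (-1) a b c| = (cos (π / 2 * c) + cos (π / 2 * a) * cos (π / 2 * b)) /
      (sin (π / 2 * a) * sin (π / 2 * b)) := by
    rw [abs_of_nonpos hd]; unfold dih; rw [← neg_div]; congr 1; ring
  refine ⟨(ang_half (by positivity) (Real.sqrt_nonneg _) (by positivity) ?_ e).symm, e⟩
  rw [Real.sq_sqrt hg, ← gram_id (σ := -1) (by norm_num) a b c]
  ring

/-- the angle at a vertex from the Gram determinant, `σ = 1`, acute -/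
theorem ang_pos {a b c : ℝ} (h0 : 0 < a) (ha : a ≤ 1) (hb0 : 0 < b) (hb : b ≤ 1)
    (hd : 0 ≤ dih 1 a b c) (hg : 0 ≤ gram3 1 a b c) :
    ang (dih 1 a b c) = 2 * (2 / π * arctan (√(gram3 1 a b c) *
      (sin (π / 2 * a) * sin (π / 2 * b) + (cos (π / 2 * c) - cos (π / 2 * a) * cos (π / 2 * b)))⁻¹)) ∧
    |dih 1 a b c| = (cos (π / 2 * c) - cos (π / 2 * a) * cos (π / 2 * b)) *
      (sin (π / 2 * a) * sin (π / 2 * b))⁻¹ := by
  have h4 := snp h0 ha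
  have h5 := snp hb0 hb
  have e : |dih 1 a b c| = (cos (π / 2 * c) - cos (π / 2 * a) * cos (π / 2 * b)) /
      (sin (π / 2 * a) * sin (π / 2 * b)) := by
    rw [abs_of_nonneg hd]; unfold dih; rw [one_mul]
  have hQ : 0 ≤ cos (π / 2 * c) - cos (π / 2 * a) * cos (π / 2 * b) := by
    have := dih_mul (c := c) 1 h0 ha hb0 hb
    have h6 : 0 ≤ dih 1 a b c * (sin (π / 2 * a) * sin (π / 2 * b)) := by positivity
    rw [this] at h6; linarith
  refine ⟨(ang_half (by positivity) (Real.sqrt_nonneg _) hQ ?_ e).symm, e⟩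
  rw [Real.sq_sqrt hg, ← gram_id (σ := 1) (by norm_num) a b c]
  ring

theorem sin_comp (a : ℝ) : sin (π / 2 * (1 - a)) = cos (π / 2 * a) := by
  rw [mul_sub, mul_one, sin_pi_div_two_sub]
theorem cos_comp (a : ℝ) : cos (π / 2 * (1 - a)) = sin (π / 2 * a) := by
  rw [mul_sub, mul_one, cos_pi_div_two_sub]

theorem CH_Fsd3 (h0 : 0 < a) (hab : a ≤ b) (hbc : b ≤ c) (hc : c ≤ 1) (hs : 2 ≤ a + b + c) :
    Tt 3 (-1) a b c = Fsd rO 3 (1 - a) (1 - b) (1 - c) := by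
  have ha1 : a ≤ 1 := by linarith
  have hb0 : 0 < b := by linarith
  have hb1 : b ≤ 1 := by linarith
  have hc0 : 0 < c := by linarith
  have hg : 0 ≤ gram3 (-1) a b c := (gram3_neg_nonneg_iff h0 hab hbc hc).2 hs
  have hgx : gram3 (-1) b c a = gram3 (-1) a b c := by unfold gram3; ring
  have hgy : gram3 (-1) c a b = gram3 (-1) a b c := by unfold gram3; ring
  obtain ⟨z1, z2⟩ := ang_neg h0 ha1 hb0 hb1 hc0.le hc hg
  obtain ⟨x1, x2⟩ := ang_neg hb0 hb1 hc0 hc h0.le ha1 (hgx ▸ hg)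
  obtain ⟨y1, y2⟩ := ang_neg hc0 hc h0 ha1 hb0.le hb1 (hgy ▸ hg)
  rw [hgx] at x1
  rw [hgy] at y1
  have hG : ((1 : ℕ) : ℝ) - cos (π / 2 * a) * cos (π / 2 * a) - cos (π / 2 * b) * cos (π / 2 * b) -
      cos (π / 2 * c) * cos (π / 2 * c) - ((2 : ℕ) : ℝ) * (cos (π / 2 * a) * cos (π / 2 * b) *
      cos (π / 2 * c)) = gram3 (-1) a b c := by
    unfold gram3; push_cast; ring
  rw [Fsd3_eq (sin_comp a) (sin_comp b) (sin_comp c) (cos_comp a) (cos_comp b) (cos_comp c) hG]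
  unfold Tt
  rw [x1, x2, y1, y2, z1, z2]
  simp only [Nat.cast_one, Nat.cast_ofNat, sub_sub_cancel]

theorem CH_Fsd0 (h0 : 0 < a) (hab : a ≤ b) (hbc : b ≤ c) (hc : c ≤ 1) (hs : c ≤ a + b)
    (ht : 0 ≤ dih 1 a b c) : Tt 0 1 a b c = Fsd rO 0 (1 - a) (1 - b) (1 - c) := by
  have ha1 : a ≤ 1 := by linarith
  have hb0 : 0 < b := by linarith
  have hb1 : b ≤ 1 := by linarith
  have hc0 : 0 < c := by linarith
  have hg : 0 ≤ gram3 1 a b c := (gram3_one_nonneg_iff h0 hab hbc hc).2 hs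
  have hgx : gram3 1 b c a = gram3 1 a b c := by unfold gram3; ring
  have hgy : gram3 1 c a b = gram3 1 a b c := by unfold gram3; ring
  obtain ⟨z1, z2⟩ := ang_pos h0 ha1 hb0 hb1 ht hg
  obtain ⟨x1, x2⟩ := ang_pos hb0 hb1 hc0 hc (dih_x_nonneg h0 hab hbc hc) (hgx ▸ hg)
  obtain ⟨y1, y2⟩ := ang_pos hc0 hc h0 ha1 (dih_y_nonneg h0 hab hbc hc) (hgy ▸ hg)
  rw [hgx] at x1
  rw [hgy] at y1
  have hG : ((1 : ℕ) : ℝ) - cos (π / 2 * a) * cos (π / 2 * a) - cos (π / 2 * b) * cos (π / 2 * b) -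
      cos (π / 2 * c) * cos (π / 2 * c) + ((2 : ℕ) : ℝ) * (cos (π / 2 * a) * cos (π / 2 * b) *
      cos (π / 2 * c)) = gram3 1 a b c := by
    unfold gram3; push_cast; ring
  rw [Fsd0_eq (sin_comp a) (sin_comp b) (sin_comp c) (cos_comp a) (cos_comp b) (cos_comp c) hG]
  unfold Tt
  rw [x1, x2, y1, y2, z1, z2]
  simp only [Nat.cast_one, Nat.cast_ofNat, sub_sub_cancel]

end H41FT
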