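import Pool.Agent.H41.FT.Check

/-!
# The list of claims which are checked by branch and bound
-/

namespace H41FT

/-! ### guards -/

section guards

variable {T : Type} (o : Ops T)

def gN (_ _ _ : T) : T := o.nat 0
def gC3 (a g n : T) : T :=
  lt (o.cs a) fun u => lt (o.sn a) fun sa => lt (o.cs g) fun ka =>
  o.sub (o.mul ka (o.mul sa sa)) (o.mul u (o.add u n))
def gXY (x y _ : T) : T := o.sub y x
def gYZ (_ y z : T) : T := o.sub z y
def gYX (x y _ : T) : T := o.sub x y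
def gT1 (r t _ : T) : T :=
  lt (o.mul r t) fun rt => o.sub (o.add (o.add rt t) (o.mul rt t)) (o.nat 1)
def gW (a b g : T) : T :=
  o.sub (o.mul (o.mul (o.sn a) (o.sn b)) (o.cs g)) (o.mul (o.cs a) (o.cs b))
def gS1 (a b _ : T) : T := o.sub (o.nat 1) (o.add a b)
def gO (x y _ : T) : T := o.sub (o.smul 25 (o.add x y)) (o.nat 3)

end guards

section

variable {T : Type} {K : Set P} {o : Ops T} {ok : T → Prop} {SE : T → (P → ℝ) → Prop}

theorem gN_R (S : Sound K o ok SE) {a b g : T} {a' b' g' : P → ℝ} (_ : R ok SE a a')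
    (_ : R ok SE b b') (_ : R ok SE g g') : R ok SE (gN o a b g) (gN fO a' b' g') := by
  unfold gN; (repeat first | assumption | exact Sound.rnat S _ | apply Sound.radd S | apply Sound.rsub S | apply Sound.rmul S | apply Sound.rsmul S | apply Sound.rhm S | apply Sound.rinv S | apply Sound.rsqrt S | apply Sound.rsn S | apply Sound.rcs S | apply Sound.rat S | (refine rlt ?_ ?_ ; rotate_left ; intro _ _ _))
theorem gC3_R (S : Sound K o ok SE) {a b g : T} {a' b' g' : P → ℝ} (h1 : R ok SE a a')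
    (h2 : R ok SE b b') (h3 : R ok SE g g') : R ok SE (gC3 o a b g) (gC3 fO a' b' g') := by
  unfold gC3
  refine rlt (S.rcs h1) fun _ _ u => rlt (S.rsn h1) fun _ _ sa => rlt (S.rcs h2) fun _ _ ka => ?_
  (repeat first | assumption | exact Sound.rnat S _ | apply Sound.radd S | apply Sound.rsub S | apply Sound.rmul S | apply Sound.rsmul S | apply Sound.rhm S | apply Sound.rinv S | apply Sound.rsqrt S | apply Sound.rsn S | apply Sound.rcs S | apply Sound.rat S | (refine rlt ?_ ?_ ; rotate_left ; intro _ _ _))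
theorem gXY_R (S : Sound K o ok SE) {a b g : T} {a' b' g' : P → ℝ} (h1 : R ok SE a a')
    (h2 : R ok SE b b') (_ : R ok SE g g') : R ok SE (gXY o a b g) (gXY fO a' b' g') := by
  unfold gXY; (repeat first | assumption | exact Sound.rnat S _ | apply Sound.radd S | apply Sound.rsub S | apply Sound.rmul S | apply Sound.rsmul S | apply Sound.rhm S | apply Sound.rinv S | apply Sound.rsqrt S | apply Sound.rsn S | apply Sound.rcs S | apply Sound.rat S | (refine rlt ?_ ?_ ; rotate_left ; intro _ _ _))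
theorem gYZ_R (S : Sound K o ok SE) {a b g : T} {a' b' g' : P → ℝ} (_ : R ok SE a a')
    (h2 : R ok SE b b') (h3 : R ok SE g g') : R ok SE (gYZ o a b g) (gYZ fO a' b' g') := by
  unfold gYZ; (repeat first | assumption | exact Sound.rnat S _ | apply Sound.radd S | apply Sound.rsub S | apply Sound.rmul S | apply Sound.rsmul S | apply Sound.rhm S | apply Sound.rinv S | apply Sound.rsqrt S | apply Sound.rsn S | apply Sound.rcs S | apply Sound.rat S | (refine rlt ?_ ?_ ; rotate_left ; intro _ _ _))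
theorem gYX_R (S : Sound K o ok SE) {a b g : T} {a' b' g' : P → ℝ} (h1 : R ok SE a a')
    (h2 : R ok SE b b') (_ : R ok SE g g') : R ok SE (gYX o a b g) (gYX fO a' b' g') := by
  unfold gYX; (repeat first | assumption | exact Sound.rnat S _ | apply Sound.radd S | apply Sound.rsub S | apply Sound.rmul S | apply Sound.rsmul S | apply Sound.rhm S | apply Sound.rinv S | apply Sound.rsqrt S | apply Sound.rsn S | apply Sound.rcs S | apply Sound.rat S | (refine rlt ?_ ?_ ; rotate_left ; intro _ _ _))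
theorem gT1_R (S : Sound K o ok SE) {a b g : T} {a' b' g' : P → ℝ} (h1 : R ok SE a a')
    (h2 : R ok SE b b') (_ : R ok SE g g') : R ok SE (gT1 o a b g) (gT1 fO a' b' g') := by
  unfold gT1
  refine rlt (S.rmul h1 h2) fun _ _ u => ?_
  (repeat first | assumption | exact Sound.rnat S _ | apply Sound.radd S | apply Sound.rsub S | apply Sound.rmul S | apply Sound.rsmul S | apply Sound.rhm S | apply Sound.rinv S | apply Sound.rsqrt S | apply Sound.rsn S | apply Sound.rcs S | apply Sound.rat S | (refine rlt ?_ ?_ ; rotate_left ; intro _ _ _))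
theorem gW_R (S : Sound K o ok SE) {a b g : T} {a' b' g' : P → ℝ} (h1 : R ok SE a a')
    (h2 : R ok SE b b') (h3 : R ok SE g g') : R ok SE (gW o a b g) (gW fO a' b' g') := by
  unfold gW; (repeat first | assumption | exact Sound.rnat S _ | apply Sound.radd S | apply Sound.rsub S | apply Sound.rmul S | apply Sound.rsmul S | apply Sound.rhm S | apply Sound.rinv S | apply Sound.rsqrt S | apply Sound.rsn S | apply Sound.rcs S | apply Sound.rat S | (refine rlt ?_ ?_ ; rotate_left ; intro _ _ _))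
theorem gS1_R (S : Sound K o ok SE) {a b g : T} {a' b' g' : P → ℝ} (h1 : R ok SE a a')
    (h2 : R ok SE b b') (_ : R ok SE g g') : R ok SE (gS1 o a b g) (gS1 fO a' b' g') := by
  unfold gS1; (repeat first | assumption | exact Sound.rnat S _ | apply Sound.radd S | apply Sound.rsub S | apply Sound.rmul S | apply Sound.rsmul S | apply Sound.rhm S | apply Sound.rinv S | apply Sound.rsqrt S | apply Sound.rsn S | apply Sound.rcs S | apply Sound.rat S | (refine rlt ?_ ?_ ; rotate_left ; intro _ _ _))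
theorem gO_R (S : Sound K o ok SE) {a b g : T} {a' b' g' : P → ℝ} (h1 : R ok SE a a')
    (h2 : R ok SE b b') (_ : R ok SE g g') : R ok SE (gO o a b g) (gO fO a' b' g') := by
  unfold gO; (repeat first | assumption | exact Sound.rnat S _ | apply Sound.radd S | apply Sound.rsub S | apply Sound.rmul S | apply Sound.rsmul S | apply Sound.rhm S | apply Sound.rinv S | apply Sound.rsqrt S | apply Sound.rsn S | apply Sound.rcs S | apply Sound.rat S | (refine rlt ?_ ?_ ; rotate_left ; intro _ _ _))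

end

/-- polymorphic functions of three variables -/
abbrev PF := {T : Type} → Ops T → T → T → T → T

/-- the function on parameter space -/
noncomputable def ev (F : PF) : P → ℝ := F fO (co 0) (co 1) (co 2)

/-- base enclosures -/
theorem enc_Fc3 : Enc3 Fc3 (ev Fc3) (Sm (ev Fc3)) := Enc3.of_R fun S _ _ _ _ _ _ h1 h2 h3 => Fc3_R S h1 h2 h3
theorem enc_F0t : Enc3 F0t (ev F0t) (Sm (ev F0t)) := Enc3.of_R fun S _ _ _ _ _ _ h1 h2 h3 => F0t_R S h1 h2 h3
theorem enc_Fon : Enc3 Fon (ev Fon) (Sm (ev Fon)) := Enc3.of_R fun S _ _ _ _ _ _ h1 h2 h3 => Fon_R S h1 h2 h3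

def F1t2 {T : Type} (o : Ops T) (x y z : T) : T := F1t o 2 x y z
def Fsd3 {T : Type} (o : Ops T) (x y z : T) : T := Fsd o 3 x y z
def FsG2 {T : Type} (o : Ops T) (x y z : T) : T := FsG o 2 x y z
def FsG1 {T : Type} (o : Ops T) (x y z : T) : T := FsG o 1 x y z

theorem enc_F1t2 : Enc3 F1t2 (ev F1t2) (Sm (ev F1t2)) :=
  Enc3.of_R fun S _ _ _ _ _ _ h1 h2 h3 => F1t_R S 2 h1 h2 h3
theorem enc_Fsd3 : Enc3 Fsd3 (ev Fsd3) (Sm (ev Fsd3)) :=
  Enc3.of_R fun S _ _ _ _ _ _ h1 h2 h3 => Fsd_R S 3 h1 h2 h3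
theorem enc_FsG2 : Enc3 FsG2 (ev FsG2) (Sm (ev FsG2)) :=
  Enc3.of_R fun S _ _ _ _ _ _ h1 h2 h3 => FsG_R S 2 h1 h2 h3
theorem enc_FsG1 : Enc3 FsG1 (ev FsG1) (Sm (ev FsG1)) :=
  Enc3.of_R fun S _ _ _ _ _ _ h1 h2 h3 => FsG_R S 1 h1 h2 h3

theorem enc_gN : Enc3 gN (ev gN) (Sm (ev gN)) := Enc3.of_R fun S _ _ _ _ _ _ h1 h2 h3 => gN_R S h1 h2 h3
theorem enc_gC3 : Enc3 gC3 (ev gC3) (Sm (ev gC3)) := Enc3.of_R fun S _ _ _ _ _ _ h1 h2 h3 => gC3_R S h1 h2 h3
theorem enc_gXY : Enc3 gXY (ev gXY) (Sm (ev gXY)) := Enc3.of_R fun S _ _ _ _ _ _ h1 h2 h3 => gXY_R S h1 h2 h3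
theorem enc_gYZ : Enc3 gYZ (ev gYZ) (Sm (ev gYZ)) := Enc3.of_R fun S _ _ _ _ _ _ h1 h2 h3 => gYZ_R S h1 h2 h3
theorem enc_gYX : Enc3 gYX (ev gYX) (Sm (ev gYX)) := Enc3.of_R fun S _ _ _ _ _ _ h1 h2 h3 => gYX_R S h1 h2 h3
theorem enc_gT1 : Enc3 gT1 (ev gT1) (Sm (ev gT1)) := Enc3.of_R fun S _ _ _ _ _ _ h1 h2 h3 => gT1_R S h1 h2 h3
theorem enc_gW : Enc3 gW (ev gW) (Sm (ev gW)) := Enc3.of_R fun S _ _ _ _ _ _ h1 h2 h3 => gW_R S h1 h2 h3
theorem enc_gS1 : Enc3 gS1 (ev gS1) (Sm (ev gS1)) := Enc3.of_R fun S _ _ _ _ _ _ h1 h2 h3 => gS1_R S h1 h2 h3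
theorem enc_gO : Enc3 gO (ev gO) (Sm (ev gO)) := Enc3.of_R fun S _ _ _ _ _ _ h1 h2 h3 => gO_R S h1 h2 h3

/-- skip test -/
def SK (g0 g1 g2 : PF) : Nat → Nat → Nat → Nat → Nat → Nat → Nat → Bool
  | 0, c0, w0, c1, w1, c2, w2 => LT g0 c0 w0 c1 w1 c2 w2
  | 1, c0, w0, c1, w1, c2, w2 => LT g1 c0 w0 c1 w1 c2 w2
  | _, c0, w0, c1, w1, c2, w2 => LT g2 c0 w0 c1 w1 c2 w2

/-- the statement which is proved on a box -/
def QQ (φ : P → ℝ) (Ψ : P → Prop) (g0 g1 g2 : P → ℝ) (p : P) : Prop :=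
  g0 p ≤ 0 → g1 p ≤ 0 → g2 p ≤ 0 → 0 < φ p ∧ Ψ p

theorem chkQ {F g0 g1 g2 : PF} {φ γ0 γ1 γ2 : P → ℝ} {Ψ Ψ0 Ψ1 Ψ2 : P → Prop} (hF : Enc3 F φ Ψ)
    (h0 : Enc3 g0 γ0 Ψ0) (h1 : Enc3 g1 γ1 Ψ1) (h2 : Enc3 g2 γ2 Ψ2) (t : Tr) (b : Bx)
    (h : chk (LT F) (SK g0 g1 g2) t b.c0 b.w0 b.c1 b.w1 b.c2 b.w2 = true) :
    ∀ p, b.In p → QQ φ Ψ γ0 γ1 γ2 p := by
  refine chk_sound ?_ ?_ t b h
  · intro b hb p hp _ _ _
    exact evB_sound hF b hb p hp.memK
  · intro j b hb p hp k0 k1 k2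
    match j with
    | 0 => exact absurd (evB_sound h0 b hb p hp.memK).1 (not_lt.2 k0)
    | 1 => exact absurd (evB_sound h1 b hb p hp.memK).1 (not_lt.2 k1)
    | (j + 2) => exact absurd (evB_sound h2 b hb p hp.memK).1 (not_lt.2 k2)

/-- the claim on a box -/
def Hd (Q : P → Prop) (c0 w0 c1 w1 c2 w2 : Nat) : Prop := ∀ p, Bx.In ⟨c0, w0, c1, w1, c2, w2⟩ p → Q p

/-- arithmetic of a split -/
def spl (l r u c w : Nat) : Bool :=
  bif Nat.beq u (hf w) then bif Nat.ble u c then bif Nat.beq l (Nat.sub c u) then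
    Nat.beq r (Nat.add c u) else false else false else false

theorem spl_spec {l r u c w : Nat} (h : spl l r u c w = true) {q : ℝ} (hq : |q - vl c| ≤ w) :
    |q - vl l| ≤ (u : ℝ) ∨ |q - vl r| ≤ (u : ℝ) := by
  obtain ⟨h1, h⟩ := bif_true h
  obtain ⟨h2, h⟩ := bif_true h
  obtain ⟨h3, h4⟩ := bif_true h
  have e1 := Nat.eq_of_beq_eq_true h1
  have e3 := Nat.eq_of_beq_eq_true h3
  have e4 := Nat.eq_of_beq_eq_true h4
  subst e1; subst e3; subst e4
  exact split_co (Nat.le_of_ble_eq_true h2) hq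

theorem Hd.s0 {Q : P → Prop} (l r u : Nat) {c0 w0 c1 w1 c2 w2 : Nat} (h : spl l r u c0 w0 = true)
    (h1 : Hd Q l u c1 w1 c2 w2) (h2 : Hd Q r u c1 w1 c2 w2) : Hd Q c0 w0 c1 w1 c2 w2 := by
  intro p hp
  obtain ⟨p0, p1, p2⟩ := hp
  rcases spl_spec h p0 with k | k
  · exact h1 p ⟨k, p1, p2⟩
  · exact h2 p ⟨k, p1, p2⟩
theorem Hd.s1 {Q : P → Prop} (l r u : Nat) {c0 w0 c1 w1 c2 w2 : Nat} (h : spl l r u c1 w1 = true)
    (h1 : Hd Q c0 w0 l u c2 w2) (h2 : Hd Q c0 w0 r u c2 w2) : Hd Q c0 w0 c1 w1 c2 w2 := by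
  intro p hp
  obtain ⟨p0, p1, p2⟩ := hp
  rcases spl_spec h p1 with k | k
  · exact h1 p ⟨p0, k, p2⟩
  · exact h2 p ⟨p0, k, p2⟩
theorem Hd.s2 {Q : P → Prop} (l r u : Nat) {c0 w0 c1 w1 c2 w2 : Nat} (h : spl l r u c2 w2 = true)
    (h1 : Hd Q c0 w0 c1 w1 l u) (h2 : Hd Q c0 w0 c1 w1 r u) : Hd Q c0 w0 c1 w1 c2 w2 := by
  intro p hp
  obtain ⟨p0, p1, p2⟩ := hp
  rcases spl_spec h p2 with k | k
  · exact h1 p ⟨p0, p1, k⟩
  · exact h2 p ⟨p0, p1, k⟩

/-! ### derivative abbreviations -/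

/-- `∂_i` -/
def dd (F : PF) (i : Nat) {T : Type} (o : Ops T) (x y z : T) : T := d1 o F i x y z
/-- negation -/
def ngF (F : PF) {T : Type} (o : Ops T) (x y z : T) : T := neg_ o F x y z
/-- `W` -/
def wwF (F : PF) {T : Type} (o : Ops T) (x y z : T) : T := Wf o F x y z

theorem enc_dd {F : PF} {φ : P → ℝ} {Ψ : P → Prop} (h : Enc3 F φ Ψ) (i : Fin 3) :
    Enc3 (dd F i.val) (D i φ) Ψ := h.d1 i
theorem enc_ng {F : PF} {φ : P → ℝ} {Ψ : P → Prop} (h : Enc3 F φ Ψ) :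
    Enc3 (ngF F) (fO.sub (fO.nat 0) φ) Ψ := h.neg
theorem enc_ww {F : PF} {φ : P → ℝ} {Ψ : P → Prop} (h : Enc3 F φ Ψ) :
    Enc3 (wwF F) (Wφ φ) Ψ := h.W

end H41FT
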