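import Pool.Agent.H41.FT.Cl

/-!
# The individual claims
-/

namespace H41FT

/-- claim MA -/
def QMA : P → Prop :=
  QQ (D 1 (D 0 (ev Fc3))) (Sm (ev Fc3)) (ev gN) (ev gN) (ev gN)
theorem okMA (t : Tr) (b : Bx)
    (h : chk (LT (dd (dd Fc3 0) 1)) (SK gN gN gN) t b.c0 b.w0 b.c1 b.w1 b.c2 b.w2 = true) :
    ∀ p, b.In p → QMA p :=
  chkQ (enc_dd (enc_dd enc_Fc3 0) 1) enc_gN enc_gN enc_gN t b h

/-- claim MB -/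
def QMB : P → Prop :=
  QQ (fO.sub (fO.nat 0) (D 1 (D 0 (ev Fc3)))) (Sm (ev Fc3)) (ev gN) (ev gN) (ev gN)
theorem okMB (t : Tr) (b : Bx)
    (h : chk (LT (ngF (dd (dd Fc3 0) 1))) (SK gN gN gN) t b.c0 b.w0 b.c1 b.w1 b.c2 b.w2 = true) :
    ∀ p, b.In p → QMB p :=
  chkQ (enc_ng (enc_dd (enc_dd enc_Fc3 0) 1)) enc_gN enc_gN enc_gN t b h

/-- claim MC -/
def QMC : P → Prop :=
  QQ (D 0 (ev Fc3)) (Sm (ev Fc3)) (ev gN) (ev gN) (ev gN)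
theorem okMC (t : Tr) (b : Bx)
    (h : chk (LT (dd Fc3 0)) (SK gN gN gN) t b.c0 b.w0 b.c1 b.w1 b.c2 b.w2 = true) :
    ∀ p, b.In p → QMC p :=
  chkQ (enc_dd enc_Fc3 0) enc_gN enc_gN enc_gN t b h

/-- claim MD -/
def QMD : P → Prop :=
  QQ (D 1 (ev Fc3)) (Sm (ev Fc3)) (ev gN) (ev gN) (ev gN)
theorem okMD (t : Tr) (b : Bx)
    (h : chk (LT (dd Fc3 1)) (SK gN gN gN) t b.c0 b.w0 b.c1 b.w1 b.c2 b.w2 = true) :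
    ∀ p, b.In p → QMD p :=
  chkQ (enc_dd enc_Fc3 1) enc_gN enc_gN enc_gN t b h

/-- claim ME -/
def QME : P → Prop :=
  QQ (fO.sub (fO.nat 0) (D 1 (ev Fc3))) (Sm (ev Fc3)) (ev gC3) (ev gN) (ev gN)
theorem okME (t : Tr) (b : Bx)
    (h : chk (LT (ngF (dd Fc3 1))) (SK gC3 gN gN) t b.c0 b.w0 b.c1 b.w1 b.c2 b.w2 = true) :
    ∀ p, b.In p → QME p :=
  chkQ (enc_ng (enc_dd enc_Fc3 1)) enc_gC3 enc_gN enc_gN t b h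

/-- claim MG -/
def QMG : P → Prop :=
  QQ (ev Fc3) (Sm (ev Fc3)) (ev gC3) (ev gN) (ev gN)
theorem okMG (t : Tr) (b : Bx)
    (h : chk (LT (Fc3)) (SK gC3 gN gN) t b.c0 b.w0 b.c1 b.w1 b.c2 b.w2 = true) :
    ∀ p, b.In p → QMG p :=
  chkQ (enc_Fc3) enc_gC3 enc_gN enc_gN t b h

/-- claim SA -/
def QSA : P → Prop :=
  QQ (D 1 (D 0 (ev Fsd3))) (Sm (ev Fsd3)) (ev gN) (ev gN) (ev gN)
theorem okSA (t : Tr) (b : Bx)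
    (h : chk (LT (dd (dd Fsd3 0) 1)) (SK gN gN gN) t b.c0 b.w0 b.c1 b.w1 b.c2 b.w2 = true) :
    ∀ p, b.In p → QSA p :=
  chkQ (enc_dd (enc_dd enc_Fsd3 0) 1) enc_gN enc_gN enc_gN t b h

/-- claim SB -/
def QSB : P → Prop :=
  QQ (D 2 (D 0 (ev Fsd3))) (Sm (ev Fsd3)) (ev gN) (ev gN) (ev gN)
theorem okSB (t : Tr) (b : Bx)
    (h : chk (LT (dd (dd Fsd3 0) 2)) (SK gN gN gN) t b.c0 b.w0 b.c1 b.w1 b.c2 b.w2 = true) :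
    ∀ p, b.In p → QSB p :=
  chkQ (enc_dd (enc_dd enc_Fsd3 0) 2) enc_gN enc_gN enc_gN t b h

/-- claim SC -/
def QSC : P → Prop :=
  QQ (D 2 (D 1 (ev Fsd3))) (Sm (ev Fsd3)) (ev gN) (ev gN) (ev gN)
theorem okSC (t : Tr) (b : Bx)
    (h : chk (LT (dd (dd Fsd3 1) 2)) (SK gN gN gN) t b.c0 b.w0 b.c1 b.w1 b.c2 b.w2 = true) :
    ∀ p, b.In p → QSC p :=
  chkQ (enc_dd (enc_dd enc_Fsd3 1) 2) enc_gN enc_gN enc_gN t b h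

/-- claim SE -/
def QSE : P → Prop :=
  QQ (D 1 (ev Fsd3)) (Sm (ev Fsd3)) (ev gN) (ev gN) (ev gN)
theorem okSE (t : Tr) (b : Bx)
    (h : chk (LT (dd Fsd3 1)) (SK gN gN gN) t b.c0 b.w0 b.c1 b.w1 b.c2 b.w2 = true) :
    ∀ p, b.In p → QSE p :=
  chkQ (enc_dd enc_Fsd3 1) enc_gN enc_gN enc_gN t b h

/-- claim SF -/
def QSF : P → Prop :=
  QQ (D 2 (ev Fsd3)) (Sm (ev Fsd3)) (ev gN) (ev gN) (ev gN)
theorem okSF (t : Tr) (b : Bx)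
    (h : chk (LT (dd Fsd3 2)) (SK gN gN gN) t b.c0 b.w0 b.c1 b.w1 b.c2 b.w2 = true) :
    ∀ p, b.In p → QSF p :=
  chkQ (enc_dd enc_Fsd3 2) enc_gN enc_gN enc_gN t b h

/-- claim S0 -/
def QS0 : P → Prop :=
  QQ (ev Fsd3) (Sm (ev Fsd3)) (ev gXY) (ev gYZ) (ev gN)
theorem okS0 (t : Tr) (b : Bx)
    (h : chk (LT (Fsd3)) (SK gXY gYZ gN) t b.c0 b.w0 b.c1 b.w1 b.c2 b.w2 = true) :
    ∀ p, b.In p → QS0 p :=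
  chkQ (enc_Fsd3) enc_gXY enc_gYZ enc_gN t b h

/-- claim PA -/
def QPA : P → Prop :=
  QQ (D 2 (D 0 (D 1 (ev F1t2)))) (Sm (ev F1t2)) (ev gN) (ev gN) (ev gN)
theorem okPA (t : Tr) (b : Bx)
    (h : chk (LT (dd (dd (dd F1t2 1) 0) 2)) (SK gN gN gN) t b.c0 b.w0 b.c1 b.w1 b.c2 b.w2 = true) :
    ∀ p, b.In p → QPA p :=
  chkQ (enc_dd (enc_dd (enc_dd enc_F1t2 1) 0) 2) enc_gN enc_gN enc_gN t b h

/-- claim PB -/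
def QPB : P → Prop :=
  QQ (D 0 (D 1 (ev F1t2))) (Sm (ev F1t2)) (ev gN) (ev gN) (ev gN)
theorem okPB (t : Tr) (b : Bx)
    (h : chk (LT (dd (dd F1t2 1) 0)) (SK gN gN gN) t b.c0 b.w0 b.c1 b.w1 b.c2 b.w2 = true) :
    ∀ p, b.In p → QPB p :=
  chkQ (enc_dd (enc_dd enc_F1t2 1) 0) enc_gN enc_gN enc_gN t b h

/-- claim PC -/
def QPC : P → Prop :=
  QQ (D 2 (D 1 (ev F1t2))) (Sm (ev F1t2)) (ev gN) (ev gN) (ev gN)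
theorem okPC (t : Tr) (b : Bx)
    (h : chk (LT (dd (dd F1t2 1) 2)) (SK gN gN gN) t b.c0 b.w0 b.c1 b.w1 b.c2 b.w2 = true) :
    ∀ p, b.In p → QPC p :=
  chkQ (enc_dd (enc_dd enc_F1t2 1) 2) enc_gN enc_gN enc_gN t b h

/-- claim PD -/
def QPD : P → Prop :=
  QQ (D 1 (ev F1t2)) (Sm (ev F1t2)) (ev gN) (ev gN) (ev gN)
theorem okPD (t : Tr) (b : Bx)
    (h : chk (LT (dd F1t2 1)) (SK gN gN gN) t b.c0 b.w0 b.c1 b.w1 b.c2 b.w2 = true) :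
    ∀ p, b.In p → QPD p :=
  chkQ (enc_dd enc_F1t2 1) enc_gN enc_gN enc_gN t b h

/-- claim PE -/
def QPE : P → Prop :=
  QQ (D 2 (D 0 (ev F1t2))) (Sm (ev F1t2)) (ev gT1) (ev gN) (ev gN)
theorem okPE (t : Tr) (b : Bx)
    (h : chk (LT (dd (dd F1t2 0) 2)) (SK gT1 gN gN) t b.c0 b.w0 b.c1 b.w1 b.c2 b.w2 = true) :
    ∀ p, b.In p → QPE p :=
  chkQ (enc_dd (enc_dd enc_F1t2 0) 2) enc_gT1 enc_gN enc_gN t b h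

/-- claim PF -/
def QPF : P → Prop :=
  QQ (D 0 (ev F1t2)) (Sm (ev F1t2)) (ev gT1) (ev gN) (ev gN)
theorem okPF (t : Tr) (b : Bx)
    (h : chk (LT (dd F1t2 0)) (SK gT1 gN gN) t b.c0 b.w0 b.c1 b.w1 b.c2 b.w2 = true) :
    ∀ p, b.In p → QPF p :=
  chkQ (enc_dd enc_F1t2 0) enc_gT1 enc_gN enc_gN t b h

/-- claim PG -/
def QPG : P → Prop :=
  QQ (D 2 (ev F1t2)) (Sm (ev F1t2)) (ev gT1) (ev gN) (ev gN)
theorem okPG (t : Tr) (b : Bx)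
    (h : chk (LT (dd F1t2 2)) (SK gT1 gN gN) t b.c0 b.w0 b.c1 b.w1 b.c2 b.w2 = true) :
    ∀ p, b.In p → QPG p :=
  chkQ (enc_dd enc_F1t2 2) enc_gT1 enc_gN enc_gN t b h

/-- claim PH -/
def QPH : P → Prop :=
  QQ (ev F1t2) (Sm (ev F1t2)) (ev gT1) (ev gN) (ev gN)
theorem okPH (t : Tr) (b : Bx)
    (h : chk (LT (F1t2)) (SK gT1 gN gN) t b.c0 b.w0 b.c1 b.w1 b.c2 b.w2 = true) :
    ∀ p, b.In p → QPH p :=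
  chkQ (enc_F1t2) enc_gT1 enc_gN enc_gN t b h

/-- claim ZA -/
def QZA : P → Prop :=
  QQ (D 0 (D 1 (ev F0t))) (Sm (ev F0t)) (ev gN) (ev gN) (ev gN)
theorem okZA (t : Tr) (b : Bx)
    (h : chk (LT (dd (dd F0t 1) 0)) (SK gN gN gN) t b.c0 b.w0 b.c1 b.w1 b.c2 b.w2 = true) :
    ∀ p, b.In p → QZA p :=
  chkQ (enc_dd (enc_dd enc_F0t 1) 0) enc_gN enc_gN enc_gN t b h

/-- claim ZB -/
def QZB : P → Prop :=
  QQ (D 1 (ev F0t)) (Sm (ev F0t)) (ev gN) (ev gN) (ev gN)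
theorem okZB (t : Tr) (b : Bx)
    (h : chk (LT (dd F0t 1)) (SK gN gN gN) t b.c0 b.w0 b.c1 b.w1 b.c2 b.w2 = true) :
    ∀ p, b.In p → QZB p :=
  chkQ (enc_dd enc_F0t 1) enc_gN enc_gN enc_gN t b h

/-- claim ZC -/
def QZC : P → Prop :=
  QQ (D 0 (ev F0t)) (Sm (ev F0t)) (ev gN) (ev gN) (ev gN)
theorem okZC (t : Tr) (b : Bx)
    (h : chk (LT (dd F0t 0)) (SK gN gN gN) t b.c0 b.w0 b.c1 b.w1 b.c2 b.w2 = true) :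
    ∀ p, b.In p → QZC p :=
  chkQ (enc_dd enc_F0t 0) enc_gN enc_gN enc_gN t b h

/-- claim ZD -/
def QZD : P → Prop :=
  QQ (ev F0t) (Sm (ev F0t)) (ev gN) (ev gN) (ev gN)
theorem okZD (t : Tr) (b : Bx)
    (h : chk (LT (F0t)) (SK gN gN gN) t b.c0 b.w0 b.c1 b.w1 b.c2 b.w2 = true) :
    ∀ p, b.In p → QZD p :=
  chkQ (enc_F0t) enc_gN enc_gN enc_gN t b h

/-- claim ZE -/
def QZE : P → Prop :=
  QQ (fO.sub (fO.nat 0) (D 0 (D 1 (ev F0t)))) (Sm (ev F0t)) (ev gN) (ev gN) (ev gN)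
theorem okZE (t : Tr) (b : Bx)
    (h : chk (LT (ngF (dd (dd F0t 1) 0))) (SK gN gN gN) t b.c0 b.w0 b.c1 b.w1 b.c2 b.w2 = true) :
    ∀ p, b.In p → QZE p :=
  chkQ (enc_ng (enc_dd (enc_dd enc_F0t 1) 0)) enc_gN enc_gN enc_gN t b h

/-- claim ZF -/
def QZF : P → Prop :=
  QQ (fO.sub (fO.nat 0) (D 1 (ev F0t))) (Sm (ev F0t)) (ev gN) (ev gN) (ev gN)
theorem okZF (t : Tr) (b : Bx)
    (h : chk (LT (ngF (dd F0t 1))) (SK gN gN gN) t b.c0 b.w0 b.c1 b.w1 b.c2 b.w2 = true) :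
    ∀ p, b.In p → QZF p :=
  chkQ (enc_ng (enc_dd enc_F0t 1)) enc_gN enc_gN enc_gN t b h

/-- claim OA -/
def QOA : P → Prop :=
  QQ (D 1 (D 0 (ev Fon))) (Sm (ev Fon)) (ev gO) (ev gN) (ev gN)
theorem okOA (t : Tr) (b : Bx)
    (h : chk (LT (dd (dd Fon 0) 1)) (SK gO gN gN) t b.c0 b.w0 b.c1 b.w1 b.c2 b.w2 = true) :
    ∀ p, b.In p → QOA p :=
  chkQ (enc_dd (enc_dd enc_Fon 0) 1) enc_gO enc_gN enc_gN t b h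

/-- claim OB -/
def QOB : P → Prop :=
  QQ (D 1 (D 1 (ev Fon))) (Sm (ev Fon)) (ev gO) (ev gN) (ev gN)
theorem okOB (t : Tr) (b : Bx)
    (h : chk (LT (dd (dd Fon 1) 1)) (SK gO gN gN) t b.c0 b.w0 b.c1 b.w1 b.c2 b.w2 = true) :
    ∀ p, b.In p → QOB p :=
  chkQ (enc_dd (enc_dd enc_Fon 1) 1) enc_gO enc_gN enc_gN t b h

/-- claim QA -/
def QQA : P → Prop :=
  QQ (D 0 (Wφ (ev FsG2))) (Sm (ev FsG2)) (ev gW) (ev gN) (ev gN)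
theorem okQA (t : Tr) (b : Bx)
    (h : chk (LT (dd (wwF FsG2) 0)) (SK gW gN gN) t b.c0 b.w0 b.c1 b.w1 b.c2 b.w2 = true) :
    ∀ p, b.In p → QQA p :=
  chkQ (enc_dd (enc_ww enc_FsG2) 0) enc_gW enc_gN enc_gN t b h

/-- claim QB -/
def QQB : P → Prop :=
  QQ (Wφ (ev FsG2)) (Sm (ev FsG2)) (ev gW) (ev gN) (ev gN)
theorem okQB (t : Tr) (b : Bx)
    (h : chk (LT (wwF FsG2)) (SK gW gN gN) t b.c0 b.w0 b.c1 b.w1 b.c2 b.w2 = true) :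
    ∀ p, b.In p → QQB p :=
  chkQ (enc_ww enc_FsG2) enc_gW enc_gN enc_gN t b h

/-- claim QC -/
def QQC : P → Prop :=
  QQ (Wφ (ev FsG2)) (Sm (ev FsG2)) (ev gW) (ev gYX) (ev gS1)
theorem okQC (t : Tr) (b : Bx)
    (h : chk (LT (wwF FsG2)) (SK gW gYX gS1) t b.c0 b.w0 b.c1 b.w1 b.c2 b.w2 = true) :
    ∀ p, b.In p → QQC p :=
  chkQ (enc_ww enc_FsG2) enc_gW enc_gYX enc_gS1 t b h

/-- claim QD -/
def QQD : P → Prop :=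
  QQ (D 2 (ev FsG1)) (Sm (ev FsG1)) (ev gW) (ev gYX) (ev gN)
theorem okQD (t : Tr) (b : Bx)
    (h : chk (LT (dd FsG1 2)) (SK gW gYX gN) t b.c0 b.w0 b.c1 b.w1 b.c2 b.w2 = true) :
    ∀ p, b.In p → QQD p :=
  chkQ (enc_dd enc_FsG1 2) enc_gW enc_gYX enc_gN t b h

end H41FT
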