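import Pool.Agent.H41.FT.L4

/-!
# The corner of the acute region
-/

namespace H41FT

open Real Function Filter Topology

def Fsd0 {T : Type} (o : Ops T) (x y z : T) : T := Fsd o 0 x y z

theorem ev_Fsd0 (p : P) : ev Fsd0 p = Fsd rO 0 (p 0) (p 1) (p 2) := rfl

/-- values at a point, with validity -/
noncomputable def vO : Ops (ℝ × Prop) where
  nat n := (n, True)
  add x y := (x.1 + y.1, x.2 ∧ y.2)
  sub x y := (x.1 - y.1, x.2 ∧ y.2)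
  mul x y := (x.1 * y.1, x.2 ∧ y.2)
  smul n x := (n * x.1, x.2)
  hm x := (x.1 * (π / 2), x.2)
  ihm x := (x.1 * (2 / π), x.2)
  inv x := (x.1⁻¹, x.2 ∧ 0 < x.1)
  sqrt x := (√x.1, x.2 ∧ 0 < x.1)
  sn x := (sin (π / 2 * x.1), x.2)
  cs x := (cos (π / 2 * x.1), x.2)
  at_ x := (2 / π * arctan x.1, x.2)

theorem vO_sound (q : P) : Sound {q} vO (fun x => x.2) (fun x f => f q = x.1 ∧ Sm f q) where
  smooth h p hp := by rw [Set.mem_singleton_iff.1 hp]; exact h.2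
  congr h e := by
    have e' := e q rfl
    exact ⟨e'.self_of_nhds.symm.trans h.1, h.2.congr e'⟩
  nat n := ⟨rfl, Sm_nat n⟩
  ok_nat := trivial
  add _ hx hy := ⟨congrArg₂ (· + ·) hx.1 hy.1, Sm_add hx.2 hy.2⟩
  sub _ hx hy := ⟨congrArg₂ (· - ·) hx.1 hy.1, Sm_sub hx.2 hy.2⟩
  mul _ hx hy := ⟨congrArg₂ (· * ·) hx.1 hy.1, Sm_mul hx.2 hy.2⟩
  smul {n} _ _ _ hx := ⟨congrArg (fun z : ℝ => (n : ℝ) * z) hx.1, Sm_smul n hx.2⟩
  hm _ hx := ⟨congrArg (fun z : ℝ => z * (π / 2)) hx.1, Sm_hm hx.2⟩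
  ihm _ hx := ⟨congrArg (fun z : ℝ => z * (2 / π)) hx.1, Sm_ihm hx.2⟩
  inv k hx := ⟨congrArg (fun z : ℝ => z⁻¹) hx.1, Sm_inv hx.2 (by rw [hx.1]; exact k.2)⟩
  sqrt k hx := ⟨congrArg (fun z : ℝ => √z) hx.1, Sm_sqrt hx.2 (by rw [hx.1]; exact k.2)⟩
  sn _ hx := ⟨congrArg (fun z : ℝ => sin (π / 2 * z)) hx.1, Sm_sn hx.2⟩
  cs _ hx := ⟨congrArg (fun z : ℝ => cos (π / 2 * z)) hx.1, Sm_cs hx.2⟩
  at_ _ hx := ⟨congrArg (fun z : ℝ => 2 / π * arctan z) hx.1, Sm_at hx.2⟩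
  inv_pos k hx p hp := by rw [Set.mem_singleton_iff.1 hp, hx.1]; exact k.2
  sqrt_pos k hx p hp := by rw [Set.mem_singleton_iff.1 hp, hx.1]; exact k.2
  ok_add h := h
  ok_sub h := h
  ok_mul h := h
  ok_smul h := h
  ok_hm h := h
  ok_ihm h := h
  ok_inv h := h.1
  ok_sqrt h := h.1
  ok_sn h := h
  ok_cs h := h
  ok_at h := h

theorem Fsd0_Sm : Sm (ev Fsd0) 0 := by
  have h : Enc3 Fsd0 (ev Fsd0) (Sm (ev Fsd0)) :=
    Enc3.of_R fun S _ _ _ _ _ _ h1 h2 h3 => Fsd_R S 0 h1 h2 h3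
  have hs : ∀ i : Fin 3, (co i) 0 = ((0 : ℝ), True).1 ∧ Sm (co i) 0 := fun i => ⟨rfl, Sm_coord i⟩
  refine (h (vO_sound 0) (hs 0) (hs 1) (hs 2) ?_).2 0 rfl
  simp [Fsd0, Fsd, FsdK, lt, vO, FG, fin_, brS, br0, xyS, hsS, hz, rkS, rks, rk, om, kh]
theorem Fsd0_D (i : Fin 3) : D i (ev Fsd0) 0 = 0 := by
  refine Zl.D ⟨-(1/2), 1/2, by norm_num, by norm_num, by norm_num, fun t ht ht' => ?_⟩ Fsd0_Sm
  rw [ev_Fsd0]
  fin_cases i
  · show Fsd rO 0 (update (0 : P) 0 t 0) (update (0 : P) 0 t 1) (update (0 : P) 0 t 2) = 0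
    rw [u00, u01, u02]
    exact Fsd0_x (by linarith) (by linarith)
  · show Fsd rO 0 (update (0 : P) 1 t 0) (update (0 : P) 1 t 1) (update (0 : P) 1 t 2) = 0
    rw [u10, u11, u12]
    exact Fsd0_y (by linarith) (by linarith)
  · show Fsd rO 0 (update (0 : P) 2 t 0) (update (0 : P) 2 t 1) (update (0 : P) 2 t 2) = 0
    rw [u20, u21, u22]
    exact Fsd0_z (by linarith) (by linarith)

theorem Fon_D {q : P} (h0 : q 0 = 0) (h1 : q 1 = 0) (hs : Sm (ev Fon) q) : D 1 (ev Fon) q = 0 := by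
  have hs' : Sm (ev Fon) (update q 1 (q 1)) := by rwa [update_eq_self]
  have h2 := hasDerivAt_line hs'
  rw [update_eq_self, h1] at h2
  obtain ⟨v, hv⟩ : ∃ v : P, v = Pi.single 0 1 + Pi.single 1 1 + q 2 • Pi.single 2 1 := ⟨_, rfl⟩
  have hv0 : v 0 = 1 := by rw [hv]; simp
  have hv1 : v 1 = 1 := by rw [hv]; simp
  have hv2 : v 2 = q 2 := by rw [hv]; simp
  have e : (fun s => ev Fon (update q 1 s)) = fun s : ℝ => ev Fsd0 (s • v) := by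
    funext s
    rw [ev_Fon, ev_Fsd0, u10, u11, u12, h0]
    simp only [Pi.smul_apply, smul_eq_mul, hv0, hv1, hv2, zero_add, mul_one]
  have h3 : HasDerivAt (fun s : ℝ => s • v) v 0 := by
    simpa using (hasDerivAt_id (0 : ℝ)).smul_const v
  have hF : HasFDerivAt (ev Fsd0) (fderiv ℝ (ev Fsd0) 0) ((0 : ℝ) • v) := by
    rw [zero_smul]; exact Fsd0_Sm.diff.hasFDerivAt
  have h4 : HasDerivAt (fun s : ℝ => ev Fsd0 (s • v)) (fderiv ℝ (ev Fsd0) 0 v) 0 :=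
    hF.comp_hasDerivAt (0 : ℝ) h3
  have h5 : fderiv ℝ (ev Fsd0) 0 v = 0 := by
    have d0 : fderiv ℝ (ev Fsd0) 0 (Pi.single 0 1) = 0 := Fsd0_D 0
    have d1 : fderiv ℝ (ev Fsd0) 0 (Pi.single 1 1) = 0 := Fsd0_D 1
    have d2 : fderiv ℝ (ev Fsd0) 0 (Pi.single 2 1) = 0 := Fsd0_D 2
    rw [hv, map_add, map_add, map_smul, d0, d1, d2]; simp
  rw [e] at h2
  rw [h5] at h4
  exact h2.unique h4

/-- the region -/
def SO (p : P) : Prop := B3 0 (12/100) 0 (12/100) 0 1 p ∧ 25 * (p 0 + p 1) - 3 ≤ 0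

theorem SO.lo0 {p : P} (h : SO p) : 0 ≤ p 0 ∧ ∀ t, 0 ≤ t → t ≤ p 0 → SO (update p 0 t) := by
  refine ⟨h.1.l0, fun t h1 h2 => ⟨h.1.lo0.2 t h1 h2, ?_⟩⟩
  rw [u00, u01]; linarith [h.2]

theorem SO.lo1 {p : P} (h : SO p) : 0 ≤ p 1 ∧ ∀ t, 0 ≤ t → t ≤ p 1 → SO (update p 1 t) := by
  refine ⟨h.1.l1, fun t h1 h2 => ⟨h.1.lo1.2 t h1 h2, ?_⟩⟩
  rw [u10, u11]; linarith [h.2]

theorem rO_ : ∀ p : P, SO p → 0 ≤ ev Fon p := by
  have hA : ∀ p : P, SO p → 0 < D 1 (D 0 (ev Fon)) p ∧ Sm (ev Fon) p := fun p h =>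
    clOA h.1.l0 h.1.r0 h.1.l1 h.1.r1 h.1.l2 h.1.r2 h.2
  have hB : ∀ p : P, SO p → 0 < D 1 (D 1 (ev Fon)) p ∧ Sm (ev Fon) p := fun p h =>
    clOB h.1.l0 h.1.r0 h.1.l1 h.1.r1 h.1.l2 h.1.r2 h.2
  have kA : ∀ p : P, SO p → 0 ≤ D 0 (ev Fon) p := by
    refine pat1 (i := 1) (fun p h => h.lo1) (fun p h => ⟨(hA p h).1.le, (hA p h).2.D 0⟩)
      (fun p h h0 => ?_)
    refine (Zl.D ⟨0, 12/100, by norm_num, h.1.l0, h.1.r0, fun t ht ht' => ?_⟩ (hA p h).2).ge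
    rw [ev_Fon, u00, u01, u02, h0, add_zero, zero_mul]
    exact Fsd0_x (by linarith) (by linarith)
  have kB : ∀ p : P, SO p ∧ p 0 = 0 → 0 ≤ D 1 (ev Fon) p := by
    refine pat1 (i := 1) (lo := 0) (fun p h => ⟨h.1.lo1.1, fun t h1 h2 => ⟨h.1.lo1.2 t h1 h2, ?_⟩⟩)
      (fun p h => ⟨(hB p h.1).1.le, (hB p h.1).2.D 1⟩) (fun p h h0 => ?_)
    · rw [u10]; exact h.2
    · exact (Fon_D h.2 h0 (hB p h.1).2).ge
  have kC : ∀ p : P, SO p ∧ p 0 = 0 → 0 ≤ ev Fon p := by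
    refine pat1 (i := 1) (lo := 0) (fun p h => ⟨h.1.lo1.1, fun t h1 h2 => ⟨h.1.lo1.2 t h1 h2, ?_⟩⟩)
      (fun p h => ⟨kB p h, (hB p h.1).2⟩) (fun p h h0 => ?_)
    · rw [u10]; exact h.2
    · rw [ev_Fon, h0, add_zero, zero_mul, h.2]
      exact (Fsd0_x (by norm_num) (by norm_num)).ge
  exact pat1 (i := 0) (fun p h => h.lo0) (fun p h => ⟨kA p h, (hA p h).2⟩) (fun p h h0 => kC p ⟨h, h0⟩)

theorem R_Fsd0 {α β δ : ℝ} (h0 : 0 ≤ δ) (h1 : δ ≤ β) (h2 : β ≤ α) (h3 : α ≤ 12/100) :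
    0 ≤ Fsd rO 0 α β δ := by
  rcases (h0.trans h1).eq_or_lt with hb | hb
  · have hd : δ = 0 := le_antisymm (by linarith) h0
    rw [hd, ← hb]
    exact (Fsd0_x (by linarith) (by linarith)).ge
  · have e : Fsd rO 0 α β δ = ev Fon ![α - β, β, δ / β] := by
      rw [ev_Fon]
      show Fsd rO 0 α β δ = Fsd rO 0 (α - β + β) β (β * (δ / β))
      rw [sub_add_cancel, mul_div_cancel₀ _ hb.ne']
    rw [e]
    refine rO_ _ ⟨⟨?_, ?_, ?_, ?_, ?_, ?_⟩, ?_⟩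
    · show 0 ≤ α - β; linarith
    · show α - β ≤ 12/100; linarith
    · exact hb.le
    · show β ≤ 12/100; linarith
    · show 0 ≤ δ / β; positivity
    · show δ / β ≤ 1
      rw [div_le_one hb]; exact h1
    · show 25 * (α - β + β) - 3 ≤ 0; linarith

end H41FT
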