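import Pool.Agent.H41.FT.L7

/-!
# The obtuse region, in the chart `(a, b, γ)`
-/

namespace H41FT

open Real Function

theorem upd_line (a b s t : ℝ) : update ![a, b, s] 2 t = (![a, b, t] : P) := by
  ext i
  fin_cases i
  · exact u20 _ _
  · exact u21 _ _
  · exact u22 _ _

theorem gw_mono {a b g0 g : ℝ} (a0 : 0 ≤ a) (a1 : a ≤ 1) (b0 : 0 ≤ b) (b1 : b ≤ 1) (h0 : 0 ≤ g0)
    (h1 : g0 ≤ g) (h2 : g ≤ 1) (hw : sin (π / 2 * a) * sin (π / 2 * b) * cos (π / 2 * g0) -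
      cos (π / 2 * a) * cos (π / 2 * b) ≤ 0) :
    sin (π / 2 * a) * sin (π / 2 * b) * cos (π / 2 * g) -
      cos (π / 2 * a) * cos (π / 2 * b) ≤ 0 := by
  have k5 := cs_anti h0 h1 h2
  have k6 := mul_le_mul_of_nonneg_left k5 (mul_nonneg (sn_nonneg a0 a1) (sn_nonneg b0 b1))
  linarith

/-- quasi-concavity in `γ` -/
theorem R_FsG {a b g0 K : ℝ} (a0 : 0 ≤ a) (a1 : a ≤ 53/100) (b0 : 0 ≤ b) (b1 : b ≤ 1)
    (hab : 9/10 ≤ b ∨ (a ≤ b ∧ 1 ≤ a + b)) (h0 : 0 ≤ g0)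
    (hw : sin (π / 2 * a) * sin (π / 2 * b) * cos (π / 2 * g0) -
      cos (π / 2 * a) * cos (π / 2 * b) ≤ 0) (hK : K ≤ 0)
    (e0 : 0 ≤ FsG rO 2 a b g0 + K * (1 - g0)) (e1 : 0 ≤ FsG rO 2 a b 1) :
    ∀ g, g0 ≤ g → g ≤ 1 → 0 ≤ FsG rO 2 a b g + K * (1 - g) := by
  have hg : ∀ g, g0 ≤ g → g ≤ 1 → 0 ≤ Wφ (ev FsG2) ![a, b, g] ∧ Sm (ev FsG2) ![a, b, g] := by
    intro g h1 h2
    exact R_W a0 a1 b1 hab (h0.trans h1) h2 (gw_mono a0 (by linarith) b0 b1 h0 h1 h2 hw)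
  refine qconc (f := fun g => FsG rO 2 a b g + K * (1 - g))
    (f' := fun g => D 2 (ev FsG2) ![a, b, g] + K * (-1))
    (f'' := fun g => D 2 (D 2 (ev FsG2)) ![a, b, g]) h0 ?_ ?_ ?_ e0 ?_
  · intro g h1 h2
    have hs := (hg g h1 h2).2
    rw [← upd_line a b 0 g] at hs
    have h3 := hasDerivAt_line hs
    simp only [upd_line] at h3
    have h4 : HasDerivAt (fun g : ℝ => K * (1 - g)) (K * (-1)) g := by
      have := ((hasDerivAt_id g).const_sub 1).const_mul K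
      simpa using this
    exact h3.add h4
  · intro g h1 h2
    have hs := (hg g h1 h2).2.D 2
    rw [← upd_line a b 0 g] at hs
    have h3 := hasDerivAt_line hs
    simp only [upd_line] at h3
    exact h3.add_const _
  · intro g h1 h2
    have h3 := (hg g h1 h2).1
    rw [Wφ_val] at h3
    have h4 := cs_nonneg (h0.trans h1) h2
    have h5 : K * (π / 2 * cos (π / 2 * g)) ≤ 0 :=
      mul_nonpos_of_nonpos_of_nonneg hK (mul_nonneg (by positivity) h4)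
    have h6 : (![a, b, g] : P) 2 = g := rfl
    rw [h6] at h3
    linarith
  · simpa using e1

/-- monotonicity in `γ` -/
theorem R_QD {a b g0 g : ℝ} (a1 : 53/100 ≤ a) (hab : a ≤ b) (b1 : b ≤ 1) (h0 : 0 ≤ g0)
    (h1 : g0 ≤ g) (h2 : g ≤ 1)
    (hw : sin (π / 2 * a) * sin (π / 2 * b) * cos (π / 2 * g0) -
      cos (π / 2 * a) * cos (π / 2 * b) ≤ 0)
    (e0 : 0 ≤ FsG rO 1 a b g0) : 0 ≤ FsG rO 1 a b g := by
  have hg : ∀ t, g0 ≤ t → t ≤ g → 0 < D 2 (ev FsG1) ![a, b, t] ∧ Sm (ev FsG1) ![a, b, t] := by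
    intro t h3 h4
    refine clQD (p := ![a, b, t]) a1 (by show a ≤ 1; linarith) (by show 53/100 ≤ b; linarith) b1
      (h0.trans h3) (h4.trans h2) ?_ (by show a - b ≤ 0; linarith)
    exact gw_mono (a := a) (b := b) (g0 := g0) (g := t) (by linarith) (by linarith) (by linarith)
      b1 h0 h3 (h4.trans h2) hw
  have h3 := mono_line (φ := ev FsG1) (p := ![a, b, 0]) (i := 2) h1
    (fun t ht ht' => by rw [upd_line]; exact (hg t ht ht').2)
    (fun t ht ht' => by rw [upd_line]; exact (hg t ht ht').1.le)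
  rw [upd_line, upd_line] at h3
  exact e0.trans h3

end H41FT
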