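import Pool.Agent.H41.FT.L5
import Pool.Agent.H41.FT.L6
import Pool.Agent.H41.FT.L8
import Pool.Agent.H41.FT.Chk

/-!
# The pointwise certificate
-/

namespace H41FT

open H45FT Real

variable {a b c : ℝ}

/-! ### bounds on tangents -/

theorem tan_quarter {x X : ℝ} (hx0 : 0 ≤ x) (hx1 : x ≤ 1) (hX : X ≤ π / 4 * (1 - x)) (hX0 : 0 ≤ X) :
    tan (π / 4 * x) * (1 + X) ≤ 1 - X := by
  have hp := Real.pi_pos
  have h1 : X ≤ tan (π / 4 * (1 - x)) := by
    rcases (show 0 ≤ 1 - x by linarith).eq_or_lt with h | h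
    · rw [← h] at hX ⊢
      simp at hX ⊢; linarith
    · exact hX.trans (lt_tan (by positivity) (by nlinarith)).le
  have hc1 : 0 < cos (π / 4 * x) := cos_pos_of_mem_Ioo ⟨by nlinarith, by nlinarith⟩
  have hc2 : 0 < cos (π / 4 * (1 - x)) := cos_pos_of_mem_Ioo ⟨by nlinarith, by nlinarith⟩
  have hs1 : 0 ≤ sin (π / 4 * x) := sin_nonneg_of_nonneg_of_le_pi (by positivity) (by nlinarith)
  have hc3 : 0 < cos (π / 4) := cos_pos_of_mem_Ioo ⟨by linarith, by linarith⟩
  have hT : 0 ≤ tan (π / 4 * x) := by rw [tan_eq_sin_div_cos]; positivity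
  -- `tan(π/4 (1-x)) (1 + T) = 1 - T`
  have e : tan (π / 4 * (1 - x)) * (1 + tan (π / 4 * x)) = 1 - tan (π / 4 * x) := by
    have e1 : sin (π / 4 * (1 - x)) = √2 / 2 * (cos (π / 4 * x) - sin (π / 4 * x)) := by
      rw [mul_sub, mul_one, sin_sub, sin_pi_div_four, cos_pi_div_four]; ring
    have e2 : cos (π / 4 * (1 - x)) = √2 / 2 * (cos (π / 4 * x) + sin (π / 4 * x)) := by
      rw [mul_sub, mul_one, cos_sub, sin_pi_div_four, cos_pi_div_four]; ring
    have h2 : (0 : ℝ) < √2 := by positivity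
    have h3 : 0 < cos (π / 4 * x) + sin (π / 4 * x) := by linarith
    rw [tan_eq_sin_div_cos, tan_eq_sin_div_cos (π / 4 * x), e1, e2]
    generalize cos (π / 4 * x) = C at *
    generalize sin (π / 4 * x) = S at *
    field_simp
  have h2 := mul_le_mul_of_nonneg_right h1 (show 0 ≤ 1 + tan (π / 4 * x) by linarith)
  rw [e] at h2
  linarith

theorem tan_q_nonneg {x : ℝ} (h0 : 0 ≤ x) (h1 : x ≤ 1) : 0 ≤ tan (π / 4 * x) :=
  tan_nonneg_of_nonneg_of_le_pi_div_two (by have := Real.pi_pos; positivity)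
    (by nlinarith [Real.pi_pos])

theorem tan_q_pos {x : ℝ} (h0 : 0 < x) (h1 : x ≤ 1) : 0 < tan (π / 4 * x) :=
  tan_pos_of_pos_of_lt_pi_div_two (by have := Real.pi_pos; positivity)
    (by nlinarith [Real.pi_pos])

theorem tan_q_mono {x y : ℝ} (h0 : 0 ≤ x) (h1 : x ≤ y) (h2 : y ≤ 1) :
    tan (π / 4 * x) ≤ tan (π / 4 * y) := by
  rcases h1.eq_or_lt with h | h
  · rw [h]
  · exact (tan_lt_tan_of_lt_of_lt_pi_div_two (by nlinarith [Real.pi_pos])
      (by nlinarith [Real.pi_pos]) (by nlinarith [Real.pi_pos])).le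

theorem tan_q_le_one {x : ℝ} (h0 : 0 ≤ x) (h1 : x ≤ 1) : tan (π / 4 * x) ≤ 1 := by
  have := tan_q_mono h0 h1 le_rfl
  rwa [mul_one, tan_pi_div_four] at this

/-- the slack -/
noncomputable def F20 (σ a b c : ℝ) : ℝ := 20 * (2 - (a + b + c) - S3 σ a b c)

theorem ang_zero' : ang 0 = 1 := by
  unfold ang; rw [abs_zero, arccos_zero]
  have := Real.pi_pos; field_simp

/-! ### `T_-` -/

theorem tm (h0 : 0 < a) (hab : a ≤ b) (hbc : b ≤ c) (hc : c ≤ 1) (hs : 2 ≤ a + b + c) :
    0 ≤ F20 (-1) a b c := by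
  unfold F20
  rw [KT3 h0 hab hbc hc hs]
  by_cases h : 1 - a ≤ 33/100
  · rw [CH_Fsd3 h0 hab hbc hc hs]
    exact R_Fsd3 (by linarith) (by linarith) (by linarith) h
  · push Not at h
    rcases (hbc.trans hc).eq_or_lt with hb | hb
    · have hc1 : c = 1 := le_antisymm hc (by linarith)
      rw [CH_Fsd3 h0 hab hbc hc hs, hb, hc1, sub_self]
      exact (Fsd3_x (by linarith) (by linarith)).ge
    · rw [CH_Fc3 h0 hab hbc hc hb hs]
      have hgr : 0 ≤ gram3 (-1) a b c := (gram3_neg_nonneg_iff h0 hab hbc hc).2 hs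
      have hcb : 0 < cos (π / 2 * b) :=
        cos_pos_of_mem_Ioo ⟨by nlinarith [Real.pi_pos], by nlinarith [Real.pi_pos]⟩
      have hcc : 0 ≤ cos (π / 2 * c) := cs_nonneg (by linarith) hc
      refine R_Fc3 h0.le (by linarith) (ang_nonneg _) (ang_le_one _) (by positivity) ?_ ?_
      · rw [div_le_one hcb]; exact cs_anti (by linarith) hbc hc
      · have hd := dih_abs_le (σ := -1) (Or.inr rfl) h0 (by linarith) (by linarith : 0 < b)
          (by linarith) hgr
        rw [cos_ang hd]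
        have := CH_Fc3_guard h0 hab hbc hc hb hs
        rw [← sq]
        linarith

/-! ### acute -/

theorem ta (h0 : 0 < a) (hab : a ≤ b) (hbc : b ≤ c) (hc : c ≤ 1) (hs : c ≤ a + b)
    (hz : 0 ≤ dih 1 a b c) : 0 ≤ F20 1 a b c := by
  unfold F20
  rw [KT0 h0 hab hbc hc hz]
  by_cases h : 1 - a ≤ 12/100
  · rw [CH_Fsd0 h0 hab hbc hc hs hz]
    exact R_Fsd0 (by linarith) (by linarith) (by linarith) h
  · push Not at h
    obtain ⟨τ, τ0, τ1, e⟩ := CH_F0t h0 hab hbc hc hs hz
    rw [e]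
    have hb1 : b ≤ 1 := by linarith
    have ht := tan_q_pos (by linarith : 0 < b) hb1
    have hr := tan_q_nonneg h0.le (by linarith : a ≤ 1)
    refine R_F0t (div_nonneg hr ht.le) ?_ ht.le (tan_q_le_one (by linarith) hb1) τ0 τ1 ?_
    · rw [div_le_one ht]; exact tan_q_mono h0.le hab hb1
    · by_contra hcon
      push Not at hcon
      obtain ⟨c1, c2⟩ := hcon
      have h1 := tan_quarter (x := a) (X := 942/10000) h0.le (by linarith) (by
        have := Real.pi_gt_d4; nlinarith) (by norm_num)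
      rw [lt_div_iff₀ ht] at c1
      nlinarith

/-! ### obtuse -/

theorem ang_anti {s t : ℝ} (h : |s| ≤ |t|) : ang t ≤ ang s := by
  unfold ang
  have := arccos_le_arccos h
  have hp := Real.pi_pos
  exact mul_le_mul_of_nonneg_left this (by positivity)

theorem sn_pos {x : ℝ} (h0 : 0 < x) (h1 : x ≤ 1) : 0 < sin (π / 2 * x) :=
  sin_pos_of_pos_of_lt_pi (by have := Real.pi_pos; positivity) (by nlinarith [Real.pi_pos])

/-- the right angle -/
theorem E1 (h0 : 0 < a) (hab : a ≤ b) (hb : b ≤ 1) : 0 ≤ FsG rO 2 a b 1 := by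
  have hp := Real.pi_pos
  have hA := cs_nonneg h0.le (hab.trans hb)
  have hB := cs_nonneg (h0.le.trans hab) hb
  have hA1 := cos_le_one (π / 2 * a)
  have hm0 : 0 ≤ cos (π / 2 * a) * cos (π / 2 * b) := mul_nonneg hA hB
  have hm1 : cos (π / 2 * a) * cos (π / 2 * b) ≤ cos (π / 2 * b) := by nlinarith
  obtain ⟨c, hc⟩ : ∃ c, c = 2 / π * arccos (cos (π / 2 * a) * cos (π / 2 * b)) := ⟨_, rfl⟩
  have hc' : π / 2 * c = arccos (cos (π / 2 * a) * cos (π / 2 * b)) := by
    rw [hc]; field_simp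
  have hcc : cos (π / 2 * c) = cos (π / 2 * a) * cos (π / 2 * b) := by
    rw [hc', cos_arccos (by linarith) (by linarith [cos_le_one (π / 2 * b)])]
  have hbc : b ≤ c := by
    have h1 := arccos_le_arccos hm1
    rw [arccos_cos (mul_nonneg (by positivity) (h0.le.trans hab)) (by nlinarith), ← hc'] at h1
    nlinarith
  have hc1 : c ≤ 1 := by
    have h1 := arccos_le_arccos hm0
    rw [arccos_zero, ← hc'] at h1
    nlinarith
  have hcab : c ≤ a + b := by
    have h2 : cos (π / 2 * (a + b)) ≤ cos (π / 2 * a) * cos (π / 2 * b) := by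
      rw [mul_add, cos_add]
      have := mul_nonneg (sn_nonneg h0.le (hab.trans hb)) (sn_nonneg (h0.le.trans hab) hb)
      linarith
    have h1 := arccos_le_arccos h2
    rw [arccos_cos (by nlinarith) (by nlinarith), ← hc'] at h1
    nlinarith
  have hd : dih 1 a b c = 0 := by
    unfold dih; rw [hcc]; simp
  have hF := ta h0 hab hbc hc1 hcab hd.ge
  unfold F20 at hF
  rcases le_total (a + b) 1 with h | h
  · rw [KT2 h0 hab hbc hc1 hd.le h, CH_FsG 2 h0 hab hbc hc1 hcab hd.le, hd,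
      ang_zero'] at hF
    exact hF
  · rw [KT1 h0 hab hbc hc1 hd.le h, CH_FsG 1 h0 hab hbc hc1 hcab hd.le, hd,
      ang_zero', FsG12] at hF
    simpa using hF

theorem Kf3_one_neg (b t : ℝ) (hb : b ∈ Set.Icc (0 : ℝ) 1) : Kf3 b 1 (-t) = Kf3 b 1 t := by
  have h1 : V13 b 1 = 0 := by unfold V13; rw [mul_one, sin_pi]; ring
  have h2 : VP3 b 1 = 0 := by
    unfold VP3
    rw [mul_one, sin_pi, sub_self, min_eq_right (by linarith [hb.2] : (0 : ℝ) ≤ 1 - b),
      min_eq_right (le_min hb.1 (by norm_num))]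
    ring
  unfold Kf3
  rw [h1, h2, abs_neg, neg_sq]
  ring

theorem F20_one (ha0 : 0 ≤ a) (ha1 : a ≤ 1) (hb0 : 0 ≤ b) (hb1 : b ≤ 1) :
    F20 1 a b 1 = F20 (-1) a b 1 := by
  unfold F20 S3
  have hc : cos (π / 2 * 1) = 0 := by rw [mul_one, cos_pi_div_two]
  have e1 : dih (-1) a b 1 = dih 1 a b 1 := by unfold dih; rw [hc]; simp
  have e2 : dih (-1) b 1 a = - dih 1 b 1 a := by
    unfold dih; rw [hc]; ring
  have e3 : dih (-1) 1 a b = - dih 1 1 a b := by
    unfold dih; rw [hc]; ring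
  rw [e1, e2, e3, Kf3_one_neg b _ ⟨hb0, hb1⟩, Kf3_comm 1 a, Kf3_comm 1 a, Kf3_one_neg a _ ⟨ha0, ha1⟩]

theorem dih_one_nonpos (h0 : 0 < a) (ha1 : a ≤ 1) (hb0 : 0 < b) (hb1 : b ≤ 1) :
    dih 1 a b 1 ≤ 0 := by
  unfold dih
  have hc : cos (π / 2 * 1) = 0 := by rw [mul_one, cos_pi_div_two]
  rw [hc]
  have h1 := cs_nonneg h0.le ha1
  have h2 := cs_nonneg hb0.le hb1
  have h3 := sn_pos h0 ha1
  have h4 := sn_pos hb0 hb1
  apply div_nonpos_of_nonpos_of_nonneg
  · nlinarith
  · positivity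

/-- the limit `c = 1` -/
theorem E0 (h0 : 0 < a) (hab : a ≤ b) (hb : b ≤ 1) (hs : 1 ≤ a + b) :
    0 ≤ FsG rO 1 a b (ang (dih 1 a b 1)) := by
  have hd := dih_one_nonpos h0 (hab.trans hb) (by linarith) hb
  have h1 := tm h0 hab hb le_rfl (by linarith)
  rw [← F20_one h0.le (hab.trans hb) (by linarith) hb] at h1
  unfold F20 at h1
  rwa [KT1 h0 hab hb le_rfl hd hs, CH_FsG 1 h0 hab hb le_rfl (by linarith) hd] at h1

theorem hw_eq (h0 : 0 < a) (hab : a ≤ b) (hb : b ≤ 1) (hs : 1 ≤ a + b) :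
    sin (π / 2 * a) * sin (π / 2 * b) * cos (π / 2 * ang (dih 1 a b 1)) -
      cos (π / 2 * a) * cos (π / 2 * b) ≤ 0 := by
  have hd := dih_one_nonpos h0 (hab.trans hb) (by linarith) hb
  have hg : 0 ≤ gram3 1 a b 1 := (gram3_one_nonneg_iff h0 hab hb le_rfl).2 (by linarith)
  have hd1 := dih_abs_le (σ := 1) (Or.inl rfl) h0 (hab.trans hb) (by linarith : 0 < b) hb hg
  rw [cos_ang hd1, abs_of_nonpos hd]
  unfold dih
  have hc : cos (π / 2 * 1) = 0 := by rw [mul_one, cos_pi_div_two]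
  have h3 := sn_pos h0 (hab.trans hb)
  have h4 := sn_pos (by linarith : 0 < b) hb
  rw [hc]
  generalize sin (π / 2 * a) = S at *
  generalize sin (π / 2 * b) = S' at *
  have e : S * S' * -((1 * 0 - cos (π / 2 * a) * cos (π / 2 * b)) / (S * S')) =
      cos (π / 2 * a) * cos (π / 2 * b) := by
    generalize cos (π / 2 * a) = C at *
    generalize cos (π / 2 * b) = C' at *
    field_simp
    ring
  rw [e, sub_self]

theorem tob (h0 : 0 < a) (hab : a ≤ b) (hbc : b ≤ c) (hc : c ≤ 1) (hs : c ≤ a + b)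
    (hz : dih 1 a b c ≤ 0) : 0 ≤ F20 1 a b c := by
  have hb : b ≤ 1 := hbc.trans hc
  have ha : a ≤ 1 := hab.trans hb
  have hb0 : 0 < b := by linarith
  have hp := Real.pi_pos
  rcases le_total (a + b) 1 with h | h
  · have e := KT2 h0 hab hbc hc hz h
    unfold F20
    rw [e]
    by_cases ht : tan (π / 4 * b) ≤ 8544/10000
    · rw [CH_F1t h0 hab hbc hc hs hz]
      have htp := tan_q_pos hb0 hb
      have hr := tan_q_nonneg h0.le ha
      refine R_F1t (div_nonneg hr htp.le) ?_ htp.le ht (ang_nonneg _) (ang_le_one _) ?_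
      · rw [div_le_one htp]; exact tan_q_mono h0.le hab hb
      · rw [div_mul_cancel₀ _ htp.ne']
        -- `tan(πa/4) (1 + t) ≤ 1 - t`
        have h1 : tan (π / 4 * a) ≤ tan (π / 4 * (1 - b)) := tan_q_mono h0.le (by linarith) (by linarith)
        have hc1 : 0 < cos (π / 4 * b) := cos_pos_of_mem_Ioo ⟨by nlinarith, by nlinarith⟩
        have hs1 : 0 ≤ sin (π / 4 * b) := sin_nonneg_of_nonneg_of_le_pi (by positivity) (by nlinarith)
        have e : tan (π / 4 * (1 - b)) * (1 + tan (π / 4 * b)) = 1 - tan (π / 4 * b) := by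
          have e1 : sin (π / 4 * (1 - b)) = √2 / 2 * (cos (π / 4 * b) - sin (π / 4 * b)) := by
            rw [mul_sub, mul_one, sin_sub, sin_pi_div_four, cos_pi_div_four]; ring
          have e2 : cos (π / 4 * (1 - b)) = √2 / 2 * (cos (π / 4 * b) + sin (π / 4 * b)) := by
            rw [mul_sub, mul_one, cos_sub, sin_pi_div_four, cos_pi_div_four]; ring
          have h2 : (0 : ℝ) < √2 := by positivity
          have h3 : 0 < cos (π / 4 * b) + sin (π / 4 * b) := by linarith
          rw [tan_eq_sin_div_cos, tan_eq_sin_div_cos (π / 4 * b), e1, e2]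
          generalize cos (π / 4 * b) = C at *
          generalize sin (π / 4 * b) = S at *
          field_simp
        have h2 := mul_le_mul_of_nonneg_right h1 (show 0 ≤ 1 + tan (π / 4 * b) by linarith)
        rw [e] at h2
        linarith
    · push Not at ht
      have hb9 : 9/10 ≤ b := by
        by_contra hcon
        push Not at hcon
        have h1 := tan_quarter (x := b) (X := 785375/10000000) hb0.le hb (by
          have := Real.pi_gt_d4; nlinarith) (by norm_num)
        nlinarith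
      rw [CH_FsG 2 h0 hab hbc hc hs hz]
      have key := R_FsG (a := a) (b := b) (g0 := 0) (K := 0) h0.le (by linarith) hb0.le hb (Or.inl hb9)
        le_rfl (by
          rw [mul_zero, cos_zero, mul_one]
          have h1 : 0 ≤ cos (π / 2 * (a + b)) := cs_nonneg (by linarith) h
          rw [mul_add, cos_add] at h1
          linarith) le_rfl (by rw [FsG2_g0 (by linarith) (by linarith)]; simp)
        (E1 h0 hab hb) (ang (dih 1 a b c)) (ang_nonneg _) (ang_le_one _)
      simpa using key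
  · have e := KT1 h0 hab hbc hc hz h
    unfold F20
    rw [e, CH_FsG 1 h0 hab hbc hc hs hz]
    have hg0 : ang (dih 1 a b 1) ≤ ang (dih 1 a b c) := by
      apply ang_anti
      have hd := dih_one_nonpos h0 ha hb0 hb
      rw [abs_of_nonpos hz, abs_of_nonpos hd]
      have hc' : cos (π / 2 * 1) = 0 := by rw [mul_one, cos_pi_div_two]
      have h3 := sn_pos h0 ha
      have h4 := sn_pos hb0 hb
      have h5 := cs_nonneg (by linarith : 0 ≤ c) hc
      unfold dih
      rw [hc', neg_le_neg_iff]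
      gcongr
    rcases le_total a (53/100) with ha5 | ha5
    · have key := R_FsG (a := a) (b := b) (g0 := ang (dih 1 a b 1)) (K := 48 * (1 - a - b)) h0.le ha5
        hb0.le hb (Or.inr ⟨hab, h⟩) (ang_nonneg _) (hw_eq h0 hab hb h) (by linarith)
        (by rw [← FsG12]; exact E0 h0 hab hb h) (E1 h0 hab hb) (ang (dih 1 a b c)) hg0 (ang_le_one _)
      rw [← FsG12] at key
      exact key
    · exact R_QD ha5 hab hb (ang_nonneg _) hg0 (ang_le_one _) (hw_eq h0 hab hb h) (E0 h0 hab hb h)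

theorem cert3 : Cert3 := by
  refine cert3_of_ranges ?_ ?_
  · intro a b c h0 hab hbc hc hs
    have h : 0 ≤ F20 1 a b c := by
      rcases le_total 0 (dih 1 a b c) with h | h
      · exact ta h0 hab hbc hc hs h
      · exact tob h0 hab hbc hc hs h
    unfold F20 at h
    linarith
  · intro a b c h0 hab hbc hc hs
    have h := tm h0 hab hbc hc hs
    unfold F20 at h
    linarith

end H41FT
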