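import Pool.Agent.H41.FT.Ops

/-!
# The functions of the certificate, for arbitrary operations
-/

namespace H41FT

variable {T : Type} (o : Ops T)

/-- `Ω(a) = 3a - s_a²` -/
def om (a sa : T) : T := o.sub (o.smul 3 a) (o.mul sa sa)

/-- `s_a u s_b v (1 - γ - cos γ)` -/
def hz (su sv g c : T) : T := o.mul (o.mul su sv) (o.sub (o.sub (o.nat 1) g) c)

/-- `Ω Ω' (3γ + 2 sin²)` -/
def rk (Oa Ob g c : T) : T :=
  o.mul (o.mul Oa Ob) (o.add (o.nat 2) (o.sub (o.smul 3 g) (o.smul 2 (o.mul c c))))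

/-- sum of the rank one terms -/
def rks (Oa Ob Oc gx cx gy cy gz cz : T) : T :=
  o.add (rk o Oa Ob gz cz) (o.add (rk o Ob Oc gx cx) (rk o Oc Oa gy cy))

/-- final assembly -/
def fin_ (br D2 hs rs : T) : T :=
  o.add (o.add (o.smul 24 br) (o.smul 12 D2)) (o.add (o.smul 16 hs) rs)

/-- sum of rank one terms from sides and sines -/
def rkS (a b c sa sb sc gx cx gy cy gz cz : T) : T :=
  lt (om o a sa) fun Oa => lt (om o b sb) fun Ob => lt (om o c sc) fun Oc =>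
    rks o Oa Ob Oc gx cx gy cy gz cz

/-- the product terms `hz`: kind `0`: all acute `+`; kind `1`: `z` negative; otherwise all negative -/
def hsS (k : Nat) (su sv sw gx cx gy cy gz cz : T) : T :=
  match k with
  | 0 => o.add (hz o su sv gz cz) (o.add (hz o sv sw gx cx) (hz o sw su gy cy))
  | 1 => o.sub (o.add (hz o sv sw gx cx) (hz o sw su gy cy)) (hz o su sv gz cz)
  | _ => o.sub (o.nat 0) (o.add (hz o su sv gz cz) (o.add (hz o sv sw gx cx) (hz o sw su gy cy)))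

/-- `2 b δ X + 2 a δ Y` -/
def xyS (a b de gx gy : T) : T := o.smul 2 (o.mul de (o.add (o.mul b gx) (o.mul a gy)))

def brM (al be de gx gy gz : T) : T :=
  o.sub (o.smul 3 (o.add (o.add al be) de)) (o.add (o.nat 3) (o.smul 2
    (o.add (o.mul (o.mul al be) gz) (o.mul de (o.add (o.mul be gx) (o.mul al gy))))))
def br0 (a b c be de gx gy gz : T) : T :=
  o.add (o.sub (o.sub c (o.smul 3 a)) b) (o.add (o.smul 2 (o.mul (o.mul a be) gz)) (xyS o a b de gx gy))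
def br1 (a b c al be de gx gy gz : T) : T :=
  o.add (o.sub (o.sub (o.add c (o.nat 2)) (o.smul 3 (o.add a b))) (o.smul 2 (o.mul (o.mul al be) gz)))
    (xyS o a b de gx gy)
def br2 (a b c de gx gy gz : T) : T :=
  o.add (o.sub (o.sub c (o.add a b)) (o.smul 2 (o.mul (o.mul a b) gz))) (xyS o a b de gx gy)

/-- the bridge part; kind `k = 0,1,2` and otherwise `T_-` -/
def brS (k : Nat) (a b c gx gy gz : T) : T :=
  lt (o.sub (o.nat 1) c) fun de =>
  match k with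
  | 0 => br0 o a b c (o.sub (o.nat 1) b) de gx gy gz
  | 1 => br1 o a b c (o.sub (o.nat 1) a) (o.sub (o.nat 1) b) de gx gy gz
  | 2 => br2 o a b c de gx gy gz
  | _ => brM o (o.sub (o.nat 1) a) (o.sub (o.nat 1) b) de gx gy gz

def kh (k : Nat) : Nat :=
  match k with
  | 0 => 0
  | 1 => 1
  | 2 => 1
  | _ => 3

/-- `20 F` from all the ingredients -/
def FG (k : Nat) (a b c u v w sa sb sc D2 gx cx gy cy gz cz : T) : T :=
  lt (o.mul sa u) fun su => lt (o.mul sb v) fun sv => lt (o.mul sc w) fun sw =>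
  fin_ o (brS o k a b c gx gy gz) D2 (hsS o (kh k) su sv sw gx cx gy cy gz cz)
    (rkS o a b c sa sb sc gx cx gy cy gz cz)

/-- after the SAS data `sc = s_c`, `q = s_c cos X`, `q2 = s_c cos Y`, `p = s_c sin X`,
`p2 = s_c sin Y`; `k = 3` is `T_-` where `c ← 2 - c`, `w ← -w`. -/
def sasK (k : Nat) (a b u v w sa sb sc p q p2 q2 g ka : T) : T :=
  lt (o.inv sc) fun isc =>
  lt (o.smul 2 (o.at_ (o.mul p (o.inv (o.add sc q))))) fun X =>
  lt (o.smul 2 (o.at_ (o.mul p2 (o.inv (o.add sc q2))))) fun Y =>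
  lt (o.smul 2 (o.at_ (o.mul sc (o.inv (o.add (o.nat 1) w))))) fun c =>
  lt (o.mul sa p2) fun Dr =>
  FG o k a b c u v w sa sb sc (o.mul Dr Dr) X (o.mul q isc) Y (o.mul q2 isc) g ka

/-- the chart `(a, b, γ)` for obtuse `Γ = 2 - γ` -/
def FsG (k : Nat) (a b g : T) : T :=
  lt (o.cs a) fun u => lt (o.sn a) fun sa => lt (o.cs b) fun v => lt (o.sn b) fun sb =>
  lt (o.cs g) fun ka => lt (o.sn g) fun si =>
  lt (o.mul sa v) fun sav => lt (o.mul sb u) fun sbu =>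
  lt (o.sub (o.mul u v) (o.mul (o.mul sa sb) ka)) fun w =>
  lt (o.mul sa si) fun p => lt (o.add sbu (o.mul sav ka)) fun q =>
  lt (o.mul sb si) fun p2 => lt (o.add sav (o.mul sbu ka)) fun q2 =>
  lt (o.sqrt (o.add (o.mul p p) (o.mul q q))) fun sc =>
  sasK o k a b u v w sa sb sc p q p2 q2 g ka

/-- the scaled chart core: `s_a = t sap` etc. -/
def core (k : Nat) (rho t ka si g : T) : T :=
  lt (o.mul t t) fun t2 => lt (o.mul (o.mul rho rho) t2) fun r2 =>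
  lt (o.inv (o.add (o.nat 1) r2)) fun ia => lt (o.inv (o.add (o.nat 1) t2)) fun ib =>
  lt (o.mul (o.sub (o.nat 1) r2) ia) fun u => lt (o.mul (o.sub (o.nat 1) t2) ib) fun v =>
  lt (o.smul 2 (o.mul rho ia)) fun sap => lt (o.smul 2 ib) fun sbp =>
  lt (o.mul sap v) fun sav => lt (o.mul sbp u) fun sbu =>
  lt (o.mul sap si) fun p => lt (o.add sbu (o.mul sav ka)) fun q =>
  lt (o.mul sbp si) fun p2 => lt (o.add sav (o.mul sbu ka)) fun q2 =>
  lt (o.sqrt (o.add (o.mul p p) (o.mul q q))) fun scp =>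
  lt (o.inv scp) fun isc =>
  lt (o.smul 2 (o.at_ (o.mul p (o.inv (o.add scp q))))) fun X =>
  lt (o.smul 2 (o.at_ (o.mul p2 (o.inv (o.add scp q2))))) fun Y =>
  lt (o.sub (o.mul u v) (o.mul t2 (o.mul (o.mul sap sbp) ka))) fun w =>
  lt (o.mul t scp) fun sc =>
  lt (o.smul 2 (o.at_ (o.mul sc (o.inv (o.add (o.nat 1) w))))) fun c =>
  lt (o.mul t sap) fun sa => lt (o.mul t sbp) fun sb =>
  lt (o.mul (o.mul sa sb) si) fun Dr =>
  lt (match k with
    | 0 => o.sub (o.nat 0) ka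
    | _ => ka) fun cz =>
  FG o k (o.smul 2 (o.at_ (o.mul rho t))) (o.smul 2 (o.at_ t)) c u v w sa sb sc (o.mul Dr Dr)
    X (o.mul q isc) Y (o.mul q2 isc) g cz

/-- chart `(ρ, t, γ)`, obtuse `Γ` -/
def F1t (k : Nat) (rho t g : T) : T := core o k rho t (o.cs g) (o.sn g) g

/-- chart `(ρ, t, τ)`, acute `Γ` -/
def F0t (rho t tau : T) : T :=
  lt (o.mul (o.mul tau rho) (o.sub (o.nat 1) (o.mul t t))) fun kz2 =>
  lt (o.sqrt (o.sub (o.nat 4) (o.mul kz2 kz2))) fun sz2 =>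
  lt (o.sub (o.nat 1) (o.smul 2 (o.at_ (o.mul kz2 (o.inv (o.add (o.nat 2) sz2)))))) fun Z =>
  lt (o.inv (o.nat 2)) fun hf =>
  core o 0 rho t (o.sub (o.nat 0) (o.mul hf kz2)) (o.mul hf sz2) Z

/-- chart `(a, γ, n)` for `T_-`: `w = n v`, `tan β = κ s_a / (u + n)` -/
def Fc3 (a g n : T) : T :=
  lt (o.cs a) fun u => lt (o.sn a) fun sa => lt (o.cs g) fun ka => lt (o.sn g) fun si =>
  lt (o.mul ka sa) fun y => lt (o.add u n) fun un =>
  lt (o.sqrt (o.add (o.mul un un) (o.mul y y))) fun R => lt (o.inv R) fun iR =>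
  lt (o.mul y iR) fun v => lt (o.mul un iR) fun sb =>
  lt (o.sub (o.nat 1) (o.smul 2 (o.at_ (o.mul y (o.inv (o.add un R)))))) fun b =>
  lt (o.mul n v) fun w =>
  lt (o.mul sa si) fun p => lt (o.add (o.mul u sb) (o.mul y v)) fun q =>
  lt (o.mul sb si) fun p2 => lt (o.add (o.mul v sa) (o.mul (o.mul u sb) ka)) fun q2 =>
  lt (o.sqrt (o.sub (o.nat 1) (o.mul w w))) fun sc => lt (o.inv sc) fun isc =>
  lt (o.smul 2 (o.at_ (o.mul p (o.inv (o.add sc q))))) fun X =>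
  lt (o.smul 2 (o.at_ (o.mul p2 (o.inv (o.add sc q2))))) fun Y =>
  lt (o.sub (o.nat 1) (o.smul 2 (o.at_ (o.mul w (o.inv (o.add (o.nat 1) sc)))))) fun c =>
  lt (o.mul sa p2) fun Dr =>
  FG o 3 a b c u v w sa sb sc (o.mul Dr Dr) X (o.mul q isc) Y (o.mul q2 isc) g ka

/-- the chart of the complementary sides `(α, β, δ)`; `k = 3`: `T_-`, `k = 0`: acute `T_+`. -/
def FsdK (k : Nat) (al be de u v w sa sb sc : T) : T :=
  lt (o.mul u v) fun uv => lt (o.mul v w) fun vw => lt (o.mul w u) fun wu =>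
  lt (o.sub (o.sub (o.sub (o.nat 1) (o.mul u u)) (o.mul v v)) (o.mul w w)) fun G0 =>
  lt (o.smul 2 (o.mul uv w)) fun e =>
  lt (match k with
    | 0 => o.add G0 e
    | _ => o.sub G0 e) fun D2 =>
  lt (o.sqrt D2) fun Dr =>
  lt (match k with
    | 0 => o.sub u vw
    | _ => o.add u vw) fun nx =>
  lt (match k with
    | 0 => o.sub v wu
    | _ => o.add v wu) fun ny =>
  lt (match k with
    | 0 => o.sub w uv
    | _ => o.add w uv) fun nz =>
  lt (o.mul sa sb) fun ab => lt (o.mul sb sc) fun bc => lt (o.mul sc sa) fun ca =>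
  FG o k (o.sub (o.nat 1) al) (o.sub (o.nat 1) be) (o.sub (o.nat 1) de) u v w sa sb sc D2
    (o.smul 2 (o.at_ (o.mul Dr (o.inv (o.add bc nx))))) (o.mul nx (o.inv bc))
    (o.smul 2 (o.at_ (o.mul Dr (o.inv (o.add ca ny))))) (o.mul ny (o.inv ca))
    (o.smul 2 (o.at_ (o.mul Dr (o.inv (o.add ab nz))))) (o.mul nz (o.inv ab))
def Fsd (k : Nat) (al be de : T) : T :=
  FsdK o k al be de (o.sn al) (o.sn be) (o.sn de) (o.cs al) (o.cs be) (o.cs de)

/-- ONB chart for `T_+`: `α = x + β`, `δ = β θ` -/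
def Fon (x be th : T) : T := Fsd o 0 (o.add x be) be (o.mul be th)

/-! ### derivatives -/

/-- `y`, made invalid when `x` is invalid -/
def gb (x y : T) : T := o.add y (o.mul (o.nat 0) x)

/-- first derivative in direction `i` -/
def d1 (F : {T : Type} → Ops T → T → T → T → T) (i : Nat) (x y z : T) : T :=
  lt (F (duO o) ⟨x, o.nat (bif Nat.beq i 0 then 1 else 0)⟩
    ⟨y, o.nat (bif Nat.beq i 1 then 1 else 0)⟩
    ⟨z, o.nat (bif Nat.beq i 2 then 1 else 0)⟩) fun r => gb o r.v r.d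

/-- `W = (π/2) cos γ F_γ - sin γ F_γγ` -/
def Wf (F : {T : Type} → Ops T → T → T → T → T) (a b g : T) : T :=
  lt (F (duO (duO o)) ⟨⟨a, o.nat 0⟩, ⟨o.nat 0, o.nat 0⟩⟩ ⟨⟨b, o.nat 0⟩, ⟨o.nat 0, o.nat 0⟩⟩
    ⟨⟨g, o.nat 1⟩, ⟨o.nat 1, o.nat 0⟩⟩) fun r =>
  gb o r.v.v (gb o r.d.v (o.sub (o.hm (o.mul (o.cs g) r.v.d)) (o.mul (o.sn g) r.d.d)))

/-- negation -/
def neg_ (F : {T : Type} → Ops T → T → T → T → T) (x y z : T) : T := o.sub (o.nat 0) (F o x y z)

end H41FT
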