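import Pool.Agent.H41.FT.Roots

/-!
# The claims on real boxes
-/

namespace H41FT

theorem in_of {c w : ℕ} {lo hi x : ℝ} (e1 : vl c - w ≤ lo * SS) (e2 : hi * SS ≤ vl c + w)
    (h1 : lo ≤ x) (h2 : x ≤ hi) : |x * SS - vl c| ≤ w := by
  have hS := SS_pos
  have k1 := mul_le_mul_of_nonneg_right h1 hS.le
  have k2 := mul_le_mul_of_nonneg_right h2 hS.le
  rw [abs_le]; constructor <;> linarith

theorem gd_gC3 {p : P} (h : Real.cos (Real.pi / 2 * p 1) * (Real.sin (Real.pi / 2 * p 0) * Real.sin (Real.pi / 2 * p 0)) -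
      Real.cos (Real.pi / 2 * p 0) * (Real.cos (Real.pi / 2 * p 0) + p 2) ≤ 0) : ev gC3 p ≤ 0 := by
  exact h

theorem gd_gXY {p : P} (h : p 1 - p 0 ≤ 0) : ev gXY p ≤ 0 := by
  exact h

theorem gd_gYZ {p : P} (h : p 2 - p 1 ≤ 0) : ev gYZ p ≤ 0 := by
  exact h

theorem gd_gYX {p : P} (h : p 0 - p 1 ≤ 0) : ev gYX p ≤ 0 := by
  exact h

theorem gd_gT1 {p : P} (h : p 0 * p 1 + p 1 + p 0 * p 1 * p 1 - 1 ≤ 0) : ev gT1 p ≤ 0 := by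
  show p 0 * p 1 + p 1 + p 0 * p 1 * p 1 - ((1 : ℕ) : ℝ) ≤ 0
  push_cast; exact h

theorem gd_gW {p : P} (h : Real.sin (Real.pi / 2 * p 0) * Real.sin (Real.pi / 2 * p 1) * Real.cos (Real.pi / 2 * p 2) -
      Real.cos (Real.pi / 2 * p 0) * Real.cos (Real.pi / 2 * p 1) ≤ 0) : ev gW p ≤ 0 := by
  exact h

theorem gd_gS1 {p : P} (h : 1 - (p 0 + p 1) ≤ 0) : ev gS1 p ≤ 0 := by
  show ((1 : ℕ) : ℝ) - (p 0 + p 1) ≤ 0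
  push_cast; exact h

theorem gd_gO {p : P} (h : 25 * (p 0 + p 1) - 3 ≤ 0) : ev gO p ≤ 0 := by
  show ((25 : ℕ) : ℝ) * (p 0 + p 1) - ((3 : ℕ) : ℝ) ≤ 0
  push_cast; exact h

theorem gN0 (p : P) : ev gN p ≤ 0 := by
  show ((0 : ℕ) : ℝ) ≤ 0
  simp

theorem clMA {p : P} (l0 : 0 ≤ p 0) (r0 : p 0 ≤ 1/10) (l1 : 0 ≤ p 1) (r1 : p 1 ≤ 1/10) (l2 : 0 ≤ p 2) (r2 : p 2 ≤ 1) :
    0 < (D 1 (D 0 (ev Fc3))) p ∧ Sm (ev Fc3) p := by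
  refine root_MA p ⟨?_, ?_, ?_⟩ (gN0 p) (gN0 p) (gN0 p)
  · exact in_of (by norm_num [vl, BB, SS]) (by norm_num [vl, BB, SS]) l0 r0
  · exact in_of (by norm_num [vl, BB, SS]) (by norm_num [vl, BB, SS]) l1 r1
  · exact in_of (by norm_num [vl, BB, SS]) (by norm_num [vl, BB, SS]) l2 r2

theorem clMB {p : P} (l0 : 0 ≤ p 0) (r0 : p 0 ≤ 1/10) (l1 : 9/10 ≤ p 1) (r1 : p 1 ≤ 1) (l2 : 0 ≤ p 2) (r2 : p 2 ≤ 1) :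
    0 < (fO.sub (fO.nat 0) (D 1 (D 0 (ev Fc3)))) p ∧ Sm (ev Fc3) p := by
  refine root_MB p ⟨?_, ?_, ?_⟩ (gN0 p) (gN0 p) (gN0 p)
  · exact in_of (by norm_num [vl, BB, SS]) (by norm_num [vl, BB, SS]) l0 r0
  · exact in_of (by norm_num [vl, BB, SS]) (by norm_num [vl, BB, SS]) l1 r1
  · exact in_of (by norm_num [vl, BB, SS]) (by norm_num [vl, BB, SS]) l2 r2

theorem clMC {p : P} (l0 : 0 ≤ p 0) (r0 : p 0 ≤ 1/10) (l1 : 1/10 ≤ p 1) (r1 : p 1 ≤ 9/10) (l2 : 0 ≤ p 2) (r2 : p 2 ≤ 1) :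
    0 < (D 0 (ev Fc3)) p ∧ Sm (ev Fc3) p := by
  refine root_MC p ⟨?_, ?_, ?_⟩ (gN0 p) (gN0 p) (gN0 p)
  · exact in_of (by norm_num [vl, BB, SS]) (by norm_num [vl, BB, SS]) l0 r0
  · exact in_of (by norm_num [vl, BB, SS]) (by norm_num [vl, BB, SS]) l1 r1
  · exact in_of (by norm_num [vl, BB, SS]) (by norm_num [vl, BB, SS]) l2 r2

theorem clMD {p : P} (l0 : 1/10 ≤ p 0) (r0 : p 0 ≤ 67/100) (l1 : 0 ≤ p 1) (r1 : p 1 ≤ 1/10) (l2 : 0 ≤ p 2) (r2 : p 2 ≤ 1) :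
    0 < (D 1 (ev Fc3)) p ∧ Sm (ev Fc3) p := by
  refine root_MD p ⟨?_, ?_, ?_⟩ (gN0 p) (gN0 p) (gN0 p)
  · exact in_of (by norm_num [vl, BB, SS]) (by norm_num [vl, BB, SS]) l0 r0
  · exact in_of (by norm_num [vl, BB, SS]) (by norm_num [vl, BB, SS]) l1 r1
  · exact in_of (by norm_num [vl, BB, SS]) (by norm_num [vl, BB, SS]) l2 r2

theorem clME {p : P} (l0 : 1/10 ≤ p 0) (r0 : p 0 ≤ 67/100) (l1 : 9/10 ≤ p 1) (r1 : p 1 ≤ 1) (l2 : 0 ≤ p 2) (r2 : p 2 ≤ 1)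
    (g0 : Real.cos (Real.pi / 2 * p 1) * (Real.sin (Real.pi / 2 * p 0) * Real.sin (Real.pi / 2 * p 0)) -
      Real.cos (Real.pi / 2 * p 0) * (Real.cos (Real.pi / 2 * p 0) + p 2) ≤ 0) :
    0 < (fO.sub (fO.nat 0) (D 1 (ev Fc3))) p ∧ Sm (ev Fc3) p := by
  refine root_ME p ⟨?_, ?_, ?_⟩ (gd_gC3 g0) (gN0 p) (gN0 p)
  · exact in_of (by norm_num [vl, BB, SS]) (by norm_num [vl, BB, SS]) l0 r0
  · exact in_of (by norm_num [vl, BB, SS]) (by norm_num [vl, BB, SS]) l1 r1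
  · exact in_of (by norm_num [vl, BB, SS]) (by norm_num [vl, BB, SS]) l2 r2

theorem clMG {p : P} (l0 : 1/10 ≤ p 0) (r0 : p 0 ≤ 67/100) (l1 : 1/10 ≤ p 1) (r1 : p 1 ≤ 9/10) (l2 : 0 ≤ p 2) (r2 : p 2 ≤ 1)
    (g0 : Real.cos (Real.pi / 2 * p 1) * (Real.sin (Real.pi / 2 * p 0) * Real.sin (Real.pi / 2 * p 0)) -
      Real.cos (Real.pi / 2 * p 0) * (Real.cos (Real.pi / 2 * p 0) + p 2) ≤ 0) :
    0 < (ev Fc3) p ∧ Sm (ev Fc3) p := by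
  refine root_MG p ⟨?_, ?_, ?_⟩ (gd_gC3 g0) (gN0 p) (gN0 p)
  · exact in_of (by norm_num [vl, BB, SS]) (by norm_num [vl, BB, SS]) l0 r0
  · exact in_of (by norm_num [vl, BB, SS]) (by norm_num [vl, BB, SS]) l1 r1
  · exact in_of (by norm_num [vl, BB, SS]) (by norm_num [vl, BB, SS]) l2 r2

theorem clSA {p : P} (l0 : 0 ≤ p 0) (r0 : p 0 ≤ 9/100) (l1 : 0 ≤ p 1) (r1 : p 1 ≤ 9/100) (l2 : 0 ≤ p 2) (r2 : p 2 ≤ 9/100) :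
    0 < (D 1 (D 0 (ev Fsd3))) p ∧ Sm (ev Fsd3) p := by
  refine root_SA p ⟨?_, ?_, ?_⟩ (gN0 p) (gN0 p) (gN0 p)
  · exact in_of (by norm_num [vl, BB, SS]) (by norm_num [vl, BB, SS]) l0 r0
  · exact in_of (by norm_num [vl, BB, SS]) (by norm_num [vl, BB, SS]) l1 r1
  · exact in_of (by norm_num [vl, BB, SS]) (by norm_num [vl, BB, SS]) l2 r2

theorem clSB {p : P} (l0 : 0 ≤ p 0) (r0 : p 0 ≤ 9/100) (l1 : 0 ≤ p 1) (r1 : p 1 ≤ 9/100) (l2 : 0 ≤ p 2) (r2 : p 2 ≤ 9/100) :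
    0 < (D 2 (D 0 (ev Fsd3))) p ∧ Sm (ev Fsd3) p := by
  refine root_SB p ⟨?_, ?_, ?_⟩ (gN0 p) (gN0 p) (gN0 p)
  · exact in_of (by norm_num [vl, BB, SS]) (by norm_num [vl, BB, SS]) l0 r0
  · exact in_of (by norm_num [vl, BB, SS]) (by norm_num [vl, BB, SS]) l1 r1
  · exact in_of (by norm_num [vl, BB, SS]) (by norm_num [vl, BB, SS]) l2 r2

theorem clSC {p : P} (l0 : 0 ≤ p 0) (r0 : p 0 ≤ 9/100) (l1 : 0 ≤ p 1) (r1 : p 1 ≤ 9/100) (l2 : 0 ≤ p 2) (r2 : p 2 ≤ 9/100) :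
    0 < (D 2 (D 1 (ev Fsd3))) p ∧ Sm (ev Fsd3) p := by
  refine root_SC p ⟨?_, ?_, ?_⟩ (gN0 p) (gN0 p) (gN0 p)
  · exact in_of (by norm_num [vl, BB, SS]) (by norm_num [vl, BB, SS]) l0 r0
  · exact in_of (by norm_num [vl, BB, SS]) (by norm_num [vl, BB, SS]) l1 r1
  · exact in_of (by norm_num [vl, BB, SS]) (by norm_num [vl, BB, SS]) l2 r2

theorem clSE {p : P} (l0 : 9/100 ≤ p 0) (r0 : p 0 ≤ 33/100) (l1 : 0 ≤ p 1) (r1 : p 1 ≤ 8/100) (l2 : 0 ≤ p 2) (r2 : p 2 ≤ 8/100) :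
    0 < (D 1 (ev Fsd3)) p ∧ Sm (ev Fsd3) p := by
  refine root_SE p ⟨?_, ?_, ?_⟩ (gN0 p) (gN0 p) (gN0 p)
  · exact in_of (by norm_num [vl, BB, SS]) (by norm_num [vl, BB, SS]) l0 r0
  · exact in_of (by norm_num [vl, BB, SS]) (by norm_num [vl, BB, SS]) l1 r1
  · exact in_of (by norm_num [vl, BB, SS]) (by norm_num [vl, BB, SS]) l2 r2

theorem clSF {p : P} (l0 : 9/100 ≤ p 0) (r0 : p 0 ≤ 33/100) (l1 : 0 ≤ p 1) (r1 : p 1 ≤ 8/100) (l2 : 0 ≤ p 2) (r2 : p 2 ≤ 8/100) :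
    0 < (D 2 (ev Fsd3)) p ∧ Sm (ev Fsd3) p := by
  refine root_SF p ⟨?_, ?_, ?_⟩ (gN0 p) (gN0 p) (gN0 p)
  · exact in_of (by norm_num [vl, BB, SS]) (by norm_num [vl, BB, SS]) l0 r0
  · exact in_of (by norm_num [vl, BB, SS]) (by norm_num [vl, BB, SS]) l1 r1
  · exact in_of (by norm_num [vl, BB, SS]) (by norm_num [vl, BB, SS]) l2 r2

theorem clS0 {p : P} (l0 : 0 ≤ p 0) (r0 : p 0 ≤ 33/100) (l1 : 8/100 ≤ p 1) (r1 : p 1 ≤ 33/100) (l2 : 0 ≤ p 2) (r2 : p 2 ≤ 33/100)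
    (g0 : p 1 - p 0 ≤ 0)
    (g1 : p 2 - p 1 ≤ 0) :
    0 < (ev Fsd3) p ∧ Sm (ev Fsd3) p := by
  refine root_S0 p ⟨?_, ?_, ?_⟩ (gd_gXY g0) (gd_gYZ g1) (gN0 p)
  · exact in_of (by norm_num [vl, BB, SS]) (by norm_num [vl, BB, SS]) l0 r0
  · exact in_of (by norm_num [vl, BB, SS]) (by norm_num [vl, BB, SS]) l1 r1
  · exact in_of (by norm_num [vl, BB, SS]) (by norm_num [vl, BB, SS]) l2 r2

theorem clPA {p : P} (l0 : 0 ≤ p 0) (r0 : p 0 ≤ 1/10) (l1 : 0 ≤ p 1) (r1 : p 1 ≤ 1/10) (l2 : 0 ≤ p 2) (r2 : p 2 ≤ 15/100) :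
    0 < (D 2 (D 0 (D 1 (ev F1t2)))) p ∧ Sm (ev F1t2) p := by
  refine root_PA p ⟨?_, ?_, ?_⟩ (gN0 p) (gN0 p) (gN0 p)
  · exact in_of (by norm_num [vl, BB, SS]) (by norm_num [vl, BB, SS]) l0 r0
  · exact in_of (by norm_num [vl, BB, SS]) (by norm_num [vl, BB, SS]) l1 r1
  · exact in_of (by norm_num [vl, BB, SS]) (by norm_num [vl, BB, SS]) l2 r2

theorem clPB {p : P} (l0 : 0 ≤ p 0) (r0 : p 0 ≤ 1/10) (l1 : 0 ≤ p 1) (r1 : p 1 ≤ 1/10) (l2 : 15/100 ≤ p 2) (r2 : p 2 ≤ 1) :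
    0 < (D 0 (D 1 (ev F1t2))) p ∧ Sm (ev F1t2) p := by
  refine root_PB p ⟨?_, ?_, ?_⟩ (gN0 p) (gN0 p) (gN0 p)
  · exact in_of (by norm_num [vl, BB, SS]) (by norm_num [vl, BB, SS]) l0 r0
  · exact in_of (by norm_num [vl, BB, SS]) (by norm_num [vl, BB, SS]) l1 r1
  · exact in_of (by norm_num [vl, BB, SS]) (by norm_num [vl, BB, SS]) l2 r2

theorem clPC {p : P} (l0 : 1/10 ≤ p 0) (r0 : p 0 ≤ 1) (l1 : 0 ≤ p 1) (r1 : p 1 ≤ 1/10) (l2 : 0 ≤ p 2) (r2 : p 2 ≤ 15/100) :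
    0 < (D 2 (D 1 (ev F1t2))) p ∧ Sm (ev F1t2) p := by
  refine root_PC p ⟨?_, ?_, ?_⟩ (gN0 p) (gN0 p) (gN0 p)
  · exact in_of (by norm_num [vl, BB, SS]) (by norm_num [vl, BB, SS]) l0 r0
  · exact in_of (by norm_num [vl, BB, SS]) (by norm_num [vl, BB, SS]) l1 r1
  · exact in_of (by norm_num [vl, BB, SS]) (by norm_num [vl, BB, SS]) l2 r2

theorem clPD {p : P} (l0 : 1/10 ≤ p 0) (r0 : p 0 ≤ 1) (l1 : 0 ≤ p 1) (r1 : p 1 ≤ 1/10) (l2 : 15/100 ≤ p 2) (r2 : p 2 ≤ 1) :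
    0 < (D 1 (ev F1t2)) p ∧ Sm (ev F1t2) p := by
  refine root_PD p ⟨?_, ?_, ?_⟩ (gN0 p) (gN0 p) (gN0 p)
  · exact in_of (by norm_num [vl, BB, SS]) (by norm_num [vl, BB, SS]) l0 r0
  · exact in_of (by norm_num [vl, BB, SS]) (by norm_num [vl, BB, SS]) l1 r1
  · exact in_of (by norm_num [vl, BB, SS]) (by norm_num [vl, BB, SS]) l2 r2

theorem clPE {p : P} (l0 : 0 ≤ p 0) (r0 : p 0 ≤ 1/10) (l1 : 1/10 ≤ p 1) (r1 : p 1 ≤ 8544/10000) (l2 : 0 ≤ p 2) (r2 : p 2 ≤ 15/100)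
    (g0 : p 0 * p 1 + p 1 + p 0 * p 1 * p 1 - 1 ≤ 0) :
    0 < (D 2 (D 0 (ev F1t2))) p ∧ Sm (ev F1t2) p := by
  refine root_PE p ⟨?_, ?_, ?_⟩ (gd_gT1 g0) (gN0 p) (gN0 p)
  · exact in_of (by norm_num [vl, BB, SS]) (by norm_num [vl, BB, SS]) l0 r0
  · exact in_of (by norm_num [vl, BB, SS]) (by norm_num [vl, BB, SS]) l1 r1
  · exact in_of (by norm_num [vl, BB, SS]) (by norm_num [vl, BB, SS]) l2 r2

theorem clPF {p : P} (l0 : 0 ≤ p 0) (r0 : p 0 ≤ 1/10) (l1 : 1/10 ≤ p 1) (r1 : p 1 ≤ 8544/10000) (l2 : 15/100 ≤ p 2) (r2 : p 2 ≤ 1)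
    (g0 : p 0 * p 1 + p 1 + p 0 * p 1 * p 1 - 1 ≤ 0) :
    0 < (D 0 (ev F1t2)) p ∧ Sm (ev F1t2) p := by
  refine root_PF p ⟨?_, ?_, ?_⟩ (gd_gT1 g0) (gN0 p) (gN0 p)
  · exact in_of (by norm_num [vl, BB, SS]) (by norm_num [vl, BB, SS]) l0 r0
  · exact in_of (by norm_num [vl, BB, SS]) (by norm_num [vl, BB, SS]) l1 r1
  · exact in_of (by norm_num [vl, BB, SS]) (by norm_num [vl, BB, SS]) l2 r2

theorem clPG {p : P} (l0 : 1/10 ≤ p 0) (r0 : p 0 ≤ 1) (l1 : 1/10 ≤ p 1) (r1 : p 1 ≤ 8544/10000) (l2 : 0 ≤ p 2) (r2 : p 2 ≤ 15/100)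
    (g0 : p 0 * p 1 + p 1 + p 0 * p 1 * p 1 - 1 ≤ 0) :
    0 < (D 2 (ev F1t2)) p ∧ Sm (ev F1t2) p := by
  refine root_PG p ⟨?_, ?_, ?_⟩ (gd_gT1 g0) (gN0 p) (gN0 p)
  · exact in_of (by norm_num [vl, BB, SS]) (by norm_num [vl, BB, SS]) l0 r0
  · exact in_of (by norm_num [vl, BB, SS]) (by norm_num [vl, BB, SS]) l1 r1
  · exact in_of (by norm_num [vl, BB, SS]) (by norm_num [vl, BB, SS]) l2 r2

theorem clPH {p : P} (l0 : 1/10 ≤ p 0) (r0 : p 0 ≤ 1) (l1 : 1/10 ≤ p 1) (r1 : p 1 ≤ 8544/10000) (l2 : 15/100 ≤ p 2) (r2 : p 2 ≤ 1)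
    (g0 : p 0 * p 1 + p 1 + p 0 * p 1 * p 1 - 1 ≤ 0) :
    0 < (ev F1t2) p ∧ Sm (ev F1t2) p := by
  refine root_PH p ⟨?_, ?_, ?_⟩ (gd_gT1 g0) (gN0 p) (gN0 p)
  · exact in_of (by norm_num [vl, BB, SS]) (by norm_num [vl, BB, SS]) l0 r0
  · exact in_of (by norm_num [vl, BB, SS]) (by norm_num [vl, BB, SS]) l1 r1
  · exact in_of (by norm_num [vl, BB, SS]) (by norm_num [vl, BB, SS]) l2 r2

theorem clZA {p : P} (l0 : 0 ≤ p 0) (r0 : p 0 ≤ 1/10) (l1 : 0 ≤ p 1) (r1 : p 1 ≤ 1/10) (l2 : 0 ≤ p 2) (r2 : p 2 ≤ 1) :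
    0 < (D 0 (D 1 (ev F0t))) p ∧ Sm (ev F0t) p := by
  refine root_ZA p ⟨?_, ?_, ?_⟩ (gN0 p) (gN0 p) (gN0 p)
  · exact in_of (by norm_num [vl, BB, SS]) (by norm_num [vl, BB, SS]) l0 r0
  · exact in_of (by norm_num [vl, BB, SS]) (by norm_num [vl, BB, SS]) l1 r1
  · exact in_of (by norm_num [vl, BB, SS]) (by norm_num [vl, BB, SS]) l2 r2

theorem clZB {p : P} (l0 : 1/10 ≤ p 0) (r0 : p 0 ≤ 1) (l1 : 0 ≤ p 1) (r1 : p 1 ≤ 1/10) (l2 : 0 ≤ p 2) (r2 : p 2 ≤ 1) :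
    0 < (D 1 (ev F0t)) p ∧ Sm (ev F0t) p := by
  refine root_ZB p ⟨?_, ?_, ?_⟩ (gN0 p) (gN0 p) (gN0 p)
  · exact in_of (by norm_num [vl, BB, SS]) (by norm_num [vl, BB, SS]) l0 r0
  · exact in_of (by norm_num [vl, BB, SS]) (by norm_num [vl, BB, SS]) l1 r1
  · exact in_of (by norm_num [vl, BB, SS]) (by norm_num [vl, BB, SS]) l2 r2

theorem clZC {p : P} (l0 : 0 ≤ p 0) (r0 : p 0 ≤ 1/10) (l1 : 1/10 ≤ p 1) (r1 : p 1 ≤ 93/100) (l2 : 0 ≤ p 2) (r2 : p 2 ≤ 1) :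
    0 < (D 0 (ev F0t)) p ∧ Sm (ev F0t) p := by
  refine root_ZC p ⟨?_, ?_, ?_⟩ (gN0 p) (gN0 p) (gN0 p)
  · exact in_of (by norm_num [vl, BB, SS]) (by norm_num [vl, BB, SS]) l0 r0
  · exact in_of (by norm_num [vl, BB, SS]) (by norm_num [vl, BB, SS]) l1 r1
  · exact in_of (by norm_num [vl, BB, SS]) (by norm_num [vl, BB, SS]) l2 r2

theorem clZD {p : P} (l0 : 1/10 ≤ p 0) (r0 : p 0 ≤ 1) (l1 : 1/10 ≤ p 1) (r1 : p 1 ≤ 93/100) (l2 : 0 ≤ p 2) (r2 : p 2 ≤ 1) :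
    0 < (ev F0t) p ∧ Sm (ev F0t) p := by
  refine root_ZD p ⟨?_, ?_, ?_⟩ (gN0 p) (gN0 p) (gN0 p)
  · exact in_of (by norm_num [vl, BB, SS]) (by norm_num [vl, BB, SS]) l0 r0
  · exact in_of (by norm_num [vl, BB, SS]) (by norm_num [vl, BB, SS]) l1 r1
  · exact in_of (by norm_num [vl, BB, SS]) (by norm_num [vl, BB, SS]) l2 r2

theorem clZE {p : P} (l0 : 0 ≤ p 0) (r0 : p 0 ≤ 1/10) (l1 : 93/100 ≤ p 1) (r1 : p 1 ≤ 1) (l2 : 0 ≤ p 2) (r2 : p 2 ≤ 1) :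
    0 < (fO.sub (fO.nat 0) (D 0 (D 1 (ev F0t)))) p ∧ Sm (ev F0t) p := by
  refine root_ZE p ⟨?_, ?_, ?_⟩ (gN0 p) (gN0 p) (gN0 p)
  · exact in_of (by norm_num [vl, BB, SS]) (by norm_num [vl, BB, SS]) l0 r0
  · exact in_of (by norm_num [vl, BB, SS]) (by norm_num [vl, BB, SS]) l1 r1
  · exact in_of (by norm_num [vl, BB, SS]) (by norm_num [vl, BB, SS]) l2 r2

theorem clZF {p : P} (l0 : 1/10 ≤ p 0) (r0 : p 0 ≤ 891/1000) (l1 : 93/100 ≤ p 1) (r1 : p 1 ≤ 1) (l2 : 0 ≤ p 2) (r2 : p 2 ≤ 1) :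
    0 < (fO.sub (fO.nat 0) (D 1 (ev F0t))) p ∧ Sm (ev F0t) p := by
  refine root_ZF p ⟨?_, ?_, ?_⟩ (gN0 p) (gN0 p) (gN0 p)
  · exact in_of (by norm_num [vl, BB, SS]) (by norm_num [vl, BB, SS]) l0 r0
  · exact in_of (by norm_num [vl, BB, SS]) (by norm_num [vl, BB, SS]) l1 r1
  · exact in_of (by norm_num [vl, BB, SS]) (by norm_num [vl, BB, SS]) l2 r2

theorem clOA {p : P} (l0 : 0 ≤ p 0) (r0 : p 0 ≤ 12/100) (l1 : 0 ≤ p 1) (r1 : p 1 ≤ 12/100) (l2 : 0 ≤ p 2) (r2 : p 2 ≤ 1)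
    (g0 : 25 * (p 0 + p 1) - 3 ≤ 0) :
    0 < (D 1 (D 0 (ev Fon))) p ∧ Sm (ev Fon) p := by
  refine root_OA p ⟨?_, ?_, ?_⟩ (gd_gO g0) (gN0 p) (gN0 p)
  · exact in_of (by norm_num [vl, BB, SS]) (by norm_num [vl, BB, SS]) l0 r0
  · exact in_of (by norm_num [vl, BB, SS]) (by norm_num [vl, BB, SS]) l1 r1
  · exact in_of (by norm_num [vl, BB, SS]) (by norm_num [vl, BB, SS]) l2 r2

theorem clOB {p : P} (l0 : 0 ≤ p 0) (r0 : p 0 ≤ 12/100) (l1 : 0 ≤ p 1) (r1 : p 1 ≤ 12/100) (l2 : 0 ≤ p 2) (r2 : p 2 ≤ 1)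
    (g0 : 25 * (p 0 + p 1) - 3 ≤ 0) :
    0 < (D 1 (D 1 (ev Fon))) p ∧ Sm (ev Fon) p := by
  refine root_OB p ⟨?_, ?_, ?_⟩ (gd_gO g0) (gN0 p) (gN0 p)
  · exact in_of (by norm_num [vl, BB, SS]) (by norm_num [vl, BB, SS]) l0 r0
  · exact in_of (by norm_num [vl, BB, SS]) (by norm_num [vl, BB, SS]) l1 r1
  · exact in_of (by norm_num [vl, BB, SS]) (by norm_num [vl, BB, SS]) l2 r2

theorem clQA {p : P} (l0 : 0 ≤ p 0) (r0 : p 0 ≤ 5/100) (l1 : 9/10 ≤ p 1) (r1 : p 1 ≤ 1) (l2 : 0 ≤ p 2) (r2 : p 2 ≤ 1)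
    (g0 : Real.sin (Real.pi / 2 * p 0) * Real.sin (Real.pi / 2 * p 1) * Real.cos (Real.pi / 2 * p 2) -
      Real.cos (Real.pi / 2 * p 0) * Real.cos (Real.pi / 2 * p 1) ≤ 0) :
    0 < (D 0 (Wφ (ev FsG2))) p ∧ Sm (ev FsG2) p := by
  refine root_QA p ⟨?_, ?_, ?_⟩ (gd_gW g0) (gN0 p) (gN0 p)
  · exact in_of (by norm_num [vl, BB, SS]) (by norm_num [vl, BB, SS]) l0 r0
  · exact in_of (by norm_num [vl, BB, SS]) (by norm_num [vl, BB, SS]) l1 r1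
  · exact in_of (by norm_num [vl, BB, SS]) (by norm_num [vl, BB, SS]) l2 r2

theorem clQB {p : P} (l0 : 5/100 ≤ p 0) (r0 : p 0 ≤ 53/100) (l1 : 9/10 ≤ p 1) (r1 : p 1 ≤ 1) (l2 : 0 ≤ p 2) (r2 : p 2 ≤ 1)
    (g0 : Real.sin (Real.pi / 2 * p 0) * Real.sin (Real.pi / 2 * p 1) * Real.cos (Real.pi / 2 * p 2) -
      Real.cos (Real.pi / 2 * p 0) * Real.cos (Real.pi / 2 * p 1) ≤ 0) :
    0 < (Wφ (ev FsG2)) p ∧ Sm (ev FsG2) p := by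
  refine root_QB p ⟨?_, ?_, ?_⟩ (gd_gW g0) (gN0 p) (gN0 p)
  · exact in_of (by norm_num [vl, BB, SS]) (by norm_num [vl, BB, SS]) l0 r0
  · exact in_of (by norm_num [vl, BB, SS]) (by norm_num [vl, BB, SS]) l1 r1
  · exact in_of (by norm_num [vl, BB, SS]) (by norm_num [vl, BB, SS]) l2 r2

theorem clQC {p : P} (l0 : 999/10000 ≤ p 0) (r0 : p 0 ≤ 53/100) (l1 : 44/100 ≤ p 1) (r1 : p 1 ≤ 9/10) (l2 : 0 ≤ p 2) (r2 : p 2 ≤ 1)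
    (g0 : Real.sin (Real.pi / 2 * p 0) * Real.sin (Real.pi / 2 * p 1) * Real.cos (Real.pi / 2 * p 2) -
      Real.cos (Real.pi / 2 * p 0) * Real.cos (Real.pi / 2 * p 1) ≤ 0)
    (g1 : p 0 - p 1 ≤ 0)
    (g2 : 1 - (p 0 + p 1) ≤ 0) :
    0 < (Wφ (ev FsG2)) p ∧ Sm (ev FsG2) p := by
  refine root_QC p ⟨?_, ?_, ?_⟩ (gd_gW g0) (gd_gYX g1) (gd_gS1 g2)
  · exact in_of (by norm_num [vl, BB, SS]) (by norm_num [vl, BB, SS]) l0 r0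
  · exact in_of (by norm_num [vl, BB, SS]) (by norm_num [vl, BB, SS]) l1 r1
  · exact in_of (by norm_num [vl, BB, SS]) (by norm_num [vl, BB, SS]) l2 r2

theorem clQD {p : P} (l0 : 53/100 ≤ p 0) (r0 : p 0 ≤ 1) (l1 : 53/100 ≤ p 1) (r1 : p 1 ≤ 1) (l2 : 0 ≤ p 2) (r2 : p 2 ≤ 1)
    (g0 : Real.sin (Real.pi / 2 * p 0) * Real.sin (Real.pi / 2 * p 1) * Real.cos (Real.pi / 2 * p 2) -
      Real.cos (Real.pi / 2 * p 0) * Real.cos (Real.pi / 2 * p 1) ≤ 0)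
    (g1 : p 0 - p 1 ≤ 0) :
    0 < (D 2 (ev FsG1)) p ∧ Sm (ev FsG1) p := by
  refine root_QD p ⟨?_, ?_, ?_⟩ (gd_gW g0) (gd_gYX g1) (gN0 p)
  · exact in_of (by norm_num [vl, BB, SS]) (by norm_num [vl, BB, SS]) l0 r0
  · exact in_of (by norm_num [vl, BB, SS]) (by norm_num [vl, BB, SS]) l1 r1
  · exact in_of (by norm_num [vl, BB, SS]) (by norm_num [vl, BB, SS]) l2 r2

end H41FT
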