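import Pool.Agent.H41.FT.L1
import Pool.Agent.H41.FT.L2
import Pool.Agent.H41.FT.L3

/-!
# Nonnegativity on the regions
-/

namespace H41FT

open Real Function

section upd

variable (p : P) (t : ℝ)

theorem u00 : update p 0 t 0 = t := update_self ..
theorem u01 : update p 0 t 1 = p 1 := update_of_ne (by decide) ..
theorem u02 : update p 0 t 2 = p 2 := update_of_ne (by decide) ..
theorem u10 : update p 1 t 0 = p 0 := update_of_ne (by decide) ..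
theorem u11 : update p 1 t 1 = t := update_self ..
theorem u12 : update p 1 t 2 = p 2 := update_of_ne (by decide) ..
theorem u20 : update p 2 t 0 = p 0 := update_of_ne (by decide) ..
theorem u21 : update p 2 t 1 = p 1 := update_of_ne (by decide) ..
theorem u22 : update p 2 t 2 = t := update_self ..

end upd

/-- a box -/
structure B3 (a0 b0 a1 b1 a2 b2 : ℝ) (p : P) : Prop where
  l0 : a0 ≤ p 0
  r0 : p 0 ≤ b0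
  l1 : a1 ≤ p 1
  r1 : p 1 ≤ b1
  l2 : a2 ≤ p 2
  r2 : p 2 ≤ b2

section

variable {a0 b0 a1 b1 a2 b2 : ℝ} {p : P} {t : ℝ} (h : B3 a0 b0 a1 b1 a2 b2 p)
include h

theorem B3.u0 (h1 : a0 ≤ t) (h2 : t ≤ b0) : B3 a0 b0 a1 b1 a2 b2 (update p 0 t) := by
  refine ⟨?_, ?_, ?_, ?_, ?_, ?_⟩
  · rw [u00]; exact h1
  · rw [u00]; exact h2
  · rw [u01]; exact h.l1
  · rw [u01]; exact h.r1
  · rw [u02]; exact h.l2
  · rw [u02]; exact h.r2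

theorem B3.u1 (h1 : a1 ≤ t) (h2 : t ≤ b1) : B3 a0 b0 a1 b1 a2 b2 (update p 1 t) := by
  refine ⟨?_, ?_, ?_, ?_, ?_, ?_⟩
  · rw [u10]; exact h.l0
  · rw [u10]; exact h.r0
  · rw [u11]; exact h1
  · rw [u11]; exact h2
  · rw [u12]; exact h.l2
  · rw [u12]; exact h.r2

theorem B3.u2 (h1 : a2 ≤ t) (h2 : t ≤ b2) : B3 a0 b0 a1 b1 a2 b2 (update p 2 t) := by
  refine ⟨?_, ?_, ?_, ?_, ?_, ?_⟩
  · rw [u20]; exact h.l0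
  · rw [u20]; exact h.r0
  · rw [u21]; exact h.l1
  · rw [u21]; exact h.r1
  · rw [u22]; exact h1
  · rw [u22]; exact h2

theorem B3.lo0 : a0 ≤ p 0 ∧ ∀ t, a0 ≤ t → t ≤ p 0 → B3 a0 b0 a1 b1 a2 b2 (update p 0 t) :=
  ⟨h.l0, fun _ h1 h2 => h.u0 h1 (h2.trans h.r0)⟩
theorem B3.lo1 : a1 ≤ p 1 ∧ ∀ t, a1 ≤ t → t ≤ p 1 → B3 a0 b0 a1 b1 a2 b2 (update p 1 t) :=
  ⟨h.l1, fun _ h1 h2 => h.u1 h1 (h2.trans h.r1)⟩
theorem B3.lo2 : a2 ≤ p 2 ∧ ∀ t, a2 ≤ t → t ≤ p 2 → B3 a0 b0 a1 b1 a2 b2 (update p 2 t) :=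
  ⟨h.l2, fun _ h1 h2 => h.u2 h1 (h2.trans h.r2)⟩
theorem B3.hi0 : p 0 ≤ b0 ∧ ∀ t, p 0 ≤ t → t ≤ b0 → B3 a0 b0 a1 b1 a2 b2 (update p 0 t) :=
  ⟨h.r0, fun _ h1 h2 => h.u0 (h.l0.trans h1) h2⟩
theorem B3.hi1 : p 1 ≤ b1 ∧ ∀ t, p 1 ≤ t → t ≤ b1 → B3 a0 b0 a1 b1 a2 b2 (update p 1 t) :=
  ⟨h.r1, fun _ h1 h2 => h.u1 (h.l1.trans h1) h2⟩
theorem B3.hi2 : p 2 ≤ b2 ∧ ∀ t, p 2 ≤ t → t ≤ b2 → B3 a0 b0 a1 b1 a2 b2 (update p 2 t) :=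
  ⟨h.r2, fun _ h1 h2 => h.u2 (h.l2.trans h1) h2⟩

end

theorem ev_Fc3 (p : P) : ev Fc3 p = Fc3 rO (p 0) (p 1) (p 2) := rfl
theorem ev_Fsd3 (p : P) : ev Fsd3 p = Fsd rO 3 (p 0) (p 1) (p 2) := rfl
theorem ev_F1t2 (p : P) : ev F1t2 p = F1t rO 2 (p 0) (p 1) (p 2) := rfl
theorem ev_F0t (p : P) : ev F0t p = F0t rO (p 0) (p 1) (p 2) := rfl
theorem ev_Fon (p : P) : ev Fon p = Fsd rO 0 (p 0 + p 1) (p 1) (p 1 * p 2) := rfl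
theorem ev_FsG2 (p : P) : ev FsG2 p = FsG rO 2 (p 0) (p 1) (p 2) := rfl
theorem ev_FsG1 (p : P) : ev FsG1 p = FsG rO 1 (p 0) (p 1) (p 2) := rfl

/-! ### `T_-`, chart `Fc3` -/

/-- the face `a = 0` -/
theorem Fc3_face0 {p : P} (h0 : p 0 = 0) (h2 : 0 ≤ p 2) : ev Fc3 p = 0 := by
  rw [ev_Fc3, h0]; exact Fc3_a0 _ h2

theorem Fc3_zl_g0 {p : P} (h0 : 0 ≤ p 0) (h0' : p 0 ≤ 1/10) (h1 : p 1 = 0) (h2 : 0 ≤ p 2) :
    Zl (ev Fc3) 0 p := by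
  refine ⟨0, 1/10, by norm_num, h0, h0', fun t ht ht' => ?_⟩
  rw [ev_Fc3, u00, u01, u02, h1]
  exact Fc3_g0 ht (by linarith) h2

theorem Fc3_zl_g1 {p : P} (h0 : 0 ≤ p 0) (h0' : p 0 ≤ 1/10) (h1 : p 1 = 1) (h2 : 0 ≤ p 2) :
    Zl (ev Fc3) 0 p := by
  refine ⟨0, 1/10, by norm_num, h0, h0', fun t ht ht' => ?_⟩
  rw [ev_Fc3, u00, u01, u02, h1]
  exact Fc3_g1 ht (by linarith) h2

theorem rMA : ∀ p : P, B3 0 (1/10) 0 (1/10) 0 1 p → 0 ≤ ev Fc3 p := by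
  have key : ∀ p : P, B3 0 (1/10) 0 (1/10) 0 1 p → 0 ≤ D 0 (ev Fc3) p := by
    refine pat1 (i := 1) (fun p h => h.lo1) (fun p h => ?_) (fun p h h0 => ?_)
    · obtain ⟨k1, k2⟩ := clMA h.l0 h.r0 h.l1 h.r1 h.l2 h.r2
      exact ⟨k1.le, k2.D 0⟩
    · exact ((Fc3_zl_g0 h.l0 h.r0 h0 h.l2).D (clMA h.l0 h.r0 h.l1 h.r1 h.l2 h.r2).2).ge
  refine pat1 (i := 0) (fun p h => h.lo0) (fun p h => ⟨key p h, ?_⟩) (fun p h h0 => ?_)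
  · exact (clMA h.l0 h.r0 h.l1 h.r1 h.l2 h.r2).2
  · exact (Fc3_face0 h0 h.l2).ge

theorem rMB : ∀ p : P, B3 0 (1/10) (9/10) 1 0 1 p → 0 ≤ ev Fc3 p := by
  have key : ∀ p : P, B3 0 (1/10) (9/10) 1 0 1 p → 0 ≤ D 0 (ev Fc3) p := by
    refine pat1' (i := 1) (fun p h => h.hi1) (fun p h => ?_) (fun p h h0 => ?_)
    · obtain ⟨k1, k2⟩ := clMB h.l0 h.r0 h.l1 h.r1 h.l2 h.r2
      exact ⟨(neg_spec k1).le, k2.D 0⟩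
    · exact ((Fc3_zl_g1 h.l0 h.r0 h0 h.l2).D (clMB h.l0 h.r0 h.l1 h.r1 h.l2 h.r2).2).ge
  refine pat1 (i := 0) (fun p h => h.lo0) (fun p h => ⟨key p h, ?_⟩) (fun p h h0 => ?_)
  · exact (clMB h.l0 h.r0 h.l1 h.r1 h.l2 h.r2).2
  · exact (Fc3_face0 h0 h.l2).ge

theorem rMC : ∀ p : P, B3 0 (1/10) (1/10) (9/10) 0 1 p → 0 ≤ ev Fc3 p := by
  refine pat1 (i := 0) (fun p h => h.lo0) (fun p h => ?_) (fun p h h0 => ?_)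
  · obtain ⟨k1, k2⟩ := clMC h.l0 h.r0 h.l1 h.r1 h.l2 h.r2
    exact ⟨k1.le, k2⟩
  · exact (Fc3_face0 h0 h.l2).ge

theorem rMD : ∀ p : P, B3 (1/10) (67/100) 0 (1/10) 0 1 p → 0 ≤ ev Fc3 p := by
  refine pat1 (i := 1) (fun p h => h.lo1) (fun p h => ?_) (fun p h h0 => ?_)
  · obtain ⟨k1, k2⟩ := clMD h.l0 h.r0 h.l1 h.r1 h.l2 h.r2
    exact ⟨k1.le, k2⟩
  · rw [ev_Fc3, h0]
    exact (Fc3_g0 (by linarith [h.l0]) (by linarith [h.r0]) h.l2).ge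

/-- the guard of the chart `Fc3` -/
def Gd3 (p : P) : Prop := cos (π / 2 * p 1) * (sin (π / 2 * p 0) * sin (π / 2 * p 0)) -
      cos (π / 2 * p 0) * (cos (π / 2 * p 0) + p 2) ≤ 0

theorem Gd3.up {p : P} {t : ℝ} (h : Gd3 p) (h0 : 0 ≤ p 1) (h1 : p 1 ≤ t) (h2 : t ≤ 1) :
    Gd3 (update p 1 t) := by
  have hp := Real.pi_pos
  unfold Gd3 at *
  rw [u10, u11, u12]
  have hc : cos (π / 2 * t) ≤ cos (π / 2 * p 1) :=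
    cos_le_cos_of_nonneg_of_le_pi (by positivity) (by nlinarith) (by nlinarith)
  have := mul_le_mul_of_nonneg_right hc (mul_self_nonneg (sin (π / 2 * p 0)))
  linarith

theorem rME : ∀ p : P, B3 (1/10) (67/100) (9/10) 1 0 1 p ∧ Gd3 p → 0 ≤ ev Fc3 p := by
  refine pat1' (i := 1) (hi := 1) (fun p h => ⟨h.1.r1, fun t ht ht' => ⟨h.1.hi1.2 t ht ht', h.2.up ?_ ht ht'⟩⟩)
    (fun p h => ?_) (fun p h h0 => ?_)
  · linarith [h.1.l1]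
  · obtain ⟨k1, k2⟩ := clME h.1.l0 h.1.r0 h.1.l1 h.1.r1 h.1.l2 h.1.r2 h.2
    exact ⟨(neg_spec k1).le, k2⟩
  · rw [ev_Fc3, h0]
    exact (Fc3_g1 (by linarith [h.1.l0]) (by linarith [h.1.r0]) h.1.l2).ge

theorem R_Fc3 {a g n : ℝ} (a0 : 0 ≤ a) (a1 : a ≤ 67/100) (g0 : 0 ≤ g) (g1 : g ≤ 1) (n0 : 0 ≤ n)
    (n1 : n ≤ 1) (hg : cos (π / 2 * g) * (sin (π / 2 * a) * sin (π / 2 * a)) -
      cos (π / 2 * a) * (cos (π / 2 * a) + n) ≤ 0) : 0 ≤ Fc3 rO a g n := by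
  have e : Fc3 rO a g n = ev Fc3 ![a, g, n] := rfl
  rw [e]
  rcases le_total a (1/10) with h | h
  · rcases le_total g (1/10) with h' | h'
    · exact rMA _ ⟨a0, h, g0, h', n0, n1⟩
    · rcases le_total g (9/10) with h'' | h''
      · exact rMC _ ⟨a0, h, h', h'', n0, n1⟩
      · exact rMB _ ⟨a0, h, h'', g1, n0, n1⟩
  · rcases le_total g (1/10) with h' | h'
    · exact rMD _ ⟨h, a1, g0, h', n0, n1⟩
    · rcases le_total g (9/10) with h'' | h''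
      · exact (clMG (p := ![a, g, n]) h a1 h' h'' n0 n1 hg).1.le
      · exact rME _ ⟨⟨h, a1, h'', g1, n0, n1⟩, hg⟩

end H41FT
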