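import Pool.Agent.H41.FT.L4

/-!
# Nonnegativity on the regions, continued
-/

namespace H41FT

open Real Function

/-! ### `T_-`, chart of the sides -/

theorem Fsd3_zl0 {p : P} (h0 : -(1/2) ≤ p 0) (h0' : p 0 ≤ 1/2) (h1 : p 1 = 0) (h2 : p 2 = 0) :
    Zl (ev Fsd3) 0 p := by
  refine ⟨-(1/2), 1/2, by norm_num, h0, h0', fun t ht ht' => ?_⟩
  rw [ev_Fsd3, u00, u01, u02, h1, h2]
  exact Fsd3_x (by linarith) (by linarith)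

theorem Fsd3_zl1 {p : P} (h0 : -(1/2) ≤ p 1) (h0' : p 1 ≤ 1/2) (h1 : p 0 = 0) (h2 : p 2 = 0) :
    Zl (ev Fsd3) 1 p := by
  refine ⟨-(1/2), 1/2, by norm_num, h0, h0', fun t ht ht' => ?_⟩
  rw [ev_Fsd3, u10, u11, u12, h1, h2]
  exact Fsd3_y (by linarith) (by linarith)

theorem rSA : ∀ p : P, B3 0 (9/100) 0 (9/100) 0 (9/100) p → 0 ≤ ev Fsd3 p := by
  have hsm : ∀ p : P, B3 0 (9/100) 0 (9/100) 0 (9/100) p → Sm (ev Fsd3) p := fun p h =>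
    (clSA h.l0 h.r0 h.l1 h.r1 h.l2 h.r2).2
  -- `∂₀F ≥ 0` on `δ = 0`
  have k1 : ∀ p : P, B3 0 (9/100) 0 (9/100) 0 (9/100) p ∧ p 2 = 0 → 0 ≤ D 0 (ev Fsd3) p := by
    refine pat1 (i := 1) (lo := 0) (fun p h => ⟨h.1.l1, fun t ht ht' => ⟨h.1.lo1.2 t ht ht', ?_⟩⟩)
      (fun p h => ?_) (fun p h h0 => ?_)
    · rw [u12]; exact h.2
    · obtain ⟨a1, a2⟩ := clSA h.1.l0 h.1.r0 h.1.l1 h.1.r1 h.1.l2 h.1.r2
      exact ⟨a1.le, a2.D 0⟩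
    · exact ((Fsd3_zl0 (by linarith [h.1.l0]) (by linarith [h.1.r0]) h0 h.2).D (hsm p h.1)).ge
  have k2 : ∀ p : P, B3 0 (9/100) 0 (9/100) 0 (9/100) p → 0 ≤ D 0 (ev Fsd3) p := by
    refine pat1 (i := 2) (fun p h => h.lo2) (fun p h => ?_) (fun p h h0 => k1 p ⟨h, h0⟩)
    obtain ⟨a1, a2⟩ := clSB h.l0 h.r0 h.l1 h.r1 h.l2 h.r2
    exact ⟨a1.le, a2.D 0⟩
  -- `∂₁F ≥ 0` on `α = 0`
  have k3 : ∀ p : P, B3 0 (9/100) 0 (9/100) 0 (9/100) p ∧ p 0 = 0 → 0 ≤ D 1 (ev Fsd3) p := by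
    refine pat1 (i := 2) (lo := 0) (fun p h => ⟨h.1.l2, fun t ht ht' => ⟨h.1.lo2.2 t ht ht', ?_⟩⟩)
      (fun p h => ?_) (fun p h h0 => ?_)
    · rw [u20]; exact h.2
    · obtain ⟨a1, a2⟩ := clSC h.1.l0 h.1.r0 h.1.l1 h.1.r1 h.1.l2 h.1.r2
      exact ⟨a1.le, a2.D 1⟩
    · exact ((Fsd3_zl1 (by linarith [h.1.l1]) (by linarith [h.1.r1]) h.2 h0).D (hsm p h.1)).ge
  have k4 : ∀ p : P, B3 0 (9/100) 0 (9/100) 0 (9/100) p ∧ p 0 = 0 → 0 ≤ ev Fsd3 p := by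
    refine pat1 (i := 1) (lo := 0) (fun p h => ⟨h.1.l1, fun t ht ht' => ⟨h.1.lo1.2 t ht ht', ?_⟩⟩)
      (fun p h => ⟨k3 p h, hsm p h.1⟩) (fun p h h0 => ?_)
    · rw [u10]; exact h.2
    · rw [ev_Fsd3, h.2, h0]
      exact (Fsd3_z (by linarith [h.1.l2]) (by linarith [h.1.r2])).ge
  exact pat1 (i := 0) (fun p h => h.lo0) (fun p h => ⟨k2 p h, hsm p h⟩) (fun p h h0 => k4 p ⟨h, h0⟩)

theorem rSE : ∀ p : P, B3 (9/100) (33/100) 0 (8/100) 0 (8/100) p → 0 ≤ ev Fsd3 p := by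
  have k4 : ∀ p : P, B3 (9/100) (33/100) 0 (8/100) 0 (8/100) p ∧ p 1 = 0 → 0 ≤ ev Fsd3 p := by
    refine pat1 (i := 2) (lo := 0) (fun p h => ⟨h.1.l2, fun t ht ht' => ⟨h.1.lo2.2 t ht ht', ?_⟩⟩)
      (fun p h => ?_) (fun p h h0 => ?_)
    · rw [u21]; exact h.2
    · obtain ⟨a1, a2⟩ := clSF h.1.l0 h.1.r0 h.1.l1 h.1.r1 h.1.l2 h.1.r2
      exact ⟨a1.le, a2⟩
    · rw [ev_Fsd3, h.2, h0]
      exact (Fsd3_x (by linarith [h.1.l0]) (by linarith [h.1.r0])).ge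
  refine pat1 (i := 1) (fun p h => h.lo1) (fun p h => ?_) (fun p h h0 => k4 p ⟨h, h0⟩)
  obtain ⟨a1, a2⟩ := clSE h.l0 h.r0 h.l1 h.r1 h.l2 h.r2
  exact ⟨a1.le, a2⟩

theorem R_Fsd3 {α β δ : ℝ} (h0 : 0 ≤ δ) (h1 : δ ≤ β) (h2 : β ≤ α) (h3 : α ≤ 33/100) :
    0 ≤ Fsd rO 3 α β δ := by
  have e : Fsd rO 3 α β δ = ev Fsd3 ![α, β, δ] := rfl
  rw [e]
  rcases le_total α (9/100) with h | h
  · exact rSA _ ⟨by show 0 ≤ α; linarith, h, by show 0 ≤ β; linarith, by show β ≤ 9/100; linarith,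
      h0, by show δ ≤ 9/100; linarith⟩
  · rcases le_total β (8/100) with h' | h'
    · exact rSE _ ⟨h, h3, by show 0 ≤ β; linarith, h', h0, by show δ ≤ 8/100; linarith⟩
    · exact (clS0 (p := ![α, β, δ]) (by show 0 ≤ α; linarith) h3 h' (by show β ≤ 33/100; linarith)
        h0 (by show δ ≤ 33/100; linarith) (by show β - α ≤ 0; linarith)
        (by show δ - β ≤ 0; linarith)).1.le

/-! ### `T_+`, obtuse, chart `(ρ, t, γ)` -/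

theorem F1t_zl1_g {p : P} (h0 : 0 ≤ p 0) (h0' : p 0 ≤ 1) (h1 : 0 ≤ p 1) (h1' : p 1 ≤ 1/10)
    (h2 : p 2 = 0) : Zl (ev F1t2) 1 p := by
  refine ⟨0, 1/10, by norm_num, h1, h1', fun t ht ht' => ?_⟩
  rw [ev_F1t2, u10, u11, u12, h2]
  exact F1t_g0 h0 h0' ht (by linarith)

theorem F1t_zl1_r {p : P} (h0 : p 0 = 0) (h1 : 0 ≤ p 1) (h1' : p 1 ≤ 1/10) : Zl (ev F1t2) 1 p := by
  refine ⟨0, 1/10, by norm_num, h1, h1', fun t ht ht' => ?_⟩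
  rw [ev_F1t2, u10, u11, u12, h0]
  exact F1t_r0 _ _

theorem F1t_zl0_g {p : P} (h0 : 0 ≤ p 0) (h0' : p 0 ≤ 1/10) (h1 : 0 ≤ p 1) (h1' : p 1 < 1)
    (h2 : p 2 = 0) : Zl (ev F1t2) 0 p := by
  refine ⟨0, 1/10, by norm_num, h0, h0', fun t ht ht' => ?_⟩
  rw [ev_F1t2, u00, u01, u02, h2]
  exact F1t_g0 ht (by linarith) h1 h1'

theorem rPA : ∀ p : P, B3 0 (1/10) 0 (1/10) 0 (15/100) p → 0 ≤ ev F1t2 p := by
  have hsm : ∀ p : P, B3 0 (1/10) 0 (1/10) 0 (15/100) p → Sm (ev F1t2) p := fun p h =>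
    (clPA h.l0 h.r0 h.l1 h.r1 h.l2 h.r2).2
  have k1 : ∀ p : P, B3 0 (1/10) 0 (1/10) 0 (15/100) p → 0 ≤ D 0 (D 1 (ev F1t2)) p := by
    refine pat1 (i := 2) (fun p h => h.lo2) (fun p h => ?_) (fun p h h0 => ?_)
    · exact ⟨(clPA h.l0 h.r0 h.l1 h.r1 h.l2 h.r2).1.le, ((hsm p h).D 1).D 0⟩
    · have hz : Zl (D 1 (ev F1t2)) 0 p := by
        refine ⟨0, 1/10, by norm_num, h.l0, h.r0, fun t ht ht' => ?_⟩
        have h' := h.u0 ht ht'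
        exact (F1t_zl1_g h'.l0 (by linarith [h'.r0]) h'.l1 h'.r1 (by rw [u02]; exact h0)).D (hsm _ h')
      exact (hz.D ((hsm p h).D 1)).ge
  have k2 : ∀ p : P, B3 0 (1/10) 0 (1/10) 0 (15/100) p → 0 ≤ D 1 (ev F1t2) p := by
    refine pat1 (i := 0) (fun p h => h.lo0) (fun p h => ⟨k1 p h, (hsm p h).D 1⟩) (fun p h h0 => ?_)
    exact ((F1t_zl1_r h0 h.l1 h.r1).D (hsm p h)).ge
  refine pat1 (i := 1) (fun p h => h.lo1) (fun p h => ⟨k2 p h, hsm p h⟩) (fun p h h0 => ?_)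
  rw [ev_F1t2, h0]; exact (F1t_t0 _ _).ge

theorem rPB : ∀ p : P, B3 0 (1/10) 0 (1/10) (15/100) 1 p → 0 ≤ ev F1t2 p := by
  have hsm : ∀ p : P, B3 0 (1/10) 0 (1/10) (15/100) 1 p → Sm (ev F1t2) p := fun p h =>
    (clPB h.l0 h.r0 h.l1 h.r1 h.l2 h.r2).2
  have k2 : ∀ p : P, B3 0 (1/10) 0 (1/10) (15/100) 1 p → 0 ≤ D 1 (ev F1t2) p := by
    refine pat1 (i := 0) (fun p h => h.lo0) (fun p h => ⟨?_, (hsm p h).D 1⟩) (fun p h h0 => ?_)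
    · exact (clPB h.l0 h.r0 h.l1 h.r1 h.l2 h.r2).1.le
    · exact ((F1t_zl1_r h0 h.l1 h.r1).D (hsm p h)).ge
  refine pat1 (i := 1) (fun p h => h.lo1) (fun p h => ⟨k2 p h, hsm p h⟩) (fun p h h0 => ?_)
  rw [ev_F1t2, h0]; exact (F1t_t0 _ _).ge

theorem rPC : ∀ p : P, B3 (1/10) 1 0 (1/10) 0 (15/100) p → 0 ≤ ev F1t2 p := by
  have hsm : ∀ p : P, B3 (1/10) 1 0 (1/10) 0 (15/100) p → Sm (ev F1t2) p := fun p h =>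
    (clPC h.l0 h.r0 h.l1 h.r1 h.l2 h.r2).2
  have k2 : ∀ p : P, B3 (1/10) 1 0 (1/10) 0 (15/100) p → 0 ≤ D 1 (ev F1t2) p := by
    refine pat1 (i := 2) (fun p h => h.lo2) (fun p h => ⟨?_, (hsm p h).D 1⟩) (fun p h h0 => ?_)
    · exact (clPC h.l0 h.r0 h.l1 h.r1 h.l2 h.r2).1.le
    · exact ((F1t_zl1_g (by linarith [h.l0]) h.r0 h.l1 h.r1 h0).D (hsm p h)).ge
  refine pat1 (i := 1) (fun p h => h.lo1) (fun p h => ⟨k2 p h, hsm p h⟩) (fun p h h0 => ?_)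
  rw [ev_F1t2, h0]; exact (F1t_t0 _ _).ge

theorem rPD : ∀ p : P, B3 (1/10) 1 0 (1/10) (15/100) 1 p → 0 ≤ ev F1t2 p := by
  refine pat1 (i := 1) (fun p h => h.lo1) (fun p h => ?_) (fun p h h0 => ?_)
  · obtain ⟨a1, a2⟩ := clPD h.l0 h.r0 h.l1 h.r1 h.l2 h.r2
    exact ⟨a1.le, a2⟩
  · rw [ev_F1t2, h0]; exact (F1t_t0 _ _).ge

/-- the guard `a + b ≤ 1` -/
def GT (p : P) : Prop := p 0 * p 1 + p 1 + p 0 * p 1 * p 1 - 1 ≤ 0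

theorem GT.lo0 {p : P} {t : ℝ} (h : GT p) (h1 : 0 ≤ p 1) (ht : t ≤ p 0) : GT (update p 0 t) := by
  unfold GT at *
  rw [u00, u01]
  have e1 : t * p 1 ≤ p 0 * p 1 := mul_le_mul_of_nonneg_right ht h1
  have e2 : t * p 1 * p 1 ≤ p 0 * p 1 * p 1 := mul_le_mul_of_nonneg_right e1 h1
  linarith

theorem GT.u2 {p : P} {t : ℝ} (h : GT p) : GT (update p 2 t) := by
  unfold GT at *
  rw [u20, u21]; exact h

theorem rPE : ∀ p : P, B3 0 (1/10) (1/10) (8544/10000) 0 (15/100) p ∧ GT p → 0 ≤ ev F1t2 p := by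
  have hsm : ∀ p : P, B3 0 (1/10) (1/10) (8544/10000) 0 (15/100) p ∧ GT p → Sm (ev F1t2) p :=
    fun p h => (clPE h.1.l0 h.1.r0 h.1.l1 h.1.r1 h.1.l2 h.1.r2 h.2).2
  have k2 : ∀ p : P, B3 0 (1/10) (1/10) (8544/10000) 0 (15/100) p ∧ GT p → 0 ≤ D 0 (ev F1t2) p := by
    refine pat1 (i := 2) (lo := 0) (fun p h => ⟨h.1.l2, fun t ht ht' => ⟨h.1.lo2.2 t ht ht', h.2.u2⟩⟩)
      (fun p h => ⟨?_, (hsm p h).D 0⟩) (fun p h h0 => ?_)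
    · exact (clPE h.1.l0 h.1.r0 h.1.l1 h.1.r1 h.1.l2 h.1.r2 h.2).1.le
    · exact ((F1t_zl0_g h.1.l0 h.1.r0 (by linarith [h.1.l1]) (by linarith [h.1.r1]) h0).D
        (hsm p h)).ge
  refine pat1 (i := 0) (lo := 0) (fun p h => ⟨h.1.l0, fun t ht ht' => ⟨h.1.lo0.2 t ht ht',
    h.2.lo0 (by linarith [h.1.l1]) ht'⟩⟩) (fun p h => ⟨k2 p h, hsm p h⟩) (fun p h h0 => ?_)
  rw [ev_F1t2, h0]; exact (F1t_r0 _ _).ge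

theorem rPF : ∀ p : P, B3 0 (1/10) (1/10) (8544/10000) (15/100) 1 p ∧ GT p → 0 ≤ ev F1t2 p := by
  refine pat1 (i := 0) (lo := 0) (fun p h => ⟨h.1.l0, fun t ht ht' => ⟨h.1.lo0.2 t ht ht',
    h.2.lo0 (by linarith [h.1.l1]) ht'⟩⟩) (fun p h => ?_) (fun p h h0 => ?_)
  · obtain ⟨a1, a2⟩ := clPF h.1.l0 h.1.r0 h.1.l1 h.1.r1 h.1.l2 h.1.r2 h.2
    exact ⟨a1.le, a2⟩
  · rw [ev_F1t2, h0]; exact (F1t_r0 _ _).ge

theorem rPG : ∀ p : P, B3 (1/10) 1 (1/10) (8544/10000) 0 (15/100) p ∧ GT p → 0 ≤ ev F1t2 p := by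
  refine pat1 (i := 2) (lo := 0) (fun p h => ⟨h.1.l2, fun t ht ht' => ⟨h.1.lo2.2 t ht ht', h.2.u2⟩⟩)
    (fun p h => ?_) (fun p h h0 => ?_)
  · obtain ⟨a1, a2⟩ := clPG h.1.l0 h.1.r0 h.1.l1 h.1.r1 h.1.l2 h.1.r2 h.2
    exact ⟨a1.le, a2⟩
  · rw [ev_F1t2, h0]
    exact (F1t_g0 (by linarith [h.1.l0]) h.1.r0 (by linarith [h.1.l1]) (by linarith [h.1.r1])).ge

theorem R_F1t {ρ t γ : ℝ} (a0 : 0 ≤ ρ) (a1 : ρ ≤ 1) (b0 : 0 ≤ t) (b1 : t ≤ 8544/10000)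
    (c0 : 0 ≤ γ) (c1 : γ ≤ 1) (hg : ρ * t + t + ρ * t * t - 1 ≤ 0) : 0 ≤ F1t rO 2 ρ t γ := by
  have e : F1t rO 2 ρ t γ = ev F1t2 ![ρ, t, γ] := rfl
  rw [e]
  rcases le_total ρ (1/10) with h | h <;> rcases le_total t (1/10) with h' | h' <;>
    rcases le_total γ (15/100) with h'' | h''
  · exact rPA _ ⟨a0, h, b0, h', c0, h''⟩
  · exact rPB _ ⟨a0, h, b0, h', h'', c1⟩
  · exact rPE _ ⟨⟨a0, h, h', b1, c0, h''⟩, hg⟩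
  · exact rPF _ ⟨⟨a0, h, h', b1, h'', c1⟩, hg⟩
  · exact rPC _ ⟨h, a1, b0, h', c0, h''⟩
  · exact rPD _ ⟨h, a1, b0, h', h'', c1⟩
  · exact rPG _ ⟨⟨h, a1, h', b1, c0, h''⟩, hg⟩
  · exact (clPH (p := ![ρ, t, γ]) h a1 h' b1 h'' c1 hg).1.le

/-! ### `T_+`, acute, chart `(ρ, t, τ)` -/

theorem F0t_zl1_r {p : P} (h0 : p 0 = 0) {lo hi : ℝ} (hl : lo < hi) (h1 : lo ≤ p 1)
    (h1' : p 1 ≤ hi) : Zl (ev F0t) 1 p := by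
  refine ⟨lo, hi, hl, h1, h1', fun t ht ht' => ?_⟩
  rw [ev_F0t, u10, u11, u12, h0]
  exact F0t_r0 _ _

theorem rZA : ∀ p : P, B3 0 (1/10) 0 (1/10) 0 1 p → 0 ≤ ev F0t p := by
  have hsm : ∀ p : P, B3 0 (1/10) 0 (1/10) 0 1 p → Sm (ev F0t) p := fun p h =>
    (clZA h.l0 h.r0 h.l1 h.r1 h.l2 h.r2).2
  have k2 : ∀ p : P, B3 0 (1/10) 0 (1/10) 0 1 p → 0 ≤ D 1 (ev F0t) p := by
    refine pat1 (i := 0) (fun p h => h.lo0) (fun p h => ⟨?_, (hsm p h).D 1⟩) (fun p h h0 => ?_)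
    · exact (clZA h.l0 h.r0 h.l1 h.r1 h.l2 h.r2).1.le
    · exact ((F0t_zl1_r h0 (by norm_num) h.l1 h.r1).D (hsm p h)).ge
  refine pat1 (i := 1) (fun p h => h.lo1) (fun p h => ⟨k2 p h, hsm p h⟩) (fun p h h0 => ?_)
  rw [ev_F0t, h0]; exact (F0t_t0 _ _).ge

theorem rZB : ∀ p : P, B3 (1/10) 1 0 (1/10) 0 1 p → 0 ≤ ev F0t p := by
  refine pat1 (i := 1) (fun p h => h.lo1) (fun p h => ?_) (fun p h h0 => ?_)
  · obtain ⟨a1, a2⟩ := clZB h.l0 h.r0 h.l1 h.r1 h.l2 h.r2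
    exact ⟨a1.le, a2⟩
  · rw [ev_F0t, h0]; exact (F0t_t0 _ _).ge

theorem rZC : ∀ p : P, B3 0 (1/10) (1/10) (93/100) 0 1 p → 0 ≤ ev F0t p := by
  refine pat1 (i := 0) (fun p h => h.lo0) (fun p h => ?_) (fun p h h0 => ?_)
  · obtain ⟨a1, a2⟩ := clZC h.l0 h.r0 h.l1 h.r1 h.l2 h.r2
    exact ⟨a1.le, a2⟩
  · rw [ev_F0t, h0]; exact (F0t_r0 _ _).ge

theorem rZE : ∀ p : P, B3 0 (1/10) (93/100) 1 0 1 p → 0 ≤ ev F0t p := by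
  have hsm : ∀ p : P, B3 0 (1/10) (93/100) 1 0 1 p → Sm (ev F0t) p := fun p h =>
    (clZE h.l0 h.r0 h.l1 h.r1 h.l2 h.r2).2
  have k2 : ∀ p : P, B3 0 (1/10) (93/100) 1 0 1 p → D 1 (ev F0t) p ≤ 0 := by
    refine pat1n (i := 0) (fun p h => h.lo0) (fun p h => ⟨?_, (hsm p h).D 1⟩) (fun p h h0 => ?_)
    · exact (neg_spec (clZE h.l0 h.r0 h.l1 h.r1 h.l2 h.r2).1).le
    · exact ((F0t_zl1_r h0 (by norm_num) h.l1 h.r1).D (hsm p h)).le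
  refine pat1' (i := 1) (fun p h => h.hi1) (fun p h => ⟨k2 p h, hsm p h⟩) (fun p h h0 => ?_)
  rw [ev_F0t, h0]; exact (F0t_t1 _ _).ge

theorem rZF : ∀ p : P, B3 (1/10) (891/1000) (93/100) 1 0 1 p → 0 ≤ ev F0t p := by
  refine pat1' (i := 1) (fun p h => h.hi1) (fun p h => ?_) (fun p h h0 => ?_)
  · obtain ⟨a1, a2⟩ := clZF h.l0 h.r0 h.l1 h.r1 h.l2 h.r2
    exact ⟨(neg_spec a1).le, a2⟩
  · rw [ev_F0t, h0]; exact (F0t_t1 _ _).ge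

theorem R_F0t {ρ t τ : ℝ} (a0 : 0 ≤ ρ) (a1 : ρ ≤ 1) (b0 : 0 ≤ t) (b1 : t ≤ 1)
    (c0 : 0 ≤ τ) (c1 : τ ≤ 1) (hg : ρ ≤ 891/1000 ∨ t ≤ 93/100) : 0 ≤ F0t rO ρ t τ := by
  have e : F0t rO ρ t τ = ev F0t ![ρ, t, τ] := rfl
  rw [e]
  rcases le_total ρ (1/10) with h | h
  · rcases le_total t (1/10) with h' | h'
    · exact rZA _ ⟨a0, h, b0, h', c0, c1⟩
    · rcases le_total t (93/100) with h'' | h''
      · exact rZC _ ⟨a0, h, h', h'', c0, c1⟩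
      · exact rZE _ ⟨a0, h, h'', b1, c0, c1⟩
  · rcases le_total t (1/10) with h' | h'
    · exact rZB _ ⟨h, a1, b0, h', c0, c1⟩
    · rcases le_total t (93/100) with h'' | h''
      · exact (clZD (p := ![ρ, t, τ]) h a1 h' h'' c0 c1).1.le
      · rcases hg with hg | hg
        · exact rZF _ ⟨h, hg, h'', b1, c0, c1⟩
        · have ht : t = 93/100 := le_antisymm hg h''
          exact (clZD (p := ![ρ, t, τ]) h a1 h' hg c0 c1).1.le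

end H41FT
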