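import Pool.Agent.H41.FT.L4

/-!
# Quasi-concavity in the obtuse region
-/

namespace H41FT

open Real Function

/-- one-dimensional quasi-concavity -/
theorem qconc {f f' f'' : ℝ → ℝ} {g0 : ℝ} (h0 : 0 ≤ g0)
    (hf : ∀ g, g0 ≤ g → g ≤ 1 → HasDerivAt f (f' g) g)
    (hf' : ∀ g, g0 ≤ g → g ≤ 1 → HasDerivAt f' (f'' g) g)
    (hW : ∀ g, g0 ≤ g → g ≤ 1 → 0 ≤ π / 2 * cos (π / 2 * g) * f' g - sin (π / 2 * g) * f'' g)
    (e0 : 0 ≤ f g0) (e1 : 0 ≤ f 1) : ∀ g, g0 ≤ g → g ≤ 1 → 0 ≤ f g := by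
  intro g hg hg'
  by_contra hneg
  push Not at hneg
  have hp := Real.pi_pos
  have hlt0 : g0 < g := by
    rcases hg.eq_or_lt with h | h
    · rw [← h] at hneg; exact absurd e0 (not_le.2 hneg)
    · exact h
  have hlt1 : g < 1 := by
    rcases hg'.eq_or_lt with h | h
    · rw [h] at hneg; exact absurd e1 (not_le.2 hneg)
    · exact h
  obtain ⟨x, ⟨hx0, hx1⟩, hx⟩ := exists_hasDerivAt_eq_slope f f' hlt0
    (fun t ht => (hf t ht.1 (ht.2.trans hg')).continuousAt.continuousWithinAt)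
    (fun t ht => hf t ht.1.le (ht.2.le.trans hg'))
  obtain ⟨y, ⟨hy0, hy1⟩, hy⟩ := exists_hasDerivAt_eq_slope f f' hlt1
    (fun t ht => (hf t (hg.trans ht.1) ht.2).continuousAt.continuousWithinAt)
    (fun t ht => hf t (hg.trans ht.1.le) ht.2.le)
  have hx' : f' x < 0 := by
    rw [hx]; exact div_neg_of_neg_of_pos (by linarith) (by linarith)
  have hy' : 0 < f' y := by
    rw [hy]; exact div_pos (by linarith) (by linarith)
  have hsin : ∀ t, x ≤ t → t ≤ y → 0 < sin (π / 2 * t) := by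
    intro t h1 h2
    exact sin_pos_of_pos_of_lt_pi (by nlinarith) (by nlinarith)
  have hd : ∀ t, x ≤ t → t ≤ y → HasDerivAt (fun s => f' s / sin (π / 2 * s))
      ((f'' t * sin (π / 2 * t) - f' t * (cos (π / 2 * t) * (π / 2))) / sin (π / 2 * t) ^ 2) t := by
    intro t h1 h2
    have hs : HasDerivAt (fun s => sin (π / 2 * s)) (cos (π / 2 * t) * (π / 2)) t := by
      have hl : HasDerivAt (fun s : ℝ => π / 2 * s) (π / 2) t := by
        simpa using (hasDerivAt_id t).const_mul (π / 2)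
      exact (Real.hasDerivAt_sin (π / 2 * t)).comp t hl
    exact (hf' t (by linarith) (by linarith)).div hs (hsin t h1 h2).ne'
  have hanti : AntitoneOn (fun s => f' s / sin (π / 2 * s)) (Set.Icc x y) := by
    refine antitoneOn_of_deriv_nonpos (convex_Icc x y) ?_ ?_ ?_
    · exact fun t ht => (hd t ht.1 ht.2).continuousAt.continuousWithinAt
    · intro t ht
      rw [interior_Icc] at ht
      exact (hd t ht.1.le ht.2.le).differentiableAt.differentiableWithinAt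
    · intro t ht
      rw [interior_Icc] at ht
      rw [(hd t ht.1.le ht.2.le).deriv]
      have h1 := hW t (by linarith [ht.1]) (by linarith [ht.2])
      apply div_nonpos_of_nonpos_of_nonneg
      · linarith
      · positivity
  have h1 := hanti ⟨le_rfl, by linarith⟩ ⟨by linarith, le_rfl⟩ (by linarith : x ≤ y)
  simp only at h1
  have h2 : f' x / sin (π / 2 * x) < 0 := div_neg_of_neg_of_pos hx' (hsin x le_rfl (by linarith))
  have h3 : 0 < f' y / sin (π / 2 * y) := div_pos hy' (hsin y (by linarith) le_rfl)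
  linarith

/-- `w ≥ 0` -/
def GW (p : P) : Prop := sin (π / 2 * p 0) * sin (π / 2 * p 1) * cos (π / 2 * p 2) -
      cos (π / 2 * p 0) * cos (π / 2 * p 1) ≤ 0

theorem cs_nonneg {x : ℝ} (h0 : 0 ≤ x) (h1 : x ≤ 1) : 0 ≤ cos (π / 2 * x) :=
  cos_nonneg_of_mem_Icc ⟨by nlinarith [Real.pi_pos], by nlinarith [Real.pi_pos]⟩

theorem sn_nonneg {x : ℝ} (h0 : 0 ≤ x) (h1 : x ≤ 1) : 0 ≤ sin (π / 2 * x) :=
  sin_nonneg_of_nonneg_of_le_pi (by nlinarith [Real.pi_pos]) (by nlinarith [Real.pi_pos])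

theorem sn_mono {x y : ℝ} (h0 : 0 ≤ x) (h1 : x ≤ y) (h2 : y ≤ 1) :
    sin (π / 2 * x) ≤ sin (π / 2 * y) :=
  sin_le_sin_of_le_of_le_pi_div_two (by nlinarith [Real.pi_pos]) (by nlinarith [Real.pi_pos])
    (by nlinarith [Real.pi_pos])

theorem cs_anti {x y : ℝ} (h0 : 0 ≤ x) (h1 : x ≤ y) (h2 : y ≤ 1) :
    cos (π / 2 * y) ≤ cos (π / 2 * x) :=
  cos_le_cos_of_nonneg_of_le_pi (by nlinarith [Real.pi_pos]) (by nlinarith [Real.pi_pos])
    (by nlinarith [Real.pi_pos])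

theorem GW.lo0 {p : P} {t : ℝ} (h : GW p) (h0 : 0 ≤ t) (h1 : t ≤ p 0) (h1' : p 0 ≤ 1)
    (h2 : 0 ≤ p 1) (h2' : p 1 ≤ 1) (h3 : 0 ≤ p 2) (h3' : p 2 ≤ 1) : GW (update p 0 t) := by
  unfold GW at *
  rw [u00, u01, u02]
  have k1 := sn_mono h0 h1 h1'
  have k2 := cs_anti h0 h1 h1'
  have k3 := sn_nonneg h2 h2'
  have k4 := cs_nonneg h2 h2'
  have k5 := cs_nonneg h3 h3'
  have k6 := mul_le_mul_of_nonneg_right (mul_le_mul_of_nonneg_right k1 k3) k5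
  have k7 := mul_le_mul_of_nonneg_right k2 k4
  linarith

theorem GW.hi2 {p : P} {t : ℝ} (h : GW p) (h1 : 0 ≤ p 0) (h1' : p 0 ≤ 1)
    (h2 : 0 ≤ p 1) (h2' : p 1 ≤ 1) (h3 : 0 ≤ p 2) (h3' : p 2 ≤ t) (h4 : t ≤ 1) :
    GW (update p 2 t) := by
  unfold GW at *
  rw [u20, u21, u22]
  have k5 := cs_anti h3 h3' h4
  have k6 := mul_le_mul_of_nonneg_left k5 (mul_nonneg (sn_nonneg h1 h1') (sn_nonneg h2 h2'))
  linarith

theorem Wφ_Sm {φ : P → ℝ} {p : P} (h : Sm φ p) : Sm (Wφ φ) p :=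
  Sm_sub (Sm_hm (Sm_mul (Sm_cs (Sm_coord 2)) (h.D 2))) (Sm_mul (Sm_sn (Sm_coord 2)) ((h.D 2).D 2))

theorem Wφ_val (φ : P → ℝ) (p : P) : Wφ φ p =
    cos (π / 2 * p 2) * D 2 φ p * (π / 2) - sin (π / 2 * p 2) * D 2 (D 2 φ) p := rfl

theorem rQA : ∀ p : P, B3 0 (5/100) (9/10) 1 0 1 p ∧ GW p → 0 ≤ Wφ (ev FsG2) p := by
  have hsm : ∀ p : P, B3 0 (5/100) (9/10) 1 0 1 p ∧ GW p → Sm (ev FsG2) p := fun p h =>
    (clQA h.1.l0 h.1.r0 h.1.l1 h.1.r1 h.1.l2 h.1.r2 h.2).2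
  refine pat1 (i := 0) (lo := 0) (fun p h => ⟨h.1.l0, fun t ht ht' => ⟨h.1.lo0.2 t ht ht', ?_⟩⟩)
    (fun p h => ⟨?_, Wφ_Sm (hsm p h)⟩) (fun p h h0 => ?_)
  · exact h.2.lo0 ht ht' (by linarith [h.1.r0]) (by linarith [h.1.l1]) h.1.r1 h.1.l2 h.1.r2
  · exact (clQA h.1.l0 h.1.r0 h.1.l1 h.1.r1 h.1.l2 h.1.r2 h.2).1.le
  · have hS : ∀ t, 0 ≤ t → t ≤ 1 → (B3 0 (5/100) (9/10) 1 0 1 (update p 2 t) ∧ GW (update p 2 t)) := by
      intro t ht ht'
      refine ⟨h.1.u2 ht ht', ?_⟩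
      unfold GW
      rw [u20, u21, u22, h0]
      simp only [mul_zero, sin_zero, zero_mul, cos_zero, one_mul, zero_sub]
      linarith [cs_nonneg (by linarith [h.1.l1] : (0 : ℝ) ≤ p 1) h.1.r1]
    have hz : ∀ t, 0 ≤ t → t ≤ 1 → D 2 (ev FsG2) (update p 2 t) = 0 := by
      intro t ht ht'
      refine Zl.D ⟨0, 1, by norm_num, by rw [u22]; exact ht, by rw [u22]; exact ht',
        fun s hs hs' => ?_⟩ (hsm _ (hS t ht ht'))
      rw [update_idem, ev_FsG2, u20, u21, u22, h0]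
      exact FsG2_a0 _ (by linarith [h.1.l1]) (by linarith [h.1.r1])
    have h1 : D 2 (ev FsG2) p = 0 := by
      have := hz (p 2) h.1.l2 h.1.r2
      rwa [update_eq_self] at this
    have h2 : D 2 (D 2 (ev FsG2)) p = 0 :=
      Zl.D ⟨0, 1, by norm_num, h.1.l2, h.1.r2, hz⟩ ((hsm p h).D 2)
    rw [Wφ_val, h1, h2]; simp

/-- the region where `W ≥ 0` -/
theorem R_W {a b g : ℝ} (a0 : 0 ≤ a) (a1 : a ≤ 53/100) (hb : b ≤ 1)
    (hab : 9/10 ≤ b ∨ (a ≤ b ∧ 1 ≤ a + b)) (g0 : 0 ≤ g) (g1 : g ≤ 1)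
    (hw : sin (π / 2 * a) * sin (π / 2 * b) * cos (π / 2 * g) -
      cos (π / 2 * a) * cos (π / 2 * b) ≤ 0) :
    0 ≤ Wφ (ev FsG2) ![a, b, g] ∧ Sm (ev FsG2) ![a, b, g] := by
  have hA : 9/10 ≤ b → 0 ≤ Wφ (ev FsG2) ![a, b, g] ∧ Sm (ev FsG2) ![a, b, g] := by
    intro h
    rcases le_total a (5/100) with h' | h'
    · exact ⟨rQA _ ⟨⟨a0, h', h, hb, g0, g1⟩, hw⟩, (clQA (p := ![a, b, g]) a0 h' h hb g0 g1 hw).2⟩
    · obtain ⟨k1, k2⟩ := clQB (p := ![a, b, g]) h' a1 h hb g0 g1 hw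
      exact ⟨k1.le, k2⟩
  rcases hab with h | hab'
  · exact hA h
  rcases le_total (9/10) b with h | h
  · exact hA h
  · obtain ⟨k1, k2⟩ := clQC (p := ![a, b, g]) (by show 999/10000 ≤ a; linarith [hab'.2]) a1
      (by show 44/100 ≤ b; linarith [hab'.2]) h g0 g1 hw (by show a - b ≤ 0; linarith [hab'.1])
      (by show 1 - (a + b) ≤ 0; linarith [hab'.2])
    exact ⟨k1.le, k2⟩

theorem FG12 (a b c u v w sa sb sc D2 gx cx gy cy gz cz : ℝ) :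
    FG rO 1 a b c u v w sa sb sc D2 gx cx gy cy gz cz =
    FG rO 2 a b c u v w sa sb sc D2 gx cx gy cy gz cz + 48 * (1 - a - b) * (1 - gz) := by
  simp only [lt, rO, FG, fin_, brS, br1, br2, xyS, hsS, hz, rkS, rks, rk, om, kh]
  push_cast
  ring

theorem FsG12 (a b g : ℝ) : FsG rO 1 a b g = FsG rO 2 a b g + 48 * (1 - a - b) * (1 - g) :=
  FG12 _ _ _ _ _ _ _ _ _ _ _ _ _ _ _ _

end H41FT
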