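import Mathlib.Analysis.SpecialFunctions.Trigonometric.ArctanDeriv
import Mathlib.Analysis.SpecialFunctions.Sqrt
import Mathlib.Analysis.SpecialFunctions.Trigonometric.Deriv

/-!
# Tagless operations: real numbers, functions, dual numbers

`Ops T` packages the elementary operations used by the certificate.  `sn x` stands for
`sin(πx/2)`, `cs x` for `cos(πx/2)` and `at x` for `(2/π) arctan x`.
-/

namespace H41FT

/-- The elementary operations. -/
structure Ops (T : Type) where
  nat : Nat → T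
  add : T → T → T
  sub : T → T → T
  mul : T → T → T
  smul : Nat → T → T
  hm : T → T
  ihm : T → T
  inv : T → T
  sqrt : T → T
  sn : T → T
  cs : T → T
  at_ : T → T

/-- A `let` combinator which is convenient both for the kernel and for proofs. -/
def lt {A B : Type} (e : A) (f : A → B) : B := f e

/-- Real numbers. -/
noncomputable def rO : Ops ℝ where
  nat n := n
  add x y := x + y
  sub x y := x - y
  mul x y := x * y
  smul n x := n * x
  hm x := x * (Real.pi / 2)
  ihm x := x * (2 / Real.pi)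
  inv x := x⁻¹
  sqrt x := √x
  sn x := Real.sin (Real.pi / 2 * x)
  cs x := Real.cos (Real.pi / 2 * x)
  at_ x := 2 / Real.pi * Real.arctan x

/-- Parameter space. -/
abbrev P := Fin 3 → ℝ

/-- Functions on parameter space. -/
noncomputable def fO : Ops (P → ℝ) where
  nat n := fun _ => n
  add f g := fun p => f p + g p
  sub f g := fun p => f p - g p
  mul f g := fun p => f p * g p
  smul n f := fun p => n * f p
  hm f := fun p => f p * (Real.pi / 2)
  ihm f := fun p => f p * (2 / Real.pi)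
  inv f := fun p => (f p)⁻¹
  sqrt f := fun p => √(f p)
  sn f := fun p => Real.sin (Real.pi / 2 * f p)
  cs f := fun p => Real.cos (Real.pi / 2 * f p)
  at_ f := fun p => 2 / Real.pi * Real.arctan (f p)

/-- Dual numbers over `T`. -/
structure Du (T : Type) where
  v : T
  d : T

/-- Operations on dual numbers. -/
def duO {T : Type} (o : Ops T) : Ops (Du T) where
  nat n := ⟨o.nat n, o.nat 0⟩
  add x y := ⟨o.add x.v y.v, o.add x.d y.d⟩
  sub x y := ⟨o.sub x.v y.v, o.sub x.d y.d⟩
  mul x y := ⟨o.mul x.v y.v, o.add (o.mul x.v y.d) (o.mul x.d y.v)⟩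
  smul n x := ⟨o.smul n x.v, o.smul n x.d⟩
  hm x := ⟨o.hm x.v, o.hm x.d⟩
  ihm x := ⟨o.ihm x.v, o.ihm x.d⟩
  inv x := ⟨o.inv x.v, o.sub (o.nat 0) (o.mul (o.mul (o.inv x.v) (o.inv x.v)) x.d)⟩
  sqrt x := ⟨o.sqrt x.v, o.mul (o.inv (o.smul 2 (o.sqrt x.v))) x.d⟩
  sn x := ⟨o.sn x.v, o.mul (o.hm (o.cs x.v)) x.d⟩
  cs x := ⟨o.cs x.v, o.sub (o.nat 0) (o.mul (o.hm (o.sn x.v)) x.d)⟩
  at_ x := ⟨o.at_ x.v, o.mul (o.ihm (o.inv (o.add (o.nat 1) (o.mul x.v x.v)))) x.d⟩

end H41FT
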