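import Pool.Agent.H41.FT.Ops
import Mathlib.Analysis.Calculus.ContDiff.Comp
import Mathlib.Analysis.Calculus.Deriv.Pi

/-!
# Soundness of an evaluation and its lift to dual numbers
-/

namespace H41FT

open Filter Topology

/-- partial derivative -/
noncomputable def D (i : Fin 3) (f : P → ℝ) : P → ℝ := fun p => fderiv ℝ f p (Pi.single i 1)

/-- smooth at a point -/
def Sm (f : P → ℝ) (p : P) : Prop := ContDiffAt ℝ (⊤ : ℕ∞) f p

theorem Sm.congr {f g : P → ℝ} {p : P} (h : Sm f p) (e : f =ᶠ[𝓝 p] g) : Sm g p :=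
  ContDiffAt.congr_of_eventuallyEq h e.symm

theorem Sm.eventually {f : P → ℝ} {p : P} (h : Sm f p) : ∀ᶠ q in 𝓝 p, DifferentiableAt ℝ f q := by
  have h1 : ContDiffAt ℝ 1 f p := h.of_le (by exact_mod_cast le_top)
  filter_upwards [h1.eventually (by simp)] with q hq
  exact hq.differentiableAt (by simp)

theorem Sm.diff {f : P → ℝ} {p : P} (h : Sm f p) : DifferentiableAt ℝ f p :=
  h.eventually.self_of_nhds

theorem Sm.D {f : P → ℝ} {p : P} (h : Sm f p) (i : Fin 3) : Sm (D i f) p := by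
  have h1 : ContDiffAt ℝ (⊤ : ℕ∞) (fderiv ℝ f) p := ContDiffAt.fderiv_right h (by simp)
  exact h1.clm_apply contDiffAt_const

theorem D_congr {f g : P → ℝ} {p : P} (e : f =ᶠ[𝓝 p] g) (i : Fin 3) : D i f =ᶠ[𝓝 p] D i g := by
  filter_upwards [e.eventuallyEq_nhds] with q hq
  unfold D
  rw [hq.fderiv_eq]

theorem D_comp_real {f : P → ℝ} {φ : ℝ → ℝ} {φ' : ℝ} {q : P} (i : Fin 3)
    (hf : DifferentiableAt ℝ f q) (hφ : HasDerivAt φ φ' (f q)) :
    D i (fun p => φ (f p)) q = φ' * D i f q := by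
  have h := hφ.comp_hasFDerivAt q hf.hasFDerivAt
  unfold D
  rw [show (fun p => φ (f p)) = φ ∘ f from rfl, h.fderiv]
  simp

section rules

variable {f g : P → ℝ} {p : P} (i : Fin 3)

theorem D_nat (n : ℕ) : D i (fO.nat n) = fO.nat 0 := by
  funext q
  simp [D, fO]

theorem D_coord (j : Fin 3) : D i (fun p : P => p j) = fO.nat (if i = j then 1 else 0) := by
  funext q
  have h : HasFDerivAt (fun p : P => p j) (ContinuousLinearMap.proj (R := ℝ) (φ := fun _ => ℝ) j) q :=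
    hasFDerivAt_apply j q
  unfold D
  rw [h.fderiv]
  by_cases hij : i = j
  · subst hij; simp [fO]
  · simp [fO, hij, Ne.symm hij]

theorem D_add (hf : Sm f p) (hg : Sm g p) :
    fO.add (D i f) (D i g) =ᶠ[𝓝 p] D i (fO.add f g) := by
  filter_upwards [hf.eventually, hg.eventually] with q h1 h2
  show D i f q + D i g q = fderiv ℝ (f + g) q (Pi.single i 1)
  rw [(h1.hasFDerivAt.add h2.hasFDerivAt).fderiv]
  rfl

theorem D_sub (hf : Sm f p) (hg : Sm g p) :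
    fO.sub (D i f) (D i g) =ᶠ[𝓝 p] D i (fO.sub f g) := by
  filter_upwards [hf.eventually, hg.eventually] with q h1 h2
  show D i f q - D i g q = fderiv ℝ (f - g) q (Pi.single i 1)
  rw [(h1.hasFDerivAt.sub h2.hasFDerivAt).fderiv]
  rfl

theorem D_mul (hf : Sm f p) (hg : Sm g p) :
    fO.add (fO.mul f (D i g)) (fO.mul (D i f) g) =ᶠ[𝓝 p] D i (fO.mul f g) := by
  filter_upwards [hf.eventually, hg.eventually] with q h1 h2
  show f q * D i g q + D i f q * g q = fderiv ℝ (f * g) q (Pi.single i 1)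
  rw [(h1.hasFDerivAt.mul h2.hasFDerivAt).fderiv]
  simp [D, mul_comm]

theorem D_smul (n : ℕ) (hf : Sm f p) :
    fO.smul n (D i f) =ᶠ[𝓝 p] D i (fO.smul n f) := by
  filter_upwards [hf.eventually] with q h1
  have := D_comp_real (φ := fun t => (n : ℝ) * t) i h1 ((hasDerivAt_id (f q)).const_mul (n : ℝ))
  rw [show fO.smul n f = fun p => (n : ℝ) * f p from rfl, this]
  show (n : ℝ) * D i f q = _
  ring

theorem D_hm (hf : Sm f p) :
    fO.hm (D i f) =ᶠ[𝓝 p] D i (fO.hm f) := by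
  filter_upwards [hf.eventually] with q h1
  have := D_comp_real (φ := fun t => t * (Real.pi / 2)) i h1
    ((hasDerivAt_id (f q)).mul_const (Real.pi / 2))
  rw [show fO.hm f = fun p => f p * (Real.pi / 2) from rfl, this]
  show D i f q * (Real.pi / 2) = _
  ring

theorem D_ihm (hf : Sm f p) :
    fO.ihm (D i f) =ᶠ[𝓝 p] D i (fO.ihm f) := by
  filter_upwards [hf.eventually] with q h1
  have := D_comp_real (φ := fun t => t * (2 / Real.pi)) i h1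
    ((hasDerivAt_id (f q)).mul_const (2 / Real.pi))
  rw [show fO.ihm f = fun p => f p * (2 / Real.pi) from rfl, this]
  show D i f q * (2 / Real.pi) = _
  ring

theorem D_inv (hf : Sm f p) (h0 : 0 < f p) :
    fO.sub (fO.nat 0) (fO.mul (fO.mul (fO.inv f) (fO.inv f)) (D i f)) =ᶠ[𝓝 p] D i (fO.inv f) := by
  have hc : ContinuousAt f p := ContDiffAt.continuousAt hf
  filter_upwards [hf.eventually, hc.eventually (lt_mem_nhds h0)] with q h1 h2
  have := D_comp_real (φ := fun t => t⁻¹) i h1 (hasDerivAt_inv h2.ne')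
  rw [show fO.inv f = fun p => (f p)⁻¹ from rfl, this]
  show ((0 : ℕ) : ℝ) - (f q)⁻¹ * (f q)⁻¹ * D i f q = _
  field_simp
  simp

theorem D_sqrt (hf : Sm f p) (h0 : 0 < f p) :
    fO.mul (fO.inv (fO.smul 2 (fO.sqrt f))) (D i f) =ᶠ[𝓝 p] D i (fO.sqrt f) := by
  have hc : ContinuousAt f p := ContDiffAt.continuousAt hf
  filter_upwards [hf.eventually, hc.eventually (lt_mem_nhds h0)] with q h1 h2
  have := D_comp_real (φ := fun t => √t) i h1 (Real.hasDerivAt_sqrt h2.ne')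
  rw [show fO.sqrt f = fun p => √(f p) from rfl, this]
  show (((2 : ℕ) : ℝ) * √(f q))⁻¹ * D i f q = _
  push_cast
  rw [one_div]

theorem D_sn (hf : Sm f p) :
    fO.mul (fO.hm (fO.cs f)) (D i f) =ᶠ[𝓝 p] D i (fO.sn f) := by
  filter_upwards [hf.eventually] with q h1
  have h2 : HasDerivAt (fun t => Real.sin (Real.pi / 2 * t))
      (Real.cos (Real.pi / 2 * f q) * (Real.pi / 2)) (f q) := by
    have h3 : HasDerivAt (fun t : ℝ => Real.pi / 2 * t) (Real.pi / 2) (f q) := by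
      simpa using (hasDerivAt_id (f q)).const_mul (Real.pi / 2)
    exact (Real.hasDerivAt_sin (Real.pi / 2 * f q)).comp (f q) h3
  rw [show fO.sn f = fun p => Real.sin (Real.pi / 2 * f p) from rfl,
    D_comp_real (φ := fun t => Real.sin (Real.pi / 2 * t)) i h1 h2]
  rfl

theorem D_cs (hf : Sm f p) :
    fO.sub (fO.nat 0) (fO.mul (fO.hm (fO.sn f)) (D i f)) =ᶠ[𝓝 p] D i (fO.cs f) := by
  filter_upwards [hf.eventually] with q h1
  have h2 : HasDerivAt (fun t => Real.cos (Real.pi / 2 * t))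
      (-Real.sin (Real.pi / 2 * f q) * (Real.pi / 2)) (f q) := by
    have h3 : HasDerivAt (fun t : ℝ => Real.pi / 2 * t) (Real.pi / 2) (f q) := by
      simpa using (hasDerivAt_id (f q)).const_mul (Real.pi / 2)
    exact (Real.hasDerivAt_cos (Real.pi / 2 * f q)).comp (f q) h3
  rw [show fO.cs f = fun p => Real.cos (Real.pi / 2 * f p) from rfl,
    D_comp_real (φ := fun t => Real.cos (Real.pi / 2 * t)) i h1 h2]
  show ((0 : ℕ) : ℝ) - Real.sin (Real.pi / 2 * f q) * (Real.pi / 2) * D i f q = _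
  push_cast
  ring

theorem D_at (hf : Sm f p) :
    fO.mul (fO.ihm (fO.inv (fO.add (fO.nat 1) (fO.mul f f)))) (D i f) =ᶠ[𝓝 p] D i (fO.at_ f) := by
  filter_upwards [hf.eventually] with q h1
  have h2 : HasDerivAt (fun t => 2 / Real.pi * Real.arctan t)
      (2 / Real.pi * (1 / (1 + f q ^ 2))) (f q) :=
    (Real.hasDerivAt_arctan (f q)).const_mul (2 / Real.pi)
  rw [show fO.at_ f = fun p => 2 / Real.pi * Real.arctan (f p) from rfl,
    D_comp_real (φ := fun t => 2 / Real.pi * Real.arctan t) i h1 h2]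
  show (((1 : ℕ) : ℝ) + f q * f q)⁻¹ * (2 / Real.pi) * D i f q = _
  push_cast
  ring

end rules

section smooth

variable {f g : P → ℝ} {p : P}

theorem Sm_nat (n : ℕ) : Sm (fO.nat n) p := contDiffAt_const
theorem Sm_coord (j : Fin 3) : Sm (fun p : P => p j) p := (contDiff_apply ℝ ℝ j).contDiffAt
theorem Sm_add (hf : Sm f p) (hg : Sm g p) : Sm (fO.add f g) p := ContDiffAt.add hf hg
theorem Sm_sub (hf : Sm f p) (hg : Sm g p) : Sm (fO.sub f g) p := ContDiffAt.sub hf hg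
theorem Sm_mul (hf : Sm f p) (hg : Sm g p) : Sm (fO.mul f g) p := ContDiffAt.mul hf hg
theorem Sm_smul (n : ℕ) (hf : Sm f p) : Sm (fO.smul n f) p := contDiffAt_const.mul hf
theorem Sm_hm (hf : Sm f p) : Sm (fO.hm f) p := ContDiffAt.mul hf contDiffAt_const
theorem Sm_ihm (hf : Sm f p) : Sm (fO.ihm f) p := ContDiffAt.mul hf contDiffAt_const
theorem Sm_inv (hf : Sm f p) (h0 : 0 < f p) : Sm (fO.inv f) p := ContDiffAt.inv hf h0.ne'
theorem Sm_sqrt (hf : Sm f p) (h0 : 0 < f p) : Sm (fO.sqrt f) p := ContDiffAt.sqrt hf h0.ne'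
theorem Sm_sn (hf : Sm f p) : Sm (fO.sn f) p := (contDiffAt_const.mul hf).sin
theorem Sm_cs (hf : Sm f p) : Sm (fO.cs f) p := (contDiffAt_const.mul hf).cos
theorem Sm_at (hf : Sm f p) : Sm (fO.at_ f) p := contDiffAt_const.mul (ContDiffAt.arctan hf)

end smooth

/-- Soundness of an evaluation `o` over the set `K`. -/
structure Sound {T : Type} (K : Set P) (o : Ops T) (ok : T → Prop) (SE : T → (P → ℝ) → Prop) :
    Prop where
  smooth : ∀ {x f}, SE x f → ∀ p ∈ K, Sm f p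
  congr : ∀ {x f g}, SE x f → (∀ p ∈ K, f =ᶠ[𝓝 p] g) → SE x g
  nat : ∀ n, SE (o.nat n) (fO.nat n)
  ok_nat : ok (o.nat 0)
  add : ∀ {x y f g}, ok (o.add x y) → SE x f → SE y g → SE (o.add x y) (fO.add f g)
  sub : ∀ {x y f g}, ok (o.sub x y) → SE x f → SE y g → SE (o.sub x y) (fO.sub f g)
  mul : ∀ {x y f g}, ok (o.mul x y) → SE x f → SE y g → SE (o.mul x y) (fO.mul f g)
  smul : ∀ {n x f}, ok (o.smul n x) → SE x f → SE (o.smul n x) (fO.smul n f)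
  hm : ∀ {x f}, ok (o.hm x) → SE x f → SE (o.hm x) (fO.hm f)
  ihm : ∀ {x f}, ok (o.ihm x) → SE x f → SE (o.ihm x) (fO.ihm f)
  inv : ∀ {x f}, ok (o.inv x) → SE x f → SE (o.inv x) (fO.inv f)
  sqrt : ∀ {x f}, ok (o.sqrt x) → SE x f → SE (o.sqrt x) (fO.sqrt f)
  sn : ∀ {x f}, ok (o.sn x) → SE x f → SE (o.sn x) (fO.sn f)
  cs : ∀ {x f}, ok (o.cs x) → SE x f → SE (o.cs x) (fO.cs f)
  at_ : ∀ {x f}, ok (o.at_ x) → SE x f → SE (o.at_ x) (fO.at_ f)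
  inv_pos : ∀ {x f}, ok (o.inv x) → SE x f → ∀ p ∈ K, 0 < f p
  sqrt_pos : ∀ {x f}, ok (o.sqrt x) → SE x f → ∀ p ∈ K, 0 < f p
  ok_add : ∀ {x y}, ok (o.add x y) → ok x ∧ ok y
  ok_sub : ∀ {x y}, ok (o.sub x y) → ok x ∧ ok y
  ok_mul : ∀ {x y}, ok (o.mul x y) → ok x ∧ ok y
  ok_smul : ∀ {n x}, ok (o.smul n x) → ok x
  ok_hm : ∀ {x}, ok (o.hm x) → ok x
  ok_ihm : ∀ {x}, ok (o.ihm x) → ok x
  ok_inv : ∀ {x}, ok (o.inv x) → ok x
  ok_sqrt : ∀ {x}, ok (o.sqrt x) → ok x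
  ok_sn : ∀ {x}, ok (o.sn x) → ok x
  ok_cs : ∀ {x}, ok (o.cs x) → ok x
  ok_at : ∀ {x}, ok (o.at_ x) → ok x

/-- ok for dual numbers -/
def okD {T : Type} (ok : T → Prop) (x : Du T) : Prop := ok x.v ∧ ok x.d

/-- enclosure for dual numbers -/
def SED {T : Type} (SE : T → (P → ℝ) → Prop) (i : Fin 3) (x : Du T) (f : P → ℝ) : Prop :=
  SE x.v f ∧ SE x.d (D i f)

theorem Sound.du {T : Type} {K : Set P} {o : Ops T} {ok : T → Prop} {SE : T → (P → ℝ) → Prop}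
    (S : Sound K o ok SE) (i : Fin 3) : Sound K (duO o) (okD ok) (SED SE i) where
  smooth h p hp := S.smooth h.1 p hp
  congr h e := ⟨S.congr h.1 e, S.congr h.2 fun p hp => D_congr (e p hp) i⟩
  nat n := ⟨S.nat n, by rw [D_nat]; exact S.nat 0⟩
  ok_nat := ⟨S.ok_nat, S.ok_nat⟩
  add k hx hy := ⟨S.add k.1 hx.1 hy.1, S.congr (S.add k.2 hx.2 hy.2) fun p hp =>
    D_add i (S.smooth hx.1 p hp) (S.smooth hy.1 p hp)⟩
  sub k hx hy := ⟨S.sub k.1 hx.1 hy.1, S.congr (S.sub k.2 hx.2 hy.2) fun p hp =>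
    D_sub i (S.smooth hx.1 p hp) (S.smooth hy.1 p hp)⟩
  mul k hx hy := ⟨S.mul k.1 hx.1 hy.1, S.congr (S.add k.2 (S.mul (S.ok_add k.2).1 hx.1 hy.2)
    (S.mul (S.ok_add k.2).2 hx.2 hy.1)) fun p hp =>
    D_mul i (S.smooth hx.1 p hp) (S.smooth hy.1 p hp)⟩
  smul k hx := ⟨S.smul k.1 hx.1, S.congr (S.smul k.2 hx.2) fun p hp =>
    D_smul i _ (S.smooth hx.1 p hp)⟩
  hm k hx := ⟨S.hm k.1 hx.1, S.congr (S.hm k.2 hx.2) fun p hp => D_hm i (S.smooth hx.1 p hp)⟩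
  ihm k hx := ⟨S.ihm k.1 hx.1, S.congr (S.ihm k.2 hx.2) fun p hp => D_ihm i (S.smooth hx.1 p hp)⟩
  inv k hx := by
    have k2 := (S.ok_sub k.2).2
    have k3 := (S.ok_mul k2).1
    have h1 := S.inv k.1 hx.1
    exact ⟨h1, S.congr (S.sub k.2 (S.nat 0) (S.mul k2 (S.mul k3 h1 h1) hx.2)) fun p hp =>
      D_inv i (S.smooth hx.1 p hp) (S.inv_pos k.1 hx.1 p hp)⟩
  sqrt k hx := by
    have k2 := (S.ok_mul k.2).1
    have k3 := S.ok_inv k2
    have h1 := S.sqrt k.1 hx.1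
    exact ⟨h1, S.congr (S.mul k.2 (S.inv k2 (S.smul k3 h1)) hx.2) fun p hp =>
      D_sqrt i (S.smooth hx.1 p hp) (S.sqrt_pos k.1 hx.1 p hp)⟩
  sn k hx := by
    have k2 := (S.ok_mul k.2).1
    exact ⟨S.sn k.1 hx.1, S.congr (S.mul k.2 (S.hm k2 (S.cs (S.ok_hm k2) hx.1)) hx.2) fun p hp =>
      D_sn i (S.smooth hx.1 p hp)⟩
  cs k hx := by
    have k1 := (S.ok_sub k.2).2
    have k2 := (S.ok_mul k1).1
    exact ⟨S.cs k.1 hx.1, S.congr (S.sub k.2 (S.nat 0)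
      (S.mul k1 (S.hm k2 (S.sn (S.ok_hm k2) hx.1)) hx.2)) fun p hp =>
      D_cs i (S.smooth hx.1 p hp)⟩
  at_ k hx := by
    have k1 := (S.ok_mul k.2).1
    have k2 := S.ok_ihm k1
    have k3 := S.ok_inv k2
    have k4 := (S.ok_add k3).2
    exact ⟨S.at_ k.1 hx.1, S.congr (S.mul k.2 (S.ihm k1 (S.inv k2 (S.add k3 (S.nat 1)
      (S.mul k4 hx.1 hx.1)))) hx.2) fun p hp => D_at i (S.smooth hx.1 p hp)⟩
  inv_pos k hx := S.inv_pos k.1 hx.1
  sqrt_pos k hx := S.sqrt_pos k.1 hx.1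
  ok_add k := ⟨⟨(S.ok_add k.1).1, (S.ok_add k.2).1⟩, ⟨(S.ok_add k.1).2, (S.ok_add k.2).2⟩⟩
  ok_sub k := ⟨⟨(S.ok_sub k.1).1, (S.ok_sub k.2).1⟩, ⟨(S.ok_sub k.1).2, (S.ok_sub k.2).2⟩⟩
  ok_mul k := ⟨⟨(S.ok_mul k.1).1, (S.ok_mul (S.ok_add k.2).2).1⟩,
    ⟨(S.ok_mul k.1).2, (S.ok_mul (S.ok_add k.2).1).2⟩⟩
  ok_smul k := ⟨S.ok_smul k.1, S.ok_smul k.2⟩
  ok_hm k := ⟨S.ok_hm k.1, S.ok_hm k.2⟩
  ok_ihm k := ⟨S.ok_ihm k.1, S.ok_ihm k.2⟩
  ok_inv k := ⟨S.ok_inv k.1, (S.ok_mul (S.ok_sub k.2).2).2⟩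
  ok_sqrt k := ⟨S.ok_sqrt k.1, (S.ok_mul k.2).2⟩
  ok_sn k := ⟨S.ok_sn k.1, (S.ok_mul k.2).2⟩
  ok_cs k := ⟨S.ok_cs k.1, (S.ok_mul (S.ok_sub k.2).2).2⟩
  ok_at k := ⟨S.ok_at k.1, (S.ok_mul k.2).2⟩

end H41FT
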