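import Pool.Agent.H41.FT.Funs
import Pool.Agent.H41.FT.Sound

/-!
# Parametricity of the functions of the certificate
-/

namespace H41FT

open Filter Topology

section R

variable {T : Type} {K : Set P} {o : Ops T} {ok : T → Prop} {SE : T → (P → ℝ) → Prop}

/-- guarded relation -/
def R (ok : T → Prop) (SE : T → (P → ℝ) → Prop) (x : T) (f : P → ℝ) : Prop := ok x → SE x f

variable (S : Sound K o ok SE) {x y : T} {f g : P → ℝ}

include S

theorem Sound.rnat (n : ℕ) : R ok SE (o.nat n) (fO.nat n) := fun _ => S.nat n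
theorem Sound.radd (hx : R ok SE x f) (hy : R ok SE y g) : R ok SE (o.add x y) (fO.add f g) :=
  fun h => S.add h (hx (S.ok_add h).1) (hy (S.ok_add h).2)
theorem Sound.rsub (hx : R ok SE x f) (hy : R ok SE y g) : R ok SE (o.sub x y) (fO.sub f g) :=
  fun h => S.sub h (hx (S.ok_sub h).1) (hy (S.ok_sub h).2)
theorem Sound.rmul (hx : R ok SE x f) (hy : R ok SE y g) : R ok SE (o.mul x y) (fO.mul f g) :=
  fun h => S.mul h (hx (S.ok_mul h).1) (hy (S.ok_mul h).2)
theorem Sound.rsmul (n : ℕ) (hx : R ok SE x f) : R ok SE (o.smul n x) (fO.smul n f) :=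
  fun h => S.smul h (hx (S.ok_smul h))
theorem Sound.rhm (hx : R ok SE x f) : R ok SE (o.hm x) (fO.hm f) := fun h => S.hm h (hx (S.ok_hm h))
theorem Sound.rinv (hx : R ok SE x f) : R ok SE (o.inv x) (fO.inv f) :=
  fun h => S.inv h (hx (S.ok_inv h))
theorem Sound.rsqrt (hx : R ok SE x f) : R ok SE (o.sqrt x) (fO.sqrt f) :=
  fun h => S.sqrt h (hx (S.ok_sqrt h))
theorem Sound.rsn (hx : R ok SE x f) : R ok SE (o.sn x) (fO.sn f) := fun h => S.sn h (hx (S.ok_sn h))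
theorem Sound.rcs (hx : R ok SE x f) : R ok SE (o.cs x) (fO.cs f) := fun h => S.cs h (hx (S.ok_cs h))
theorem Sound.rat (hx : R ok SE x f) : R ok SE (o.at_ x) (fO.at_ f) := fun h => S.at_ h (hx (S.ok_at h))

omit S in
theorem rlt {A A' : Type} {E : A → A' → Prop} {e : A} {e' : A'} {F : A → T} {G : A' → P → ℝ}
    (he : E e e') (h : ∀ x x', E x x' → R ok SE (F x) (G x')) : R ok SE (lt e F) (lt e' G) :=
  h e e' he

end R

section F

variable {T : Type} {K : Set P} {o : Ops T} {ok : T → Prop} {SE : T → (P → ℝ) → Prop}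

theorem om_R (S : Sound K o ok SE) {a sa : T} {a' sa' : P → ℝ} (h1 : R ok SE a a') (h2 : R ok SE sa sa') :
    R ok SE (om o a sa) (om fO a' sa') := by unfold om; (repeat first | assumption | exact Sound.rnat S _ | apply Sound.radd S | apply Sound.rsub S | apply Sound.rmul S | apply Sound.rsmul S | apply Sound.rhm S | apply Sound.rinv S | apply Sound.rsqrt S | apply Sound.rsn S | apply Sound.rcs S | apply Sound.rat S | (refine rlt ?_ ?_ ; rotate_left ; intro _ _ _))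

theorem hz_R (S : Sound K o ok SE) {su sv g c : T} {su' sv' g' c' : P → ℝ} (h1 : R ok SE su su')
    (h2 : R ok SE sv sv') (h3 : R ok SE g g') (h4 : R ok SE c c') :
    R ok SE (hz o su sv g c) (hz fO su' sv' g' c') := by unfold hz; (repeat first | assumption | exact Sound.rnat S _ | apply Sound.radd S | apply Sound.rsub S | apply Sound.rmul S | apply Sound.rsmul S | apply Sound.rhm S | apply Sound.rinv S | apply Sound.rsqrt S | apply Sound.rsn S | apply Sound.rcs S | apply Sound.rat S | (refine rlt ?_ ?_ ; rotate_left ; intro _ _ _))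

theorem rk_R (S : Sound K o ok SE) {su sv g c : T} {su' sv' g' c' : P → ℝ} (h1 : R ok SE su su')
    (h2 : R ok SE sv sv') (h3 : R ok SE g g') (h4 : R ok SE c c') :
    R ok SE (rk o su sv g c) (rk fO su' sv' g' c') := by unfold rk; (repeat first | assumption | exact Sound.rnat S _ | apply Sound.radd S | apply Sound.rsub S | apply Sound.rmul S | apply Sound.rsmul S | apply Sound.rhm S | apply Sound.rinv S | apply Sound.rsqrt S | apply Sound.rsn S | apply Sound.rcs S | apply Sound.rat S | (refine rlt ?_ ?_ ; rotate_left ; intro _ _ _))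

theorem rks_R (S : Sound K o ok SE) {a b c x x2 y y2 z z2 : T}
    {a' b' c' x' x2' y' y2' z' z2' : P → ℝ} (h1 : R ok SE a a') (h2 : R ok SE b b') (h3 : R ok SE c c')
    (h4 : R ok SE x x') (h5 : R ok SE x2 x2') (h6 : R ok SE y y') (h7 : R ok SE y2 y2') (h8 : R ok SE z z') (h9 : R ok SE z2 z2') :
    R ok SE (rks o a b c x x2 y y2 z z2) (rks fO a' b' c' x' x2' y' y2' z' z2') := by
  unfold rks
  exact S.radd (rk_R S h1 h2 h8 h9) (S.radd (rk_R S h2 h3 h4 h5) (rk_R S h3 h1 h6 h7))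

theorem rkS_R (S : Sound K o ok SE) {a b c sa sb sc x x2 y y2 z z2 : T}
    {a' b' c' sa' sb' sc' x' x2' y' y2' z' z2' : P → ℝ} (h1 : R ok SE a a') (h2 : R ok SE b b')
    (h3 : R ok SE c c') (k1 : R ok SE sa sa') (k2 : R ok SE sb sb') (k3 : R ok SE sc sc')
    (h4 : R ok SE x x') (h5 : R ok SE x2 x2') (h6 : R ok SE y y') (h7 : R ok SE y2 y2') (h8 : R ok SE z z') (h9 : R ok SE z2 z2') :
    R ok SE (rkS o a b c sa sb sc x x2 y y2 z z2) (rkS fO a' b' c' sa' sb' sc' x' x2' y' y2' z' z2') := by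
  unfold rkS
  refine rlt (om_R S h1 k1) fun _ _ q1 => rlt (om_R S h2 k2) fun _ _ q2 =>
    rlt (om_R S h3 k3) fun _ _ q3 => ?_
  exact rks_R S q1 q2 q3 h4 h5 h6 h7 h8 h9

theorem hsS_R (S : Sound K o ok SE) (k : ℕ) {a b c x x2 y y2 z z2 : T}
    {a' b' c' x' x2' y' y2' z' z2' : P → ℝ} (h1 : R ok SE a a') (h2 : R ok SE b b') (h3 : R ok SE c c')
    (h4 : R ok SE x x') (h5 : R ok SE x2 x2') (h6 : R ok SE y y') (h7 : R ok SE y2 y2') (h8 : R ok SE z z') (h9 : R ok SE z2 z2') :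
    R ok SE (hsS o k a b c x x2 y y2 z z2) (hsS fO k a' b' c' x' x2' y' y2' z' z2') := by
  have q1 := hz_R S h1 h2 h8 h9
  have q2 := hz_R S h2 h3 h4 h5
  have q3 := hz_R S h3 h1 h6 h7
  unfold hsS
  split
  · exact S.radd q1 (S.radd q2 q3)
  · exact S.rsub (S.radd q2 q3) q1
  · exact S.rsub (S.rnat _) (S.radd q1 (S.radd q2 q3))

theorem xyS_R (S : Sound K o ok SE) {a b de x y : T} {a' b' de' x' y' : P → ℝ} (h1 : R ok SE a a')
    (h2 : R ok SE b b') (h3 : R ok SE de de') (h4 : R ok SE x x') (h5 : R ok SE y y') :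
    R ok SE (xyS o a b de x y) (xyS fO a' b' de' x' y') := by unfold xyS; (repeat first | assumption | exact Sound.rnat S _ | apply Sound.radd S | apply Sound.rsub S | apply Sound.rmul S | apply Sound.rsmul S | apply Sound.rhm S | apply Sound.rinv S | apply Sound.rsqrt S | apply Sound.rsn S | apply Sound.rcs S | apply Sound.rat S | (refine rlt ?_ ?_ ; rotate_left ; intro _ _ _))

theorem brS_R (S : Sound K o ok SE) (k : ℕ) {a b c x y z : T} {a' b' c' x' y' z' : P → ℝ}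
    (h1 : R ok SE a a') (h2 : R ok SE b b') (h3 : R ok SE c c') (h4 : R ok SE x x') (h5 : R ok SE y y') (h6 : R ok SE z z') :
    R ok SE (brS o k a b c x y z) (brS fO k a' b' c' x' y' z') := by
  unfold brS
  refine rlt (S.rsub (S.rnat 1) h3) fun _ _ q => ?_
  split
  · unfold br0 xyS; (repeat first | assumption | exact Sound.rnat S _ | apply Sound.radd S | apply Sound.rsub S | apply Sound.rmul S | apply Sound.rsmul S | apply Sound.rhm S | apply Sound.rinv S | apply Sound.rsqrt S | apply Sound.rsn S | apply Sound.rcs S | apply Sound.rat S | (refine rlt ?_ ?_ ; rotate_left ; intro _ _ _))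
  · unfold br1 xyS; (repeat first | assumption | exact Sound.rnat S _ | apply Sound.radd S | apply Sound.rsub S | apply Sound.rmul S | apply Sound.rsmul S | apply Sound.rhm S | apply Sound.rinv S | apply Sound.rsqrt S | apply Sound.rsn S | apply Sound.rcs S | apply Sound.rat S | (refine rlt ?_ ?_ ; rotate_left ; intro _ _ _))
  · unfold br2 xyS; (repeat first | assumption | exact Sound.rnat S _ | apply Sound.radd S | apply Sound.rsub S | apply Sound.rmul S | apply Sound.rsmul S | apply Sound.rhm S | apply Sound.rinv S | apply Sound.rsqrt S | apply Sound.rsn S | apply Sound.rcs S | apply Sound.rat S | (refine rlt ?_ ?_ ; rotate_left ; intro _ _ _))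
  · unfold brM; (repeat first | assumption | exact Sound.rnat S _ | apply Sound.radd S | apply Sound.rsub S | apply Sound.rmul S | apply Sound.rsmul S | apply Sound.rhm S | apply Sound.rinv S | apply Sound.rsqrt S | apply Sound.rsn S | apply Sound.rcs S | apply Sound.rat S | (refine rlt ?_ ?_ ; rotate_left ; intro _ _ _))

theorem FG_R (S : Sound K o ok SE) (k : ℕ) {a b c u v w sa sb sc D2 x x2 y y2 z z2 : T}
    {a' b' c' u' v' w' sa' sb' sc' D2' x' x2' y' y2' z' z2' : P → ℝ} (h1 : R ok SE a a') (h2 : R ok SE b b')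
    (h3 : R ok SE c c') (j1 : R ok SE u u') (j2 : R ok SE v v') (j3 : R ok SE w w') (k1 : R ok SE sa sa') (k2 : R ok SE sb sb')
    (k3 : R ok SE sc sc') (k4 : R ok SE D2 D2')
    (h4 : R ok SE x x') (h5 : R ok SE x2 x2') (h6 : R ok SE y y') (h7 : R ok SE y2 y2') (h8 : R ok SE z z') (h9 : R ok SE z2 z2') :
    R ok SE (FG o k a b c u v w sa sb sc D2 x x2 y y2 z z2)
      (FG fO k a' b' c' u' v' w' sa' sb' sc' D2' x' x2' y' y2' z' z2') := by
  unfold FG fin_
  refine rlt (S.rmul k1 j1) fun _ _ q1 => rlt (S.rmul k2 j2) fun _ _ q2 =>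
    rlt (S.rmul k3 j3) fun _ _ q3 => ?_
  exact S.radd (S.radd (S.rsmul _ (brS_R S k h1 h2 h3 h4 h6 h8)) (S.rsmul _ k4))
    (S.radd (S.rsmul _ (hsS_R S _ q1 q2 q3 h4 h5 h6 h7 h8 h9))
      (rkS_R S h1 h2 h3 k1 k2 k3 h4 h5 h6 h7 h8 h9))

theorem sasK_R (S : Sound K o ok SE) (k : ℕ) {a b u v w sa sb sc p q p2 q2 g ka : T}
    {a' b' u' v' w' sa' sb' sc' p' q' p2' q2' g' ka' : P → ℝ} (h1 : R ok SE a a') (h2 : R ok SE b b')
    (j1 : R ok SE u u') (j2 : R ok SE v v') (j3 : R ok SE w w') (k1 : R ok SE sa sa') (k2 : R ok SE sb sb')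
    (k3 : R ok SE sc sc') (l1 : R ok SE p p') (l2 : R ok SE q q') (l3 : R ok SE p2 p2') (l4 : R ok SE q2 q2') (l5 : R ok SE g g')
    (l6 : R ok SE ka ka') :
    R ok SE (sasK o k a b u v w sa sb sc p q p2 q2 g ka)
      (sasK fO k a' b' u' v' w' sa' sb' sc' p' q' p2' q2' g' ka') := by
  unfold sasK
  refine rlt (S.rinv k3) fun _ _ q1 => ?_
  refine rlt (S.rsmul 2 (S.rat (S.rmul l1 (S.rinv (S.radd k3 l2))))) fun _ _ q2 => ?_
  refine rlt (S.rsmul 2 (S.rat (S.rmul l3 (S.rinv (S.radd k3 l4))))) fun _ _ q3 => ?_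
  refine rlt (S.rsmul 2 (S.rat (S.rmul k3 (S.rinv (S.radd (S.rnat 1) j3))))) fun _ _ q4 => ?_
  refine rlt (S.rmul k1 l3) fun _ _ q5 => ?_
  exact FG_R S k h1 h2 q4 j1 j2 j3 k1 k2 k3 (S.rmul q5 q5) q2 (S.rmul l2 q1) q3 (S.rmul l4 q1)
    l5 l6

theorem FsG_R (S : Sound K o ok SE) (k : ℕ) {a b g : T} {a' b' g' : P → ℝ} (h1 : R ok SE a a')
    (h2 : R ok SE b b') (h3 : R ok SE g g') : R ok SE (FsG o k a b g) (FsG fO k a' b' g') := by
  unfold FsG
  refine rlt (S.rcs h1) fun _ _ u => rlt (S.rsn h1) fun _ _ sa => rlt (S.rcs h2) fun _ _ v =>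
    rlt (S.rsn h2) fun _ _ sb => rlt (S.rcs h3) fun _ _ ka => rlt (S.rsn h3) fun _ _ si => ?_
  refine rlt (S.rmul sa v) fun _ _ sav => rlt (S.rmul sb u) fun _ _ sbu => ?_
  refine rlt (S.rsub (S.rmul u v) (S.rmul (S.rmul sa sb) ka)) fun _ _ w => ?_
  refine rlt (S.rmul sa si) fun _ _ p => rlt (S.radd sbu (S.rmul sav ka)) fun _ _ q => ?_
  refine rlt (S.rmul sb si) fun _ _ p2 => rlt (S.radd sav (S.rmul sbu ka)) fun _ _ q2 => ?_
  refine rlt (S.rsqrt (S.radd (S.rmul p p) (S.rmul q q))) fun _ _ sc => ?_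
  exact sasK_R S k h1 h2 u v w sa sb sc p q p2 q2 h3 ka

theorem core_R (S : Sound K o ok SE) (k : ℕ) {rho t ka si g : T} {rho' t' ka' si' g' : P → ℝ}
    (h1 : R ok SE rho rho') (h2 : R ok SE t t') (h3 : R ok SE ka ka') (h4 : R ok SE si si') (h5 : R ok SE g g') :
    R ok SE (core o k rho t ka si g) (core fO k rho' t' ka' si' g') := by
  unfold core
  refine rlt (S.rmul h2 h2) fun _ _ t2 => rlt (S.rmul (S.rmul h1 h1) t2) fun _ _ r2 => ?_
  refine rlt (S.rinv (S.radd (S.rnat 1) r2)) fun _ _ ia =>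
    rlt (S.rinv (S.radd (S.rnat 1) t2)) fun _ _ ib => ?_
  refine rlt (S.rmul (S.rsub (S.rnat 1) r2) ia) fun _ _ u =>
    rlt (S.rmul (S.rsub (S.rnat 1) t2) ib) fun _ _ v => ?_
  refine rlt (S.rsmul 2 (S.rmul h1 ia)) fun _ _ sap => rlt (S.rsmul 2 ib) fun _ _ sbp => ?_
  refine rlt (S.rmul sap v) fun _ _ sav => rlt (S.rmul sbp u) fun _ _ sbu => ?_
  refine rlt (S.rmul sap h4) fun _ _ p => rlt (S.radd sbu (S.rmul sav h3)) fun _ _ q => ?_
  refine rlt (S.rmul sbp h4) fun _ _ p2 => rlt (S.radd sav (S.rmul sbu h3)) fun _ _ q2 => ?_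
  refine rlt (S.rsqrt (S.radd (S.rmul p p) (S.rmul q q))) fun _ _ scp => ?_
  refine rlt (S.rinv scp) fun _ _ isc => ?_
  refine rlt (S.rsmul 2 (S.rat (S.rmul p (S.rinv (S.radd scp q))))) fun _ _ X => ?_
  refine rlt (S.rsmul 2 (S.rat (S.rmul p2 (S.rinv (S.radd scp q2))))) fun _ _ Y => ?_
  refine rlt (S.rsub (S.rmul u v) (S.rmul t2 (S.rmul (S.rmul sap sbp) h3))) fun _ _ w => ?_
  refine rlt (S.rmul h2 scp) fun _ _ sc => ?_
  refine rlt (S.rsmul 2 (S.rat (S.rmul sc (S.rinv (S.radd (S.rnat 1) w))))) fun _ _ c => ?_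
  refine rlt (S.rmul h2 sap) fun _ _ sa => rlt (S.rmul h2 sbp) fun _ _ sb => ?_
  refine rlt (S.rmul (S.rmul sa sb) h4) fun _ _ Dr => ?_
  refine rlt (E := R ok SE) ?_ fun _ _ cz => ?_
  · split
    · exact S.rsub (S.rnat 0) h3
    · exact h3
  · exact FG_R S k (S.rsmul 2 (S.rat (S.rmul h1 h2))) (S.rsmul 2 (S.rat h2)) c u v w sa sb sc
      (S.rmul Dr Dr) X (S.rmul q isc) Y (S.rmul q2 isc) h5 cz

theorem F1t_R (S : Sound K o ok SE) (k : ℕ) {a b g : T} {a' b' g' : P → ℝ} (h1 : R ok SE a a')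
    (h2 : R ok SE b b') (h3 : R ok SE g g') : R ok SE (F1t o k a b g) (F1t fO k a' b' g') := by
  unfold F1t
  exact core_R S k h1 h2 (S.rcs h3) (S.rsn h3) h3

theorem F0t_R (S : Sound K o ok SE) {a b g : T} {a' b' g' : P → ℝ} (h1 : R ok SE a a')
    (h2 : R ok SE b b') (h3 : R ok SE g g') : R ok SE (F0t o a b g) (F0t fO a' b' g') := by
  unfold F0t
  refine rlt (S.rmul (S.rmul h3 h1) (S.rsub (S.rnat 1) (S.rmul h2 h2))) fun _ _ kz => ?_
  refine rlt (S.rsqrt (S.rsub (S.rnat 4) (S.rmul kz kz))) fun _ _ sz => ?_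
  refine rlt (S.rsub (S.rnat 1) (S.rsmul 2 (S.rat (S.rmul kz (S.rinv (S.radd (S.rnat 2) sz))))))
    fun _ _ Z => ?_
  refine rlt (S.rinv (S.rnat 2)) fun _ _ hf => ?_
  exact core_R S 0 h1 h2 (S.rsub (S.rnat 0) (S.rmul hf kz)) (S.rmul hf sz) Z

theorem Fc3_R (S : Sound K o ok SE) {a b g : T} {a' b' g' : P → ℝ} (h1 : R ok SE a a')
    (h2 : R ok SE b b') (h3 : R ok SE g g') : R ok SE (Fc3 o a b g) (Fc3 fO a' b' g') := by
  unfold Fc3
  refine rlt (S.rcs h1) fun _ _ u => rlt (S.rsn h1) fun _ _ sa => rlt (S.rcs h2) fun _ _ ka =>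
    rlt (S.rsn h2) fun _ _ si => ?_
  refine rlt (S.rmul ka sa) fun _ _ y => rlt (S.radd u h3) fun _ _ un => ?_
  refine rlt (S.rsqrt (S.radd (S.rmul un un) (S.rmul y y))) fun _ _ R => rlt (S.rinv R) fun _ _ iR => ?_
  refine rlt (S.rmul y iR) fun _ _ v => rlt (S.rmul un iR) fun _ _ sb => ?_
  refine rlt (S.rsub (S.rnat 1) (S.rsmul 2 (S.rat (S.rmul y (S.rinv (S.radd un R)))))) fun _ _ b => ?_
  refine rlt (S.rmul h3 v) fun _ _ w => ?_
  refine rlt (S.rmul sa si) fun _ _ p => rlt (S.radd (S.rmul u sb) (S.rmul y v)) fun _ _ q => ?_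
  refine rlt (S.rmul sb si) fun _ _ p2 =>
    rlt (S.radd (S.rmul v sa) (S.rmul (S.rmul u sb) ka)) fun _ _ q2 => ?_
  refine rlt (S.rsqrt (S.rsub (S.rnat 1) (S.rmul w w))) fun _ _ sc => rlt (S.rinv sc) fun _ _ isc => ?_
  refine rlt (S.rsmul 2 (S.rat (S.rmul p (S.rinv (S.radd sc q))))) fun _ _ X => ?_
  refine rlt (S.rsmul 2 (S.rat (S.rmul p2 (S.rinv (S.radd sc q2))))) fun _ _ Y => ?_
  refine rlt (S.rsub (S.rnat 1) (S.rsmul 2 (S.rat (S.rmul w (S.rinv (S.radd (S.rnat 1) sc)))))) fun _ _ c => ?_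
  refine rlt (S.rmul sa p2) fun _ _ Dr => ?_
  exact FG_R S 3 h1 b c u v w sa sb sc (S.rmul Dr Dr) X (S.rmul q isc) Y (S.rmul q2 isc) h2 ka

theorem FsdK_R (S : Sound K o ok SE) (k : ℕ) {al be de u v w sa sb sc : T}
    {al' be' de' u' v' w' sa' sb' sc' : P → ℝ} (h1 : R ok SE al al') (h2 : R ok SE be be') (h3 : R ok SE de de')
    (u1 : R ok SE u u') (v1 : R ok SE v v') (w1 : R ok SE w w') (s1 : R ok SE sa sa') (s2 : R ok SE sb sb') (s3 : R ok SE sc sc') :
    R ok SE (FsdK o k al be de u v w sa sb sc) (FsdK fO k al' be' de' u' v' w' sa' sb' sc') := by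
  unfold FsdK
  refine rlt (S.rmul u1 v1) fun _ _ uv => rlt (S.rmul v1 w1) fun _ _ vw =>
    rlt (S.rmul w1 u1) fun _ _ wu => ?_
  refine rlt (S.rsub (S.rsub (S.rsub (S.rnat 1) (S.rmul u1 u1)) (S.rmul v1 v1)) (S.rmul w1 w1))
    fun _ _ G0 => ?_
  refine rlt (S.rsmul 2 (S.rmul uv w1)) fun _ _ e => ?_
  refine rlt (E := R ok SE) ?_ fun _ _ D2 => ?_
  · split
    · exact S.radd G0 e
    · exact S.rsub G0 e
  refine rlt (S.rsqrt D2) fun _ _ Dr => ?_
  refine rlt (E := R ok SE) ?_ fun _ _ nx => ?_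
  · split
    · exact S.rsub u1 vw
    · exact S.radd u1 vw
  refine rlt (E := R ok SE) ?_ fun _ _ ny => ?_
  · split
    · exact S.rsub v1 wu
    · exact S.radd v1 wu
  refine rlt (E := R ok SE) ?_ fun _ _ nz => ?_
  · split
    · exact S.rsub w1 uv
    · exact S.radd w1 uv
  refine rlt (S.rmul s1 s2) fun _ _ ab => rlt (S.rmul s2 s3) fun _ _ bc =>
    rlt (S.rmul s3 s1) fun _ _ ca => ?_
  exact FG_R S k (S.rsub (S.rnat 1) h1) (S.rsub (S.rnat 1) h2) (S.rsub (S.rnat 1) h3)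
    u1 v1 w1 s1 s2 s3 D2
    (S.rsmul 2 (S.rat (S.rmul Dr (S.rinv (S.radd bc nx))))) (S.rmul nx (S.rinv bc))
    (S.rsmul 2 (S.rat (S.rmul Dr (S.rinv (S.radd ca ny))))) (S.rmul ny (S.rinv ca))
    (S.rsmul 2 (S.rat (S.rmul Dr (S.rinv (S.radd ab nz))))) (S.rmul nz (S.rinv ab))

theorem Fsd_R (S : Sound K o ok SE) (k : ℕ) {a b g : T} {a' b' g' : P → ℝ} (h1 : R ok SE a a')
    (h2 : R ok SE b b') (h3 : R ok SE g g') : R ok SE (Fsd o k a b g) (Fsd fO k a' b' g') := by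
  unfold Fsd
  exact FsdK_R S k h1 h2 h3 (S.rsn h1) (S.rsn h2) (S.rsn h3) (S.rcs h1) (S.rcs h2) (S.rcs h3)

theorem Fon_R (S : Sound K o ok SE) {a b g : T} {a' b' g' : P → ℝ} (h1 : R ok SE a a')
    (h2 : R ok SE b b') (h3 : R ok SE g g') : R ok SE (Fon o a b g) (Fon fO a' b' g') := by
  unfold Fon
  exact Fsd_R S 0 (S.radd h1 h2) h2 (S.rmul h2 h3)

end F

end H41FT
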