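import Pool.Agent.H41.FT.TMe
import Mathlib.Analysis.Real.Pi.Bounds

/-!
# Scalar intervals: arithmetic
-/

namespace H41FT

theorem nrm_mem {num den R SN : ℕ} {E t : ℝ} (hSN : 0 < SN)
    (h : (num : ℝ) - den = E + BB * SN) (ht : |t - E / SN| ≤ (R : ℝ) / SN) :
    |t - vl (nrm num den R SN).c| ≤ (nrm num den R SN).r := by
  unfold nrm
  simp only [Nat.sub_eq, Nat.add_eq]
  change |t - vl ((num - den) / SN)| ≤ ((((R + (den - num)) / SN + 2 : ℕ)) : ℝ)
  have hSr : (0 : ℝ) < SN := by exact_mod_cast hSN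
  have h5 : (E + BB * SN) / SN = E / SN + BB := by field_simp
  have d1 := div_ge (R + (den - num)) SN hSN
  push_cast
  rcases le_total den num with hle | hle
  · have h2 : (((num - den : ℕ)) : ℝ) = E + BB * SN := by rw [Nat.cast_sub hle]; linarith
    have h3 := div_ge (num - den) SN hSN
    have h4 := div_le' (num - den) SN
    rw [h2, h5] at h3 h4
    have d2 : (R : ℝ) / SN ≤ (((R + (den - num) : ℕ)) : ℝ) / SN := by
      apply div_le_div_of_nonneg_right _ hSr.le
      push_cast; linarith [(Nat.cast_nonneg (den - num) : (0 : ℝ) ≤ ((den - num : ℕ) : ℝ))]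
    unfold vl
    rw [abs_le] at ht ⊢
    constructor <;> linarith [ht.1, ht.2]
  · have h2 : (((den - num : ℕ)) : ℝ) = -(E + BB * SN) := by rw [Nat.cast_sub hle]; linarith
    have h0 : num - den = 0 := Nat.sub_eq_zero_of_le hle
    rw [h0, Nat.zero_div]
    have d2 : (R : ℝ) / SN + (((den - num : ℕ)) : ℝ) / SN ≤ (((R + (den - num) : ℕ)) : ℝ) / SN := by
      rw [← add_div]; push_cast; exact le_rfl
    have d3 : (((den - num : ℕ)) : ℝ) / SN = -(E / SN + BB) := by
      rw [h2, neg_div, h5]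
    have d4 : 0 ≤ (((den - num : ℕ)) : ℝ) / SN := by positivity
    rw [d3] at d2 d4
    unfold vl
    push_cast
    rw [abs_le] at ht ⊢
    constructor <;> linarith [ht.1, ht.2]

theorem mulD_mem {m : ℕ} {x y : Iv} {s t : ℝ} (hm : 0 < m) (hx : x.mem s) (hy : y.mem t) :
    (mulD m x y).mem (s * t / m) := by
  unfold Iv.mem at hx hy ⊢
  have hS := SS_pos
  have hmr : (0 : ℝ) < m := by exact_mod_cast hm
  refine nrm_mem (E := vl x.c * vl y.c) (Nat.mul_pos hm SS_pos') ?_ ?_
  · simp only [Nat.add_eq, Nat.mul_eq]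
    push_cast; unfold vl; ring
  · have e1 : s * t / m * SS - vl x.c * vl y.c / ((Nat.mul m SS : ℕ) : ℝ) =
        (vl x.c * (t * SS - vl y.c) + (s * SS - vl x.c) * (vl y.c + (t * SS - vl y.c))) /
          (m * SS) := by
      rw [Nat.mul_eq]; push_cast
      field_simp; ring
    rw [e1, abs_div, abs_of_pos (by positivity : (0 : ℝ) < m * SS)]
    simp only [Nat.add_eq, Nat.mul_eq]
    push_cast
    rw [ab_spec, ab_spec]
    apply div_le_div_of_nonneg_right _ (by positivity)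
    refine (abs_add_le _ _).trans (add_le_add ?_ ?_)
    · rw [abs_mul]; exact mul_le_mul_of_nonneg_left hy (abs_nonneg _)
    · rw [abs_mul]
      exact mul_le_mul hx ((abs_add_le _ _).trans (add_le_add le_rfl hy)) (abs_nonneg _)
        (Nat.cast_nonneg _)

theorem ngI_mem {x : Iv} {t : ℝ} (hx : x.mem t) : (ngI x).mem (-t) := by
  unfold Iv.mem ngI at *
  simp only
  unfold ng
  simp only [Nat.add_eq, Nat.sub_eq]
  push_cast
  unfold vl at *
  rw [abs_le] at hx ⊢
  rcases le_total x.c (BB + BB) with h | h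
  · have h0 : x.c - (BB + BB) = 0 := Nat.sub_eq_zero_of_le h
    rw [h0, Nat.cast_sub h]
    push_cast
    constructor <;> linarith [hx.1, hx.2]
  · have h0 : BB + BB - x.c = 0 := Nat.sub_eq_zero_of_le h
    have h' : (BB : ℝ) + BB ≤ x.c := by exact_mod_cast h
    rw [h0, Nat.cast_sub h]
    push_cast
    constructor <;> linarith [hx.1, hx.2]

theorem pi_lb : 3.14159265358979323846 < Real.pi := Real.pi_gt_d20
theorem pi_ub : Real.pi < 3.14159265358979323847 := Real.pi_lt_d20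

theorem HP_spec : |Real.pi / 2 * SS - HP| ≤ 1 := by
  have h1 := pi_lb
  have h2 := pi_ub
  unfold SS HP
  rw [abs_le]; constructor <;> norm_num at * <;> linarith

theorem hpI_mem : hpI.mem (Real.pi / 2) := by
  unfold Iv.mem hpI
  simp only
  rw [vl_BB_add]
  exact_mod_cast HP_spec

theorem IP_spec : |2 / Real.pi * SS - IP| ≤ 1 := by
  have h1 := pi_lb
  have h2 := pi_ub
  have h0 := Real.pi_pos
  unfold SS IP
  rw [abs_le, div_mul_eq_mul_div]
  constructor
  · rw [neg_le_sub_iff_le_add, div_add' _ _ _ h0.ne', le_div_iff₀ h0]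
    norm_num at *; linarith
  · rw [sub_le_iff_le_add, div_le_iff₀ h0]
    norm_num at *; linarith

theorem ipI_mem : ipI.mem (2 / Real.pi) := by
  unfold Iv.mem ipI
  simp only
  rw [vl_BB_add]
  exact_mod_cast IP_spec

theorem pp_spec {c : ℕ} (h : 0 ≤ vl c) : ((pp c : ℕ) : ℝ) = vl c := by
  unfold pp vl at *
  have h' : BB ≤ c := by
    have : (BB : ℝ) ≤ c := by linarith
    exact_mod_cast this
  rw [Nat.sub_eq, Nat.cast_sub h']

theorem inI_mem {c : ℕ} (h : 0 < vl c) : (inI c).mem ((vl c / SS)⁻¹) := by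
  unfold Iv.mem inI
  simp only
  rw [vl_BB_add]
  have hS := SS_pos
  have hp := pp_spec h.le
  have hpos : 0 < pp c := by
    have : (0 : ℝ) < (pp c : ℕ) := by rw [hp]; exact h
    exact_mod_cast this
  have e : (vl c / SS)⁻¹ * SS = (SQ : ℝ) / (pp c : ℕ) := by
    rw [hp, SQ_eq]; field_simp
  rw [e]
  have h1 := div_ge SQ (pp c) hpos
  have h2 := div_le' SQ (pp c)
  change |(SQ : ℝ) / (pp c : ℕ) - ((SQ / pp c : ℕ) : ℝ)| ≤ ((1 : ℕ) : ℝ)
  rw [abs_le]; push_cast; constructor <;> linarith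

theorem iqI_mem (c : ℕ) : (iqI c).mem ((1 + (vl c / SS) * (vl c / SS))⁻¹) := by
  unfold Iv.mem iqI
  simp only
  rw [vl_BB_add]
  have hS := SS_pos
  have hpos : 0 < SQ + ab c * ab c := by unfold SQ; positivity
  have e : (1 + (vl c / SS) * (vl c / SS))⁻¹ * SS =
      ((SQ * SS : ℕ) : ℝ) / ((SQ + ab c * ab c : ℕ) : ℝ) := by
    push_cast
    rw [ab_spec, abs_mul_abs_self, SQ_eq]
    have : (0 : ℝ) < SS * SS + vl c * vl c := by nlinarith [mul_self_nonneg (vl c)]
    field_simp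
  rw [e]
  have h1 := div_ge (SQ * SS) (SQ + ab c * ab c) hpos
  have h2 := div_le' (SQ * SS) (SQ + ab c * ab c)
  change |((SQ * SS : ℕ) : ℝ) / ((SQ + ab c * ab c : ℕ) : ℝ) -
    (((SQ * SS) / (SQ + ab c * ab c) : ℕ) : ℝ)| ≤ ((1 : ℕ) : ℝ)
  rw [abs_le]; push_cast at *; constructor <;> linarith

theorem nwt_pos {N y : ℕ} (hN : 0 < N) (hy : 0 < y) : 0 < nwt N y := by
  unfold nwt
  change 0 < (y + N / y) / 2
  rcases le_or_gt y N with h | h
  · have : 1 ≤ N / y := Nat.one_le_iff_ne_zero.2 (Nat.div_pos h hy).ne'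
    exact Nat.div_pos (by omega) (by norm_num)
  · have := Nat.zero_le (N / y)
    exact Nat.div_pos (by omega) (by norm_num)

theorem sqN_pos {N : ℕ} (hN : 0 < N) : 0 < sqN N := by
  unfold sqN
  have h0 : 0 < Nat.pow 2 (Nat.succ (Nat.div (Nat.log2 N) 2)) := Nat.pow_pos (by norm_num)
  exact nwt_pos hN (nwt_pos hN (nwt_pos hN (nwt_pos hN (nwt_pos hN (nwt_pos hN h0)))))

theorem sq_core {N y : ℕ} (hy : 0 < y) : |√(N : ℝ) - y| ≤ (sqE N y : ℕ) := by
  unfold sqE
  simp only [Nat.sub_eq, Nat.mul_eq, Nat.add_eq]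
  change _ ≤ (((((N - y * y) + (y * y - N)) / y + 2 : ℕ)) : ℝ)
  have hyr : (0 : ℝ) < y := by exact_mod_cast hy
  have hN : (0 : ℝ) ≤ N := Nat.cast_nonneg _
  have hs := Real.sqrt_nonneg (N : ℝ)
  have e : ((((N - y * y) + (y * y - N) : ℕ)) : ℝ) = |(N : ℝ) - y * y| := by
    rcases le_total N (y * y) with h | h
    · have h' : (N : ℝ) ≤ y * y := by exact_mod_cast h
      rw [Nat.sub_eq_zero_of_le h, zero_add, Nat.cast_sub h, abs_of_nonpos (by linarith)]
      push_cast; ring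
    · have h' : (y : ℝ) * y ≤ N := by exact_mod_cast h
      rw [Nat.sub_eq_zero_of_le h, add_zero, Nat.cast_sub h, abs_of_nonneg (by linarith)]
      push_cast; ring
  have h1 := div_ge ((N - y * y) + (y * y - N)) y hy
  rw [e] at h1
  have h2 : |√(N : ℝ) - y| * y ≤ |(N : ℝ) - y * y| := by
    have e2 : (N : ℝ) - y * y = (√(N : ℝ) - y) * (√(N : ℝ) + y) := by
      have h3 := Real.mul_self_sqrt hN
      linear_combination -h3
    rw [e2, abs_mul]
    refine mul_le_mul_of_nonneg_left ?_ (abs_nonneg _)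
    rw [abs_of_nonneg (by positivity)]; linarith
  have h3 : |√(N : ℝ) - y| ≤ |(N : ℝ) - y * y| / y := by rwa [le_div_iff₀ hyr]
  push_cast at *
  linarith

theorem sqI_mem {c : ℕ} (h : 0 < vl c) : (sqI c).mem (√(vl c / SS)) := by
  unfold Iv.mem sqI
  simp only
  rw [vl_BB_add]
  have hS := SS_pos
  have hp := pp_spec h.le
  have hpos : 0 < pp c := by
    have : (0 : ℝ) < (pp c : ℕ) := by rw [hp]; exact h
    exact_mod_cast this
  have e : √(vl c / SS) * SS = √(((Nat.mul (pp c) SS : ℕ)) : ℝ) := by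
    rw [Nat.mul_eq]; push_cast; rw [hp]
    rw [Real.sqrt_div' _ hS.le, Real.sqrt_mul h.le]
    have := Real.mul_self_sqrt hS.le
    have h2 : √(SS : ℝ) ≠ 0 := (Real.sqrt_pos.2 hS).ne'
    field_simp
    rw [sq, this]
  rw [e]
  exact sq_core (sqN_pos (Nat.mul_pos hpos SS_pos'))

end H41FT
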