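import Pool.Agent.H41.FT.Sc1
import Mathlib.Analysis.Complex.Exponential

/-!
# Scalar intervals: sine and cosine
-/

namespace H41FT

open Finset

/-- partial sum of the cosine series -/
noncomputable def cps (w : ℝ) : ℝ := ∑ k ∈ range 12, (-1) ^ k * w ^ k / ((2 * k).factorial : ℝ)
/-- partial sum of the series `sin z / z` -/
noncomputable def sps (w : ℝ) : ℝ := ∑ k ∈ range 12, (-1) ^ k * w ^ k / ((2 * k + 1).factorial : ℝ)

theorem exp_partial (z : ℝ) : ∑ m ∈ range 24, ((z : ℂ) * Complex.I) ^ m / (m.factorial : ℂ) =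
    ((cps (z ^ 2) : ℝ) : ℂ) + ((z * sps (z ^ 2) : ℝ) : ℂ) * Complex.I := by
  have hI : ∀ k : ℕ, (Complex.I) ^ (2 * k) = (-1) ^ k := by
    intro k; rw [pow_mul, Complex.I_sq]
  have hI1 : ∀ k : ℕ, (Complex.I) ^ (2 * k + 1) = (-1) ^ k * Complex.I := by
    intro k; rw [pow_succ, hI]
  have e : ∑ m ∈ range 24, ((z : ℂ) * Complex.I) ^ m / (m.factorial : ℂ) =
      ∑ k ∈ range 12, (((z : ℂ) * Complex.I) ^ (2 * k) / ((2 * k).factorial : ℂ) +
        ((z : ℂ) * Complex.I) ^ (2 * k + 1) / ((2 * k + 1).factorial : ℂ)) := by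
    simp only [sum_range_succ, sum_range_zero]
    ring
  rw [e, sum_add_distrib]
  congr 1
  · unfold cps
    push_cast
    refine sum_congr rfl fun k _ => ?_
    rw [mul_pow, hI, pow_mul]
    ring
  · unfold sps
    push_cast
    rw [mul_sum, sum_mul]
    refine sum_congr rfl fun k _ => ?_
    rw [mul_pow, hI1, pow_succ, pow_mul]
    ring

theorem sc_bound {z : ℝ} (hz : |z| ≤ 2) :
    |Real.cos z - cps (z ^ 2)| ≤ 1 / 10 ^ 16 ∧ |Real.sin z - z * sps (z ^ 2)| ≤ 1 / 10 ^ 16 := by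
  have hn : ‖(z : ℂ) * Complex.I‖ = |z| := by simp
  have h := Complex.exp_bound' (x := (z : ℂ) * Complex.I) (n := 24) (by
    rw [hn, Nat.succ_eq_add_one]; push_cast
    have : |z| / (24 + 1) ≤ 2 / (24 + 1) := div_le_div_of_nonneg_right hz (by norm_num)
    linarith [this, (by norm_num : (2 : ℝ) / (24 + 1) ≤ 1 / 2)])
  rw [exp_partial, hn, Complex.exp_mul_I] at h
  have hb : |z| ^ 24 / ((24).factorial : ℝ) * 2 ≤ 1 / 10 ^ 16 := by
    have h1 : |z| ^ 24 ≤ 2 ^ 24 := pow_le_pow_left₀ (abs_nonneg _) hz 24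
    have h2 : ((24).factorial : ℝ) = 620448401733239439360000 := by norm_num [Nat.factorial]
    rw [h2, div_mul_eq_mul_div, div_le_iff₀ (by norm_num)]
    nlinarith
  have e : Complex.cos z + Complex.sin z * Complex.I - (((cps (z ^ 2) : ℝ) : ℂ) +
      ((z * sps (z ^ 2) : ℝ) : ℂ) * Complex.I) =
      ((Real.cos z - cps (z ^ 2) : ℝ) : ℂ) + ((Real.sin z - z * sps (z ^ 2) : ℝ) : ℂ) * Complex.I := by
    push_cast; ring
  rw [e] at h
  have h' := h.trans hb
  generalize Real.cos z - cps (z ^ 2) = u at h' ⊢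
  generalize Real.sin z - z * sps (z ^ 2) = v at h' ⊢
  constructor
  · refine le_trans ?_ ((Complex.abs_re_le_norm _).trans h')
    simp
  · refine le_trans ?_ ((Complex.abs_im_le_norm _).trans h')
    simp

/-- one Horner step -/
theorem stp_spec {W Q M : ℕ} {w p e m : ℝ} (hm : 2 ≤ m) (hM : (M : ℝ) = m * SS)
    (hW : |W - SS * w| ≤ 8) (hw : w ≤ 2.48) (hp0 : 0 ≤ p) (hp1 : p ≤ 1)
    (hQ : |Q - SS * p| ≤ e) {q : ℝ} (hq : 0 ≤ q) {d : ℝ}
    (hd : |1 - w * p / m - q| * SS ≤ d) :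
    |((stp W Q M : ℕ) : ℝ) - SS * q| ≤ 1 + d + (2.49 * e + 8) / m := by
  have hS := SS_pos
  have hS1 := SS_ge
  have hm0 : 0 < m := by linarith
  have he0 : 0 ≤ e := (abs_nonneg _).trans hQ
  have hMp : 0 < M := by
    have : (0 : ℝ) < M := by rw [hM]; positivity
    exact_mod_cast this
  have h1 := div_ge (W * Q) M hMp
  have h2 := div_le' (W * Q) M
  push_cast at h1 h2
  have hWb : (W : ℝ) ≤ 2.49 * SS := by
    rw [abs_le] at hW; nlinarith [hW.1, hW.2]
  have hW0 : (0 : ℝ) ≤ W := Nat.cast_nonneg _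
  have e1 : (W : ℝ) * Q / M - SS * (w * p / m) = (W * (Q - SS * p) + SS * p * (W - SS * w)) /
      (m * SS) := by
    rw [hM]; field_simp; ring
  have h3 : |(W : ℝ) * Q / M - SS * (w * p / m)| ≤ (2.49 * e + 8) / m := by
    rw [e1, abs_div, abs_of_pos (by positivity : (0 : ℝ) < m * SS), div_le_div_iff₀ (by positivity) hm0]
    have h4 : |(W : ℝ) * (Q - SS * p) + SS * p * (W - SS * w)| ≤ 2.49 * SS * e + SS * 1 * 8 := by
      refine (abs_add_le _ _).trans (add_le_add ?_ ?_)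
      · rw [abs_mul, abs_of_nonneg hW0]
        exact mul_le_mul hWb hQ (abs_nonneg _) (by positivity)
      · rw [abs_mul, abs_of_nonneg (by positivity)]
        exact mul_le_mul (mul_le_mul_of_nonneg_left hp1 hS.le) hW (abs_nonneg _) (by positivity)
    calc |(W : ℝ) * (Q - SS * p) + SS * p * (W - SS * w)| * m ≤ (2.49 * SS * e + SS * 1 * 8) * m :=
          mul_le_mul_of_nonneg_right h4 hm0.le
      _ = (2.49 * e + 8) * (m * SS) := by ring
  have hd' : |SS * (1 - w * p / m) - SS * q| ≤ d := by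
    rw [← mul_sub, abs_mul, abs_of_pos hS, mul_comm]; exact hd
  have hSq : (0 : ℝ) ≤ SS * q := by positivity
  unfold stp
  simp only [Nat.sub_eq, Nat.mul_eq]
  change |(((SS - W * Q / M : ℕ)) : ℝ) - SS * q| ≤ _
  rw [abs_le] at h3 hd'
  rcases le_total (W * Q / M) SS with h | h
  · rw [Nat.cast_sub h, abs_le]
    constructor <;> nlinarith [h3.1, h3.2, hd'.1, hd'.2]
  · rw [Nat.sub_eq_zero_of_le h]
    have h' : (SS : ℝ) ≤ ((W * Q / M : ℕ) : ℝ) := by exact_mod_cast h
    push_cast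
    rw [zero_sub, abs_neg, abs_of_nonneg hSq]
    nlinarith [h3.1, h3.2, hd'.1, hd'.2]

/-- standard step -/
theorem stp_std {W Q M : ℕ} {w p m : ℝ} (hm : 12 ≤ m) (hM : (M : ℝ) = m * SS)
    (hW : |W - SS * w| ≤ 8) (hw0 : 0 ≤ w) (hw : w ≤ 2.48)
    (h : (0 ≤ p ∧ p ≤ 1) ∧ |Q - SS * p| ≤ 2.2) :
    (0 ≤ 1 - w * p / m ∧ 1 - w * p / m ≤ 1) ∧ |((stp W Q M : ℕ) : ℝ) - SS * (1 - w * p / m)| ≤ 2.2 := by
  obtain ⟨⟨hp0, hp1⟩, hQ⟩ := h
  have hm0 : 0 < m := by linarith
  have h1 : 0 ≤ w * p / m := by positivity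
  have h2 : w * p / m ≤ 1 := by
    rw [div_le_one hm0]; nlinarith
  refine ⟨⟨by linarith, by linarith⟩, ?_⟩
  have := stp_spec (q := 1 - w * p / m) (d := 0) (by linarith) hM hW hw hp0 hp1 hQ
    (by linarith) (by simp)
  refine this.trans ?_
  have h3 : (2.49 * 2.2 + 8) / m ≤ (2.49 * 2.2 + 8) / 12 :=
    div_le_div_of_nonneg_left (by norm_num) (by norm_num) hm
  norm_num at h3 ⊢
  linarith

/-- initial value of the Horner chain -/
theorem init_std : ((0 : ℝ) ≤ 1 ∧ (1 : ℝ) ≤ 1) ∧ |((SS : ℕ) : ℝ) - SS * 1| ≤ 2.2 := by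
  refine ⟨⟨by norm_num, le_rfl⟩, ?_⟩
  simp
  norm_num

theorem cps_eq (w : ℝ) : cps w = 1 - w * (1 - w * (1 - w * (1 - w * (1 - w * (1 - w * (1 - w * (1 - w * (1 - w * (1 - w * (1 - w * 1 / 462) / 380) / 306) / 240) / 182) / 132) / 90) / 56) / 30) / 12) / 2 := by
  unfold cps
  simp only [sum_range_succ, sum_range_zero, Nat.factorial]
  push_cast
  ring

theorem sps_eq (w : ℝ) : sps w = 1 - w * (1 - w * (1 - w * (1 - w * (1 - w * (1 - w * (1 - w * (1 - w * (1 - w * (1 - w * (1 - w * 1 / 506) / 420) / 342) / 272) / 210) / 156) / 110) / 72) / 42) / 20) / 6 := by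
  unfold sps
  simp only [sum_range_succ, sum_range_zero, Nat.factorial]
  push_cast
  ring

/-- Horner evaluation of the cosine -/
theorem cosW_spec {W : ℕ} {w : ℝ} (hW : |W - SS * w| ≤ 8) (hw0 : 0 ≤ w) (hw : w ≤ 2.48)
    (hc : 0 ≤ Real.cos (√w)) : |((cosW W : ℕ) : ℝ) - SS * Real.cos (√w)| ≤ 9 := by
  have hS := SS_pos
  have hz : |√w| ≤ 2 := by
    rw [abs_of_nonneg (Real.sqrt_nonneg w), Real.sqrt_le_left (by norm_num)]; linarith
  have hser := (sc_bound hz).1
  rw [Real.sq_sqrt hw0, cps_eq] at hser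
  have c11 := stp_std (M := 130041439240323072) (m := 462) (by norm_num) (by unfold SS; norm_num) hW hw0 hw init_std
  have c10 := stp_std (M := 106960491150049280) (m := 380) (by norm_num) (by unfold SS; norm_num) hW hw0 hw c11
  have c9 := stp_std (M := 86131342873460736) (m := 306) (by norm_num) (by unfold SS; norm_num) hW hw0 hw c10
  have c8 := stp_std (M := 67553994410557440) (m := 240) (by norm_num) (by unfold SS; norm_num) hW hw0 hw c9
  have c7 := stp_std (M := 51228445761339392) (m := 182) (by norm_num) (by unfold SS; norm_num) hW hw0 hw c8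
  have c6 := stp_std (M := 37154696925806592) (m := 132) (by norm_num) (by unfold SS; norm_num) hW hw0 hw c7
  have c5 := stp_std (M := 25332747903959040) (m := 90) (by norm_num) (by unfold SS; norm_num) hW hw0 hw c6
  have c4 := stp_std (M := 15762598695796736) (m := 56) (by norm_num) (by unfold SS; norm_num) hW hw0 hw c5
  have c3 := stp_std (M := 8444249301319680) (m := 30) (by norm_num) (by unfold SS; norm_num) hW hw0 hw c4
  have c2 := stp_std (M := 3377699720527872) (m := 12) (by norm_num) (by unfold SS; norm_num) hW hw0 hw c3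
  have key := stp_spec (M := 562949953421312) (m := 2) (q := Real.cos (√w)) (d := 0.1) (by norm_num)
    (by unfold SS; norm_num) hW hw c2.1.1 c2.1.2 c2.2 hc (by
      rw [abs_sub_comm]
      calc _ ≤ 1 / 10 ^ 16 * (SS : ℝ) := mul_le_mul_of_nonneg_right hser hS.le
        _ ≤ 0.1 := by unfold SS; norm_num)
  refine key.trans ?_
  norm_num

/-- Horner evaluation of `sin z / z` -/
theorem sinW_spec {W : ℕ} {w : ℝ} (hW : |W - SS * w| ≤ 8) (hw0 : 0 ≤ w) (hw : w ≤ 2.48) :
    |((sinW W : ℕ) : ℝ) - SS * sps w| ≤ 3.5 ∧ 0 ≤ sps w ∧ sps w ≤ 1 := by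
  have hS := SS_pos
  have c11 := stp_std (M := 142426338215591936) (m := 506) (by norm_num) (by unfold SS; norm_num) hW hw0 hw init_std
  have c10 := stp_std (M := 118219490218475520) (m := 420) (by norm_num) (by unfold SS; norm_num) hW hw0 hw c11
  have c9 := stp_std (M := 96264442035044352) (m := 342) (by norm_num) (by unfold SS; norm_num) hW hw0 hw c10
  have c8 := stp_std (M := 76561193665298432) (m := 272) (by norm_num) (by unfold SS; norm_num) hW hw0 hw c9
  have c7 := stp_std (M := 59109745109237760) (m := 210) (by norm_num) (by unfold SS; norm_num) hW hw0 hw c8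
  have c6 := stp_std (M := 43910096366862336) (m := 156) (by norm_num) (by unfold SS; norm_num) hW hw0 hw c7
  have c5 := stp_std (M := 30962247438172160) (m := 110) (by norm_num) (by unfold SS; norm_num) hW hw0 hw c6
  have c4 := stp_std (M := 20266198323167232) (m := 72) (by norm_num) (by unfold SS; norm_num) hW hw0 hw c5
  have c3 := stp_std (M := 11821949021847552) (m := 42) (by norm_num) (by unfold SS; norm_num) hW hw0 hw c4
  have c2 := stp_std (M := 5629499534213120) (m := 20) (by norm_num) (by unfold SS; norm_num) hW hw0 hw c3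
  have h1 : 0 ≤ sps w ∧ sps w ≤ 1 := by
    rw [sps_eq]
    obtain ⟨⟨u1, u2⟩, -⟩ := c2
    generalize (1 - w * (1 - w * (1 - w * (1 - w * (1 - w * (1 - w * (1 - w * (1 - w * (1 - w * (1 - w * 1 / 506) / 420) / 342) / 272) / 210) / 156) / 110) / 72) / 42) / 20) = t at *
    have : 0 ≤ w * t := mul_nonneg hw0 u1
    have : w * t ≤ 2.48 := by nlinarith
    constructor <;> linarith
  refine ⟨?_, h1⟩
  have key := stp_spec (M := 1688849860263936) (m := 6) (q := sps w) (d := 0) (by norm_num)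
    (by unfold SS; norm_num) hW hw c2.1.1 c2.1.2 c2.2 h1.1 (by
      rw [sps_eq, sub_self, abs_zero, zero_mul])
  refine key.trans ?_
  norm_num

section angle

variable {V : ℕ} (hV : V ≤ SS)

theorem Z_spec (hV : V ≤ SS) : |((Nat.div (Nat.mul V HP) SS : ℕ) : ℝ) - SS * (Real.pi / 2 * (V / SS))| ≤ 2 := by
  have hS := SS_pos
  have h1 := div_ge (V * HP) SS SS_pos'
  have h2 := div_le' (V * HP) SS
  change |((V * HP / SS : ℕ) : ℝ) - SS * (Real.pi / 2 * (V / SS))| ≤ 2
  push_cast at h1 h2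
  have hV' : (V : ℝ) ≤ SS := by exact_mod_cast hV
  have hV0 : (0 : ℝ) ≤ V := Nat.cast_nonneg _
  have hv : 0 ≤ (V : ℝ) / SS := by positivity
  have hv1 : (V : ℝ) / SS ≤ 1 := by rw [div_le_one hS]; exact hV'
  have e : (V : ℝ) * HP / SS - SS * (Real.pi / 2 * (V / SS)) = -((V / SS) * (Real.pi / 2 * SS - HP)) := by
    field_simp; ring
  have h3 : |(V : ℝ) * HP / SS - SS * (Real.pi / 2 * (V / SS))| ≤ 1 := by
    rw [e, abs_neg, abs_mul, abs_of_nonneg hv]
    exact (mul_le_mul hv1 HP_spec (abs_nonneg _) (by norm_num)).trans (by norm_num)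
  rw [abs_le] at h3 ⊢
  constructor <;> linarith [h3.1, h3.2]

theorem ang_bd (hV : V ≤ SS) : 0 ≤ Real.pi / 2 * ((V : ℝ) / SS) ∧ Real.pi / 2 * ((V : ℝ) / SS) ≤ 1.5708 := by
  have hS := SS_pos
  have hV' : (V : ℝ) ≤ SS := by exact_mod_cast hV
  have hv : 0 ≤ (V : ℝ) / SS := by positivity
  have hv1 : (V : ℝ) / SS ≤ 1 := by rw [div_le_one hS]; exact hV'
  have := Real.pi_pos
  refine ⟨by positivity, ?_⟩
  have h2 := pi_ub
  nlinarith

theorem W_spec (hV : V ≤ SS) : |((Nat.div (Nat.mul (Nat.div (Nat.mul V HP) SS)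
    (Nat.div (Nat.mul V HP) SS)) SS : ℕ) : ℝ) - SS * (Real.pi / 2 * (V / SS)) ^ 2| ≤ 8 := by
  have hS := SS_pos
  have hS1 := SS_ge
  have hZ := Z_spec hV
  obtain ⟨hz0, hz1⟩ := ang_bd hV
  set Z := Nat.div (Nat.mul V HP) SS
  set z := Real.pi / 2 * ((V : ℝ) / SS)
  have h1 := div_ge (Z * Z) SS SS_pos'
  have h2 := div_le' (Z * Z) SS
  change |((Z * Z / SS : ℕ) : ℝ) - SS * z ^ 2| ≤ 8
  push_cast at h1 h2
  have e : (Z : ℝ) * Z / SS - SS * z ^ 2 = (Z - SS * z) * (2 * z + (Z - SS * z) / SS) := by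
    field_simp; ring
  have h3 : |(Z : ℝ) * Z / SS - SS * z ^ 2| ≤ 2 * 3.2 := by
    rw [e, abs_mul]
    refine mul_le_mul hZ ?_ (abs_nonneg _) (by norm_num)
    refine (abs_add_le _ _).trans ?_
    rw [abs_of_nonneg (by positivity), abs_div, abs_of_pos hS]
    have : |(Z : ℝ) - SS * z| / SS ≤ 0.01 := by
      rw [div_le_iff₀ hS]; linarith
    linarith
  rw [abs_le] at h3 ⊢
  constructor <;> linarith [h3.1, h3.2]

theorem cosN_spec (hV : V ≤ SS) : |((cosN V : ℕ) : ℝ) - SS * Real.cos (Real.pi / 2 * (V / SS))| ≤ 15 := by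
  obtain ⟨hz0, hz1⟩ := ang_bd hV
  have hW := W_spec hV
  have hpi : Real.pi / 2 * ((V : ℝ) / SS) ≤ Real.pi / 2 := by
    have hS := SS_pos
    have hV' : (V : ℝ) ≤ SS := by exact_mod_cast hV
    have hv1 : (V : ℝ) / SS ≤ 1 := by rw [div_le_one hS]; exact hV'
    have := Real.pi_pos
    nlinarith
  have hc : 0 ≤ Real.cos (Real.pi / 2 * (V / SS)) :=
    Real.cos_nonneg_of_neg_pi_div_two_le_of_le (by linarith [Real.pi_pos]) hpi
  have := cosW_spec hW (by positivity) (by nlinarith) (by rwa [Real.sqrt_sq hz0])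
  rw [Real.sqrt_sq hz0] at this
  unfold cosN
  linarith

theorem sinN_spec (hV : V ≤ SS) : |((sinN V : ℕ) : ℝ) - SS * Real.sin (Real.pi / 2 * (V / SS))| ≤ 15 := by
  have hS := SS_pos
  obtain ⟨hz0, hz1⟩ := ang_bd hV
  have hW := W_spec hV
  have hZ := Z_spec hV
  obtain ⟨hq, hq0, hq1⟩ := sinW_spec hW (by positivity) (by nlinarith)
  unfold sinN
  have hser := (sc_bound (z := Real.pi / 2 * (V / SS)) (by rw [abs_of_nonneg hz0]; linarith)).2
  set Z := Nat.div (Nat.mul V HP) SS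
  set z := Real.pi / 2 * ((V : ℝ) / SS)
  set Q := sinW (Nat.div (Nat.mul Z Z) SS)
  change |((Z * Q / SS : ℕ) : ℝ) - SS * Real.sin z| ≤ 15
  have h1 := div_ge (Z * Q) SS SS_pos'
  have h2 := div_le' (Z * Q) SS
  push_cast at h1 h2
  have e : (Z : ℝ) * Q / SS - SS * (z * sps (z ^ 2)) =
      ((Z - SS * z) * (sps (z ^ 2) * SS) + Z * (Q - SS * sps (z ^ 2))) / SS := by
    field_simp; ring
  have hZ0 : (0 : ℝ) ≤ Z := Nat.cast_nonneg _
  have hZb : (Z : ℝ) ≤ 1.6 * SS := by
    have hS1 := SS_ge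
    rw [abs_le] at hZ
    nlinarith [hZ.1, hZ.2]
  have h3 : |(Z : ℝ) * Q / SS - SS * (z * sps (z ^ 2))| ≤ 2 * 1 + 1.6 * 3.5 := by
    rw [e, abs_div, abs_of_pos hS, div_le_iff₀ hS]
    refine (abs_add_le _ _).trans ?_
    rw [abs_mul, abs_of_nonneg (mul_nonneg hq0 hS.le), abs_mul (Z : ℝ), abs_of_nonneg hZ0]
    have k1 : |(Z : ℝ) - SS * z| * (sps (z ^ 2) * SS) ≤ 2 * (1 * SS) :=
      mul_le_mul hZ (mul_le_mul_of_nonneg_right hq1 hS.le) (by positivity) (by norm_num)
    have k2 : (Z : ℝ) * |Q - SS * sps (z ^ 2)| ≤ 1.6 * SS * 3.5 :=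
      mul_le_mul hZb hq (abs_nonneg _) (by positivity)
    linarith
  have h4 : |SS * (z * sps (z ^ 2)) - SS * Real.sin z| ≤ 0.1 := by
    rw [← mul_sub, abs_mul, abs_of_pos hS, abs_sub_comm]
    calc (SS : ℝ) * _ ≤ SS * (1 / 10 ^ 16) := mul_le_mul_of_nonneg_left hser hS.le
      _ ≤ 0.1 := by unfold SS; norm_num
  rw [abs_le] at h3 h4 ⊢
  norm_num at h3 h4 ⊢
  constructor <;> linarith [h3.1, h3.2, h4.1, h4.2]

end angle

theorem csI_mem (c : ℕ) : (csI c).mem (Real.cos (Real.pi / 2 * (vl c / SS))) := by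
  unfold Iv.mem csI
  have hS := SS_pos
  rcases hb : Nat.ble (ab c) SS with _ | _
  · simp only [cond_false]
    rw [vl_BB, sub_zero, abs_mul, abs_of_pos hS]
    have := Real.abs_cos_le_one (Real.pi / 2 * (vl c / SS))
    nlinarith
  · simp only [cond_true]
    have hV : ab c ≤ SS := Nat.le_of_ble_eq_true hb
    rw [vl_BB_add]
    have h := cosN_spec hV
    rw [ab_spec] at h
    have e : Real.cos (Real.pi / 2 * (|vl c| / SS)) = Real.cos (Real.pi / 2 * (vl c / SS)) := by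
      rw [← Real.cos_abs (Real.pi / 2 * (vl c / SS)), abs_mul, abs_div (vl c),
        abs_of_pos (by positivity : (0 : ℝ) < Real.pi / 2), abs_of_pos hS]
    rw [e, abs_sub_comm] at h
    rw [mul_comm]
    push_cast
    linarith

theorem sgn_spec {c a : ℕ} (ha : a ≤ BB) : vl (sgn c a) = if 0 ≤ vl c then (a : ℝ) else -(a : ℝ) := by
  unfold sgn
  rcases hb : Nat.ble BB c with _ | _
  · simp only [cond_false]
    have h : ¬ BB ≤ c := by
      intro h; rw [Nat.ble_eq_true_of_le h] at hb; exact absurd hb (by simp)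
    have h1 : ¬ 0 ≤ vl c := by
      intro h2; apply h
      have : (BB : ℝ) ≤ c := by unfold vl at h2; linarith
      exact_mod_cast this
    rw [if_neg h1]
    unfold vl
    rw [Nat.sub_eq, Nat.cast_sub ha]; ring
  · simp only [cond_true]
    have h : BB ≤ c := Nat.le_of_ble_eq_true hb
    have h1 : 0 ≤ vl c := by
      have : (BB : ℝ) ≤ c := by exact_mod_cast h
      unfold vl; linarith
    rw [if_pos h1, vl_BB_add]

theorem snI_mem (c : ℕ) : (snI c).mem (Real.sin (Real.pi / 2 * (vl c / SS))) := by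
  unfold Iv.mem snI
  have hS := SS_pos
  rcases hb : Nat.ble (ab c) SS with _ | _
  · simp only [cond_false]
    rw [vl_BB, sub_zero, abs_mul, abs_of_pos hS]
    have := Real.abs_sin_le_one (Real.pi / 2 * (vl c / SS))
    nlinarith
  · simp only [cond_true]
    have hV : ab c ≤ SS := Nat.le_of_ble_eq_true hb
    have h := sinN_spec hV
    rw [ab_spec] at h
    have hs : sinN (ab c) ≤ BB := by
      have h1 := Real.sin_le_one (Real.pi / 2 * (|vl c| / SS))
      have h2 := (abs_le.1 h).2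
      have h3 : (SS : ℝ) + 15 ≤ BB := by unfold SS BB; norm_num
      have : ((sinN (ab c) : ℕ) : ℝ) ≤ BB := by nlinarith
      exact_mod_cast this
    rw [sgn_spec hs]
    push_cast
    split_ifs with h0
    · rw [abs_of_nonneg h0, abs_sub_comm] at h
      rw [mul_comm]
      linarith
    · push Not at h0
      rw [abs_of_neg h0, neg_div, mul_neg, Real.sin_neg] at h
      rw [abs_le] at h ⊢
      constructor <;> linarith [h.1, h.2]

end H41FT
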