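import Pool.Agent.H41.FT.Sc2
import Mathlib.Analysis.Calculus.MeanValue

/-!
# Scalar intervals: arctangent; Taylor estimates
-/

namespace H41FT

theorem arctan_lip (a b : ℝ) : |Real.arctan a - Real.arctan b| ≤ |a - b| := by
  have h : ∀ x ∈ (Set.univ : Set ℝ), ‖deriv Real.arctan x‖ ≤ 1 := by
    intro x _
    rw [Real.deriv_arctan, Real.norm_eq_abs, abs_of_pos (by positivity), div_le_one (by positivity)]
    nlinarith [sq_nonneg x]
  have := Convex.norm_image_sub_le_of_norm_deriv_le (f := Real.arctan) (s := Set.univ)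
    (fun x _ => Real.differentiableAt_arctan x) h convex_univ (Set.mem_univ b) (Set.mem_univ a)
  simpa [Real.norm_eq_abs] using this

theorem at_core {τ Θ : ℝ} (h0 : 0 ≤ Θ) (h1 : Θ ≤ 2) (hc : 0 < Real.cos Θ) :
    |Real.arctan τ - Θ| * Real.cos Θ ≤ |τ * Real.cos Θ - Real.sin Θ| := by
  have hlt : Θ < Real.pi / 2 := by
    by_contra hge
    push Not at hge
    have := Real.cos_nonpos_of_pi_div_two_le_of_le hge (by linarith [Real.pi_gt_three])
    linarith
  have e : Θ = Real.arctan (Real.tan Θ) := (Real.arctan_tan (by linarith [Real.pi_pos]) hlt).symm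
  have h2 : |Real.arctan τ - Θ| ≤ |τ - Real.tan Θ| := by
    nth_rewrite 1 [e]; exact arctan_lip _ _
  calc |Real.arctan τ - Θ| * Real.cos Θ ≤ |τ - Real.tan Θ| * Real.cos Θ :=
        mul_le_mul_of_nonneg_right h2 hc.le
    _ = |τ * Real.cos Θ - Real.sin Θ| := by
        rw [← abs_of_pos hc, ← abs_mul, abs_of_pos hc, sub_mul, Real.tan_mul_cos hc.ne']

theorem atG_mem {c t : ℕ} :
    (atG c (ab c) t (cosN t)).mem (2 / Real.pi * Real.arctan (vl c / SS)) := by
  have hS := SS_pos
  have hpi := Real.pi_pos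
  have htriv : Iv.mem ⟨BB, SS⟩ (2 / Real.pi * Real.arctan (vl c / SS)) := by
    unfold Iv.mem
    simp only
    rw [vl_BB, sub_zero, abs_mul, abs_of_pos hS]
    have : |2 / Real.pi * Real.arctan (vl c / SS)| ≤ 1 := by
      rw [abs_mul, abs_of_pos (by positivity : (0 : ℝ) < 2 / Real.pi)]
      have h2 : |Real.arctan (vl c / SS)| ≤ Real.pi / 2 := by
        rw [abs_le]
        exact ⟨by linarith [Real.neg_pi_div_two_lt_arctan (vl c / SS)],
          (Real.arctan_lt_pi_div_two _).le⟩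
      calc 2 / Real.pi * |Real.arctan (vl c / SS)| ≤ 2 / Real.pi * (Real.pi / 2) :=
            mul_le_mul_of_nonneg_left h2 (by positivity)
        _ = 1 := by field_simp
    nlinarith
  unfold atG
  rcases hb : Nat.ble t SS with _ | _
  · exact htriv
  rcases hb2 : Nat.ble 17 (cosN t) with _ | _
  · exact htriv
  simp only [cond_true]
  have ht : t ≤ SS := Nat.le_of_ble_eq_true hb
  have hC : 17 ≤ cosN t := Nat.le_of_ble_eq_true hb2
  have hcN := cosN_spec ht
  have hsN := sinN_spec ht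
  obtain ⟨hz0, hz1⟩ := ang_bd ht
  set C := cosN t
  set s := sinN t
  set Θ := Real.pi / 2 * ((t : ℝ) / SS) with hΘ
  set V := ab c with hV
  have hCr : (17 : ℝ) ≤ C := by exact_mod_cast hC
  have hcpos : ((C : ℝ) - 16) / SS ≤ Real.cos Θ := by
    rw [div_le_iff₀ hS]
    have := (abs_le.1 hcN).2
    linarith
  have hc : 0 < Real.cos Θ := lt_of_lt_of_le (by apply div_pos _ hS; linarith) hcpos
  have hV0 : (0 : ℝ) ≤ V := Nat.cast_nonneg _
  have hcore := at_core (τ := (V : ℝ) / SS) hz0 (by linarith) hc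
  -- numerator
  have eX : ((((V * C - s * SS) + (s * SS - V * C)) : ℕ) : ℝ) = |(V : ℝ) * C - s * SS| := by
    rcases le_total (V * C) (s * SS) with h | h
    · have h' : (V : ℝ) * C ≤ s * SS := by exact_mod_cast h
      rw [Nat.sub_eq_zero_of_le h, zero_add, Nat.cast_sub h, abs_of_nonpos (by linarith)]
      push_cast; ring
    · have h' : (s : ℝ) * SS ≤ V * C := by exact_mod_cast h
      rw [Nat.sub_eq_zero_of_le h, add_zero, Nat.cast_sub h, abs_of_nonneg (by linarith)]
      push_cast; ring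
  have hnum : |(V : ℝ) / SS * Real.cos Θ - Real.sin Θ| * (SS * SS) ≤
      |(V : ℝ) * C - s * SS| + 16 * (V + SS) := by
    have e : ((V : ℝ) / SS * Real.cos Θ - Real.sin Θ) * (SS * SS) =
        (V * C - s * SS) - V * (C - SS * Real.cos Θ) + SS * (s - SS * Real.sin Θ) := by
      field_simp; ring
    have e2 : |(V : ℝ) / SS * Real.cos Θ - Real.sin Θ| * (SS * SS) =
        |((V : ℝ) / SS * Real.cos Θ - Real.sin Θ) * (SS * SS)| := by
      rw [abs_mul ((V : ℝ) / SS * Real.cos Θ - Real.sin Θ),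
        abs_of_pos (by positivity : (0 : ℝ) < SS * SS)]
    rw [e2, e]
    have k1 : |(V : ℝ) * (C - SS * Real.cos Θ)| ≤ V * 16 := by
      rw [abs_mul, abs_of_nonneg hV0]
      exact mul_le_mul_of_nonneg_left (hcN.trans (by norm_num)) hV0
    have k2 : |(SS : ℝ) * (s - SS * Real.sin Θ)| ≤ SS * 16 := by
      rw [abs_mul, abs_of_pos hS]
      exact mul_le_mul_of_nonneg_left (hsN.trans (by norm_num)) hS.le
    have k3 := abs_add_le ((V * C - s * SS) - V * (C - SS * Real.cos Θ)) (SS * (s - SS * Real.sin Θ))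
    have k4 := abs_sub (V * C - s * SS : ℝ) (V * (C - SS * Real.cos Θ))
    linarith
  set X : ℝ := |(V : ℝ) * C - s * SS| + 16 * (V + SS) with hX
  have hmain : |Real.arctan ((V : ℝ) / SS) - Θ| * SS ≤ X / (C - 16) := by
    rw [le_div_iff₀ (by linarith)]
    have h1 : |Real.arctan ((V : ℝ) / SS) - Θ| * (((C : ℝ) - 16) / SS) ≤
        |(V : ℝ) / SS * Real.cos Θ - Real.sin Θ| :=
      (mul_le_mul_of_nonneg_left hcpos (abs_nonneg _)).trans hcore
    have h2 := mul_le_mul_of_nonneg_right h1 (by positivity : (0 : ℝ) ≤ SS * SS)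
    calc |Real.arctan ((V : ℝ) / SS) - Θ| * SS * (C - 16) =
        |Real.arctan ((V : ℝ) / SS) - Θ| * (((C : ℝ) - 16) / SS) * (SS * SS) := by
          field_simp
      _ ≤ _ := h2.trans hnum
  have hfin : |2 / Real.pi * Real.arctan ((V : ℝ) / SS) * SS - t| ≤ X / (C - 16) := by
    have e : 2 / Real.pi * Real.arctan ((V : ℝ) / SS) * SS - t =
        2 / Real.pi * ((Real.arctan ((V : ℝ) / SS) - Θ) * SS) := by
      rw [hΘ]; field_simp
    rw [e, abs_mul, abs_of_pos (by positivity : (0 : ℝ) < 2 / Real.pi), abs_mul _ (SS : ℝ),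
      abs_of_pos hS]
    have : 2 / Real.pi ≤ 1 := by rw [div_le_one hpi]; linarith [Real.pi_gt_three]
    calc 2 / Real.pi * (|Real.arctan ((V : ℝ) / SS) - Θ| * SS) ≤
        1 * (|Real.arctan ((V : ℝ) / SS) - Θ| * SS) :=
          mul_le_mul_of_nonneg_right this (by positivity)
      _ ≤ _ := by rw [one_mul]; exact hmain
  have hE : X / (C - 16) ≤ ((atE V s C : ℕ) : ℝ) := by
    unfold atE
    simp only [Nat.add_eq, Nat.sub_eq, Nat.mul_eq]
    change _ ≤ ((((((V * C - s * SS) + (s * SS - V * C)) + 16 * (V + SS)) / (C - 16) + 1 : ℕ)) : ℝ)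
    have d := div_ge (((V * C - s * SS) + (s * SS - V * C)) + 16 * (V + SS)) (C - 16) (by omega)
    have eX' : ((((V * C - s * SS) + (s * SS - V * C)) + 16 * (V + SS) : ℕ) : ℝ) = X := by
      rw [Nat.cast_add, eX, hX]; push_cast; ring
    rw [eX', Nat.cast_sub (by omega : 16 ≤ C)] at d
    push_cast at d ⊢
    exact d
  have hs2 : t ≤ BB := ht.trans (by unfold SS BB; norm_num)
  unfold Iv.mem
  simp only
  rw [sgn_spec hs2]
  have hVv : (V : ℝ) = |vl c| := ab_spec c
  split_ifs with h0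
  · rw [hVv, abs_of_nonneg h0] at hfin
    exact hfin.trans hE
  · push Not at h0
    rw [hVv, abs_of_neg h0, neg_div, Real.arctan_neg] at hfin
    have : |2 / Real.pi * Real.arctan (vl c / SS) * SS - -(t : ℝ)| =
        |2 / Real.pi * -Real.arctan (vl c / SS) * SS - t| := by
      rw [← abs_neg]; congr 1; ring
    rw [this]
    exact hfin.trans hE

theorem atI_mem (c : ℕ) : (atI c).mem (2 / Real.pi * Real.arctan (vl c / SS)) := atG_mem

end H41FT
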