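import Pool.Agent.H41.FT.Ops

/-!
# Kernel-friendly quadratic Taylor models

All numbers are natural numbers with offset `BB = 2^96`, in units `1/SS`, `SS = 2^48`.
-/

set_option linter.unusedVariables false

namespace H41FT

def SS : Nat := 281474976710656
def BB : Nat := 79228162514264337593543950336
def SQ : Nat := 79228162514264337593543950336
def BS : Nat := 22300745198530623141535718272648361505980416
def K1 : Nat := 6277101735386703064580987953830807951820628092825540493312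
def K2 : Nat := 12554203470773383828416777377038474367922983537289575006208
def K3 : Nat := 18831305206160064592252566800246140784025338981753609519104
def K4 : Nat := 25108406941546745356088356223453807200127694426217644032000
def HP : Nat := 442139859501777
def IP : Nat := 179192535600708

/-- absolute value of an offset number -/
def ab (c : Nat) : Nat := Nat.add (Nat.sub c BB) (Nat.sub BB c)

/-- rounded quotient: `(num - BB * den) / SS` -/
def nr (num den : Nat) : Nat := Nat.div (Nat.sub num (Nat.mul BB den)) SS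

/-- Quadratic Taylor model: `v + Σ g ξ + Σ h ξ ξ` up to `r`; `m` is a bound for the sum of the
offset-free magnitudes, `n < BB` guards the validity, `G ≥ Σ |g|`, `H ≥ Σ |h|`. -/
inductive TM where
  | z (n : Nat) : TM
  | mk (v g0 g1 g2 h00 h01 h02 h11 h12 h22 r n m G H : Nat) : TM

def s3 (a b c : Nat) : Nat := Nat.add (Nat.add (ab a) (ab b)) (ab c)

/-- smart constructor -/
def mkT (v g0 g1 g2 h00 h01 h02 h11 h12 h22 r n m : Nat) : TM :=
  .mk v g0 g1 g2 h00 h01 h02 h11 h12 h22 r (Nat.lor n m) m (s3 g0 g1 g2)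
    (Nat.add (s3 h00 h01 h02) (s3 h11 h12 h22))

/-! ### addition, subtraction -/

def ad (a b : Nat) : Nat := Nat.sub (Nat.add a b) BB
def sb (a b : Nat) : Nat := Nat.sub (Nat.add a BB) b
/-- offset negation: `2 BB - a` -/
def ng (a : Nat) : Nat := Nat.sub (Nat.add BB BB) a

def TM.add (x y : TM) : TM :=
  match x, y with
  | .z n, .z n' => .z (Nat.lor n n')
  | .z n', .mk v g0 g1 g2 h00 h01 h02 h11 h12 h22 r n m G H =>
    .mk v g0 g1 g2 h00 h01 h02 h11 h12 h22 r (Nat.lor n' n) m G H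
  | .mk v g0 g1 g2 h00 h01 h02 h11 h12 h22 r n m G H, .z n' =>
    .mk v g0 g1 g2 h00 h01 h02 h11 h12 h22 r (Nat.lor n n') m G H
  | .mk v g0 g1 g2 h00 h01 h02 h11 h12 h22 r n m G H,
    .mk v' g0' g1' g2' h00' h01' h02' h11' h12' h22' r' n' m' G' H' =>
    mkT (ad v v') (ad g0 g0') (ad g1 g1') (ad g2 g2') (ad h00 h00') (ad h01 h01') (ad h02 h02')
      (ad h11 h11') (ad h12 h12') (ad h22 h22') (Nat.add r r') (Nat.lor n n') (Nat.add m m')

def TM.sub (x y : TM) : TM :=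
  match x, y with
  | .z n, .z n' => .z (Nat.lor n n')
  | .z n', .mk v g0 g1 g2 h00 h01 h02 h11 h12 h22 r n m G H =>
    .mk (ng v) (ng g0) (ng g1) (ng g2) (ng h00) (ng h01) (ng h02) (ng h11) (ng h12) (ng h22) r
      (Nat.lor n' n) m G H
  | .mk v g0 g1 g2 h00 h01 h02 h11 h12 h22 r n m G H, .z n' =>
    .mk v g0 g1 g2 h00 h01 h02 h11 h12 h22 r (Nat.lor n n') m G H
  | .mk v g0 g1 g2 h00 h01 h02 h11 h12 h22 r n m G H,
    .mk v' g0' g1' g2' h00' h01' h02' h11' h12' h22' r' n' m' G' H' =>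
    mkT (sb v v') (sb g0 g0') (sb g1 g1') (sb g2 g2') (sb h00 h00') (sb h01 h01') (sb h02 h02')
      (sb h11 h11') (sb h12 h12') (sb h22 h22') (Nat.add r r') (Nat.lor n n') (Nat.add m m')

/-- offset multiple: `k a` -/
def sc (k a : Nat) : Nat := Nat.sub (Nat.add (Nat.mul k a) BB) (Nat.mul k BB)

def TM.smul (k : Nat) (x : TM) : TM :=
  match x with
  | .z n => .z n
  | .mk v g0 g1 g2 h00 h01 h02 h11 h12 h22 r n m G H =>
    .mk (sc k v) (sc k g0) (sc k g1) (sc k g2) (sc k h00) (sc k h01) (sc k h02) (sc k h11)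
      (sc k h12) (sc k h22) (Nat.mul k r) (Nat.lor n (Nat.mul k m)) (Nat.mul k m) (Nat.mul k G)
      (Nat.mul k H)

/-! ### multiplication -/

def cg (v V g G s t : Nat) : Nat := nr (Nat.add (Nat.add (Nat.mul v G) (Nat.mul g V)) K2) (Nat.add s t)
def chd (v V g G h H s t : Nat) : Nat :=
  nr (Nat.add (Nat.add (Nat.add (Nat.mul v H) (Nat.mul h V)) (Nat.mul g G)) K3)
    (Nat.add s (Nat.add t (Nat.add h H)))
def cho (v V g G k K h H s t u : Nat) : Nat :=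
  nr (Nat.add (Nat.add (Nat.add (Nat.mul v H) (Nat.mul h V)) (Nat.add (Nat.mul g K) (Nat.mul k G))) K4)
    (Nat.add s (Nat.add t (Nat.add u (Nat.add h H))))
/-- remainder of a product, `M = |v| + G + H` -/
def remM (M G H r M' G' H' r' : Nat) : Nat :=
  Nat.add (Nat.div (Nat.add
    (Nat.add (Nat.mul M r') (Nat.mul (Nat.add M' r') r))
    (Nat.add (Nat.mul G H') (Nat.mul H (Nat.add G' H')))) SS) 12
def mulK (v g0 g1 g2 h00 h01 h02 h11 h12 h22 r n G H v' g0' g1' g2' h00' h01' h02' h11' h12' h22' r'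
    n' G' H' s t0 t1 t2 M M' : Nat) : TM :=
  mkT (nr (Nat.add (Nat.mul v v') K1) s) (cg v v' g0 g0' s t0) (cg v v' g1 g1' s t1)
    (cg v v' g2 g2' s t2) (chd v v' g0 g0' h00 h00' s t0) (cho v v' g0 g0' g1 g1' h01 h01' s t0 t1)
    (cho v v' g0 g0' g2 g2' h02 h02' s t0 t2) (chd v v' g1 g1' h11 h11' s t1)
    (cho v v' g1 g1' g2 g2' h12 h12' s t1 t2) (chd v v' g2 g2' h22 h22' s t2)
    (remM M G H r M' G' H' r') (Nat.lor n n') (Nat.add (Nat.div (Nat.mul M M') SS) 12)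
def TM.mul (x y : TM) : TM :=
  match x, y with
  | .z n, .z n' => .z (Nat.lor n n')
  | .z n', .mk _ _ _ _ _ _ _ _ _ _ _ n _ _ _ => .z (Nat.lor n' n)
  | .mk _ _ _ _ _ _ _ _ _ _ _ n _ _ _, .z n' => .z (Nat.lor n n')
  | .mk v g0 g1 g2 h00 h01 h02 h11 h12 h22 r n m G H,
    .mk v' g0' g1' g2' h00' h01' h02' h11' h12' h22' r' n' m' G' H' =>
    mulK v g0 g1 g2 h00 h01 h02 h11 h12 h22 r n G H v' g0' g1' g2' h00' h01' h02' h11' h12' h22' r'
      n' G' H' (Nat.add v v') (Nat.add g0 g0') (Nat.add g1 g1') (Nat.add g2 g2')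
      (Nat.add (ab v) (Nat.add G H)) (Nat.add (ab v') (Nat.add G' H'))

/-! ### scalars -/

/-- scalar interval, offset centre `c`, radius `r` -/
structure Iv where
  c : Nat
  r : Nat

def nrm (num den R : Nat) (SN : Nat) : Iv :=
  ⟨Nat.div (Nat.sub num den) SN, Nat.add (Nat.div (Nat.add R (Nat.sub den num)) SN) 2⟩

/-- product of two scalar intervals divided by `m` -/
def mulD (m : Nat) (x y : Iv) : Iv :=
  nrm (Nat.add (Nat.mul x.c y.c) (Nat.mul BB (Nat.add BB (Nat.mul m SS))))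
    (Nat.mul BB (Nat.add x.c y.c))
    (Nat.add (Nat.mul (ab x.c) y.r) (Nat.mul x.r (Nat.add (ab y.c) y.r))) (Nat.mul m SS)

def ngI (x : Iv) : Iv := ⟨ng x.c, Nat.add x.r (Nat.sub x.c (Nat.add BB BB))⟩

def hpI : Iv := ⟨Nat.add BB HP, 1⟩
def ipI : Iv := ⟨Nat.add BB IP, 1⟩

def stp (W P mS : Nat) : Nat := Nat.sub SS (Nat.div (Nat.mul W P) mS)
def cosW (W : Nat) : Nat := (stp W (stp W (stp W (stp W (stp W (stp W (stp W (stp W (stp W (stp W (stp W SS 130041439240323072) 106960491150049280) 86131342873460736) 67553994410557440) 51228445761339392) 37154696925806592) 25332747903959040) 15762598695796736) 8444249301319680) 3377699720527872) 562949953421312)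
def sinW (W : Nat) : Nat := (stp W (stp W (stp W (stp W (stp W (stp W (stp W (stp W (stp W (stp W (stp W SS 142426338215591936) 118219490218475520) 96264442035044352) 76561193665298432) 59109745109237760) 43910096366862336) 30962247438172160) 20266198323167232) 11821949021847552) 5629499534213120) 1688849860263936)
/-- `cos (π V / (2 SS))` for `V ≤ SS` -/
def cosN (V : Nat) : Nat := cosW (Nat.div (Nat.mul (Nat.div (Nat.mul V HP) SS) (Nat.div (Nat.mul V HP) SS)) SS)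
/-- `sin (π V / (2 SS))` for `V ≤ SS` -/
def sinN (V : Nat) : Nat := Nat.div (Nat.mul (Nat.div (Nat.mul V HP) SS)
  (sinW (Nat.div (Nat.mul (Nat.div (Nat.mul V HP) SS) (Nat.div (Nat.mul V HP) SS)) SS))) SS

/-- sign transfer: `±a` according to the sign of the offset number `c` -/
def sgn (c a : Nat) : Nat := bif Nat.ble BB c then Nat.add BB a else Nat.sub BB a

def csI (c : Nat) : Iv := bif Nat.ble (ab c) SS then ⟨Nat.add BB (cosN (ab c)), 16⟩ else ⟨BB, SS⟩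
def snI (c : Nat) : Iv := bif Nat.ble (ab c) SS then ⟨sgn c (sinN (ab c)), 16⟩ else ⟨BB, SS⟩

/-- positive part -/
def pp (c : Nat) : Nat := Nat.sub c BB

/-- `1 / v` for `v > 0` exact -/
def inI (c : Nat) : Iv := ⟨Nat.add BB (Nat.div SQ (pp c)), 1⟩

def nwt (N y : Nat) : Nat := Nat.div (Nat.add y (Nat.div N y)) 2
def sqN (N : Nat) : Nat := nwt N (nwt N (nwt N (nwt N (nwt N (nwt N
  (Nat.pow 2 (Nat.succ (Nat.div (Nat.log2 N) 2))))))))
def sqE (N y : Nat) : Nat :=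
  Nat.add (Nat.div (Nat.add (Nat.sub N (Nat.mul y y)) (Nat.sub (Nat.mul y y) N)) y) 2
/-- `√v` for `v > 0` exact -/
def sqI (c : Nat) : Iv :=
  ⟨Nat.add BB (sqN (Nat.mul (pp c) SS)), sqE (Nat.mul (pp c) SS) (sqN (Nat.mul (pp c) SS))⟩

/-- crude guess of `(2/π) arctan (V/SS)`, `V ≤ SS`, in units `1/SS` -/
def at0 (V : Nat) : Nat :=
  Nat.div (Nat.mul V 1000) (Nat.add 1571 (Nat.div (Nat.mul (Nat.mul V V) 429) SQ))
/-- one Newton step for `(2/π) arctan (V/SS)` starting from `θ` -/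
def at1k (t d1 d2 : Nat) : Nat := Nat.sub (Nat.add t d1) d2
/-- `δ - δ³/3` times `2/π`, `δ = d/SS` -/
def at1c (d : Nat) : Nat :=
  Nat.div (Nat.mul (Nat.sub d (Nat.div (Nat.mul d (Nat.mul d d)) (Nat.mul 3 SQ))) IP) SS
def at1s (V t s c : Nat) : Nat :=
  at1k t (at1c (Nat.div (Nat.mul SS (Nat.sub (Nat.mul V c) (Nat.mul s SS))) (Nat.add (Nat.mul c SS) (Nat.mul V s))))
    (at1c (Nat.div (Nat.mul SS (Nat.sub (Nat.mul s SS) (Nat.mul V c))) (Nat.add (Nat.mul c SS) (Nat.mul V s))))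
def at1 (V t : Nat) : Nat := at1s V t (sinN t) (cosN t)
/-- guess of `(2/π) arctan (V/SS)` -/
def atN (V : Nat) : Nat :=
  at1 V (bif Nat.ble V SS then at0 V else Nat.sub SS (at0 (Nat.div SQ V)))
/-- error bound for the guess `t`, with `s = sinN t`, `c = cosN t` -/
def atE (V s c : Nat) : Nat :=
  Nat.add (Nat.div (Nat.add (Nat.add (Nat.sub (Nat.mul V c) (Nat.mul s SS)) (Nat.sub (Nat.mul s SS) (Nat.mul V c)))
    (Nat.mul 16 (Nat.add V SS))) (Nat.sub c 16)) 1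
def atG (c V t C : Nat) : Iv :=
  bif Nat.ble t SS then (bif Nat.ble 17 C then ⟨sgn c t, atE V (sinN t) C⟩ else ⟨BB, SS⟩) else ⟨BB, SS⟩
def atH (c V t : Nat) : Iv := atG c V t (cosN t)
/-- `(2/π) arctan v` -/
def atI (c : Nat) : Iv := atH c (ab c) (atN (ab c))

/-! ### composition with a scalar function -/

def c1 (a g : Nat) : Nat := nr (Nat.add (Nat.mul a g) K1) (Nat.add a g)
def c2d (a h b g : Nat) : Nat :=
  nr (Nat.add (Nat.add (Nat.mul a h) (Nat.mul b g)) K2) (Nat.add (Nat.add a h) (Nat.add b g))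
def c2o (a h b g b' g' : Nat) : Nat :=
  nr (Nat.add (Nat.add (Nat.mul a h) (Nat.add (Nat.mul b g) (Nat.mul b' g'))) K3)
    (Nat.add (Nat.add a h) (Nat.add (Nat.add b g) (Nat.add b' g')))
/-- `f0,f1,f2` enclose `φ(v), φ'(v), φ''(v)/2`; `E` bounds the third order remainder;
`N = G + H + r`, `t2 = |f2| N / SS + 4` -/
def cmp3 (a e0 g0 g1 g2 h00 h01 h02 h11 h12 h22 r n G b0 b1 b2 a1 r1 a2 r2 E N f0 t2 : Nat) : TM :=
  mkT f0 (c1 a g0) (c1 a g1) (c1 a g2) (c2d a h00 b0 g0) (c2o a h01 b0 g1 b1 g0) (c2o a h02 b0 g2 b2 g0)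
    (c2d a h11 b1 g1) (c2o a h12 b1 g2 b2 g1) (c2d a h22 b2 g2)
    (Nat.add (Nat.add e0 E) (Nat.add (Nat.div (Nat.add (Nat.mul a1 r) (Nat.add (Nat.mul r1 N)
      (Nat.add (Nat.div (Nat.add (Nat.mul r2 (Nat.mul N N))
        (Nat.mul a2 (Nat.sub (Nat.mul N N) (Nat.mul G G)))) SS) (Nat.mul 6 G)))) SS) 12))
    (Nat.lor n t2)
    (Nat.add (ab f0) (Nat.add (Nat.div (Nat.mul (Nat.add a1 t2) N) SS) 12))
def cmp2 (a e0 g0 g1 g2 h00 h01 h02 h11 h12 h22 r n G b0 b1 b2 a1 r1 a2 r2 E N f0 : Nat) : TM :=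
  cmp3 a e0 g0 g1 g2 h00 h01 h02 h11 h12 h22 r n G b0 b1 b2 a1 r1 a2 r2 E N f0
    (Nat.add (Nat.div (Nat.mul a2 N) SS) 4)
def cmp1 (x0 x1 x2 : Iv) (E g0 g1 g2 h00 h01 h02 h11 h12 h22 r n G N : Nat) : TM :=
  cmp2 x1.c x0.r g0 g1 g2 h00 h01 h02 h11 h12 h22 r n G (c1 x2.c g0) (c1 x2.c g1) (c1 x2.c g2)
    (ab x1.c) x1.r (ab x2.c) x2.r E N x0.c

/-- `N ^ 3` -/
def cub (N : Nat) : Nat := Nat.mul N (Nat.mul N N)

/-- guard: `0` if `m > 0`, `BB` otherwise -/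
def grd (m : Nat) : Nat := Nat.mul (Nat.sub 1 m) BB

def sn1 (s c : Iv) (g0 g1 g2 h00 h01 h02 h11 h12 h22 r n G N : Nat) : TM :=
  cmp1 s (mulD 1 hpI c) (ngI (mulD 2 hpI (mulD 1 hpI s)))
    (Nat.add (Nat.div (Nat.mul 21 (cub N)) (Nat.mul 32 SQ)) 1)
    g0 g1 g2 h00 h01 h02 h11 h12 h22 r n G N
def TM.sn (x : TM) : TM :=
  match x with
  | .z n => .z n
  | .mk v g0 g1 g2 h00 h01 h02 h11 h12 h22 r n m G H =>
    sn1 (snI v) (csI v) g0 g1 g2 h00 h01 h02 h11 h12 h22 r n G (Nat.add G (Nat.add H r))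
def oneT (n : Nat) : TM :=
  .mk (Nat.add BB SS) BB BB BB BB BB BB BB BB BB 0 (Nat.lor n SS) SS 0 0
def cs1 (s c : Iv) (g0 g1 g2 h00 h01 h02 h11 h12 h22 r n G N : Nat) : TM :=
  cmp1 c (ngI (mulD 1 hpI s)) (ngI (mulD 2 hpI (mulD 1 hpI c)))
    (Nat.add (Nat.div (Nat.mul 21 (cub N)) (Nat.mul 32 SQ)) 1)
    g0 g1 g2 h00 h01 h02 h11 h12 h22 r n G N
def TM.cs (x : TM) : TM :=
  match x with
  | .z n => oneT n
  | .mk v g0 g1 g2 h00 h01 h02 h11 h12 h22 r n m G H =>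
    cs1 (snI v) (csI v) g0 g1 g2 h00 h01 h02 h11 h12 h22 r n G (Nat.add G (Nat.add H r))
def inv2 (i : Iv) (q : Iv) (Y m g0 g1 g2 h00 h01 h02 h11 h12 h22 r n G N : Nat) : TM :=
  cmp1 i (ngI q) (mulD 1 q i)
    (Nat.add (Nat.div (Nat.mul (cub N) (cub Y)) (Nat.mul (Nat.mul SQ SQ) m)) 1)
    g0 g1 g2 h00 h01 h02 h11 h12 h22 r (Nat.lor n (grd m)) G N
def inv1 (i : Iv) (m g0 g1 g2 h00 h01 h02 h11 h12 h22 r n G N : Nat) : TM :=
  inv2 i (mulD 1 i i) (Nat.succ (pp i.c)) m g0 g1 g2 h00 h01 h02 h11 h12 h22 r n G N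
def inv0 (v g0 g1 g2 h00 h01 h02 h11 h12 h22 r n G N : Nat) : TM :=
  inv1 (inI v) (Nat.sub (pp v) N) g0 g1 g2 h00 h01 h02 h11 h12 h22 r n G N
def TM.inv (x : TM) : TM :=
  match x with
  | .z n => .z (Nat.lor n BB)
  | .mk v g0 g1 g2 h00 h01 h02 h11 h12 h22 r n m G H =>
    inv0 v g0 g1 g2 h00 h01 h02 h11 h12 h22 r n G (Nat.add G (Nat.add H r))
def sqrt2 (s i f1 : Iv) (V m g0 g1 g2 h00 h01 h02 h11 h12 h22 r n G N : Nat) : TM :=
  cmp1 s f1 (ngI (mulD 4 f1 i))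
    (Nat.add (Nat.div (Nat.mul (cub N) (Nat.mul (Nat.add m (Nat.mul 3 V)) (Nat.add (pp s.c) s.r)))
      (Nat.mul 8 (Nat.mul (cub (Nat.add V m)) V))) 1)
    g0 g1 g2 h00 h01 h02 h11 h12 h22 r (Nat.lor n (grd m)) G N
def sqrt1 (s i : Iv) (V m g0 g1 g2 h00 h01 h02 h11 h12 h22 r n G N : Nat) : TM :=
  sqrt2 s i (mulD 2 s i) V m g0 g1 g2 h00 h01 h02 h11 h12 h22 r n G N
def sqrt0 (v g0 g1 g2 h00 h01 h02 h11 h12 h22 r n G N : Nat) : TM :=
  sqrt1 (sqI v) (inI v) (pp v) (Nat.sub (pp v) N) g0 g1 g2 h00 h01 h02 h11 h12 h22 r n G N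
def TM.sqrt (x : TM) : TM :=
  match x with
  | .z n => .z (Nat.lor n BB)
  | .mk v g0 g1 g2 h00 h01 h02 h11 h12 h22 r n m G H =>
    sqrt0 v g0 g1 g2 h00 h01 h02 h11 h12 h22 r n G (Nat.add G (Nat.add H r))
/-- `1/(1+v²)` for exact `v` -/
def iqI (c : Nat) : Iv :=
  ⟨Nat.add BB (Nat.div (Nat.mul SQ SS) (Nat.add SQ (Nat.mul (ab c) (ab c)))), 1⟩
def at2 (a vi f1 : Iv) (g0 g1 g2 h00 h01 h02 h11 h12 h22 r n G N : Nat) : TM :=
  cmp1 a f1 (ngI (mulD 1 f1 vi)) (Nat.add (Nat.div (Nat.mul 7 (cub N)) (Nat.mul 32 SQ)) 1)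
    g0 g1 g2 h00 h01 h02 h11 h12 h22 r n G N
def at1' (v : Nat) (i : Iv) (g0 g1 g2 h00 h01 h02 h11 h12 h22 r n G N : Nat) : TM :=
  at2 (atI v) (mulD 1 ⟨v, 0⟩ i) (mulD 1 ipI i) g0 g1 g2 h00 h01 h02 h11 h12 h22 r n G N
def TM.at_ (x : TM) : TM :=
  match x with
  | .z n => .z n
  | .mk v g0 g1 g2 h00 h01 h02 h11 h12 h22 r n m G H =>
    at1' v (iqI v) g0 g1 g2 h00 h01 h02 h11 h12 h22 r n G (Nat.add G (Nat.add H r))

/-- multiplication by an exact scalar constant `a` (offset) with error at most `1` unit -/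
def scl (a v g0 g1 g2 h00 h01 h02 h11 h12 h22 r n m G H : Nat) : TM :=
  mkT (c1 a v) (c1 a g0) (c1 a g1) (c1 a g2) (c1 a h00) (c1 a h01) (c1 a h02) (c1 a h11) (c1 a h12)
    (c1 a h22)
    (Nat.add (Nat.div (Nat.add (Nat.mul (Nat.sub a BB) r) (Nat.add (ab v) (Nat.add G (Nat.add H r)))) SS) 12)
    n (Nat.add 12 (Nat.mul 2 m))
def TM.hm (x : TM) : TM :=
  match x with
  | .z n => .z n
  | .mk v g0 g1 g2 h00 h01 h02 h11 h12 h22 r n m G H =>
    scl (Nat.add BB HP) v g0 g1 g2 h00 h01 h02 h11 h12 h22 r n m G H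
def TM.ihm (x : TM) : TM :=
  match x with
  | .z n => .z n
  | .mk v g0 g1 g2 h00 h01 h02 h11 h12 h22 r n m G H =>
    scl (Nat.add BB IP) v g0 g1 g2 h00 h01 h02 h11 h12 h22 r n m G H

def TM.nat (k : Nat) : TM :=
  match k with
  | 0 => .z 0
  | k + 1 => .mk (Nat.add BB (Nat.mul (Nat.succ k) SS)) BB BB BB BB BB BB BB BB BB 0
    (Nat.mul (Nat.succ k) SS) (Nat.mul (Nat.succ k) SS) 0 0

def tO : Ops TM where
  nat := TM.nat
  add := TM.add
  sub := TM.sub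
  mul := TM.mul
  smul := TM.smul
  hm := TM.hm
  ihm := TM.ihm
  inv := TM.inv
  sqrt := TM.sqrt
  sn := TM.sn
  cs := TM.cs
  at_ := TM.at_

/-- variable `i` with centre `c` (offset) and half-width `w` -/
def var0 (c w : Nat) : TM :=
  .mk c (Nat.add BB w) BB BB BB BB BB BB BB BB 0 (Nat.add (ab c) w) (Nat.add (ab c) w) w 0
def var1 (c w : Nat) : TM :=
  .mk c BB (Nat.add BB w) BB BB BB BB BB BB BB 0 (Nat.add (ab c) w) (Nat.add (ab c) w) w 0
def var2 (c w : Nat) : TM :=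
  .mk c BB BB (Nat.add BB w) BB BB BB BB BB BB 0 (Nat.add (ab c) w) (Nat.add (ab c) w) w 0

def lwK (g hp hn : Nat) : Nat :=
  Nat.add (Nat.add (Nat.sub (Nat.sub g hp) (Nat.div (Nat.succ g) 2)) (Nat.div (Nat.succ g) 2)) hn
/-- `-lw` is a lower bound of `g ξ + h ξ²` -/
def lw (g h : Nat) : Nat := lwK (ab g) (Nat.sub h BB) (Nat.sub BB h)

/-- positivity test -/
def TM.pos (x : TM) : Bool :=
  match x with
  | .z _ => false
  | .mk v g0 g1 g2 h00 h01 h02 h11 h12 h22 r n m G H =>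
    bif Nat.ble (Nat.succ n) BB then
      Nat.ble (Nat.succ (Nat.add (Nat.add (Nat.add BB r)
        (Nat.add (lw g0 h00) (Nat.add (lw g1 h11) (lw g2 h22))))
        (Nat.add (ab h01) (Nat.add (ab h02) (ab h12))))) v
    else false

end H41FT
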