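import Pool.Agent.H41.FT.TM
import Mathlib.Tactic.Linarith
import Mathlib.Tactic.Positivity
import Mathlib.Tactic.Ring
import Mathlib.Tactic.FieldSimp

/-!
# Elementary facts on offset numbers
-/

namespace H41FT

/-- the integer represented by an offset number, as a real -/
noncomputable def vl (c : ℕ) : ℝ := (c : ℝ) - (BB : ℝ)

theorem SS_pos : (0 : ℝ) < (SS : ℝ) := by unfold SS; norm_num
theorem BB_pos : (0 : ℝ) < (BB : ℝ) := by unfold BB; norm_num
theorem SS_pos' : 0 < SS := by unfold SS; norm_num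
theorem SS_ge : (1000000000000 : ℝ) ≤ (SS : ℝ) := by unfold SS; norm_num
theorem SQ_eq : (SQ : ℝ) = (SS : ℝ) * SS := by unfold SQ SS; norm_num
theorem K1_eq : (K1 : ℝ) = (BB : ℝ) * BB + BB * SS := by unfold K1 SS BB; norm_num
theorem K2_eq : (K2 : ℝ) = 2 * ((BB : ℝ) * BB) + BB * SS := by unfold K2 SS BB; norm_num
theorem K3_eq : (K3 : ℝ) = 3 * ((BB : ℝ) * BB) + BB * SS := by unfold K3 SS BB; norm_num
theorem K4_eq : (K4 : ℝ) = 4 * ((BB : ℝ) * BB) + BB * SS := by unfold K4 SS BB; norm_num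

theorem vl_BB : vl BB = 0 := by unfold vl; ring

theorem vl_BB_add (w : ℕ) : vl (Nat.add BB w) = w := by
  unfold vl
  rw [Nat.add_eq]; push_cast; ring

theorem ab_spec (c : ℕ) : ((ab c : ℕ) : ℝ) = |vl c| := by
  unfold ab vl
  rw [Nat.add_eq, Nat.sub_eq, Nat.sub_eq]
  rcases le_total c BB with h | h
  · have h' : (c : ℝ) ≤ BB := by exact_mod_cast h
    rw [Nat.sub_eq_zero_of_le h, zero_add, Nat.cast_sub h, abs_of_nonpos (by linarith)]
    ring
  · have h' : (BB : ℝ) ≤ c := by exact_mod_cast h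
    rw [Nat.sub_eq_zero_of_le h, add_zero, Nat.cast_sub h, abs_of_nonneg (by linarith)]

theorem div_ge (a b : ℕ) (hb : 0 < b) : (a : ℝ) / b ≤ ((a / b : ℕ) : ℝ) + 1 := by
  have h := Nat.lt_div_mul_add (a := a) hb
  have h' : (a : ℝ) < ((a / b : ℕ) : ℝ) * b + b := by exact_mod_cast h
  rw [div_le_iff₀ (by exact_mod_cast hb)]
  nlinarith

theorem div_le' (a b : ℕ) : ((a / b : ℕ) : ℝ) ≤ (a : ℝ) / b := Nat.cast_div_le

/-- rounding -/
theorem nr_spec {num den : ℕ} {E : ℝ} (h : (num : ℝ) - BB * den = E + BB * SS)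
    (hE : -(BB * SS) ≤ E) : |vl (nr num den) - E / SS| ≤ 1 := by
  have hS := SS_pos
  unfold nr
  rw [Nat.mul_eq, Nat.sub_eq]
  change |vl ((num - BB * den) / SS) - E / SS| ≤ 1
  have h1 : BB * den ≤ num := by
    have : ((BB * den : ℕ) : ℝ) ≤ num := by push_cast; linarith
    exact_mod_cast this
  have h2 : (((num - BB * den : ℕ)) : ℝ) = E + BB * SS := by
    rw [Nat.cast_sub h1]; push_cast; linarith
  have h3 := div_ge (num - BB * den) SS SS_pos'
  have h4 := div_le' (num - BB * den) SS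
  rw [h2] at h3 h4
  have h5 : (E + BB * SS) / SS = E / SS + BB := by field_simp
  rw [h5] at h3 h4
  unfold vl
  rw [abs_le]; constructor <;> linarith

theorem c1_spec {a g : ℕ} (h : |vl a * vl g| ≤ BB * SS) :
    |vl (c1 a g) - vl a * vl g / SS| ≤ 1 := by
  unfold c1
  refine nr_spec ?_ (neg_le_of_abs_le h)
  rw [Nat.add_eq, Nat.mul_eq, Nat.add_eq]
  push_cast
  rw [K1_eq]; unfold vl; ring

theorem v_spec {v v' : ℕ} (h : |vl v * vl v'| ≤ BB * SS) :
    |vl (nr (Nat.add (Nat.mul v v') K1) (Nat.add v v')) - vl v * vl v' / SS| ≤ 1 := c1_spec h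

theorem cg_spec {v V g G : ℕ} (h : |vl v * vl G + vl g * vl V| ≤ BB * SS) :
    |vl (cg v V g G (Nat.add v V) (Nat.add g G)) - (vl v * vl G + vl g * vl V) / SS| ≤ 1 := by
  unfold cg
  refine nr_spec ?_ (neg_le_of_abs_le h)
  simp only [Nat.add_eq, Nat.mul_eq]
  push_cast
  rw [K2_eq]; unfold vl; ring

theorem chd_spec {v V g G h H : ℕ} (hh : |vl v * vl H + vl h * vl V + vl g * vl G| ≤ BB * SS) :
    |vl (chd v V g G h H (Nat.add v V) (Nat.add g G)) -
      (vl v * vl H + vl h * vl V + vl g * vl G) / SS| ≤ 1 := by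
  unfold chd
  refine nr_spec ?_ (neg_le_of_abs_le hh)
  simp only [Nat.add_eq, Nat.mul_eq]
  push_cast
  rw [K3_eq]; unfold vl; ring

theorem cho_spec {v V g G k K h H : ℕ}
    (hh : |vl v * vl H + vl h * vl V + vl g * vl K + vl k * vl G| ≤ BB * SS) :
    |vl (cho v V g G k K h H (Nat.add v V) (Nat.add g G) (Nat.add k K)) -
      (vl v * vl H + vl h * vl V + vl g * vl K + vl k * vl G) / SS| ≤ 1 := by
  unfold cho
  refine nr_spec ?_ (neg_le_of_abs_le hh)
  simp only [Nat.add_eq, Nat.mul_eq]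
  push_cast
  rw [K4_eq]; unfold vl; ring

theorem c2d_spec {a h b g : ℕ} (hh : |vl a * vl h + vl b * vl g| ≤ BB * SS) :
    |vl (c2d a h b g) - (vl a * vl h + vl b * vl g) / SS| ≤ 1 := by
  unfold c2d
  refine nr_spec ?_ (neg_le_of_abs_le hh)
  simp only [Nat.add_eq, Nat.mul_eq]
  push_cast
  rw [K2_eq]; unfold vl; ring

theorem c2o_spec {a h b g b' g' : ℕ}
    (hh : |vl a * vl h + vl b * vl g + vl b' * vl g'| ≤ BB * SS) :
    |vl (c2o a h b g b' g') - (vl a * vl h + vl b * vl g + vl b' * vl g') / SS| ≤ 1 := by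
  unfold c2o
  refine nr_spec ?_ (neg_le_of_abs_le hh)
  simp only [Nat.add_eq, Nat.mul_eq]
  push_cast
  rw [K3_eq]; unfold vl; ring

theorem ad_spec {a b : ℕ} (h : |vl a| + |vl b| ≤ BB) : vl (ad a b) = vl a + vl b := by
  unfold ad
  rw [Nat.add_eq, Nat.sub_eq]
  have h1 := neg_abs_le (vl a)
  have h2 := neg_abs_le (vl b)
  have h3 : BB ≤ a + b := by
    have : (BB : ℝ) ≤ ((a + b : ℕ) : ℝ) := by
      push_cast; unfold vl at *; linarith
    exact_mod_cast this
  unfold vl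
  rw [Nat.cast_sub h3]; push_cast; ring

theorem sb_spec {a b : ℕ} (h : |vl a| + |vl b| ≤ BB) : vl (sb a b) = vl a - vl b := by
  unfold sb
  rw [Nat.add_eq, Nat.sub_eq]
  have h1 := neg_abs_le (vl a)
  have h2 := le_abs_self (vl b)
  have h3 : b ≤ a + BB := by
    have : (b : ℝ) ≤ ((a + BB : ℕ) : ℝ) := by
      push_cast; unfold vl at *; linarith
    exact_mod_cast this
  unfold vl
  rw [Nat.cast_sub h3]; push_cast; ring

theorem ng_spec {a : ℕ} (h : |vl a| ≤ BB) : vl (ng a) = -vl a := by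
  unfold ng
  rw [Nat.add_eq, Nat.sub_eq]
  have h2 := le_abs_self (vl a)
  have h3 : a ≤ BB + BB := by
    have : (a : ℝ) ≤ ((BB + BB : ℕ) : ℝ) := by
      push_cast; unfold vl at *; linarith
    exact_mod_cast this
  unfold vl
  rw [Nat.cast_sub h3]; push_cast; ring

theorem sc_spec {k a : ℕ} (h : k * |vl a| ≤ BB) : vl (sc k a) = k * vl a := by
  unfold sc
  simp only [Nat.add_eq, Nat.sub_eq, Nat.mul_eq]
  have h1 := neg_abs_le (vl a)
  have hk : (0 : ℝ) ≤ k := Nat.cast_nonneg k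
  have h4 : -(k * |vl a|) ≤ k * vl a := by nlinarith
  have h3 : k * BB ≤ k * a + BB := by
    have : ((k * BB : ℕ) : ℝ) ≤ ((k * a + BB : ℕ) : ℝ) := by
      push_cast; unfold vl at *; linarith
    exact_mod_cast this
  unfold vl
  rw [Nat.cast_sub h3]; push_cast; ring

theorem s3_spec (a b c : ℕ) : ((s3 a b c : ℕ) : ℝ) = |vl a| + |vl b| + |vl c| := by
  unfold s3
  simp only [Nat.add_eq]
  push_cast
  rw [ab_spec, ab_spec, ab_spec]

theorem lor_lt {a b : ℕ} (h : Nat.lor a b < BB) : a < BB ∧ b < BB :=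
  ⟨lt_of_le_of_lt Nat.left_le_or h, lt_of_le_of_lt Nat.right_le_or h⟩

theorem le_lor_left (a b : ℕ) : a ≤ Nat.lor a b := Nat.left_le_or
theorem le_lor_right (a b : ℕ) : b ≤ Nat.lor a b := Nat.right_le_or

end H41FT
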