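import Pool.Agent.H41.FT.TMa
import Pool.Agent.H41.FT.Sound

/-!
# Enclosures by Taylor models: definitions, and real quadratic polynomials
-/

namespace H41FT

/-- real quadratic polynomial in three variables -/
@[ext] structure Pl where
  v : ℝ
  g0 : ℝ
  g1 : ℝ
  g2 : ℝ
  h00 : ℝ
  h01 : ℝ
  h02 : ℝ
  h11 : ℝ
  h12 : ℝ
  h22 : ℝ

namespace Pl

def L (p : Pl) (x y z : ℝ) : ℝ := p.g0 * x + p.g1 * y + p.g2 * z
def Q (p : Pl) (x y z : ℝ) : ℝ :=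
  p.h00 * (x * x) + p.h01 * (x * y) + p.h02 * (x * z) + p.h11 * (y * y) + p.h12 * (y * z) +
    p.h22 * (z * z)
def ev (p : Pl) (x y z : ℝ) : ℝ := p.v + p.L x y z + p.Q x y z
def nG (p : Pl) : ℝ := |p.g0| + |p.g1| + |p.g2|
def nH (p : Pl) : ℝ := |p.h00| + |p.h01| + |p.h02| + |p.h11| + |p.h12| + |p.h22|
def n (p : Pl) : ℝ := |p.v| + p.nG + p.nH

theorem nG_nonneg (p : Pl) : 0 ≤ p.nG := by unfold nG; positivity
theorem nH_nonneg (p : Pl) : 0 ≤ p.nH := by unfold nH; positivity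
theorem n_nonneg (p : Pl) : 0 ≤ p.n := by
  have := p.nG_nonneg; have := p.nH_nonneg; unfold n; positivity

theorem mul_le {a b : ℝ} {c : ℝ} (ha : |a| ≤ c) (hb : |b| ≤ 1) : |a * b| ≤ c := by
  rw [abs_mul]
  have := abs_nonneg a
  have := abs_nonneg b
  nlinarith

theorem mul_le_abs (a : ℝ) {b : ℝ} (hb : |b| ≤ 1) : |a * b| ≤ |a| := mul_le le_rfl hb

theorem L_le (p : Pl) {x y z : ℝ} (hx : |x| ≤ 1) (hy : |y| ≤ 1) (hz : |z| ≤ 1) :
    |p.L x y z| ≤ p.nG := by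
  unfold L nG
  have h0 := abs_le.1 (mul_le_abs p.g0 hx)
  have h1 := abs_le.1 (mul_le_abs p.g1 hy)
  have h2 := abs_le.1 (mul_le_abs p.g2 hz)
  rw [abs_le]; constructor <;> linarith [h0.1, h0.2, h1.1, h1.2, h2.1, h2.2]

theorem Q_le (p : Pl) {x y z : ℝ} (hx : |x| ≤ 1) (hy : |y| ≤ 1) (hz : |z| ≤ 1) :
    |p.Q x y z| ≤ p.nH := by
  unfold Q nH
  have h0 := abs_le.1 (mul_le_abs p.h00 (mul_le hx hx))
  have h1 := abs_le.1 (mul_le_abs p.h01 (mul_le hx hy))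
  have h2 := abs_le.1 (mul_le_abs p.h02 (mul_le hx hz))
  have h3 := abs_le.1 (mul_le_abs p.h11 (mul_le hy hy))
  have h4 := abs_le.1 (mul_le_abs p.h12 (mul_le hy hz))
  have h5 := abs_le.1 (mul_le_abs p.h22 (mul_le hz hz))
  rw [abs_le]; constructor <;>
    linarith [h0.1, h0.2, h1.1, h1.2, h2.1, h2.2, h3.1, h3.2, h4.1, h4.2, h5.1, h5.2]

theorem ev_le (p : Pl) {x y z : ℝ} (hx : |x| ≤ 1) (hy : |y| ≤ 1) (hz : |z| ≤ 1) :
    |p.ev x y z| ≤ p.n := by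
  unfold ev n
  have h1 := p.L_le hx hy hz
  have h2 := p.Q_le hx hy hz
  have h3 := abs_add_le (p.v + p.L x y z) (p.Q x y z)
  have h4 := abs_add_le p.v (p.L x y z)
  linarith

/-- coefficientwise closeness -/
structure Cl (p q : Pl) : Prop where
  v : |p.v - q.v| ≤ 1
  g0 : |p.g0 - q.g0| ≤ 1
  g1 : |p.g1 - q.g1| ≤ 1
  g2 : |p.g2 - q.g2| ≤ 1
  h00 : |p.h00 - q.h00| ≤ 1
  h01 : |p.h01 - q.h01| ≤ 1
  h02 : |p.h02 - q.h02| ≤ 1
  h11 : |p.h11 - q.h11| ≤ 1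
  h12 : |p.h12 - q.h12| ≤ 1
  h22 : |p.h22 - q.h22| ≤ 1

theorem Cl.ev {p q : Pl} (h : Cl p q) {x y z : ℝ} (hx : |x| ≤ 1) (hy : |y| ≤ 1) (hz : |z| ≤ 1) :
    |p.ev x y z - q.ev x y z| ≤ 10 := by
  have e : p.ev x y z - q.ev x y z = (p.v - q.v) + (p.g0 - q.g0) * x + (p.g1 - q.g1) * y +
      (p.g2 - q.g2) * z + (p.h00 - q.h00) * (x * x) + (p.h01 - q.h01) * (x * y) +
      (p.h02 - q.h02) * (x * z) + (p.h11 - q.h11) * (y * y) + (p.h12 - q.h12) * (y * z) +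
      (p.h22 - q.h22) * (z * z) := by
    unfold Pl.ev L Q; ring
  rw [e]
  have a0 := abs_le.1 h.v
  have a1 := abs_le.1 (mul_le h.g0 hx)
  have a2 := abs_le.1 (mul_le h.g1 hy)
  have a3 := abs_le.1 (mul_le h.g2 hz)
  have a4 := abs_le.1 (mul_le h.h00 (mul_le hx hx))
  have a5 := abs_le.1 (mul_le h.h01 (mul_le hx hy))
  have a6 := abs_le.1 (mul_le h.h02 (mul_le hx hz))
  have a7 := abs_le.1 (mul_le h.h11 (mul_le hy hy))
  have a8 := abs_le.1 (mul_le h.h12 (mul_le hy hz))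
  have a9 := abs_le.1 (mul_le h.h22 (mul_le hz hz))
  rw [abs_le]; constructor <;>
    linarith [a0.1, a0.2, a1.1, a1.2, a2.1, a2.2, a3.1, a3.2, a4.1, a4.2, a5.1, a5.2, a6.1, a6.2,
      a7.1, a7.2, a8.1, a8.2, a9.1, a9.2]

theorem abs_sub_le_one {a b : ℝ} (h : |a - b| ≤ 1) : |a| ≤ |b| + 1 := by
  have := abs_add_le (a - b) b
  rw [sub_add_cancel] at this
  linarith

theorem Cl.n {p q : Pl} (h : Cl p q) : p.n ≤ q.n + 10 := by
  unfold Pl.n Pl.nG Pl.nH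
  have a0 := abs_sub_le_one h.v
  have a1 := abs_sub_le_one h.g0
  have a2 := abs_sub_le_one h.g1
  have a3 := abs_sub_le_one h.g2
  have a4 := abs_sub_le_one h.h00
  have a5 := abs_sub_le_one h.h01
  have a6 := abs_sub_le_one h.h02
  have a7 := abs_sub_le_one h.h11
  have a8 := abs_sub_le_one h.h12
  have a9 := abs_sub_le_one h.h22
  linarith

/-- all coefficients are bounded by `c` in absolute value -/
structure Bd (p : Pl) (c : ℝ) : Prop where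
  v : |p.v| ≤ c
  g0 : |p.g0| ≤ c
  g1 : |p.g1| ≤ c
  g2 : |p.g2| ≤ c
  h00 : |p.h00| ≤ c
  h01 : |p.h01| ≤ c
  h02 : |p.h02| ≤ c
  h11 : |p.h11| ≤ c
  h12 : |p.h12| ≤ c
  h22 : |p.h22| ≤ c

theorem bd_of_n {p : Pl} {c : ℝ} (h : p.n ≤ c) : Bd p c := by
  unfold Pl.n Pl.nG Pl.nH at h
  have a0 := abs_nonneg p.v
  have a1 := abs_nonneg p.g0
  have a2 := abs_nonneg p.g1
  have a3 := abs_nonneg p.g2
  have a4 := abs_nonneg p.h00
  have a5 := abs_nonneg p.h01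
  have a6 := abs_nonneg p.h02
  have a7 := abs_nonneg p.h11
  have a8 := abs_nonneg p.h12
  have a9 := abs_nonneg p.h22
  constructor <;> linarith

/-- truncated product -/
def mul (p q : Pl) : Pl where
  v := p.v * q.v
  g0 := p.v * q.g0 + p.g0 * q.v
  g1 := p.v * q.g1 + p.g1 * q.v
  g2 := p.v * q.g2 + p.g2 * q.v
  h00 := p.v * q.h00 + p.h00 * q.v + p.g0 * q.g0
  h01 := p.v * q.h01 + p.h01 * q.v + p.g0 * q.g1 + p.g1 * q.g0
  h02 := p.v * q.h02 + p.h02 * q.v + p.g0 * q.g2 + p.g2 * q.g0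
  h11 := p.v * q.h11 + p.h11 * q.v + p.g1 * q.g1
  h12 := p.v * q.h12 + p.h12 * q.v + p.g1 * q.g2 + p.g2 * q.g1
  h22 := p.v * q.h22 + p.h22 * q.v + p.g2 * q.g2

theorem ev_mul (p q : Pl) (x y z : ℝ) : p.ev x y z * q.ev x y z = (p.mul q).ev x y z +
    (p.L x y z * q.Q x y z + p.Q x y z * (q.L x y z + q.Q x y z)) := by
  unfold ev L Q mul; ring

theorem ab2 (a b c d : ℝ) : |a * b + c * d| ≤ |a| * |b| + |c| * |d| := by
  have := abs_add_le (a * b) (c * d)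
  rwa [abs_mul, abs_mul] at this

theorem ab3 (a b c d e f : ℝ) : |a * b + c * d + e * f| ≤ |a| * |b| + |c| * |d| + |e| * |f| := by
  have h1 := abs_add_le (a * b + c * d) (e * f)
  have h2 := ab2 a b c d
  rw [abs_mul] at h1
  linarith

theorem ab4 (a b c d e f g h : ℝ) : |a * b + c * d + e * f + g * h| ≤
    |a| * |b| + |c| * |d| + |e| * |f| + |g| * |h| := by
  have h1 := abs_add_le (a * b + c * d + e * f) (g * h)
  have h2 := ab3 a b c d e f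
  rw [abs_mul] at h1
  linarith

theorem n_mul (p q : Pl) : (p.mul q).n ≤ p.n * q.n := by
  have e : p.n * q.n = (|p.v| * |q.v| +
      ((|p.v| * |q.g0| + |p.g0| * |q.v|) + (|p.v| * |q.g1| + |p.g1| * |q.v|) +
      (|p.v| * |q.g2| + |p.g2| * |q.v|)) +
      ((|p.v| * |q.h00| + |p.h00| * |q.v| + |p.g0| * |q.g0|) +
      (|p.v| * |q.h01| + |p.h01| * |q.v| + |p.g0| * |q.g1| + |p.g1| * |q.g0|) +
      (|p.v| * |q.h02| + |p.h02| * |q.v| + |p.g0| * |q.g2| + |p.g2| * |q.g0|) +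
      (|p.v| * |q.h11| + |p.h11| * |q.v| + |p.g1| * |q.g1|) +
      (|p.v| * |q.h12| + |p.h12| * |q.v| + |p.g1| * |q.g2| + |p.g2| * |q.g1|) +
      (|p.v| * |q.h22| + |p.h22| * |q.v| + |p.g2| * |q.g2|))) +
      (p.nG * q.nH + p.nH * q.nG + p.nH * q.nH) := by
    unfold n nG nH; ring
  have hp : 0 ≤ p.nG * q.nH + p.nH * q.nG + p.nH * q.nH := by
    have h1 := p.nG_nonneg
    have h2 := p.nH_nonneg
    have h3 := q.nG_nonneg
    have h4 := q.nH_nonneg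
    positivity
  generalize p.nG * q.nH + p.nH * q.nG + p.nH * q.nH = R at e hp
  rw [e]
  unfold n nG nH mul
  have a0 := abs_mul p.v q.v
  have a1 := ab2 p.v q.g0 p.g0 q.v
  have a2 := ab2 p.v q.g1 p.g1 q.v
  have a3 := ab2 p.v q.g2 p.g2 q.v
  have a4 := ab3 p.v q.h00 p.h00 q.v p.g0 q.g0
  have a5 := ab4 p.v q.h01 p.h01 q.v p.g0 q.g1 p.g1 q.g0
  have a6 := ab4 p.v q.h02 p.h02 q.v p.g0 q.g2 p.g2 q.g0
  have a7 := ab3 p.v q.h11 p.h11 q.v p.g1 q.g1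
  have a8 := ab4 p.v q.h12 p.h12 q.v p.g1 q.g2 p.g2 q.g1
  have a9 := ab3 p.v q.h22 p.h22 q.v p.g2 q.g2
  simp only
  linarith

/-- scaling -/
def sm (c : ℝ) (p : Pl) : Pl :=
  ⟨c * p.v, c * p.g0, c * p.g1, c * p.g2, c * p.h00, c * p.h01, c * p.h02, c * p.h11, c * p.h12,
    c * p.h22⟩

theorem ev_sm (c : ℝ) (p : Pl) (x y z : ℝ) : (p.sm c).ev x y z = c * p.ev x y z := by
  unfold ev L Q sm; ring

theorem n_sm (c : ℝ) (p : Pl) : (p.sm c).n = |c| * p.n := by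
  unfold n nG nH sm; simp only [abs_mul]; ring

theorem nG_sm (c : ℝ) (p : Pl) : (p.sm c).nG = |c| * p.nG := by
  unfold nG sm; simp only [abs_mul]; ring

theorem nH_sm (c : ℝ) (p : Pl) : (p.sm c).nH = |c| * p.nH := by
  unfold nH sm; simp only [abs_mul]; ring

def add (p q : Pl) : Pl :=
  ⟨p.v + q.v, p.g0 + q.g0, p.g1 + q.g1, p.g2 + q.g2, p.h00 + q.h00, p.h01 + q.h01, p.h02 + q.h02,
    p.h11 + q.h11, p.h12 + q.h12, p.h22 + q.h22⟩

theorem ev_add (p q : Pl) (x y z : ℝ) : (p.add q).ev x y z = p.ev x y z + q.ev x y z := by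
  unfold ev L Q add; ring

theorem n_add (p q : Pl) : (p.add q).n ≤ p.n + q.n := by
  unfold n nG nH add
  have a0 := abs_add_le p.v q.v
  have a1 := abs_add_le p.g0 q.g0
  have a2 := abs_add_le p.g1 q.g1
  have a3 := abs_add_le p.g2 q.g2
  have a4 := abs_add_le p.h00 q.h00
  have a5 := abs_add_le p.h01 q.h01
  have a6 := abs_add_le p.h02 q.h02
  have a7 := abs_add_le p.h11 q.h11
  have a8 := abs_add_le p.h12 q.h12
  have a9 := abs_add_le p.h22 q.h22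
  simp only
  linarith

end Pl

/-- the real polynomial of offset coefficients -/
noncomputable def pl (v g0 g1 g2 h00 h01 h02 h11 h12 h22 : ℕ) : Pl :=
  ⟨vl v, vl g0, vl g1, vl g2, vl h00, vl h01, vl h02, vl h11, vl h12, vl h22⟩

/-- boxes -/
structure Bx where
  c0 : ℕ
  w0 : ℕ
  c1 : ℕ
  w1 : ℕ
  c2 : ℕ
  w2 : ℕ

/-- point of a box with normalised coordinates -/
noncomputable def Bx.pt (b : Bx) (x y z : ℝ) : P :=
  ![(vl b.c0 + b.w0 * x) / SS, (vl b.c1 + b.w1 * y) / SS, (vl b.c2 + b.w2 * z) / SS]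

/-- the box as a set -/
def Bx.K (b : Bx) : Set P := {p | ∃ x y z : ℝ, |x| ≤ 1 ∧ |y| ≤ 1 ∧ |z| ≤ 1 ∧ p = b.pt x y z}

theorem Bx.mem (b : Bx) {x y z : ℝ} (hx : |x| ≤ 1) (hy : |y| ≤ 1) (hz : |z| ≤ 1) :
    b.pt x y z ∈ b.K := ⟨x, y, z, hx, hy, hz, rfl⟩

/-- enclosure -/
def enc (b : Bx) : TM → (P → ℝ) → Prop
  | .z _, f => ∀ x y z : ℝ, |x| ≤ 1 → |y| ≤ 1 → |z| ≤ 1 → f (b.pt x y z) = 0
  | .mk v g0 g1 g2 h00 h01 h02 h11 h12 h22 r n m G H, f =>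
    m ≤ n ∧ (pl v g0 g1 g2 h00 h01 h02 h11 h12 h22).n ≤ m ∧
    (pl v g0 g1 g2 h00 h01 h02 h11 h12 h22).nG ≤ G ∧
    (pl v g0 g1 g2 h00 h01 h02 h11 h12 h22).nH ≤ H ∧
    ∀ x y z : ℝ, |x| ≤ 1 → |y| ≤ 1 → |z| ≤ 1 →
      |f (b.pt x y z) * SS - (pl v g0 g1 g2 h00 h01 h02 h11 h12 h22).ev x y z| ≤ r

/-- guard -/
def ok : TM → Prop
  | .z n => n < BB
  | .mk _ _ _ _ _ _ _ _ _ _ _ n _ _ _ => n < BB

/-- full relation -/
def SE (b : Bx) (x : TM) (f : P → ℝ) : Prop := (∀ p ∈ b.K, Sm f p) ∧ enc b x f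

/-- to prove the enclosure of a smart constructor -/
theorem enc_mkT {b : Bx} {v g0 g1 g2 h00 h01 h02 h11 h12 h22 r n m : ℕ} {f : P → ℝ}
    (h1 : (pl v g0 g1 g2 h00 h01 h02 h11 h12 h22).n ≤ m)
    (h2 : ∀ x y z : ℝ, |x| ≤ 1 → |y| ≤ 1 → |z| ≤ 1 →
      |f (b.pt x y z) * SS - (pl v g0 g1 g2 h00 h01 h02 h11 h12 h22).ev x y z| ≤ r) :
    enc b (mkT v g0 g1 g2 h00 h01 h02 h11 h12 h22 r n m) f := by
  refine ⟨le_lor_right n m, h1, ?_, ?_, h2⟩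
  · rw [s3_spec]; rfl
  · rw [Nat.add_eq]; push_cast; rw [s3_spec, s3_spec]
    unfold Pl.nH pl
    simp only
    linarith

end H41FT
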