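import Pool.Agent.H41.FT.TMb

/-!
# Soundness of the ring operations on Taylor models
-/

namespace H41FT

variable {b : Bx} {f g : P → ℝ}

def Pl.sub (p q : Pl) : Pl :=
  ⟨p.v - q.v, p.g0 - q.g0, p.g1 - q.g1, p.g2 - q.g2, p.h00 - q.h00, p.h01 - q.h01, p.h02 - q.h02,
    p.h11 - q.h11, p.h12 - q.h12, p.h22 - q.h22⟩

theorem Pl.sub_eq (p q : Pl) : p.sub q = p.add (q.sm (-1)) := by
  unfold Pl.sub Pl.add Pl.sm
  simp only [Pl.mk.injEq]
  refine ⟨?_, ?_, ?_, ?_, ?_, ?_, ?_, ?_, ?_, ?_⟩ <;> ring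

theorem Pl.ev_sub (p q : Pl) (x y z : ℝ) : (p.sub q).ev x y z = p.ev x y z - q.ev x y z := by
  rw [Pl.sub_eq, Pl.ev_add, Pl.ev_sm]; ring

theorem Pl.n_sub (p q : Pl) : (p.sub q).n ≤ p.n + q.n := by
  rw [Pl.sub_eq]
  refine (Pl.n_add _ _).trans ?_
  rw [Pl.n_sm]; simp

section pls

variable {v g0 g1 g2 h00 h01 h02 h11 h12 h22 v' g0' g1' g2' h00' h01' h02' h11' h12' h22' : ℕ}

theorem pl_ad (h : (pl v g0 g1 g2 h00 h01 h02 h11 h12 h22).n +
    (pl v' g0' g1' g2' h00' h01' h02' h11' h12' h22').n ≤ BB) :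
    pl (ad v v') (ad g0 g0') (ad g1 g1') (ad g2 g2') (ad h00 h00') (ad h01 h01') (ad h02 h02')
      (ad h11 h11') (ad h12 h12') (ad h22 h22') =
    (pl v g0 g1 g2 h00 h01 h02 h11 h12 h22).add (pl v' g0' g1' g2' h00' h01' h02' h11' h12' h22') := by
  have hp := Pl.bd_of_n (le_refl (pl v g0 g1 g2 h00 h01 h02 h11 h12 h22).n)
  have hq := Pl.bd_of_n (le_refl (pl v' g0' g1' g2' h00' h01' h02' h11' h12' h22').n)
  apply Pl.ext
  · exact ad_spec ((add_le_add hp.v hq.v).trans h)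
  · exact ad_spec ((add_le_add hp.g0 hq.g0).trans h)
  · exact ad_spec ((add_le_add hp.g1 hq.g1).trans h)
  · exact ad_spec ((add_le_add hp.g2 hq.g2).trans h)
  · exact ad_spec ((add_le_add hp.h00 hq.h00).trans h)
  · exact ad_spec ((add_le_add hp.h01 hq.h01).trans h)
  · exact ad_spec ((add_le_add hp.h02 hq.h02).trans h)
  · exact ad_spec ((add_le_add hp.h11 hq.h11).trans h)
  · exact ad_spec ((add_le_add hp.h12 hq.h12).trans h)
  · exact ad_spec ((add_le_add hp.h22 hq.h22).trans h)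

theorem pl_sb (h : (pl v g0 g1 g2 h00 h01 h02 h11 h12 h22).n +
    (pl v' g0' g1' g2' h00' h01' h02' h11' h12' h22').n ≤ BB) :
    pl (sb v v') (sb g0 g0') (sb g1 g1') (sb g2 g2') (sb h00 h00') (sb h01 h01') (sb h02 h02')
      (sb h11 h11') (sb h12 h12') (sb h22 h22') =
    (pl v g0 g1 g2 h00 h01 h02 h11 h12 h22).sub (pl v' g0' g1' g2' h00' h01' h02' h11' h12' h22') := by
  have hp := Pl.bd_of_n (le_refl (pl v g0 g1 g2 h00 h01 h02 h11 h12 h22).n)
  have hq := Pl.bd_of_n (le_refl (pl v' g0' g1' g2' h00' h01' h02' h11' h12' h22').n)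
  apply Pl.ext
  · exact sb_spec ((add_le_add hp.v hq.v).trans h)
  · exact sb_spec ((add_le_add hp.g0 hq.g0).trans h)
  · exact sb_spec ((add_le_add hp.g1 hq.g1).trans h)
  · exact sb_spec ((add_le_add hp.g2 hq.g2).trans h)
  · exact sb_spec ((add_le_add hp.h00 hq.h00).trans h)
  · exact sb_spec ((add_le_add hp.h01 hq.h01).trans h)
  · exact sb_spec ((add_le_add hp.h02 hq.h02).trans h)
  · exact sb_spec ((add_le_add hp.h11 hq.h11).trans h)
  · exact sb_spec ((add_le_add hp.h12 hq.h12).trans h)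
  · exact sb_spec ((add_le_add hp.h22 hq.h22).trans h)

theorem pl_ng (h : (pl v g0 g1 g2 h00 h01 h02 h11 h12 h22).n ≤ BB) :
    pl (ng v) (ng g0) (ng g1) (ng g2) (ng h00) (ng h01) (ng h02) (ng h11) (ng h12) (ng h22) =
    (pl v g0 g1 g2 h00 h01 h02 h11 h12 h22).sm (-1) := by
  have hp := Pl.bd_of_n h
  unfold Pl.sm
  simp only [neg_one_mul]
  apply Pl.ext
  · exact ng_spec hp.v
  · exact ng_spec hp.g0
  · exact ng_spec hp.g1
  · exact ng_spec hp.g2
  · exact ng_spec hp.h00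
  · exact ng_spec hp.h01
  · exact ng_spec hp.h02
  · exact ng_spec hp.h11
  · exact ng_spec hp.h12
  · exact ng_spec hp.h22

theorem pl_sc {k : ℕ} (h : k * (pl v g0 g1 g2 h00 h01 h02 h11 h12 h22).n ≤ BB) :
    pl (sc k v) (sc k g0) (sc k g1) (sc k g2) (sc k h00) (sc k h01) (sc k h02) (sc k h11)
      (sc k h12) (sc k h22) = (pl v g0 g1 g2 h00 h01 h02 h11 h12 h22).sm k := by
  have hp := Pl.bd_of_n (le_refl (pl v g0 g1 g2 h00 h01 h02 h11 h12 h22).n)
  have hk : (0 : ℝ) ≤ k := Nat.cast_nonneg k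
  apply Pl.ext
  · exact sc_spec ((mul_le_mul_of_nonneg_left hp.v hk).trans h)
  · exact sc_spec ((mul_le_mul_of_nonneg_left hp.g0 hk).trans h)
  · exact sc_spec ((mul_le_mul_of_nonneg_left hp.g1 hk).trans h)
  · exact sc_spec ((mul_le_mul_of_nonneg_left hp.g2 hk).trans h)
  · exact sc_spec ((mul_le_mul_of_nonneg_left hp.h00 hk).trans h)
  · exact sc_spec ((mul_le_mul_of_nonneg_left hp.h01 hk).trans h)
  · exact sc_spec ((mul_le_mul_of_nonneg_left hp.h02 hk).trans h)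
  · exact sc_spec ((mul_le_mul_of_nonneg_left hp.h11 hk).trans h)
  · exact sc_spec ((mul_le_mul_of_nonneg_left hp.h12 hk).trans h)
  · exact sc_spec ((mul_le_mul_of_nonneg_left hp.h22 hk).trans h)

end pls

theorem enc_mk' {v g0 g1 g2 h00 h01 h02 h11 h12 h22 r n m G H : ℕ} {p : Pl}
    (e : pl v g0 g1 g2 h00 h01 h02 h11 h12 h22 = p) (h1 : m ≤ n) (h2 : p.n ≤ m) (h3 : p.nG ≤ G)
    (h4 : p.nH ≤ H) (h5 : ∀ x y z : ℝ, |x| ≤ 1 → |y| ≤ 1 → |z| ≤ 1 →
      |f (b.pt x y z) * SS - p.ev x y z| ≤ r) :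
    enc b (.mk v g0 g1 g2 h00 h01 h02 h11 h12 h22 r n m G H) f := by
  subst e; exact ⟨h1, h2, h3, h4, h5⟩

theorem castlt {a : ℕ} (h : a < BB) : (a : ℝ) < BB := by exact_mod_cast h

theorem ok_add {x y : TM} (h : ok (x.add y)) : ok x ∧ ok y := by
  cases x <;> cases y <;> unfold TM.add at h
  · exact lor_lt h
  · exact lor_lt h
  · exact lor_lt h
  · exact lor_lt (lor_lt h).1

theorem ok_sub {x y : TM} (h : ok (x.sub y)) : ok x ∧ ok y := by
  cases x <;> cases y <;> unfold TM.sub at h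
  · exact lor_lt h
  · exact lor_lt h
  · exact lor_lt h
  · exact lor_lt (lor_lt h).1

theorem ok_mul {x y : TM} (h : ok (x.mul y)) : ok x ∧ ok y := by
  cases x <;> cases y <;> unfold TM.mul at h
  · exact lor_lt h
  · exact lor_lt h
  · exact lor_lt h
  · exact lor_lt (lor_lt h).1

theorem enc_add {x y : TM} (h : ok (x.add y)) (hx : enc b x f) (hy : enc b y g) :
    enc b (x.add y) (fO.add f g) := by
  cases x <;> cases y <;> unfold TM.add at h ⊢
  · intro x y z h1 h2 h3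
    show f _ + g _ = 0
    rw [hx x y z h1 h2 h3, hy x y z h1 h2 h3, add_zero]
  · obtain ⟨a1, a2, a3, a4, a5⟩ := hy
    refine ⟨a1.trans (le_lor_right _ _), a2, a3, a4, fun x y z h1 h2 h3 => ?_⟩
    have e : fO.add f g (b.pt x y z) = g (b.pt x y z) := by
      show f _ + g _ = _
      rw [hx x y z h1 h2 h3, zero_add]
    rw [e]; exact a5 x y z h1 h2 h3
  · obtain ⟨a1, a2, a3, a4, a5⟩ := hx
    refine ⟨a1.trans (le_lor_left _ _), a2, a3, a4, fun x y z h1 h2 h3 => ?_⟩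
    have e : fO.add f g (b.pt x y z) = f (b.pt x y z) := by
      show f _ + g _ = _
      rw [hy x y z h1 h2 h3, add_zero]
    rw [e]; exact a5 x y z h1 h2 h3
  · obtain ⟨a1, a2, a3, a4, a5⟩ := hx
    obtain ⟨b1, b2, b3, b4, b5⟩ := hy
    have hm := castlt (lor_lt h).2
    rw [Nat.add_eq] at hm
    push_cast at hm
    have e := pl_ad ((add_le_add a2 b2).trans hm.le)
    refine enc_mkT ?_ fun x y z h1 h2 h3 => ?_
    · rw [e, Nat.add_eq]; push_cast
      exact (Pl.n_add _ _).trans (add_le_add a2 b2)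
    · rw [e, Pl.ev_add, Nat.add_eq]; push_cast
      have c1 := a5 x y z h1 h2 h3
      have c2 := b5 x y z h1 h2 h3
      have e2 : fO.add f g (b.pt x y z) * SS = f (b.pt x y z) * SS + g (b.pt x y z) * SS := by
        show (f _ + g _) * _ = _
        ring
      rw [e2, abs_le]
      rw [abs_le] at c1 c2
      constructor <;> linarith [c1.1, c1.2, c2.1, c2.2]

theorem enc_sub {x y : TM} (h : ok (x.sub y)) (hx : enc b x f) (hy : enc b y g) :
    enc b (x.sub y) (fO.sub f g) := by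
  cases x <;> cases y <;> unfold TM.sub at h ⊢
  · intro x y z h1 h2 h3
    show f _ - g _ = 0
    rw [hx x y z h1 h2 h3, hy x y z h1 h2 h3, sub_zero]
  · obtain ⟨a1, a2, a3, a4, a5⟩ := hy
    have hm : (pl _ _ _ _ _ _ _ _ _ _).n ≤ BB :=
      a2.trans ((Nat.cast_le.2 a1).trans (castlt (lor_lt h).2).le)
    refine enc_mk' (pl_ng hm) (a1.trans (le_lor_right _ _)) (by rw [Pl.n_sm]; simpa using a2)
      (by rw [Pl.nG_sm]; simpa using a3) (by rw [Pl.nH_sm]; simpa using a4)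
      fun x y z h1 h2 h3 => ?_
    rw [Pl.ev_sm]
    have c1 := a5 x y z h1 h2 h3
    have e : fO.sub f g (b.pt x y z) = - g (b.pt x y z) := by
      show f _ - g _ = _
      rw [hx x y z h1 h2 h3, zero_sub]
    rw [e, abs_le]
    rw [abs_le] at c1
    constructor <;> linarith [c1.1, c1.2]
  · obtain ⟨a1, a2, a3, a4, a5⟩ := hx
    refine ⟨a1.trans (le_lor_left _ _), a2, a3, a4, fun x y z h1 h2 h3 => ?_⟩
    have e : fO.sub f g (b.pt x y z) = f (b.pt x y z) := by
      show f _ - g _ = _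
      rw [hy x y z h1 h2 h3, sub_zero]
    rw [e]; exact a5 x y z h1 h2 h3
  · obtain ⟨a1, a2, a3, a4, a5⟩ := hx
    obtain ⟨b1, b2, b3, b4, b5⟩ := hy
    have hm := castlt (lor_lt h).2
    rw [Nat.add_eq] at hm
    push_cast at hm
    have e := pl_sb ((add_le_add a2 b2).trans hm.le)
    refine enc_mkT ?_ fun x y z h1 h2 h3 => ?_
    · rw [e, Nat.add_eq]; push_cast
      exact (Pl.n_sub _ _).trans (add_le_add a2 b2)
    · rw [e, Pl.ev_sub, Nat.add_eq]; push_cast
      have c1 := a5 x y z h1 h2 h3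
      have c2 := b5 x y z h1 h2 h3
      have e2 : fO.sub f g (b.pt x y z) * SS = f (b.pt x y z) * SS - g (b.pt x y z) * SS := by
        show (f _ - g _) * _ = _
        ring
      rw [e2, abs_le]
      rw [abs_le] at c1 c2
      constructor <;> linarith [c1.1, c1.2, c2.1, c2.2]

theorem ok_smul {k : ℕ} {x : TM} (h : ok (x.smul k)) : ok x := by
  cases x <;> unfold TM.smul at h
  · exact h
  · exact (lor_lt h).1

theorem enc_smul {k : ℕ} {x : TM} (h : ok (x.smul k)) (hx : enc b x f) :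
    enc b (x.smul k) (fO.smul k f) := by
  cases x <;> unfold TM.smul at h ⊢
  · intro x y z h1 h2 h3
    show (k : ℝ) * f _ = 0
    rw [hx x y z h1 h2 h3, mul_zero]
  · obtain ⟨a1, a2, a3, a4, a5⟩ := hx
    have hm := castlt (lor_lt h).2
    rw [Nat.mul_eq] at hm
    push_cast at hm
    have hk : (0 : ℝ) ≤ k := Nat.cast_nonneg k
    refine enc_mk' (pl_sc (k := k) ((mul_le_mul_of_nonneg_left a2 hk).trans hm.le))
      (le_lor_right _ _) (by rw [Pl.n_sm, Nat.mul_eq, Nat.cast_mul, abs_of_nonneg hk]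
                             exact mul_le_mul_of_nonneg_left a2 hk)
      (by rw [Pl.nG_sm, Nat.mul_eq, Nat.cast_mul, abs_of_nonneg hk]
          exact mul_le_mul_of_nonneg_left a3 hk)
      (by rw [Pl.nH_sm, Nat.mul_eq, Nat.cast_mul, abs_of_nonneg hk]
          exact mul_le_mul_of_nonneg_left a4 hk) fun x y z h1 h2 h3 => ?_
    rw [Pl.ev_sm, Nat.mul_eq, Nat.cast_mul]
    have c1 := a5 x y z h1 h2 h3
    have e : fO.smul k f (b.pt x y z) = k * f (b.pt x y z) := rfl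
    rw [e, show (k : ℝ) * f (b.pt x y z) * SS - k * (pl _ _ _ _ _ _ _ _ _ _).ev x y z =
      k * (f (b.pt x y z) * SS - (pl _ _ _ _ _ _ _ _ _ _).ev x y z) by ring, abs_mul,
      abs_of_nonneg hk]
    exact mul_le_mul_of_nonneg_left c1 hk

end H41FT
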