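import Pool.Agent.H41.FT.TMc

/-!
# Soundness of multiplication of Taylor models
-/

namespace H41FT

variable {b : Bx} {f g : P → ℝ}

theorem scaled_close {c : ℕ} {E : ℝ} (h : |vl c - E / SS| ≤ 1) : |vl c - 1 / (SS : ℝ) * E| ≤ 1 := by
  rwa [one_div_mul_eq_div]

section pls

variable {v g0 g1 g2 h00 h01 h02 h11 h12 h22 v' g0' g1' g2' h00' h01' h02' h11' h12' h22' : ℕ}

theorem pl_mul (h : ((pl v g0 g1 g2 h00 h01 h02 h11 h12 h22).mul
    (pl v' g0' g1' g2' h00' h01' h02' h11' h12' h22')).n ≤ BB * SS) :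
    Pl.Cl (pl (nr (Nat.add (Nat.mul v v') K1) (Nat.add v v'))
      (cg v v' g0 g0' (Nat.add v v') (Nat.add g0 g0'))
      (cg v v' g1 g1' (Nat.add v v') (Nat.add g1 g1'))
      (cg v v' g2 g2' (Nat.add v v') (Nat.add g2 g2'))
      (chd v v' g0 g0' h00 h00' (Nat.add v v') (Nat.add g0 g0'))
      (cho v v' g0 g0' g1 g1' h01 h01' (Nat.add v v') (Nat.add g0 g0') (Nat.add g1 g1'))
      (cho v v' g0 g0' g2 g2' h02 h02' (Nat.add v v') (Nat.add g0 g0') (Nat.add g2 g2'))
      (chd v v' g1 g1' h11 h11' (Nat.add v v') (Nat.add g1 g1'))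
      (cho v v' g1 g1' g2 g2' h12 h12' (Nat.add v v') (Nat.add g1 g1') (Nat.add g2 g2'))
      (chd v v' g2 g2' h22 h22' (Nat.add v v') (Nat.add g2 g2')))
      (((pl v g0 g1 g2 h00 h01 h02 h11 h12 h22).mul
        (pl v' g0' g1' g2' h00' h01' h02' h11' h12' h22')).sm (1 / (SS : ℝ))) := by
  have hb := Pl.bd_of_n h
  exact ⟨scaled_close (v_spec hb.v), scaled_close (cg_spec hb.g0), scaled_close (cg_spec hb.g1),
    scaled_close (cg_spec hb.g2), scaled_close (chd_spec hb.h00), scaled_close (cho_spec hb.h01),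
    scaled_close (cho_spec hb.h02), scaled_close (chd_spec hb.h11), scaled_close (cho_spec hb.h12),
    scaled_close (chd_spec hb.h22)⟩

end pls

theorem rem_core {A B e1 e2 M M' r r' G H G' H' L1 Q1 L2 Q2 : ℝ} (hA : |A| ≤ M) (hB : |B| ≤ M')
    (h1 : |e1| ≤ r) (h2 : |e2| ≤ r') (k1 : |L1| ≤ G) (k2 : |Q1| ≤ H) (k3 : |L2| ≤ G')
    (k4 : |Q2| ≤ H') :
    |(A + e1) * (B + e2) - A * B + (L1 * Q2 + Q1 * (L2 + Q2))| ≤
      M * r' + (M' + r') * r + (G * H' + H * (G' + H')) := by
  have e : (A + e1) * (B + e2) - A * B + (L1 * Q2 + Q1 * (L2 + Q2)) =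
      A * e2 + (B + e2) * e1 + (L1 * Q2 + Q1 * (L2 + Q2)) := by ring
  rw [e]
  have hM : 0 ≤ M := (abs_nonneg _).trans hA
  have hM' : 0 ≤ M' := (abs_nonneg _).trans hB
  have hr' : 0 ≤ r' := (abs_nonneg _).trans h2
  have hG : 0 ≤ G := (abs_nonneg _).trans k1
  have hH : 0 ≤ H := (abs_nonneg _).trans k2
  have b1 : |A * e2| ≤ M * r' := by rw [abs_mul]; exact mul_le_mul hA h2 (abs_nonneg _) hM
  have b2 : |(B + e2) * e1| ≤ (M' + r') * r := by
    rw [abs_mul]
    exact mul_le_mul ((abs_add_le _ _).trans (add_le_add hB h2)) h1 (abs_nonneg _) (by positivity)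
  have b3 : |L1 * Q2| ≤ G * H' := by rw [abs_mul]; exact mul_le_mul k1 k4 (abs_nonneg _) hG
  have b4 : |Q1 * (L2 + Q2)| ≤ H * (G' + H') := by
    rw [abs_mul]
    exact mul_le_mul k2 ((abs_add_le _ _).trans (add_le_add k3 k4)) (abs_nonneg _) hH
  have c1 := abs_add_le (A * e2 + (B + e2) * e1) (L1 * Q2 + Q1 * (L2 + Q2))
  have c2 := abs_add_le (A * e2) ((B + e2) * e1)
  have c3 := abs_add_le (L1 * Q2) (Q1 * (L2 + Q2))
  linarith

theorem enc_mul {x y : TM} (h : ok (x.mul y)) (hx : enc b x f) (hy : enc b y g) :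
    enc b (x.mul y) (fO.mul f g) := by
  cases x <;> cases y <;> unfold TM.mul at h ⊢
  · intro x y z h1 h2 h3
    show f _ * g _ = 0
    rw [hx x y z h1 h2 h3, zero_mul]
  · intro x y z h1 h2 h3
    show f _ * g _ = 0
    rw [hx x y z h1 h2 h3, zero_mul]
  · intro x y z h1 h2 h3
    show f _ * g _ = 0
    rw [hy x y z h1 h2 h3, mul_zero]
  · rename_i v g0 g1 g2 h00 h01 h02 h11 h12 h22 r n m G H v' g0' g1' g2' h00' h01' h02' h11' h12'
      h22' r' n' m' G' H'
    obtain ⟨a1, a2, a3, a4, a5⟩ := hx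
    obtain ⟨b1, b2, b3, b4, b5⟩ := hy
    have hm := castlt (lor_lt h).2
    have hS := SS_pos
    set p := pl v g0 g1 g2 h00 h01 h02 h11 h12 h22 with hp
    set q := pl v' g0' g1' g2' h00' h01' h02' h11' h12' h22' with hq
    set M := Nat.add (ab v) (Nat.add G H) with hM
    set M' := Nat.add (ab v') (Nat.add G' H') with hM'
    have hMr : p.n ≤ M := by
      rw [hM, Nat.add_eq, Nat.add_eq]; push_cast; rw [ab_spec]
      unfold Pl.n
      have : |p.v| = |vl v| := rfl
      rw [this]; linarith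
    have hMr' : q.n ≤ M' := by
      rw [hM', Nat.add_eq, Nat.add_eq]; push_cast; rw [ab_spec]
      unfold Pl.n
      have : |q.v| = |vl v'| := rfl
      rw [this]; linarith
    have hMM : p.n * q.n ≤ M * M' := mul_le_mul hMr hMr' q.n_nonneg (p.n_nonneg.trans hMr)
    have hd := div_ge (M * M') SS SS_pos'
    rw [Nat.add_eq, Nat.mul_eq] at hm
    change (((M * M' / SS + 12 : ℕ)) : ℝ) < BB at hm
    push_cast at hm hd
    have hMB : (M : ℝ) * M' ≤ BB * SS := by
      have : (M : ℝ) * M' / SS ≤ BB := by linarith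
      rwa [div_le_iff₀ hS] at this
    have hn := (Pl.n_mul p q).trans hMM
    have C := pl_mul (hn.trans hMB)
    rw [← hp, ← hq] at C
    have hn2 : ((p.mul q).sm (1 / (SS : ℝ))).n ≤ (M : ℝ) * M' / SS := by
      rw [Pl.n_sm, abs_of_pos (by positivity), one_div_mul_eq_div]
      exact div_le_div_of_nonneg_right hn hS.le
    refine enc_mkT ?_ fun x y z h1 h2 h3 => ?_
    · refine C.n.trans ?_
      change _ ≤ (((M * M' / SS + 12 : ℕ)) : ℝ)
      push_cast
      linarith
    · have c1 := a5 x y z h1 h2 h3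
      have c2 := b5 x y z h1 h2 h3
      have e2 : fO.mul f g (b.pt x y z) * SS =
          (f (b.pt x y z) * SS) * (g (b.pt x y z) * SS) / SS := by
        show (f _ * g _) * _ = _
        field_simp
      set F := f (b.pt x y z) * SS
      set F' := g (b.pt x y z) * SS
      have e3 : F = p.ev x y z + (F - p.ev x y z) := by ring
      have e4 : F' = q.ev x y z + (F' - q.ev x y z) := by ring
      have key := rem_core ((p.ev_le h1 h2 h3).trans hMr) ((q.ev_le h1 h2 h3).trans hMr') c1 c2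
        ((p.L_le h1 h2 h3).trans a3) ((p.Q_le h1 h2 h3).trans a4) ((q.L_le h1 h2 h3).trans b3)
        ((q.Q_le h1 h2 h3).trans b4)
      rw [← e3, ← e4, Pl.ev_mul] at key
      have e5 : F * F' - ((p.mul q).ev x y z + (p.L x y z * q.Q x y z + p.Q x y z *
          (q.L x y z + q.Q x y z))) + (p.L x y z * q.Q x y z + p.Q x y z *
          (q.L x y z + q.Q x y z)) = F * F' - (p.mul q).ev x y z := by ring
      rw [e5] at key
      have key2 : |F * F' / SS - ((p.mul q).sm (1 / (SS : ℝ))).ev x y z| ≤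
          ((M * r' + (M' + r') * r + (G * H' + H * (G' + H'))) / SS : ℝ) := by
        rw [Pl.ev_sm, one_div_mul_eq_div, ← sub_div, abs_div, abs_of_pos hS]
        exact div_le_div_of_nonneg_right key hS.le
      have key3 := C.ev h1 h2 h3
      rw [e2]
      have hr : ((M * r' + (M' + r') * r + (G * H' + H * (G' + H'))) / SS : ℝ) + 11 ≤
          ((remM M G H r M' G' H' r' : ℕ) : ℝ) := by
        unfold remM
        simp only [Nat.add_eq, Nat.mul_eq]
        have := div_ge (M * r' + (M' + r') * r + (G * H' + H * (G' + H'))) SS SS_pos'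
        change _ ≤ ((((M * r' + (M' + r') * r + (G * H' + H * (G' + H'))) / SS + 12 : ℕ)) : ℝ)
        push_cast at this ⊢
        linarith
      rw [abs_le] at key2 key3 ⊢
      constructor <;> linarith [key2.1, key2.2, key3.1, key3.2]

end H41FT
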