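import Pool.Agent.H41.FT.TMd

/-!
# Soundness of the composition of a Taylor model with a scalar function
-/

namespace H41FT

variable {b : Bx} {f : P → ℝ}

/-- membership in a scalar interval -/
def Iv.mem (x : Iv) (t : ℝ) : Prop := |t * SS - vl x.c| ≤ x.r

/-- the exact polynomial of a composition -/
noncomputable def cpl (A0 A1 b0 b1 b2 : ℝ) (p : Pl) : Pl where
  v := A0
  g0 := A1 * p.g0 / SS
  g1 := A1 * p.g1 / SS
  g2 := A1 * p.g2 / SS
  h00 := (A1 * p.h00 + b0 * p.g0) / SS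
  h01 := (A1 * p.h01 + b0 * p.g1 + b1 * p.g0) / SS
  h02 := (A1 * p.h02 + b0 * p.g2 + b2 * p.g0) / SS
  h11 := (A1 * p.h11 + b1 * p.g1) / SS
  h12 := (A1 * p.h12 + b1 * p.g2 + b2 * p.g1) / SS
  h22 := (A1 * p.h22 + b2 * p.g2) / SS

theorem cpl_ev (A0 A1 b0 b1 b2 : ℝ) (p : Pl) (x y z : ℝ) :
    (cpl A0 A1 b0 b1 b2 p).ev x y z = A0 + (A1 * (p.L x y z + p.Q x y z) +
      (b0 * x + b1 * y + b2 * z) * p.L x y z) / SS := by
  unfold cpl Pl.ev Pl.L Pl.Q; ring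

theorem cpl_n (A0 A1 b0 b1 b2 : ℝ) (p : Pl) : (cpl A0 A1 b0 b1 b2 p).n ≤
    |A0| + (|A1| * (p.nG + p.nH) + (|b0| + |b1| + |b2|) * p.nG) / SS := by
  have hS := SS_pos
  unfold Pl.n Pl.nG Pl.nH cpl
  simp only [abs_div, abs_of_pos hS]
  have a1 := abs_mul A1 p.g0
  have a2 := abs_mul A1 p.g1
  have a3 := abs_mul A1 p.g2
  have a4 := Pl.ab2 A1 p.h00 b0 p.g0
  have a5 := Pl.ab3 A1 p.h01 b0 p.g1 b1 p.g0
  have a6 := Pl.ab3 A1 p.h02 b0 p.g2 b2 p.g0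
  have a7 := Pl.ab2 A1 p.h11 b1 p.g1
  have a8 := Pl.ab3 A1 p.h12 b1 p.g2 b2 p.g1
  have a9 := Pl.ab2 A1 p.h22 b2 p.g2
  rw [show ∀ (a b c d e f g h i j : ℝ), a + (b / SS + c / SS + d / SS) + (e / SS + f / SS + g / SS +
    h / SS + i / SS + j / SS) = a + (b + c + d + e + f + g + h + i + j) / (SS : ℝ) by intros; ring]
  have : (|A1 * p.g0| + |A1 * p.g1| + |A1 * p.g2| + |A1 * p.h00 + b0 * p.g0| +
      |A1 * p.h01 + b0 * p.g1 + b1 * p.g0| + |A1 * p.h02 + b0 * p.g2 + b2 * p.g0| +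
      |A1 * p.h11 + b1 * p.g1| + |A1 * p.h12 + b1 * p.g2 + b2 * p.g1| + |A1 * p.h22 + b2 * p.g2|) ≤
      |A1| * (|p.g0| + |p.g1| + |p.g2| + (|p.h00| + |p.h01| + |p.h02| + |p.h11| + |p.h12| + |p.h22|)) +
        (|b0| + |b1| + |b2|) * (|p.g0| + |p.g1| + |p.g2|) := by
    linarith
  have := div_le_div_of_nonneg_right this hS.le
  linarith

section pls

variable {v g0 g1 g2 h00 h01 h02 h11 h12 h22 a f0 b0 b1 b2 : ℕ}

theorem bds_of_n {p : Pl} (h : p.n ≤ BB) : Pl.Bd (p.sm SS) (BB * SS) := by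
  have hS := SS_pos
  apply Pl.bd_of_n
  rw [Pl.n_sm, abs_of_pos hS, mul_comm]
  exact mul_le_mul_of_nonneg_right h hS.le

theorem smc {X : ℝ} : (SS : ℝ) * (X / SS) = X := by
  have := SS_pos
  field_simp

theorem pl_cmp (h : (cpl (vl f0) (vl a) (vl b0) (vl b1) (vl b2)
    (pl v g0 g1 g2 h00 h01 h02 h11 h12 h22)).n ≤ BB) :
    Pl.Cl (pl f0 (c1 a g0) (c1 a g1) (c1 a g2) (c2d a h00 b0 g0) (c2o a h01 b0 g1 b1 g0)
      (c2o a h02 b0 g2 b2 g0) (c2d a h11 b1 g1) (c2o a h12 b1 g2 b2 g1) (c2d a h22 b2 g2))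
      (cpl (vl f0) (vl a) (vl b0) (vl b1) (vl b2) (pl v g0 g1 g2 h00 h01 h02 h11 h12 h22)) := by
  obtain ⟨q0, q1, q2, q3, q4, q5, q6, q7, q8, q9⟩ := bds_of_n h
  refine ⟨?_, c1_spec ?_, c1_spec ?_, c1_spec ?_, c2d_spec ?_, c2o_spec ?_, c2o_spec ?_,
    c2d_spec ?_, c2o_spec ?_, c2d_spec ?_⟩
  · show |vl f0 - vl f0| ≤ 1
    simp
  · simpa only [Pl.sm, cpl, smc, pl] using q1
  · simpa only [Pl.sm, cpl, smc, pl] using q2
  · simpa only [Pl.sm, cpl, smc, pl] using q3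
  · simpa only [Pl.sm, cpl, smc, pl] using q4
  · simpa only [Pl.sm, cpl, smc, pl] using q5
  · simpa only [Pl.sm, cpl, smc, pl] using q6
  · simpa only [Pl.sm, cpl, smc, pl] using q7
  · simpa only [Pl.sm, cpl, smc, pl] using q8
  · simpa only [Pl.sm, cpl, smc, pl] using q9

end pls

/-- remainder estimate of the composition -/
theorem cmp_core {S F A0 A1 A2 e0 e1 e2 L Q e LB φ0 φ1 φ2 err R0 R1 R2 r N G E : ℝ} (hS : 0 < S)
    (hs : |L + Q + e| ≤ N) (hL : |L| ≤ G) (hd : |Q + e| ≤ N - G)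
    (he : |e| ≤ r) (he0 : |e0| ≤ R0) (he1 : |e1| ≤ R1) (he2 : |e2| ≤ R2)
    (h0 : φ0 * S = A0 + e0) (h1 : φ1 * S = A1 + e1) (h2 : φ2 * S = A2 + e2)
    (hLB : |LB - A2 * L / S| ≤ 3) (herr : |err| ≤ E)
    (hF : F * S = φ0 * S + φ1 * (L + Q + e) + φ2 * (L + Q + e) ^ 2 / S + err) :
    |F * S - (A0 + (A1 * (L + Q) + LB * L) / S)| ≤
      R0 + E + (|A1| * r + R1 * N + (R2 * (N * N) + |A2| * (N * N - G * G)) / S + 3 * G) / S := by
  have hG : 0 ≤ G := (abs_nonneg _).trans hL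
  have hN : 0 ≤ N := (abs_nonneg _).trans hs
  have hNG : 0 ≤ N - G := (abs_nonneg _).trans hd
  have e1' : φ1 = (A1 + e1) / S := by rw [← h1]; field_simp
  have e2' : φ2 = (A2 + e2) / S := by rw [← h2]; field_simp
  have key : F * S - (A0 + (A1 * (L + Q) + LB * L) / S) = e0 + err +
      (A1 * e + e1 * (L + Q + e) + (e2 * (L + Q + e) ^ 2 + A2 * ((Q + e) * (2 * L + (Q + e)))) / S
        - (LB - A2 * L / S) * L) / S := by
    rw [hF, h0, e1', e2']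
    field_simp
    ring
  rw [key]
  have b1 : |A1 * e| ≤ |A1| * r := by
    rw [abs_mul]; exact mul_le_mul_of_nonneg_left he (abs_nonneg _)
  have b2 : |e1 * (L + Q + e)| ≤ R1 * N := by
    rw [abs_mul]; exact mul_le_mul he1 hs (abs_nonneg _) ((abs_nonneg _).trans he1)
  have b3 : |e2 * (L + Q + e) ^ 2| ≤ R2 * (N * N) := by
    rw [abs_mul, sq, abs_mul]
    exact mul_le_mul he2 (mul_le_mul hs hs (abs_nonneg _) hN) (by positivity)
      ((abs_nonneg _).trans he2)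
  have b4 : |A2 * ((Q + e) * (2 * L + (Q + e)))| ≤ |A2| * (N * N - G * G) := by
    rw [abs_mul, abs_mul]
    refine mul_le_mul_of_nonneg_left ?_ (abs_nonneg _)
    have : |2 * L + (Q + e)| ≤ N + G := by
      have h1 := abs_add_le (2 * L) (Q + e)
      rw [abs_mul, abs_of_pos (by norm_num : (0 : ℝ) < 2)] at h1
      linarith
    calc |Q + e| * |2 * L + (Q + e)| ≤ (N - G) * (N + G) :=
          mul_le_mul hd this (abs_nonneg _) hNG
      _ = N * N - G * G := by ring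
  have b5 : |(LB - A2 * L / S) * L| ≤ 3 * G := by
    rw [abs_mul]; exact mul_le_mul hLB hL (abs_nonneg _) (by norm_num)
  have b6 : |(e2 * (L + Q + e) ^ 2 + A2 * ((Q + e) * (2 * L + (Q + e)))) / S| ≤
      (R2 * (N * N) + |A2| * (N * N - G * G)) / S := by
    rw [abs_div, abs_of_pos hS]
    refine div_le_div_of_nonneg_right ?_ hS.le
    exact (abs_add_le _ _).trans (add_le_add b3 b4)
  have b7 : |(A1 * e + e1 * (L + Q + e) + (e2 * (L + Q + e) ^ 2 +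
      A2 * ((Q + e) * (2 * L + (Q + e)))) / S - (LB - A2 * L / S) * L) / S| ≤
      (|A1| * r + R1 * N + (R2 * (N * N) + |A2| * (N * N - G * G)) / S + 3 * G) / S := by
    rw [abs_div, abs_of_pos hS]
    refine div_le_div_of_nonneg_right ?_ hS.le
    rw [abs_le] at b1 b2 b5 b6 ⊢
    constructor <;> linarith [b1.1, b1.2, b2.1, b2.2, b5.1, b5.2, b6.1, b6.2]
  rw [abs_le] at b7 he0 herr ⊢
  constructor <;> linarith [b7.1, b7.2, he0.1, he0.2, herr.1, herr.2]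

end H41FT
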