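import Pool.Agent.H41.FT.TMe

/-!
# Soundness of the composition of a Taylor model with a scalar function, continued
-/

namespace H41FT

variable {b : Bx} {f : P → ℝ}

theorem ok_cmp {x0 x1 x2 : Iv} {E g0 g1 g2 h00 h01 h02 h11 h12 h22 r n G N : ℕ}
    (h : ok (cmp1 x0 x1 x2 E g0 g1 g2 h00 h01 h02 h11 h12 h22 r n G N)) : n < BB :=
  (lor_lt (lor_lt h).1).1

theorem enc_cmp {v g0 g1 g2 h00 h01 h02 h11 h12 h22 r n n' m G H E : ℕ} {φ : ℝ → ℝ} {φ1 φ2 : ℝ}
    {x0 x1 x2 : Iv} (hx : enc b (.mk v g0 g1 g2 h00 h01 h02 h11 h12 h22 r n m G H) f)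
    (k0 : x0.mem (φ (vl v / SS))) (k1 : x1.mem φ1) (k2 : x2.mem φ2)
    (hE : ∀ s : ℝ, |s| * SS ≤ (Nat.add G (Nat.add H r) : ℕ) →
      |φ (vl v / SS + s) - φ (vl v / SS) - φ1 * s - φ2 * s ^ 2| * SS ≤ E)
    (hok : ok (cmp1 x0 x1 x2 E g0 g1 g2 h00 h01 h02 h11 h12 h22 r n' G (Nat.add G (Nat.add H r)))) :
    enc b (cmp1 x0 x1 x2 E g0 g1 g2 h00 h01 h02 h11 h12 h22 r n' G (Nat.add G (Nat.add H r)))
      (fun p => φ (f p)) := by
  obtain ⟨-, -, a3, a4, a5⟩ := hx
  have hS := SS_pos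
  have hS1 := SS_ge
  set p := pl v g0 g1 g2 h00 h01 h02 h11 h12 h22 with hp
  have hN0 : ((Nat.add G (Nat.add H r) : ℕ) : ℝ) = G + H + r := by
    rw [Nat.add_eq, Nat.add_eq]; push_cast; ring
  set N := Nat.add G (Nat.add H r) with hN
  have hok1 := castlt (lor_lt hok).2
  have hok2 := castlt (lor_lt (lor_lt hok).1).2
  -- the bound t2
  set t2 := Nat.add (Nat.div (Nat.mul (ab x2.c) N) SS) 4 with ht2
  have et2 : (t2 : ℝ) = ((ab x2.c * N / SS : ℕ) : ℝ) + 4 := by
    rw [ht2, Nat.add_eq, Nat.mul_eq]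
    change (((ab x2.c * N / SS + 4 : ℕ)) : ℝ) = _
    push_cast; ring
  have hd2 := div_ge (ab x2.c * N) SS SS_pos'
  push_cast at hd2
  rw [ab_spec] at hd2
  have hG0 : (0 : ℝ) ≤ G := Nat.cast_nonneg _
  have hH0 : (0 : ℝ) ≤ H := Nat.cast_nonneg _
  have hr0 : (0 : ℝ) ≤ r := Nat.cast_nonneg _
  have hNr : (0 : ℝ) ≤ N := Nat.cast_nonneg _
  have hA2 := abs_nonneg (vl x2.c)
  have hA1 := abs_nonneg (vl x1.c)
  have hA2N : |vl x2.c| * N ≤ (t2 - 3) * SS := by
    rw [← div_le_iff₀ hS]; linarith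
  have hb : ∀ g : ℕ, |vl g| ≤ N → |vl (c1 x2.c g) - vl x2.c * vl g / SS| ≤ 1 := by
    intro g hg
    apply c1_spec
    rw [abs_mul]
    have h1 : |vl x2.c| * |vl g| ≤ |vl x2.c| * N := mul_le_mul_of_nonneg_left hg hA2
    have h2 : ((t2 : ℝ) - 3) * SS ≤ BB * SS :=
      mul_le_mul_of_nonneg_right (by linarith) hS.le
    linarith
  have hgn := p.nG_nonneg
  have hg0 : |vl g0| ≤ p.nG := by
    show |p.g0| ≤ _
    unfold Pl.nG; linarith [abs_nonneg p.g1, abs_nonneg p.g2]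
  have hg1 : |vl g1| ≤ p.nG := by
    show |p.g1| ≤ _
    unfold Pl.nG; linarith [abs_nonneg p.g0, abs_nonneg p.g2]
  have hg2 : |vl g2| ≤ p.nG := by
    show |p.g2| ≤ _
    unfold Pl.nG; linarith [abs_nonneg p.g0, abs_nonneg p.g1]
  have B0 := hb g0 (hg0.trans (by linarith))
  have B1 := hb g1 (hg1.trans (by linarith))
  have B2 := hb g2 (hg2.trans (by linarith))
  set b0 := c1 x2.c g0
  set b1 := c1 x2.c g1
  set b2 := c1 x2.c g2
  -- sum of |b|
  have hbs : |vl b0| + |vl b1| + |vl b2| ≤ t2 := by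
    have u0 := Pl.abs_sub_le_one B0
    have u1 := Pl.abs_sub_le_one B1
    have u2 := Pl.abs_sub_le_one B2
    rw [abs_div, abs_mul, abs_of_pos hS] at u0 u1 u2
    have e : |vl x2.c| * |vl g0| / SS + |vl x2.c| * |vl g1| / SS + |vl x2.c| * |vl g2| / SS =
        |vl x2.c| * p.nG / SS := by
      unfold Pl.nG
      show _ = |vl x2.c| * (|vl g0| + |vl g1| + |vl g2|) / SS
      ring
    have h1 : |vl x2.c| * p.nG / SS ≤ t2 - 3 := by
      rw [div_le_iff₀ hS]
      exact (mul_le_mul_of_nonneg_left (by linarith) hA2).trans hA2N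
    linarith
  -- magnitudes
  have hd3 := div_ge ((ab x1.c + t2) * N) SS SS_pos'
  push_cast at hd3
  rw [ab_spec] at hd3
  have em : ((Nat.add (ab x0.c) (Nat.add (Nat.div (Nat.mul (Nat.add (ab x1.c) t2) N) SS) 12) : ℕ)
      : ℝ) = |vl x0.c| + ((((ab x1.c + t2) * N / SS : ℕ)) : ℝ) + 12 := by
    change (((ab x0.c + ((ab x1.c + t2) * N / SS + 12) : ℕ)) : ℝ) = _
    push_cast; rw [ab_spec]; ring
  have hcn : (cpl (vl x0.c) (vl x1.c) (vl b0) (vl b1) (vl b2) p).n ≤
      |vl x0.c| + ((|vl x1.c| + t2) * N) / SS := by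
    refine (cpl_n _ _ _ _ _ _).trans ?_
    have h1 : |vl x1.c| * (p.nG + p.nH) ≤ |vl x1.c| * N :=
      mul_le_mul_of_nonneg_left (by linarith) hA1
    have h2 : (|vl b0| + |vl b1| + |vl b2|) * p.nG ≤ t2 * N :=
      mul_le_mul hbs (by linarith) hgn (Nat.cast_nonneg _)
    have h3 : |vl x1.c| * (p.nG + p.nH) + (|vl b0| + |vl b1| + |vl b2|) * p.nG ≤
        (|vl x1.c| + t2) * N := by linarith
    have := div_le_div_of_nonneg_right h3 hS.le
    linarith
  have hok1' : |vl x0.c| + ((((ab x1.c + t2) * N / SS : ℕ)) : ℝ) + 12 < BB := by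
    rw [← em]; exact hok1
  have C := pl_cmp (hcn.trans (by linarith))
  rw [← hp] at C
  refine enc_mkT ?_ fun x y z h1 h2 h3 => ?_
  · refine C.n.trans ?_
    refine le_trans ?_ em.ge
    linarith
  · have c1 := a5 x y z h1 h2 h3
    set e := f (b.pt x y z) * SS - p.ev x y z with he
    have hL := (p.L_le h1 h2 h3).trans a3
    have hQ := (p.Q_le h1 h2 h3).trans a4
    set L := p.L x y z
    set Q := p.Q x y z
    have hd : |Q + e| ≤ (N : ℝ) - G := by
      have := abs_add_le Q e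
      linarith
    have hs : |L + Q + e| ≤ N := by
      have := abs_add_le L (Q + e)
      rw [← add_assoc] at this
      linarith
    have hsF : f (b.pt x y z) = vl v / SS + (L + Q + e) / SS := by
      rw [← add_div, eq_div_iff hS.ne', he]
      unfold Pl.ev
      show _ = vl v + (L + Q + (f (b.pt x y z) * SS - (vl v + L + Q)))
      ring
    have hE' := hE ((L + Q + e) / SS) (by
      rw [abs_div, abs_of_pos hS, div_mul_cancel₀ _ hS.ne']; exact hs)
    rw [← hsF] at hE'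
    set err0 := φ (f (b.pt x y z)) - φ (vl v / SS) - φ1 * ((L + Q + e) / SS) -
      φ2 * ((L + Q + e) / SS) ^ 2 with herr0
    have herr : |err0 * SS| ≤ E := by rw [abs_mul, abs_of_pos hS]; exact hE'
    have hLB : |(vl b0 * x + vl b1 * y + vl b2 * z) - vl x2.c * L / SS| ≤ 3 := by
      have e1 : (vl b0 * x + vl b1 * y + vl b2 * z) - vl x2.c * L / SS =
          (vl b0 - vl x2.c * vl g0 / SS) * x + (vl b1 - vl x2.c * vl g1 / SS) * y +
          (vl b2 - vl x2.c * vl g2 / SS) * z := by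
        show _ - vl x2.c * (vl g0 * x + vl g1 * y + vl g2 * z) / SS = _
        ring
      rw [e1]
      have u0 := abs_le.1 (Pl.mul_le B0 h1)
      have u1 := abs_le.1 (Pl.mul_le B1 h2)
      have u2 := abs_le.1 (Pl.mul_le B2 h3)
      rw [abs_le]; constructor <;> linarith [u0.1, u0.2, u1.1, u1.2, u2.1, u2.2]
    have key := cmp_core (F := φ (f (b.pt x y z))) (φ0 := φ (vl v / SS)) (φ1 := φ1) (φ2 := φ2)
      (A0 := vl x0.c) (A1 := vl x1.c) (A2 := vl x2.c)
      (e0 := φ (vl v / SS) * SS - vl x0.c) (e1 := φ1 * SS - vl x1.c) (e2 := φ2 * SS - vl x2.c)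
      hS hs hL hd c1 k0 k1 k2 (by ring) (by ring) (by ring) hLB herr (by
        rw [herr0]; field_simp; ring)
    rw [← cpl_ev] at key
    have key3 := C.ev h1 h2 h3
    have hrem : (x0.r : ℝ) + E + (|vl x1.c| * r + x1.r * N + (x2.r * (N * N) +
        |vl x2.c| * (N * N - G * G)) / SS + 3 * G) / SS + 10 ≤
        ((Nat.add (Nat.add x0.r E) (Nat.add (Nat.div (Nat.add (Nat.mul (ab x1.c) r) (Nat.add
          (Nat.mul x1.r N) (Nat.add (Nat.div (Nat.add (Nat.mul x2.r (Nat.mul N N))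
          (Nat.mul (ab x2.c) (Nat.sub (Nat.mul N N) (Nat.mul G G)))) SS) (Nat.mul 6 G)))) SS) 12) : ℕ)
          : ℝ) := by
      change _ ≤ ((((x0.r + E) + ((ab x1.c * r + (x1.r * N + ((x2.r * (N * N) +
        ab x2.c * (N * N - G * G)) / SS + 6 * G))) / SS + 12) : ℕ)) : ℝ)
      have hGN : G * G ≤ N * N := by
        have : G ≤ N := by
          have : (G : ℝ) ≤ N := by linarith
          exact_mod_cast this
        exact Nat.mul_le_mul this this
      set X := x2.r * (N * N) + ab x2.c * (N * N - G * G) with hX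
      have eX : (X : ℝ) = x2.r * (N * N) + |vl x2.c| * (N * N - G * G) := by
        rw [hX]; push_cast [Nat.cast_sub hGN]; rw [ab_spec]
      set Y := ab x1.c * r + (x1.r * N + (X / SS + 6 * G)) with hY
      have eY : (Y : ℝ) = |vl x1.c| * r + x1.r * N + ((X / SS : ℕ) : ℝ) + 6 * G := by
        rw [hY]; push_cast; rw [ab_spec]; ring
      have d1 := div_ge X SS SS_pos'
      have d2 := div_ge Y SS SS_pos'
      push_cast
      rw [← eX]
      have : (|vl x1.c| * r + x1.r * N + (X : ℝ) / SS + 3 * G) / SS ≤ (Y + 1 : ℝ) / SS := by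
        apply div_le_div_of_nonneg_right _ hS.le
        rw [eY]; linarith
      have h7 : (Y + 1 : ℝ) / SS = Y / SS + 1 / SS := by ring
      have h8 : 1 / (SS : ℝ) ≤ 1 := by
        rw [div_le_one hS]; linarith
      linarith
    rw [abs_le] at key key3 ⊢
    constructor <;> linarith [key.1, key.2, key3.1, key3.2]

end H41FT
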