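import Mathlib.Analysis.Calculus.MeanValue
import Mathlib.Analysis.SpecialFunctions.Trigonometric.ArctanDeriv
import Mathlib.Analysis.SpecialFunctions.Trigonometric.Deriv
import Mathlib.Analysis.Real.Pi.Bounds
import Mathlib.Tactic

/-!
# Second order Taylor estimates of scalar functions
-/

namespace H41FT

/-- one integration step -/
theorem int_step {g g' : ℝ → ℝ} {K : ℝ} {n : ℕ} (hd : ∀ x, HasDerivAt g (g' x) x)
    (h0 : g 0 = 0) (hb : ∀ x, 0 ≤ x → |g' x| ≤ K * x ^ n) {x : ℝ} (hx : 0 ≤ x) :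
    |g x| ≤ K * x ^ (n + 1) / (n + 1) := by
  have hn : (0 : ℝ) < n + 1 := by positivity
  have hp : ∀ x : ℝ, HasDerivAt (fun x : ℝ => K * x ^ (n + 1) / (n + 1)) (K * x ^ n) x := by
    intro x
    have := ((hasDerivAt_pow (n + 1) x).const_mul K).div_const ((n : ℝ) + 1)
    refine this.congr_deriv ?_
    push_cast
    field_simp
  have hq1 : ∀ x : ℝ, HasDerivAt (fun x : ℝ => K * x ^ (n + 1) / (n + 1) - g x) (K * x ^ n - g' x) x :=
    fun x => (hp x).sub (hd x)
  have hq2 : ∀ x : ℝ, HasDerivAt (fun x : ℝ => K * x ^ (n + 1) / (n + 1) + g x) (K * x ^ n + g' x) x :=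
    fun x => (hp x).add (hd x)
  have h1 : MonotoneOn (fun x => K * x ^ (n + 1) / (n + 1) - g x) (Set.Ici 0) := by
    apply monotoneOn_of_deriv_nonneg (convex_Ici 0)
    · exact (continuous_iff_continuousAt.2 fun x => (hq1 x).continuousAt).continuousOn
    · exact fun x _ => (hq1 x).differentiableAt.differentiableWithinAt
    · intro x hx
      rw [interior_Ici] at hx
      rw [(hq1 x).deriv]
      have := (abs_le.1 (hb x (le_of_lt hx))).2
      linarith
  have h2 : MonotoneOn (fun x => K * x ^ (n + 1) / (n + 1) + g x) (Set.Ici 0) := by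
    apply monotoneOn_of_deriv_nonneg (convex_Ici 0)
    · exact (continuous_iff_continuousAt.2 fun x => (hq2 x).continuousAt).continuousOn
    · exact fun x _ => (hq2 x).differentiableAt.differentiableWithinAt
    · intro x hx
      rw [interior_Ici] at hx
      rw [(hq2 x).deriv]
      have := (abs_le.1 (hb x (le_of_lt hx))).1
      linarith
  have a1 := h1 (Set.mem_Ici.2 le_rfl) (Set.mem_Ici.2 hx) hx
  have a2 := h2 (Set.mem_Ici.2 le_rfl) (Set.mem_Ici.2 hx) hx
  simp only [h0, ne_eq, Nat.succ_ne_zero, not_false_eq_true, zero_pow, mul_zero, zero_div,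
    sub_zero, add_zero] at a1 a2
  rw [abs_le]; constructor <;> linarith

theorem taylor_pos {f f1 f2 f3 : ℝ → ℝ} {M a : ℝ} (h1 : ∀ x, HasDerivAt f (f1 x) x)
    (h2 : ∀ x, HasDerivAt f1 (f2 x) x) (h3 : ∀ x, HasDerivAt f2 (f3 x) x)
    (hM : ∀ x, |f3 x| ≤ M) {h : ℝ} (hh : 0 ≤ h) :
    |f (a + h) - f a - f1 a * h - f2 a / 2 * h ^ 2| ≤ M / 6 * h ^ 3 := by
  have sh : ∀ (g g' : ℝ → ℝ), (∀ x, HasDerivAt g (g' x) x) → ∀ x, HasDerivAt (fun x => g (a + x)) (g' (a + x)) x := by
    intro g g' hg x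
    have : HasDerivAt (fun x => g (a + x)) (g' (a + x) * 1) x :=
      (hg (a + x)).comp x ((hasDerivAt_id x).const_add a)
    exact this.congr_deriv (by ring)
  have s1 : ∀ x, 0 ≤ x → |f2 (a + x) - f2 a| ≤ M * x ^ 1 := by
    intro x hx
    have := int_step (g := fun x => f2 (a + x) - f2 a) (g' := fun x => f3 (a + x)) (K := M) (n := 0)
      (fun x => (sh f2 f3 h3 x).sub_const _) (by simp) (fun x _ => by simpa using hM (a + x)) hx
    simpa using this
  have s2 : ∀ x, 0 ≤ x → |f1 (a + x) - f1 a - f2 a * x| ≤ M / 2 * x ^ 2 := by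
    intro x hx
    have := int_step (g := fun x => f1 (a + x) - f1 a - f2 a * x) (g' := fun x => f2 (a + x) - f2 a)
      (K := M) (n := 1)
      (fun x => by
        have : HasDerivAt (fun x => f1 (a + x) - f1 a - f2 a * x) (f2 (a + x) - f2 a * 1) x :=
          ((sh f1 f2 h2 x).sub_const (f1 a)).sub ((hasDerivAt_id x).const_mul (f2 a))
        exact this.congr_deriv (by ring)) (by simp) s1 hx
    refine this.trans (le_of_eq ?_)
    push_cast; ring
  have s3 := int_step (g := fun x => f (a + x) - f a - f1 a * x - f2 a / 2 * x ^ 2)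
    (g' := fun x => f1 (a + x) - f1 a - f2 a * x) (K := M / 2) (n := 2)
    (fun x => by
      have : HasDerivAt (fun x => f (a + x) - f a - f1 a * x - f2 a / 2 * x ^ 2)
          (f1 (a + x) - f1 a * 1 - f2 a / 2 * ((2 : ℕ) * x ^ (2 - 1))) x :=
        (((sh f f1 h1 x).sub_const (f a)).sub ((hasDerivAt_id x).const_mul (f1 a))).sub
        ((hasDerivAt_pow 2 x).const_mul (f2 a / 2))
      refine this.congr_deriv ?_
      simp; ring) (by simp) s2 hh
  refine s3.trans (le_of_eq ?_)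
  push_cast; ring

theorem taylor2 {f f1 f2 f3 : ℝ → ℝ} {M a : ℝ} (h1 : ∀ x, HasDerivAt f (f1 x) x)
    (h2 : ∀ x, HasDerivAt f1 (f2 x) x) (h3 : ∀ x, HasDerivAt f2 (f3 x) x)
    (hM : ∀ x, |f3 x| ≤ M) (h : ℝ) :
    |f (a + h) - f a - f1 a * h - f2 a / 2 * h ^ 2| ≤ M / 6 * |h| ^ 3 := by
  rcases le_total 0 h with hh | hh
  · rw [abs_of_nonneg hh]; exact taylor_pos h1 h2 h3 hM hh
  · have ng : ∀ (g g' : ℝ → ℝ), (∀ x, HasDerivAt g (g' x) x) →
        ∀ x, HasDerivAt (fun x => g (-x)) (-(g' (-x))) x := by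
      intro g g' hg x
      have : HasDerivAt (fun x => g (-x)) (g' (-x) * (-1)) x := (hg (-x)).comp x (hasDerivAt_neg x)
      exact this.congr_deriv (by ring)
    have := taylor_pos (f := fun x => f (-x)) (f1 := fun x => -(f1 (-x))) (f2 := fun x => f2 (-x))
      (f3 := fun x => -(f3 (-x))) (M := M) (a := -a) (ng f f1 h1)
      (fun x => ((ng f1 f2 h2 x).fun_neg).congr_deriv (by ring)) (ng f2 f3 h3)
      (fun x => by rw [abs_neg]; exact hM _) (h := -h) (by linarith)
    rw [abs_of_nonpos hh]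
    have e : -(-a + -h) = a + h := by ring
    simp only [e, neg_neg] at this
    refine le_trans (le_of_eq ?_) this
    congr 1; ring

/-- sine -/
theorem taylor_sin (t s : ℝ) : |Real.sin (Real.pi / 2 * (t + s)) - Real.sin (Real.pi / 2 * t) -
    Real.pi / 2 * Real.cos (Real.pi / 2 * t) * s -
    -(Real.pi / 2 * (Real.pi / 2 * Real.sin (Real.pi / 2 * t) / 1) / 2) * s ^ 2| ≤ 21 / 32 * |s| ^ 3 := by
  have hl : ∀ x : ℝ, HasDerivAt (fun t : ℝ => Real.pi / 2 * t) (Real.pi / 2) x := by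
    intro x; simpa using (hasDerivAt_id x).const_mul (Real.pi / 2)
  have hs : ∀ x : ℝ, HasDerivAt (fun t => Real.sin (Real.pi / 2 * t))
      (Real.cos (Real.pi / 2 * x) * (Real.pi / 2)) x := fun x => (Real.hasDerivAt_sin _).comp x (hl x)
  have hc : ∀ x : ℝ, HasDerivAt (fun t => Real.cos (Real.pi / 2 * t))
      (-Real.sin (Real.pi / 2 * x) * (Real.pi / 2)) x := fun x => (Real.hasDerivAt_cos _).comp x (hl x)
  have hM : (Real.pi / 2) ^ 3 / 6 ≤ 21 / 32 := by
    have h1 := Real.pi_lt_d6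
    have h0 := Real.pi_pos
    have h2 : (Real.pi / 2) ^ 3 ≤ (1.570797) ^ 3 := pow_le_pow_left₀ (by positivity) (by linarith) 3
    norm_num at h2 ⊢
    linarith
  have := taylor2 (f := fun t => Real.sin (Real.pi / 2 * t))
    (f1 := fun x => Real.cos (Real.pi / 2 * x) * (Real.pi / 2))
    (f2 := fun x => -Real.sin (Real.pi / 2 * x) * (Real.pi / 2) * (Real.pi / 2))
    (f3 := fun x => -(Real.cos (Real.pi / 2 * x) * (Real.pi / 2)) * (Real.pi / 2) * (Real.pi / 2))
    (M := (Real.pi / 2) ^ 3) (a := t) hs (fun x => (hc x).mul_const _)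
    (fun x => ((hs x).neg.mul_const _).mul_const _) (fun x => by
      have h0 := Real.pi_pos
      rw [show -(Real.cos (Real.pi / 2 * x) * (Real.pi / 2)) * (Real.pi / 2) * (Real.pi / 2) =
        -(Real.cos (Real.pi / 2 * x)) * (Real.pi / 2) ^ 3 by ring, abs_mul, abs_neg,
        abs_of_pos (by positivity : 0 < (Real.pi / 2) ^ 3)]
      nlinarith [Real.abs_cos_le_one (Real.pi / 2 * x), (by positivity : 0 < (Real.pi / 2) ^ 3)]) s
  refine le_trans (le_of_eq ?_) (this.trans ?_)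
  · congr 1; ring
  · exact mul_le_mul_of_nonneg_right hM (by positivity)

/-- cosine -/
theorem taylor_cos (t s : ℝ) : |Real.cos (Real.pi / 2 * (t + s)) - Real.cos (Real.pi / 2 * t) -
    -(Real.pi / 2 * Real.sin (Real.pi / 2 * t)) * s -
    -(Real.pi / 2 * (Real.pi / 2 * Real.cos (Real.pi / 2 * t) / 1) / 2) * s ^ 2| ≤ 21 / 32 * |s| ^ 3 := by
  have hl : ∀ x : ℝ, HasDerivAt (fun t : ℝ => Real.pi / 2 * t) (Real.pi / 2) x := by
    intro x; simpa using (hasDerivAt_id x).const_mul (Real.pi / 2)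
  have hs : ∀ x : ℝ, HasDerivAt (fun t => Real.sin (Real.pi / 2 * t))
      (Real.cos (Real.pi / 2 * x) * (Real.pi / 2)) x := fun x => (Real.hasDerivAt_sin _).comp x (hl x)
  have hc : ∀ x : ℝ, HasDerivAt (fun t => Real.cos (Real.pi / 2 * t))
      (-Real.sin (Real.pi / 2 * x) * (Real.pi / 2)) x := fun x => (Real.hasDerivAt_cos _).comp x (hl x)
  have hM : (Real.pi / 2) ^ 3 / 6 ≤ 21 / 32 := by
    have h1 := Real.pi_lt_d6
    have h0 := Real.pi_pos
    have h2 : (Real.pi / 2) ^ 3 ≤ (1.570797) ^ 3 := pow_le_pow_left₀ (by positivity) (by linarith) 3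
    norm_num at h2 ⊢
    linarith
  have := taylor2 (f := fun t => Real.cos (Real.pi / 2 * t))
    (f1 := fun x => -Real.sin (Real.pi / 2 * x) * (Real.pi / 2))
    (f2 := fun x => -(Real.cos (Real.pi / 2 * x) * (Real.pi / 2)) * (Real.pi / 2))
    (f3 := fun x => -(-Real.sin (Real.pi / 2 * x) * (Real.pi / 2) * (Real.pi / 2)) * (Real.pi / 2))
    (M := (Real.pi / 2) ^ 3) (a := t) hc (fun x => (hs x).neg.mul_const _)
    (fun x => ((hc x).mul_const _).neg.mul_const _) (fun x => by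
      have h0 := Real.pi_pos
      rw [show -(-Real.sin (Real.pi / 2 * x) * (Real.pi / 2) * (Real.pi / 2)) * (Real.pi / 2) =
        Real.sin (Real.pi / 2 * x) * (Real.pi / 2) ^ 3 by ring, abs_mul,
        abs_of_pos (by positivity : 0 < (Real.pi / 2) ^ 3)]
      nlinarith [Real.abs_sin_le_one (Real.pi / 2 * x), (by positivity : 0 < (Real.pi / 2) ^ 3)]) s
  refine le_trans (le_of_eq ?_) (this.trans ?_)
  · congr 1; ring
  · exact mul_le_mul_of_nonneg_right hM (by positivity)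

/-- arctangent -/
theorem taylor_at (t s : ℝ) : |2 / Real.pi * Real.arctan (t + s) - 2 / Real.pi * Real.arctan t -
    2 / Real.pi * (1 + t * t)⁻¹ / 1 * s -
    -(2 / Real.pi * (1 + t * t)⁻¹ / 1 * (t * (1 + t * t)⁻¹ / 1) / 1) * s ^ 2| ≤ 7 / 32 * |s| ^ 3 := by
  have hpos : ∀ x : ℝ, 0 < 1 + x * x := fun x => by nlinarith [mul_self_nonneg x]
  have hi : ∀ x : ℝ, HasDerivAt (fun x : ℝ => (1 + x * x)⁻¹) (-(2 * x) / (1 + x * x) ^ 2) x := by
    intro x
    have h1 : HasDerivAt (fun x : ℝ => 1 + x * x) (2 * x) x := by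
      have := ((hasDerivAt_id x).mul (hasDerivAt_id x)).const_add 1
      refine this.congr_deriv ?_
      simp; ring
    exact h1.inv (hpos x).ne'
  have h1 : ∀ x : ℝ, HasDerivAt (fun x => 2 / Real.pi * Real.arctan x)
      (2 / Real.pi * (1 + x * x)⁻¹) x := by
    intro x
    refine ((Real.hasDerivAt_arctan x).const_mul (2 / Real.pi)).congr_deriv ?_
    rw [one_div, sq]
  have h3 : ∀ x : ℝ, HasDerivAt (fun x : ℝ => -(2 * x) * ((1 + x * x)⁻¹ * (1 + x * x)⁻¹))
      ((6 * x ^ 2 - 2) / (1 + x * x) ^ 3) x := by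
    intro x
    have ha : HasDerivAt (fun x : ℝ => -(2 * x)) (-2) x := by
      have := ((hasDerivAt_id x).const_mul (2 : ℝ)).neg
      refine this.congr_deriv (by simp)
    have hii : HasDerivAt (fun x : ℝ => (1 + x * x)⁻¹ * (1 + x * x)⁻¹)
        (-(2 * x) / (1 + x * x) ^ 2 * (1 + x * x)⁻¹ + (1 + x * x)⁻¹ * (-(2 * x) / (1 + x * x) ^ 2)) x :=
      (hi x).mul (hi x)
    have hall : HasDerivAt (fun x : ℝ => -(2 * x) * ((1 + x * x)⁻¹ * (1 + x * x)⁻¹))
        (-2 * ((1 + x * x)⁻¹ * (1 + x * x)⁻¹) + -(2 * x) * (-(2 * x) / (1 + x * x) ^ 2 *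
          (1 + x * x)⁻¹ + (1 + x * x)⁻¹ * (-(2 * x) / (1 + x * x) ^ 2))) x := ha.mul hii
    refine hall.congr_deriv ?_
    have := (hpos x).ne'
    field_simp
    ring
  have hM : (4 / Real.pi) / 6 ≤ 7 / 32 := by
    have h1 := Real.pi_gt_d6
    have h0 := Real.pi_pos
    rw [div_div, div_le_div_iff₀ (by positivity) (by norm_num)]
    linarith
  have := taylor2 (f := fun x => 2 / Real.pi * Real.arctan x)
    (f1 := fun x => 2 / Real.pi * (1 + x * x)⁻¹)
    (f2 := fun x => 2 / Real.pi * (-(2 * x) * ((1 + x * x)⁻¹ * (1 + x * x)⁻¹)))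
    (f3 := fun x => 2 / Real.pi * ((6 * x ^ 2 - 2) / (1 + x * x) ^ 3))
    (M := 4 / Real.pi) (a := t) h1
    (fun x => by
      refine ((hi x).const_mul (2 / Real.pi)).congr_deriv ?_
      have := (hpos x).ne'
      field_simp)
    (fun x => (h3 x).const_mul (2 / Real.pi)) (fun x => by
      have h0 := Real.pi_pos
      have hp := hpos x
      rw [abs_mul, abs_of_pos (by positivity : 0 < 2 / Real.pi), abs_div,
        abs_of_pos (by positivity : 0 < (1 + x * x) ^ 3)]
      have : |6 * x ^ 2 - 2| / (1 + x * x) ^ 3 ≤ 2 := by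
        rw [div_le_iff₀ (by positivity), abs_le]
        constructor <;> nlinarith [mul_self_nonneg x, mul_self_nonneg (x * x),
          mul_self_nonneg (x * x * x)]
      calc 2 / Real.pi * (|6 * x ^ 2 - 2| / (1 + x * x) ^ 3) ≤ 2 / Real.pi * 2 :=
            mul_le_mul_of_nonneg_left this (by positivity)
        _ = 4 / Real.pi := by ring) s
  refine le_trans (le_of_eq ?_) (this.trans ?_)
  · congr 1; ring
  · exact mul_le_mul_of_nonneg_right hM (by positivity)

/-- inverse -/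
theorem taylor_inv {t s : ℝ} (ht : 0 < t) (hs : 0 < t + s) :
    |(t + s)⁻¹ - t⁻¹ - -(t⁻¹ * t⁻¹ / 1) * s - t⁻¹ * t⁻¹ / 1 * t⁻¹ / 1 * s ^ 2| =
      |s| ^ 3 * (t⁻¹) ^ 3 / (t + s) := by
  have e : (t + s)⁻¹ - t⁻¹ - -(t⁻¹ * t⁻¹ / 1) * s - t⁻¹ * t⁻¹ / 1 * t⁻¹ / 1 * s ^ 2 =
      -(s ^ 3 * (t⁻¹) ^ 3 / (t + s)) := by
    field_simp
    ring
  rw [e, abs_neg, abs_div, abs_mul, abs_pow, abs_of_pos hs,
    abs_of_pos (by positivity : 0 < (t⁻¹) ^ 3)]

/-- square root -/
theorem taylor_sqrt {t s μ : ℝ} (hμ : 0 < μ) (hμt : μ ≤ t) (hμs : μ ≤ t + s) :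
    |√(t + s) - √t - √t * t⁻¹ / 2 * s - -(√t * t⁻¹ / 2 * t⁻¹ / 4) * s ^ 2| ≤
      |s| ^ 3 * ((μ + 3 * t) * √t) / (8 * ((t + μ) ^ 3 * t)) := by
  have ht : 0 < t := by linarith
  have hts : 0 < t + s := by linarith
  set x := √t with hx
  set y := √(t + s) with hy
  have hx0 : 0 < x := Real.sqrt_pos.2 ht
  have hy0 : 0 < y := Real.sqrt_pos.2 hts
  have hxx : x * x = t := Real.mul_self_sqrt ht.le
  have hyy : y * y = t + s := Real.mul_self_sqrt hts.le
  have hs : s = y * y - x * x := by linarith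
  have e : y - x - x * t⁻¹ / 2 * s - -(x * t⁻¹ / 2 * t⁻¹ / 4) * s ^ 2 =
      s ^ 3 * ((y + 3 * x) / (8 * x ^ 3 * (x + y) ^ 3)) := by
    rw [← hxx, hs]
    have : x + y ≠ 0 := by positivity
    field_simp
    ring
  rw [e, abs_mul, abs_pow, abs_of_pos (by positivity : 0 < (y + 3 * x) / (8 * x ^ 3 * (x + y) ^ 3)),
    mul_div_assoc]
  refine mul_le_mul_of_nonneg_left ?_ (by positivity)
  -- monotonicity in `y`
  set z := μ / x with hz
  have hz0 : 0 < z := by positivity
  have hzy : z ≤ y := by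
    rw [hz, div_le_iff₀ hx0]
    rcases le_total y x with h | h
    · calc μ ≤ t + s := hμs
        _ = y * y := hyy.symm
        _ ≤ y * x := mul_le_mul_of_nonneg_left h hy0.le
    · calc μ ≤ t := hμt
        _ = x * x := hxx.symm
        _ ≤ y * x := mul_le_mul_of_nonneg_right h hx0.le
  have hzx : z * x = μ := by rw [hz]; field_simp
  have k1 : (y + 3 * x) / (x + y) ^ 3 ≤ (z + 3 * x) / (x + z) ^ 3 := by
    have e1 : ∀ y : ℝ, 0 < y → (y + 3 * x) / (x + y) ^ 3 = 1 / (x + y) ^ 2 + 2 * x / (x + y) ^ 3 := by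
      intro y hy
      have : x + y ≠ 0 := by positivity
      field_simp
      ring
    rw [e1 y hy0, e1 z hz0]
    refine add_le_add ?_ ?_
    · exact one_div_le_one_div_of_le (by positivity) (pow_le_pow_left₀ (by positivity) (by linarith) 2)
    · exact div_le_div_of_nonneg_left (by positivity) (by positivity)
        (pow_le_pow_left₀ (by positivity) (by linarith) 3)
  calc (y + 3 * x) / (8 * x ^ 3 * (x + y) ^ 3) = 1 / (8 * x ^ 3) * ((y + 3 * x) / (x + y) ^ 3) := by
        have : x + y ≠ 0 := by positivity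
        field_simp
    _ ≤ 1 / (8 * x ^ 3) * ((z + 3 * x) / (x + z) ^ 3) :=
        mul_le_mul_of_nonneg_left k1 (by positivity)
    _ = (μ + 3 * t) * x / (8 * ((t + μ) ^ 3 * t)) := by
        rw [← hxx, ← hzx]
        have : x + z ≠ 0 := by positivity
        have : x * x + z * x ≠ 0 := by positivity
        field_simp

end H41FT
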