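import Pool.Agent.H41.FT.TMf
import Pool.Agent.H41.FT.Sc3
import Pool.Agent.H41.FT.Tay

/-!
# Soundness of all the operations on Taylor models
-/

namespace H41FT

variable {b : Bx} {f g : P → ℝ}

theorem mem_div_one {x : Iv} {t : ℝ} (h : x.mem (t / ((1 : ℕ) : ℝ))) : x.mem (t / 1) := by
  rwa [Nat.cast_one] at h

theorem sc_E {N k : ℕ} {R s c : ℝ} (hc : c = (k : ℝ) / 32) (h : R ≤ c * |s| ^ 3)
    (hs : |s| * SS ≤ N) :
    R * SS ≤ ((Nat.add (Nat.div (Nat.mul k (cub N)) (Nat.mul 32 SQ)) 1 : ℕ) : ℝ) := by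
  have hS := SS_pos
  have h32 : 0 < 32 * SQ := by unfold SQ; norm_num
  have d := div_ge (k * cub N) (32 * SQ) h32
  change _ ≤ (((k * cub N / (32 * SQ) + 1 : ℕ)) : ℝ)
  have ecub : ((cub N : ℕ) : ℝ) = (N : ℝ) ^ 3 := by
    unfold cub; rw [Nat.mul_eq, Nat.mul_eq]; push_cast; ring
  push_cast at d ⊢
  rw [ecub, SQ_eq] at d
  have h1 : (|s| * SS) ^ 3 ≤ (N : ℝ) ^ 3 := pow_le_pow_left₀ (by positivity) hs 3
  have hk : (0 : ℝ) ≤ k := Nat.cast_nonneg k
  have h2 : R * SS ≤ k * (N : ℝ) ^ 3 / (32 * (SS * SS)) := by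
    rw [le_div_iff₀ (by positivity)]
    calc R * SS * (32 * (SS * SS)) ≤ c * |s| ^ 3 * SS * (32 * (SS * SS)) := by
          apply mul_le_mul_of_nonneg_right _ (by positivity)
          exact mul_le_mul_of_nonneg_right h hS.le
      _ = k * (|s| * SS) ^ 3 := by rw [hc]; ring
      _ ≤ k * (N : ℝ) ^ 3 := mul_le_mul_of_nonneg_left h1 hk
  exact h2.trans d

theorem ok_sn {x : TM} (h : ok x.sn) : ok x := by
  cases x <;> unfold TM.sn at h
  · exact h
  · exact ok_cmp h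

theorem enc_sn {x : TM} (h : ok x.sn) (hx : enc b x f) : enc b x.sn (fO.sn f) := by
  cases x <;> unfold TM.sn at h ⊢
  · intro x y z h1 h2 h3
    show Real.sin (Real.pi / 2 * f _) = 0
    rw [hx x y z h1 h2 h3]; simp
  · rename_i v g0 g1 g2 h00 h01 h02 h11 h12 h22 r n m G H
    have ks := snI_mem v
    have kc := csI_mem v
    exact enc_cmp (φ := fun t => Real.sin (Real.pi / 2 * t))
      (φ1 := Real.pi / 2 * Real.cos (Real.pi / 2 * (vl v / SS)) / 1)
      (φ2 := -(Real.pi / 2 * (Real.pi / 2 * Real.sin (Real.pi / 2 * (vl v / SS)) / 1) / (2 : ℕ)))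
      hx ks (mem_div_one (mulD_mem one_pos hpI_mem kc))
      (ngI_mem (mulD_mem two_pos hpI_mem (mem_div_one (mulD_mem one_pos hpI_mem ks))))
      (fun s hs => sc_E (c := 21 / 32) (by norm_num) (by
        have := taylor_sin (vl v / SS) s
        rwa [div_one, Nat.cast_ofNat]) hs) h

theorem ok_cs {x : TM} (h : ok x.cs) : ok x := by
  cases x <;> unfold TM.cs at h
  · exact (lor_lt h).1
  · exact ok_cmp h

theorem enc_one (n : ℕ) : enc b (oneT n) (fun _ => 1) := by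
  unfold oneT
  have e : pl (Nat.add BB SS) BB BB BB BB BB BB BB BB BB = ⟨SS, 0, 0, 0, 0, 0, 0, 0, 0, 0⟩ := by
    unfold pl; rw [vl_BB_add, vl_BB]
  refine enc_mk' e (le_lor_right _ _) ?_ ?_ ?_ fun x y z _ _ _ => ?_
  · unfold Pl.n Pl.nG Pl.nH; simp
  · unfold Pl.nG; simp
  · unfold Pl.nH; simp
  · unfold Pl.ev Pl.L Pl.Q; simp

theorem enc_cs {x : TM} (h : ok x.cs) (hx : enc b x f) : enc b x.cs (fO.cs f) := by
  cases x <;> unfold TM.cs at h ⊢
  · rename_i n
    have h1 := enc_one (b := b) n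
    unfold oneT at h1 ⊢
    obtain ⟨a1, a2, a3, a4, a5⟩ := h1
    refine ⟨a1, a2, a3, a4, fun x y z h1 h2 h3 => ?_⟩
    have e : fO.cs f (b.pt x y z) = 1 := by
      show Real.cos (Real.pi / 2 * f _) = 1
      rw [hx x y z h1 h2 h3]; simp
    rw [e]; exact a5 x y z h1 h2 h3
  · rename_i v g0 g1 g2 h00 h01 h02 h11 h12 h22 r n m G H
    have ks := snI_mem v
    have kc := csI_mem v
    exact enc_cmp (φ := fun t => Real.cos (Real.pi / 2 * t))
      (φ1 := -(Real.pi / 2 * Real.sin (Real.pi / 2 * (vl v / SS)) / 1))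
      (φ2 := -(Real.pi / 2 * (Real.pi / 2 * Real.cos (Real.pi / 2 * (vl v / SS)) / 1) / (2 : ℕ)))
      hx kc (ngI_mem (mem_div_one (mulD_mem one_pos hpI_mem ks)))
      (ngI_mem (mulD_mem two_pos hpI_mem (mem_div_one (mulD_mem one_pos hpI_mem kc))))
      (fun s hs => sc_E (c := 21 / 32) (by norm_num) (by
        have := taylor_cos (vl v / SS) s
        rwa [div_one, Nat.cast_ofNat]) hs) h

theorem ok_at {x : TM} (h : ok x.at_) : ok x := by
  cases x <;> unfold TM.at_ at h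
  · exact h
  · exact ok_cmp h

theorem enc_at {x : TM} (h : ok x.at_) (hx : enc b x f) : enc b x.at_ (fO.at_ f) := by
  cases x <;> unfold TM.at_ at h ⊢
  · intro x y z h1 h2 h3
    show 2 / Real.pi * Real.arctan (f _) = 0
    rw [hx x y z h1 h2 h3]; simp
  · rename_i v g0 g1 g2 h00 h01 h02 h11 h12 h22 r n m G H
    have hS := SS_pos
    have ki := iqI_mem v
    have kv : Iv.mem ⟨v, 0⟩ (vl v / SS) := by
      unfold Iv.mem
      simp only
      rw [div_mul_cancel₀ _ hS.ne']; simp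
    have k1 := mem_div_one (mulD_mem one_pos ipI_mem ki)
    have kvi := mem_div_one (mulD_mem one_pos kv ki)
    exact enc_cmp (φ := fun t => 2 / Real.pi * Real.arctan t)
      (φ1 := 2 / Real.pi * (1 + vl v / SS * (vl v / SS))⁻¹ / 1)
      (φ2 := -(2 / Real.pi * (1 + vl v / SS * (vl v / SS))⁻¹ / 1 *
        (vl v / SS * (1 + vl v / SS * (vl v / SS))⁻¹ / 1) / 1))
      hx (atI_mem v) k1 (ngI_mem (mem_div_one (mulD_mem one_pos k1 kvi)))
      (fun s hs => sc_E (c := 7 / 32) (by norm_num) (taylor_at (vl v / SS) s) hs) h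

theorem grd_pos {m : ℕ} (h : grd m < BB) : 0 < m := by
  rcases Nat.eq_zero_or_pos m with h0 | h0
  · subst h0
    exfalso
    unfold grd at h
    rw [Nat.sub_eq, Nat.mul_eq] at h
    simp at h
  · exact h0

/-- the value of `f` is positive when the guard is passed -/
theorem pos_of_sub {v g0 g1 g2 h00 h01 h02 h11 h12 h22 r n m G H : ℕ}
    (hx : enc b (.mk v g0 g1 g2 h00 h01 h02 h11 h12 h22 r n m G H) f)
    (h : 0 < Nat.sub (pp v) (Nat.add G (Nat.add H r))) :
    0 < vl v ∧ ((Nat.sub (pp v) (Nat.add G (Nat.add H r)) : ℕ) : ℝ) = vl v - (G + (H + r)) ∧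
      ∀ p ∈ b.K, 0 < f p := by
  have hS := SS_pos
  rw [Nat.sub_eq, Nat.add_eq, Nat.add_eq] at h
  have h1 : G + (H + r) < pp v := Nat.sub_pos_iff_lt.1 h
  have h2 : 0 < pp v := lt_of_le_of_lt (Nat.zero_le _) h1
  have h3 : 0 < vl v := by
    unfold pp at h2
    rw [Nat.sub_eq] at h2
    have h4 : BB < v := Nat.sub_pos_iff_lt.1 h2
    have : (BB : ℝ) < v := by exact_mod_cast h4
    unfold vl; linarith
  have h5 : (((G + (H + r) : ℕ)) : ℝ) < ((pp v : ℕ) : ℝ) := by exact_mod_cast h1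
  rw [pp_spec h3.le] at h5
  push_cast at h5
  refine ⟨h3, ?_, ?_⟩
  · rw [Nat.sub_eq, Nat.add_eq, Nat.add_eq, Nat.cast_sub h1.le, pp_spec h3.le]; push_cast; ring
  · rintro p ⟨x, y, z, hx1, hy1, hz1, rfl⟩
    obtain ⟨-, -, a3, a4, a5⟩ := hx
    have c1 := (abs_le.1 (a5 x y z hx1 hy1 hz1)).1
    set q := pl v g0 g1 g2 h00 h01 h02 h11 h12 h22
    have c2 := (abs_le.1 (q.L_le hx1 hy1 hz1)).1
    have c3 := (abs_le.1 (q.Q_le hx1 hy1 hz1)).1
    have e : q.ev x y z = vl v + q.L x y z + q.Q x y z := rfl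
    have : 0 < f (b.pt x y z) * SS := by linarith
    exact (mul_pos_iff_of_pos_right hS).1 this

theorem ok_inv {x : TM} (h : ok x.inv) : ok x := by
  cases x <;> unfold TM.inv at h
  · exact (lor_lt h).1
  · exact (lor_lt (ok_cmp h)).1

theorem inv_guard {v g0 g1 g2 h00 h01 h02 h11 h12 h22 r n m G H : ℕ}
    (h : ok (TM.inv (.mk v g0 g1 g2 h00 h01 h02 h11 h12 h22 r n m G H))) :
    0 < Nat.sub (pp v) (Nat.add G (Nat.add H r)) := grd_pos (lor_lt (ok_cmp h)).2

theorem sqrt_guard {v g0 g1 g2 h00 h01 h02 h11 h12 h22 r n m G H : ℕ}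
    (h : ok (TM.sqrt (.mk v g0 g1 g2 h00 h01 h02 h11 h12 h22 r n m G H))) :
    0 < Nat.sub (pp v) (Nat.add G (Nat.add H r)) := grd_pos (lor_lt (ok_cmp h)).2

theorem inv_pos' {x : TM} (h : ok x.inv) (hx : enc b x f) : ∀ p ∈ b.K, 0 < f p := by
  cases x
  · exact absurd (lor_lt h).2 (lt_irrefl _)
  · exact (pos_of_sub hx (inv_guard h)).2.2

theorem sqrt_pos' {x : TM} (h : ok x.sqrt) (hx : enc b x f) : ∀ p ∈ b.K, 0 < f p := by
  cases x
  · exact absurd (lor_lt h).2 (lt_irrefl _)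
  · exact (pos_of_sub hx (sqrt_guard h)).2.2

theorem cub_cast (N : ℕ) : ((cub N : ℕ) : ℝ) = (N : ℝ) ^ 3 := by
  unfold cub; rw [Nat.mul_eq, Nat.mul_eq]; push_cast; ring

theorem SQ_pos : 0 < SQ := by unfold SQ; norm_num

theorem inv_num {N Y M : ℕ} {s τ t' : ℝ} (hM : 0 < M) (hs : |s| * SS ≤ N) (hτ : 0 ≤ τ)
    (hY : τ * SS ≤ Y) (ht' : (M : ℝ) / SS ≤ t') :
    |s| ^ 3 * τ ^ 3 / t' * SS ≤
      ((Nat.add (Nat.div (Nat.mul (cub N) (cub Y)) (Nat.mul (Nat.mul SQ SQ) M)) 1 : ℕ) : ℝ) := by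
  have hS := SS_pos
  have hMr : (0 : ℝ) < M := by exact_mod_cast hM
  have hden : 0 < SQ * SQ * M := Nat.mul_pos (Nat.mul_pos SQ_pos SQ_pos) hM
  have d := div_ge (cub N * cub Y) (SQ * SQ * M) hden
  change _ ≤ (((cub N * cub Y / (SQ * SQ * M) + 1 : ℕ)) : ℝ)
  push_cast at d ⊢
  rw [cub_cast, cub_cast, SQ_eq] at d
  refine le_trans ?_ d
  have h1 : (|s| * SS) ^ 3 ≤ (N : ℝ) ^ 3 := pow_le_pow_left₀ (by positivity) hs 3
  have h2 : (τ * SS) ^ 3 ≤ (Y : ℝ) ^ 3 := pow_le_pow_left₀ (by positivity) hY 3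
  calc |s| ^ 3 * τ ^ 3 / t' * SS ≤ |s| ^ 3 * τ ^ 3 / (M / SS) * SS := by
        apply mul_le_mul_of_nonneg_right _ hS.le
        exact div_le_div_of_nonneg_left (by positivity) (by positivity) ht'
    _ = (|s| * SS) ^ 3 * (τ * SS) ^ 3 / (SS * SS * (SS * SS) * M) := by
        field_simp
    _ ≤ (N : ℝ) ^ 3 * (Y : ℝ) ^ 3 / (SS * SS * (SS * SS) * M) := by
        apply div_le_div_of_nonneg_right _ (by positivity)
        exact mul_le_mul h1 h2 (by positivity) (by positivity)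

theorem sqrt_num {N Y R M V : ℕ} {s q : ℝ} (hM : 0 < M) (hV : 0 < V) (hs : |s| * SS ≤ N)
    (hq : 0 ≤ q) (hY : q * SS ≤ (Y : ℝ) + R) :
    |s| ^ 3 * (((M : ℝ) / SS + 3 * (V / SS)) * q) /
      (8 * ((V / SS + M / SS) ^ 3 * (V / SS))) * SS ≤
      ((Nat.add (Nat.div (Nat.mul (cub N) (Nat.mul (Nat.add M (Nat.mul 3 V)) (Nat.add Y R)))
        (Nat.mul 8 (Nat.mul (cub (Nat.add V M)) V))) 1 : ℕ) : ℝ) := by
  have hS := SS_pos
  have hMr : (0 : ℝ) < M := by exact_mod_cast hM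
  have hVr : (0 : ℝ) < V := by exact_mod_cast hV
  have hcubpos : 0 < cub (V + M) := by
    unfold cub; rw [Nat.mul_eq, Nat.mul_eq]; positivity
  have hden : 0 < 8 * (cub (V + M) * V) := by positivity
  have d := div_ge (cub N * ((M + 3 * V) * (Y + R))) (8 * (cub (V + M) * V)) hden
  change _ ≤ (((cub N * ((M + 3 * V) * (Y + R)) / (8 * (cub (V + M) * V)) + 1 : ℕ)) : ℝ)
  push_cast at d ⊢
  rw [cub_cast, cub_cast] at d
  push_cast at d
  refine le_trans ?_ d
  have h1 : (|s| * SS) ^ 3 ≤ (N : ℝ) ^ 3 := pow_le_pow_left₀ (by positivity) hs 3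
  calc |s| ^ 3 * (((M : ℝ) / SS + 3 * (V / SS)) * q) /
        (8 * ((V / SS + M / SS) ^ 3 * (V / SS))) * SS
      = (|s| * SS) ^ 3 * ((M + 3 * V) * (q * SS)) / (8 * ((V + M) ^ 3 * V)) := by
        rw [← add_div]
        field_simp
    _ ≤ (N : ℝ) ^ 3 * ((M + 3 * V) * (Y + R)) / (8 * ((V + M) ^ 3 * V)) := by
        apply div_le_div_of_nonneg_right _ (by positivity)
        exact mul_le_mul h1 (mul_le_mul_of_nonneg_left hY (by positivity)) (by positivity)
          (by positivity)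

theorem enc_inv {x : TM} (h : ok x.inv) (hx : enc b x f) : enc b x.inv (fO.inv f) := by
  cases x
  · exact absurd (lor_lt h).2 (lt_irrefl _)
  · rename_i v g0 g1 g2 h00 h01 h02 h11 h12 h22 r n m G H
    obtain ⟨hv, hM, hpos⟩ := pos_of_sub hx (inv_guard h)
    have hMpos := inv_guard h
    unfold TM.inv at h ⊢
    have hS := SS_pos
    have ki := inI_mem hv
    have kq := mem_div_one (mulD_mem one_pos ki ki)
    set N := Nat.add G (Nat.add H r) with hN
    have eN : (N : ℝ) = G + (H + r) := by rw [hN, Nat.add_eq, Nat.add_eq]; push_cast; ring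
    set M := Nat.sub (pp v) N with hMd
    have ht : 0 < vl v / SS := by positivity
    refine enc_cmp (φ := fun t => t⁻¹)
      (φ1 := -((vl v / SS)⁻¹ * (vl v / SS)⁻¹ / 1))
      (φ2 := (vl v / SS)⁻¹ * (vl v / SS)⁻¹ / 1 * (vl v / SS)⁻¹ / 1)
      hx ki (ngI_mem kq) (mem_div_one (mulD_mem one_pos kq ki)) (fun s hs => ?_) h
    have hMr : (0 : ℝ) < M := by exact_mod_cast hMpos
    have hts : (M : ℝ) / SS ≤ vl v / SS + s := by
      rw [hM, ← eN, div_add' _ _ _ hS.ne', div_le_div_iff_of_pos_right hS]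
      have := (abs_le.1 (le_refl |s|)).1
      have h1 : -(|s| * SS) ≤ s * SS := by
        have := neg_abs_le s
        nlinarith
      have h2 : |s| * SS ≤ N := hs
      linarith
    have hts0 : 0 < vl v / SS + s := lt_of_lt_of_le (by positivity) hts
    rw [taylor_inv ht hts0]
    -- bound of the inverse
    have hY : (vl v / SS)⁻¹ * SS ≤ ((Nat.succ (pp (inI v).c) : ℕ) : ℝ) := by
      have h1 := (abs_le.1 ki).2
      have e1 : ((pp (inI v).c : ℕ) : ℝ) = vl (inI v).c := pp_spec (by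
        unfold inI; simp only; rw [vl_BB_add]; exact Nat.cast_nonneg _)
      have e2 : (((inI v).r : ℕ) : ℝ) = 1 := by unfold inI; simp
      rw [Nat.succ_eq_add_one]; push_cast
      rw [e1]; linarith
    exact inv_num hMpos hs (by positivity) hY hts

theorem ok_sqrt {x : TM} (h : ok x.sqrt) : ok x := by
  cases x <;> unfold TM.sqrt at h
  · exact (lor_lt h).1
  · exact (lor_lt (ok_cmp h)).1

theorem enc_sqrt {x : TM} (h : ok x.sqrt) (hx : enc b x f) : enc b x.sqrt (fO.sqrt f) := by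
  cases x
  · exact absurd (lor_lt h).2 (lt_irrefl _)
  · rename_i v g0 g1 g2 h00 h01 h02 h11 h12 h22 r n m G H
    obtain ⟨hv, hM, hpos⟩ := pos_of_sub hx (sqrt_guard h)
    have hMpos := sqrt_guard h
    unfold TM.sqrt at h ⊢
    have hS := SS_pos
    have ki := inI_mem hv
    have ks := sqI_mem hv
    have k1 := mulD_mem two_pos ks ki
    have k2 := ngI_mem (mulD_mem (by norm_num : 0 < 4) k1 ki)
    rw [Nat.cast_ofNat] at k1 k2
    set N := Nat.add G (Nat.add H r) with hN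
    have eN : (N : ℝ) = G + (H + r) := by rw [hN, Nat.add_eq, Nat.add_eq]; push_cast; ring
    set M := Nat.sub (pp v) N with hMd
    have ht : 0 < vl v / SS := by positivity
    refine enc_cmp (φ := fun t => √t)
      (φ1 := √(vl v / SS) * (vl v / SS)⁻¹ / 2)
      (φ2 := -(√(vl v / SS) * (vl v / SS)⁻¹ / 2 * (vl v / SS)⁻¹ / 4))
      hx ks k1 (by rw [Nat.cast_ofNat] at k2; exact k2) (fun s hs => ?_) h
    have hMr : (0 : ℝ) < M := by exact_mod_cast hMpos
    have hts : (M : ℝ) / SS ≤ vl v / SS + s := by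
      rw [hM, ← eN, div_add' _ _ _ hS.ne', div_le_div_iff_of_pos_right hS]
      have h1 : -(|s| * SS) ≤ s * SS := by
        have := neg_abs_le s
        nlinarith
      have h2 : |s| * SS ≤ N := hs
      linarith
    have hN0 : (0 : ℝ) ≤ N := Nat.cast_nonneg _
    have htm : (M : ℝ) / SS ≤ vl v / SS := by
      rw [hM, ← eN]; exact div_le_div_of_nonneg_right (by linarith) hS.le
    have key := taylor_sqrt (by positivity : 0 < (M : ℝ) / SS) htm hts
    -- upper bound of the square root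
    have hs2 : √(vl v / SS) * SS ≤ ((pp (sqI v).c : ℕ) : ℝ) + ((sqI v).r : ℕ) := by
      have h1 := (abs_le.1 ks).2
      have e1 : ((pp (sqI v).c : ℕ) : ℝ) = vl (sqI v).c := pp_spec (by
        unfold sqI; simp only; rw [vl_BB_add]; exact Nat.cast_nonneg _)
      rw [e1]; linarith
    have hV : ((pp v : ℕ) : ℝ) = vl v := pp_spec hv.le
    refine (mul_le_mul_of_nonneg_right key hS.le).trans ?_
    rw [← hV] at hv ⊢
    refine sqrt_num hMpos ?_ hs (Real.sqrt_nonneg _) (by rw [hV]; exact hs2)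
    exact_mod_cast hv

end H41FT
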