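import Pool.Agent.H41.FT.TMg

/-!
# Soundness of Taylor models: constants, scaling, variables, positivity test
-/

namespace H41FT

variable {b : Bx} {f g : P → ℝ}

theorem scl_core {a v g0 g1 g2 h00 h01 h02 h11 h12 h22 r n m G H A : ℕ} {κ : ℝ}
    (hA : a = Nat.add BB A) (hκ : |κ * SS - A| ≤ 1) (hA2 : (A : ℝ) ≤ 2 * SS)
    (hx : enc b (.mk v g0 g1 g2 h00 h01 h02 h11 h12 h22 r n m G H) f)
    (hok : ok (scl a v g0 g1 g2 h00 h01 h02 h11 h12 h22 r n m G H)) :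
    enc b (scl a v g0 g1 g2 h00 h01 h02 h11 h12 h22 r n m G H) (fun p => f p * κ) := by
  obtain ⟨-, a2, a3, a4, a5⟩ := hx
  have hS := SS_pos
  have hS1 := SS_ge
  set p := pl v g0 g1 g2 h00 h01 h02 h11 h12 h22 with hp
  have hok1 := castlt (lor_lt hok).2
  rw [Nat.add_eq, Nat.mul_eq] at hok1
  push_cast at hok1
  have eA : vl a = A := by rw [hA, vl_BB_add]
  have hA0 : (0 : ℝ) ≤ A := Nat.cast_nonneg _
  have hm0 : (0 : ℝ) ≤ m := Nat.cast_nonneg _
  have hAn : (A : ℝ) * p.n ≤ 2 * SS * m := mul_le_mul hA2 a2 p.n_nonneg (by positivity)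
  have hbd : Pl.Bd (p.sm A) (BB * SS) := by
    apply Pl.bd_of_n
    rw [Pl.n_sm, abs_of_nonneg hA0]
    nlinarith
  have key : ∀ g : ℕ, |(A : ℝ) * vl g| ≤ BB * SS → |vl (c1 a g) - A / SS * vl g| ≤ 1 := by
    intro g hg
    have := c1_spec (a := a) (g := g) (by rw [eA]; exact hg)
    rw [eA] at this
    rwa [div_mul_eq_mul_div]
  have C : Pl.Cl (pl (c1 a v) (c1 a g0) (c1 a g1) (c1 a g2) (c1 a h00) (c1 a h01) (c1 a h02)
      (c1 a h11) (c1 a h12) (c1 a h22)) (p.sm (A / SS)) :=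
    ⟨key _ hbd.v, key _ hbd.g0, key _ hbd.g1, key _ hbd.g2, key _ hbd.h00, key _ hbd.h01,
      key _ hbd.h02, key _ hbd.h11, key _ hbd.h12, key _ hbd.h22⟩
  refine enc_mkT ?_ fun x y z h1 h2 h3 => ?_
  · refine C.n.trans ?_
    rw [Pl.n_sm, abs_of_nonneg (by positivity)]
    change _ ≤ (((12 + 2 * m : ℕ)) : ℝ)
    push_cast
    have : (A : ℝ) / SS * p.n ≤ 2 * m := by
      rw [div_mul_eq_mul_div, div_le_iff₀ hS]; linarith
    linarith
  · have c1 := a5 x y z h1 h2 h3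
    have hev := p.ev_le h1 h2 h3
    have key3 := C.ev h1 h2 h3
    rw [Pl.ev_sm] at key3
    have hn : p.n ≤ |vl v| + (G + (H + r)) := by
      unfold Pl.n
      show |vl v| + _ + _ ≤ _
      have : (0 : ℝ) ≤ r := Nat.cast_nonneg _
      linarith
    set F := f (b.pt x y z)
    have e1 : F * κ * SS - A / SS * p.ev x y z =
        (A * (F * SS - p.ev x y z) + F * SS * (κ * SS - A)) / SS := by
      field_simp; ring
    have hF : |F * SS| ≤ |vl v| + (G + (H + r)) := by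
      have h4 : |F * SS| ≤ |F * SS - p.ev x y z| + |p.ev x y z| := by
        have := abs_add_le (F * SS - p.ev x y z) (p.ev x y z)
        rwa [sub_add_cancel] at this
      have h5 := p.L_le h1 h2 h3
      have h6 := p.Q_le h1 h2 h3
      have h7 : |p.ev x y z| ≤ |vl v| + p.nG + p.nH := hev
      linarith
    have e2 : |F * κ * SS - A / SS * p.ev x y z| ≤ (A * r + (|vl v| + (G + (H + r)))) / SS := by
      rw [e1, abs_div, abs_of_pos hS]
      apply div_le_div_of_nonneg_right _ hS.le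
      refine (abs_add_le _ _).trans (add_le_add ?_ ?_)
      · rw [abs_mul, abs_of_nonneg hA0]; exact mul_le_mul_of_nonneg_left c1 hA0
      · rw [abs_mul]
        calc |F * SS| * |κ * SS - A| ≤ (|vl v| + (G + (H + r))) * 1 :=
              mul_le_mul hF hκ (abs_nonneg _) ((abs_nonneg _).trans hF)
          _ = _ := mul_one _
    have d := div_ge (A * r + (ab v + (G + (H + r)))) SS SS_pos'
    have hrem : (A * r + (|vl v| + (G + (H + r)))) / (SS : ℝ) + 10 ≤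
        ((Nat.add (Nat.div (Nat.add (Nat.mul (Nat.sub a BB) r) (Nat.add (ab v)
          (Nat.add G (Nat.add H r)))) SS) 12 : ℕ) : ℝ) := by
      have e3 : Nat.sub a BB = A := by rw [hA, Nat.add_eq, Nat.sub_eq]; omega
      rw [e3]
      change _ ≤ ((((A * r + (ab v + (G + (H + r)))) / SS + 12 : ℕ)) : ℝ)
      push_cast at d ⊢
      rw [ab_spec] at d
      linarith
    rw [abs_le] at e2 key3 ⊢
    constructor <;> linarith [e2.1, e2.2, key3.1, key3.2]

theorem ok_hm {x : TM} (h : ok x.hm) : ok x := by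
  cases x <;> unfold TM.hm at h
  · exact h
  · exact (lor_lt h).1

theorem ok_ihm {x : TM} (h : ok x.ihm) : ok x := by
  cases x <;> unfold TM.ihm at h
  · exact h
  · exact (lor_lt h).1

theorem enc_hm {x : TM} (h : ok x.hm) (hx : enc b x f) : enc b x.hm (fO.hm f) := by
  cases x <;> unfold TM.hm at h ⊢
  · intro x y z h1 h2 h3
    show f _ * (Real.pi / 2) = 0
    rw [hx x y z h1 h2 h3, zero_mul]
  · exact scl_core rfl HP_spec (by unfold HP SS; norm_num) hx h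

theorem enc_ihm {x : TM} (h : ok x.ihm) (hx : enc b x f) : enc b x.ihm (fO.ihm f) := by
  cases x <;> unfold TM.ihm at h ⊢
  · intro x y z h1 h2 h3
    show f _ * (2 / Real.pi) = 0
    rw [hx x y z h1 h2 h3, zero_mul]
  · exact scl_core rfl IP_spec (by unfold IP SS; norm_num) hx h

theorem enc_nat (k : ℕ) : enc b (TM.nat k) (fO.nat k) := by
  cases k with
  | zero =>
    intro x y z _ _ _
    show ((0 : ℕ) : ℝ) = 0
    simp
  | succ k =>
    unfold TM.nat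
    simp only
    have e : pl (Nat.add BB (Nat.mul (Nat.succ k) SS)) BB BB BB BB BB BB BB BB BB =
        ⟨((k + 1 : ℕ) : ℝ) * SS, 0, 0, 0, 0, 0, 0, 0, 0, 0⟩ := by
      unfold pl; rw [vl_BB_add, vl_BB, Nat.mul_eq]; push_cast; rfl
    have hk : (0 : ℝ) ≤ ((k + 1 : ℕ) : ℝ) * SS := by positivity
    refine enc_mk' e le_rfl ?_ ?_ ?_ fun x y z _ _ _ => ?_
    · unfold Pl.n Pl.nG Pl.nH
      simp only [abs_zero, add_zero, abs_of_nonneg hk]
      rw [Nat.mul_eq]; push_cast; exact le_rfl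
    · unfold Pl.nG; simp
    · unfold Pl.nH; simp
    · unfold Pl.ev Pl.L Pl.Q
      show |((k + 1 : ℕ) : ℝ) * SS - _| ≤ _
      simp

/-- soundness of the Taylor model arithmetic -/
theorem sound_tO (b : Bx) : Sound b.K tO ok (SE b) where
  smooth h p hp := h.1 p hp
  congr h e := by
    refine ⟨fun p hp => (h.1 p hp).congr (e p hp), ?_⟩
    rename_i x f g
    have e' : ∀ x y z : ℝ, |x| ≤ 1 → |y| ≤ 1 → |z| ≤ 1 → f (b.pt x y z) = g (b.pt x y z) :=
      fun x y z h1 h2 h3 => (e _ (b.mem h1 h2 h3)).self_of_nhds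
    obtain ⟨-, h⟩ := h
    cases x
    · intro x y z h1 h2 h3; rw [← e' x y z h1 h2 h3]; exact h x y z h1 h2 h3
    · obtain ⟨a1, a2, a3, a4, a5⟩ := h
      exact ⟨a1, a2, a3, a4, fun x y z h1 h2 h3 => by
        rw [← e' x y z h1 h2 h3]; exact a5 x y z h1 h2 h3⟩
  nat n := ⟨fun _ _ => Sm_nat n, enc_nat n⟩
  ok_nat := by show 0 < BB; unfold BB; norm_num
  add k hx hy := ⟨fun p hp => Sm_add (hx.1 p hp) (hy.1 p hp), enc_add k hx.2 hy.2⟩
  sub k hx hy := ⟨fun p hp => Sm_sub (hx.1 p hp) (hy.1 p hp), enc_sub k hx.2 hy.2⟩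
  mul k hx hy := ⟨fun p hp => Sm_mul (hx.1 p hp) (hy.1 p hp), enc_mul k hx.2 hy.2⟩
  smul k hx := ⟨fun p hp => Sm_smul _ (hx.1 p hp), enc_smul k hx.2⟩
  hm k hx := ⟨fun p hp => Sm_hm (hx.1 p hp), enc_hm k hx.2⟩
  ihm k hx := ⟨fun p hp => Sm_ihm (hx.1 p hp), enc_ihm k hx.2⟩
  inv k hx := ⟨fun p hp => Sm_inv (hx.1 p hp) (inv_pos' k hx.2 p hp), enc_inv k hx.2⟩
  sqrt k hx := ⟨fun p hp => Sm_sqrt (hx.1 p hp) (sqrt_pos' k hx.2 p hp), enc_sqrt k hx.2⟩
  sn k hx := ⟨fun p hp => Sm_sn (hx.1 p hp), enc_sn k hx.2⟩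
  cs k hx := ⟨fun p hp => Sm_cs (hx.1 p hp), enc_cs k hx.2⟩
  at_ k hx := ⟨fun p hp => Sm_at (hx.1 p hp), enc_at k hx.2⟩
  inv_pos k hx := inv_pos' k hx.2
  sqrt_pos k hx := sqrt_pos' k hx.2
  ok_add := ok_add
  ok_sub := ok_sub
  ok_mul := ok_mul
  ok_smul := ok_smul
  ok_hm := ok_hm
  ok_ihm := ok_ihm
  ok_inv := ok_inv
  ok_sqrt := ok_sqrt
  ok_sn := ok_sn
  ok_cs := ok_cs
  ok_at := ok_at

end H41FT
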