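import Pool.Agent.H41.FT.Funs
import Pool.Agent.H45.FT.Range3

/-!
# The closed form of the certificate on true data
-/

namespace H41FT

open H45FT Real

/-- The closed form of `20 (2 - (a+b+c) - S3 σ a b c)` on the piece `k`. -/
noncomputable def Tt (k : ℕ) (σ a b c : ℝ) : ℝ :=
  FG rO k a b c (cos (π / 2 * a)) (cos (π / 2 * b)) (cos (π / 2 * c))
    (sin (π / 2 * a)) (sin (π / 2 * b)) (sin (π / 2 * c)) (gram3 σ a b c)
    (ang (dih σ b c a)) |dih σ b c a| (ang (dih σ c a b)) |dih σ c a b|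
    (ang (dih σ a b c)) |dih σ a b c|

end H41FT
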